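import Pool.Agent.P.MP_9321be_ag.SG.Iface
import Pool.Agent.P.MP_9321be_ag.SM.Fin

/-!
The link with the computation of the zeta function.
-/

set_option autoImplicit false

namespace Pool.Agent.P.MP_9321be_ag.SG

open MvPolynomial ND NC SM

theorem fin (hO : S_ONE) (hF : S_FAN) (hL : S_LINK) (hM : S_MAINB) (n : ℕ)
    (f : MvPolynomial (Fin n) ℂ) (h0 : coeff 0 f = 0) (hn : Nondeg f) :
    StrongMonodromyConjecture f := by
  have hf : f ≠ 0 := by
    rintro rfl
    simpa [facePoly] using hn (fun _ => 1) (fun _ => one_pos) (fun _ => 1) fun _ => one_ne_zero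
  have hA : NC.ConvA f.support := ⟨support_nonempty.2 hf, by simpa using h0⟩
  have key : ∀ α : ℚ, α ≠ 1 → NC.HB f.support α → Rt lefInv (· ≠ α) (zeta f) := fun α h1 h2 => by
    obtain ⟨Γ, g1, g2⟩ := t_Gen t_Dense (Fin n) f.support α h1
    rw [t_Link (Fin n) f]
    exact cover (Fin n) f α Γ ⟨hA, hn, g1, g2⟩ h2
  have hu : IsUnit lefInv := IsUnit.of_mul_eq_one_right _ (IsLocalization.Away.mul_invSelf lef)
  have h1 : IsBSRoot f (-((1 : ℚ) : ℂ)) := by simpa using hO n f hf h0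
  have main := t_Alg MM lefInv hu (fun α => IsBSRoot f (-(α : ℂ))) h1 (zeta f)
    (fun α hα => ?_) ?_
  · obtain ⟨S, h1, h2⟩ := main
    refine ⟨S, fun q hq => ⟨(h1 q hq).1, (h1 q hq).2.1⟩, h2, fun q hq => ?_⟩
    simpa using (h1 q hq).2.2
  · refine key α (fun e => hα (e ▸ h1)) (t_HB (Fin n) _ α fun u ω h s J h1 h2 h3 => ?_)
    by_contra hcon
    obtain ⟨Φ⟩ := hF n f h h0 h1.h0 h1.gen
    obtain ⟨D, hD⟩ := hL n f h Φ u ω s J α h1 h3 (fun a ha => hcon ⟨a, ha⟩) h2
    have := hM n f h D hn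
    rw [hD] at this
    exact hα (by simpa using this)
  · refine (key (-1) (by norm_num) fun u hu => ?_).mono fun _ _ => trivial
    have := Finset.sum_nonneg fun i (_ : i ∈ Finset.univ) => hu.1 i
    rw [hu.2.2.1] at this
    norm_num at this

end Pool.Agent.P.MP_9321be_ag.SG
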