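import Pool.Agent.P.MP_9321be_ag.SG.Iface

/-! Step ACT. -/

set_option autoImplicit false
set_option linter.unusedSectionVars false

namespace Pool.Agent.P.MP_9321be_ag.SG

open Finset SM

theorem act_rv {n : ℕ} (h x : Fin n → ℝ) (q : L n) (g : Gn n) :
    rv (q + pt h g) - x = rv q - x + wr g := by rw [rv_add, rv_pt, add_sub_right_comm]

theorem act_one {n : ℕ} {f : MvPolynomial (Fin n) ℂ} {h : Fin n → ℝ} (D : Dat f h) {q : L n}
    (hq : q ∈ D.R3) {g : Gn n} (hg : g ∈ gens f) (hG : q + pt h g ∈ D.Good) :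
    g ∈ D.X1 ∧ D.Ψ D.F0 q = 0 ∧ D.ξ ⬝ᵥ (rv q - D.q0) = 0 ∧
      ∑ j ∈ D.F0, D.d D.F0 j ⬝ᵥ (rv q - D.q0) = ∑ b ∈ D.X1, D.μ b - 1 ∧
      ∑ i, D.y i * q.2.1 i ≤ ∑ b ∈ D.X1, D.μ b - 1 := by
  obtain ⟨h1, h2, -, h4⟩ := hG
  obtain ⟨a1, a2⟩ := Dat.Ψ_add_zero hq.1.1 (D.pt_Gam hg) (Dat.F2_F1 D.F0_F2) h1
  have c := Dat.R3_C hq D.F0_F2 a1
  obtain ⟨S, s1, s2, s3⟩ := D.cover D.hF0 c
  have t : ∀ j ∈ S, D.Ψ D.F0 (pt h j) = 0 := fun j hj => D.Ψ_congr s2 ▸ D.Ψ_tight s1 hj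
  have b : ∀ j ∈ S, 0 ≤ D.d S j ⬝ᵥ (rv q - D.q0) * D.ξ ⬝ᵥ wr j := fun j hj =>
    mul_nonneg (s3 j hj) (D.ξ0 j (D.sub S s1 hj) (t j hj))
  have b1 := (D.db S s1).dot D.ξ (rv q - D.q0)
  have b2 := D.ξ0 g hg a2
  have b3 := sum_nonneg b
  rw [act_rv, dotProduct_add] at h2
  simp only [act_rv, dotProduct_add, sum_add_distrib] at h4
  rw [D.one _ D.hF0 g hg a2] at h4
  have b4 := (sum_eq_zero_iff_of_nonneg b).1 (by linarith)
  refine ⟨(D.memX g).2 ⟨hg, a2, by linarith⟩, a1, by linarith, by linarith, ?_⟩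
  calc _ = D.y ⬝ᵥ (rv q - D.q0) := sum_congr rfl fun i _ => by
        by_cases hi : i ∈ D.I
        · rw [Pi.sub_apply, Dat.q0_eq_zero.2 hi, sub_zero, rv]
        · rw [(D.y0 i).antisymm' (not_lt.1 (mt Dat.mem_I.2 hi)), zero_mul, zero_mul]
    _ ≤ ∑ j ∈ S, D.d S j ⬝ᵥ (rv q - D.q0) := by
        rw [(D.db S s1).dot D.y]
        refine sum_le_sum fun j hj => ?_
        rcases mul_eq_zero.1 (b4 j hj) with e | e
        · rw [e, zero_mul]
        · exact mul_le_of_le_one_right (s3 j hj)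
            (D.y1 j ((D.memX j).2 ⟨D.sub S s1 hj, t j hj, e⟩))
    _ = _ := by rw [D.o_eq D.hF0 s1 c (D.C_congr s2 ▸ c)]; linarith

theorem p_ACT :
    S_ACT := by
  intro n f h D i q ⟨hq, hJ⟩ g hg hi hG
  obtain ⟨-, a1, a2, a3, a4⟩ := act_one D hq hg hG
  have y0 : ∀ j ∉ D.I, D.y j = 0 := fun j hj => (D.y0 j).antisymm' (not_lt.1 (mt Dat.mem_I.2 hj))
  have c1 : ∀ j ∈ D.I, q.2.1 j + wv g j = 1 := hG.2.2.1
  have c2 : ∀ j ∈ D.I, j ≠ i → q.2.1 j = 1 := fun j a b => by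
    have := hJ j a (by simpa using b)
    have := c1 j a
    omega
  have hI : i ∈ D.I := by
    by_contra hI
    have : ∑ j, D.y j * q.2.1 j = ∑ j, D.y j := sum_congr rfl fun j _ => by
      by_cases hj : j ∈ D.I
      · simp [c2 j hj fun e => hI (e ▸ hj)]
      · simp [y0 j hj]
    linarith [D.gap1]
  have c3 : q.2.1 i = 0 := by
    have := hq.1.1.2 i hI
    have := c1 i hI
    omega
  have c4 : ∑ j, D.y j * q.2.1 j = ∑ j, D.y j - D.y i := by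
    rw [eq_sub_iff_add_eq, ← add_sum_erase _ _ (mem_univ i), ← add_sum_erase _ D.y (mem_univ i),
      c3, Int.cast_zero, mul_zero, zero_add, add_comm]
    refine congrArg _ (sum_congr rfl fun j hj' => ?_)
    by_cases hj : j ∈ D.I
    · simp [c2 j hj (ne_of_mem_erase hj')]
    · simp [y0 j hj]
  have hS : ∀ b ∈ D.X1, wv b i ≠ 0 → wv b i = 1 ∧ ∀ j ∈ D.I, j ≠ i → wv b j = 0 := by
    intro b hb h0
    have n0 : ∀ j, 0 ≤ D.y j * wr b j := fun j => mul_nonneg (D.y0 j) (wr_nonneg b j)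
    have d1 : ∑ j, D.y j * wr b j ≤ 1 := D.y1 b hb
    refine ⟨by_contra fun e => ?_, fun j hj hj' => by_contra fun e => ?_⟩
    · have d2 : (2 : ℝ) ≤ wr b i := by
        unfold wr
        exact_mod_cast (by omega : 2 ≤ wv b i)
      linarith [D.gap2 i (Dat.mem_I.1 hI), single_le_sum (fun j _ => n0 j) (mem_univ i),
        mul_le_mul_of_nonneg_left d2 (D.y0 i)]
    · have d2 : ∀ k, wv b k ≠ 0 → D.y k ≤ D.y k * wr b k := fun k hk =>
        le_mul_of_one_le_right (D.y0 k) (by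
          unfold wr
          exact_mod_cast Nat.one_le_iff_ne_zero.2 hk)
      have d3 := sum_le_sum_of_subset_of_nonneg (subset_univ {j, i}) fun k _ _ => n0 k
      rw [sum_pair hj'] at d3
      linarith [D.gap2 j (Dat.mem_I.1 hj), d2 i h0, d2 j e]
  refine ⟨mem_filter.2 ⟨hI, hS⟩, fun b hb h0 => ⟨fun e => (act_one D hq hb e).1, fun e => ?_⟩⟩
  obtain ⟨e1, e2⟩ := hS b e h0
  refine ⟨by rw [map_add, a1, Dat.X1_tight e, add_zero], ?_, fun j hj => ?_, ?_⟩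
  · rw [act_rv, dotProduct_add, a2, ((D.memX b).1 e).2.2, add_zero]
  · change q.2.1 j + wv b j = 1
    by_cases e3 : j = i
    · rw [e3, c3, e1]; rfl
    · rw [c2 j hj e3, e2 j hj e3]; rfl
  · simp only [act_rv, dotProduct_add, sum_add_distrib]
    rw [D.one _ D.hF0 b hb (Dat.X1_tight e), a3, sub_add_cancel]

end Pool.Agent.P.MP_9321be_ag.SG
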