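import Pool.Agent.P.MP_9321be_ag.SG.Iface

/-! Step CHAIN. -/

set_option autoImplicit false
set_option linter.unusedSectionVars false

namespace Pool.Agent.P.MP_9321be_ag.SG

open Finset SM

theorem p_CHAIN (hRX : S_RX) :
    S_CHAIN := by
  classical
  intro n ι Λ _ T σ W B V b η hη hB
  have hst : ∀ Y : Set (L n), (∀ p ∈ Y, ∀ j ∈ V, p + b j ∈ Y) → ∀ r, ∀ x ∈ sp Y, η r * x ∈ sp Y :=
    fun Y h r x hx => mul_comm x _ ▸ SM.mul_mem (by
      rintro p hp _ ⟨j, hj, rfl⟩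
      exact h p hp j hj) hx (hη r)
  have hcl : ∀ S : Finset ι, (∀ t ∈ S, ∀ p ∈ W t, ∀ j ∈ V, p + b j ∈ W t ∨ p + b j ∈ B ∨
      ∃ t' ∈ S, σ t' < σ t ∧ p + b j ∈ W t') →
      ∀ p ∈ {p | ∃ t ∈ S, p ∈ W t} ∪ B, ∀ j ∈ V, p + b j ∈ {p | ∃ t ∈ S, p ∈ W t} ∪ B := by
    rintro S h p (⟨t, ht, hp⟩ | hp) j hj
    · obtain a | a | ⟨t', a, -, c⟩ := h t ht p hp j hj
      exacts [.inl ⟨t, ht, a⟩, .inr a, .inl ⟨t', a, c⟩]
    · exact .inr (hB p hp j hj)
  induction T using Finset.induction_on_max_value σ with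
  | empty =>
    refine fun _ _ _ _ r x hx _ => Submodule.mem_sup_left (sp_mono ?_ hx)
    rintro p (⟨t, ht, -⟩ | hp)
    exacts [absurd ht (notMem_empty _), hp]
  | insert t S ht hmax ih =>
    intro h1 h2 h3 h4
    have h3' : ∀ s ∈ S, ∀ p ∈ W s, ∀ j ∈ V, p + b j ∈ W s ∨ p + b j ∈ B ∨
        ∃ t' ∈ S, σ t' < σ s ∧ p + b j ∈ W t' := fun s hs p hp j hj =>
      (h3 s (mem_insert_of_mem hs) p hp j hj).imp_right (Or.imp_right fun ⟨t', a, c, d⟩ =>
        ⟨t', (mem_insert.1 a).resolve_left fun e => (e ▸ c).not_ge (hmax s hs), c, d⟩)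
    have ih' := ih (fun s hs => h1 s (mem_insert_of_mem hs))
      (fun s hs s' hs' => h2 s (mem_insert_of_mem hs) s' (mem_insert_of_mem hs')) h3'
      fun s hs => h4 s (mem_insert_of_mem hs)
    have hX : {p | ∃ s ∈ insert t S, p ∈ W s} ∪ B = W t ∪ ({p | ∃ s ∈ S, p ∈ W s} ∪ B) :=
      Set.ext fun p => by
        simp only [Set.mem_ofPred_eq, Set.mem_union, mem_insert, exists_eq_or_imp, or_assoc]
    by_cases he : ∃ s ∈ S, W t = W s
    · obtain ⟨s, hs, e⟩ := he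
      rwa [hX, Set.union_eq_self_of_subset_left fun p hp => .inl ⟨s, hs, e ▸ hp⟩]
    have hc := hcl _ h3
    refine hRX n _ _ (sp ({p | ∃ s ∈ S, p ∈ W s} ∪ B)) _ (sp_mono Set.subset_union_right)
      (sp_mono (hX ▸ Set.subset_union_right)) (hst _ hc) (hst _ (hcl _ h3')) (hst _ hB) ?_ ih'
    rw [hX] at hc ⊢
    refine h4 t (mem_insert_self _ _) _ (Set.disjoint_left.2 ?_) (hcl _ h3')
      fun p hp j hj => hc p (.inl hp) j hj
    rintro p hp (⟨s, hs, h⟩ | h)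
    · exact Set.disjoint_left.1 ((h2 t (mem_insert_self _ _) s (mem_insert_of_mem hs)).resolve_left
        fun e => he ⟨s, hs, e⟩) hp h
    · exact Set.disjoint_left.1 (h1 t (mem_insert_self _ _)) hp h

end Pool.Agent.P.MP_9321be_ag.SG
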