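import Pool.Agent.P.MP_9321be_ag.SM.Iface
import Pool.Agent.P.MP_9321be_ag.ND.CBFarkas

/-!
Common torus zeros and linear programming data: the statements used by the general case.
-/

set_option autoImplicit false

namespace Pool.Agent.P.MP_9321be_ag.SG

open Finset SM

-- deps: RADO VAL OM NZ JAC LIFT
def S_TZ : Prop :=
  ∀ (n : ℕ) (f : MvPolynomial (Fin n) ℂ), ND.Nondeg f →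
    ∀ (S : Finset (Fin n)) (Z : Fin n → Finset (Fin n →₀ ℕ)),
    (∀ i ∈ S, ∀ a ∈ Z i, a ∈ f.support ∧ a i = 1 ∧ ∀ i' ∈ S, i' ≠ i → a i' = 0) →
    (∃ (w : Fin n → ℝ) (b : ℝ), (∀ i, 0 < w i) ∧ ∀ a ∈ f.support,
      b ≤ ∑ i, (a i : ℝ) * w i ∧ (∑ i, (a i : ℝ) * w i = b ↔ ∃ i ∈ S, a ∈ Z i)) →
    (∀ T ⊆ S, T.card ≤ Module.finrank ℝ (Submodule.span ℝ
      {v : Fin n → ℝ | ∃ i ∈ T, ∃ a ∈ Z i, ∃ b ∈ Z i, v = fun j => (a j : ℝ) - b j})) →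
    ∃ x : Fin n → ℂ, (∀ i, x i ≠ 0) ∧
      ∀ i ∈ S, ∑ a ∈ Z i, MvPolynomial.coeff a f * ∏ j, x j ^ a j = 0

-- deps: LPE
def S_LPD : Prop :=
  ∀ (n : ℕ) (X : Finset (Gn n)), (∀ i, ∃ b ∈ X, wv b i ≠ 0) →
    ∃ (μ : Gn n → ℝ) (y : Fin n → ℝ), (∀ b ∈ X, 0 < μ b ∧ ∑ i, y i * wv b i ≤ 1) ∧
      (∀ i, 0 ≤ y i ∧ 1 ≤ ∑ b ∈ X, μ b * wv b i ∧ (0 < y i ↔ ∑ b ∈ X, μ b * wv b i = 1)) ∧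
      ∑ b ∈ X, μ b < ∑ i, y i + 1 ∧ ∀ i, 0 < y i → ∑ b ∈ X, μ b < ∑ i', y i' + y i

-- deps:
def S_CAR : Prop :=
  ∀ (n : ℕ) (X sg : Finset (Gn n)), sg ⊆ X →
    ∃ (ξ : Fin n → ℝ) (ν : Gn n → ℝ) (t : ℝ), (∀ b ∈ X, 0 ≤ ∑ i, ξ i * wv b i) ∧
      (∀ b ∈ sg, ∑ i, ξ i * wv b i = 0) ∧ (∀ b ∈ X, ∑ i, ξ i * wv b i = 0 → 0 < ν b) ∧
      ∀ i, ∑ b ∈ X with (∑ i', ξ i' * wv b i' = 0), ν b * wv b i = t * ∑ b ∈ sg, (wv b i : ℝ)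

-- deps: LIN POS
def S_LEMC : Prop :=
  ∀ (n : ℕ) (X sg : Finset (Gn n)) (I S : Finset (Fin n)) (μ ν l : Gn n → ℝ) (t : ℝ),
    sg ⊆ X → S ⊆ I →
    (∀ m : Gn n → ℝ, (∀ i, ∑ b ∈ sg, m b * wv b i = 0) → ∀ b ∈ sg, m b = 0) →
    (∀ i, ∑ b ∈ sg, l b * wv b i = 1) →
    (∀ a ∈ sg, ∀ i, wv a i = 1 → (∀ b ∈ sg, b ≠ a → wv b i = 0) →
      ∃ i', i' ≠ i ∧ wv a i' ≠ 0 ∧ ∀ b ∈ sg, b ≠ a → wv b i' = 0) →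
    (∀ b ∈ X, 0 < ν b) → (∀ i, ∑ b ∈ X, ν b * wv b i = t * ∑ b ∈ sg, (wv b i : ℝ)) →
    (∀ i ∈ I, ∑ b ∈ X, μ b * wv b i = 1) → (∀ i ∉ I, 1 < ∑ b ∈ X, μ b * wv b i) →
    (∀ i ∈ S, ∀ b ∈ X, wv b i ≠ 0 → wv b i = 1 ∧ ∀ i' ∈ I, i' ≠ i → wv b i' = 0) →
    ∀ T ⊆ S, T.card ≤ Module.finrank ℝ (Submodule.span ℝ
      {v : Fin n → ℝ | ∃ i ∈ T, ∃ a ∈ X, ∃ b ∈ X, wv a i ≠ 0 ∧ wv b i ≠ 0 ∧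
        v = fun j => (wv a j : ℝ) - wv b j})

end Pool.Agent.P.MP_9321be_ag.SG
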