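import Pool.Agent.P.MP_9321be_ag.SG.Iface
import Pool.Agent.P.MP_9321be_ag.SG.TZDefs

/-! Step CHI. -/

set_option autoImplicit false
set_option linter.unusedSectionVars false

namespace Pool.Agent.P.MP_9321be_ag.SG

open Finset SM

theorem chi_mem {n : ℕ} {f : MvPolynomial (Fin n) ℂ} {h : Fin n → ℝ} {D : Dat f h} {i : Fin n}
    (hi : i ∈ D.SS) {g : Gn n} (hg : g ∈ D.X1) (e : wv g i ≠ 0) : ∃ a ∈ D.Z i, g = .inl a := by
  cases g with
  | inl a => exact ⟨a, mem_filter.2 ⟨inl_mem_gens.1 (Dat.X1_gens hg), hg, e⟩, rfl⟩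
  | inr j =>
    have := ((mem_filter.1 hi).2 _ hg e).1
    simp only [wv, Pi.single_apply] at this
    split_ifs at this
    omega

theorem p_CHI (hTZ : S_TZ) (hCW : S_CW) :
    S_CHI := by
  intro n f h D hf
  refine hTZ n f hf D.SS D.Z (fun i hi a ha => ?_) (hCW n f h D) fun T hT => ?_
  · obtain ⟨a1, a2, a3⟩ := mem_filter.1 ha
    obtain ⟨b1, b2⟩ := (mem_filter.1 hi).2 _ a2 a3
    exact ⟨a1, b1, fun i' hi' e => b2 i' (mem_filter.1 hi').1 e⟩
  · refine (D.rank T fun i hi => ?_).trans (Submodule.finrank_mono (Submodule.span_mono ?_))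
    · obtain ⟨b1, b2⟩ := mem_filter.1 (hT hi)
      exact ⟨Dat.mem_I.1 b1, fun b hb e =>
        ⟨(b2 b hb e).1, fun i' hi' => (b2 b hb e).2 i' (Dat.mem_I.2 hi')⟩⟩
    · rintro _ ⟨i, hi, a, ha, b, hb, e1, e2, rfl⟩
      obtain ⟨a, ha', rfl⟩ := chi_mem (hT hi) ha e1
      obtain ⟨b, hb', rfl⟩ := chi_mem (hT hi) hb e2
      exact ⟨i, hi, a, ha', b, hb', rfl⟩

end Pool.Agent.P.MP_9321be_ag.SG
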