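import Pool.Agent.P.MP_9321be_ag.SG.Iface

/-! Step CW. -/

set_option autoImplicit false
set_option linter.unusedSectionVars false

namespace Pool.Agent.P.MP_9321be_ag.SG

open Finset SM

theorem cw_step {ι : Type} (s : Finset ι) (P : ι → Prop) (A B : ι → ℝ)
    (H : ∀ x ∈ s, P x → 0 ≤ A x ∧ (A x = 0 → 0 ≤ B x)) :
    ∃ ε : ℝ, 0 < ε ∧ ∀ x ∈ s, P x →
      0 ≤ A x + ε * B x ∧ (A x + ε * B x = 0 ↔ A x = 0 ∧ B x = 0) := by
  have : ∀ᶠ ε in nhdsWithin (0 : ℝ) (Set.Ioi 0), ∀ x ∈ s, P x →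
      0 ≤ A x + ε * B x ∧ (A x + ε * B x = 0 ↔ A x = 0 ∧ B x = 0) := by
    rw [Filter.eventually_all_finset]
    intro x hx
    by_cases p : P x
    · obtain ⟨a, b⟩ := H x hx p
      rcases a.eq_or_lt with e | e
      · filter_upwards [self_mem_nhdsWithin] with ε hε _
        have hε' : 0 < ε := hε
        rw [← e, zero_add]
        exact ⟨mul_nonneg hε'.le (b e.symm), by simp [hε'.ne']⟩
      · filter_upwards [lx_ev (b := B x) (lx_pos.2 (.inl e))] with ε hε _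
        exact ⟨hε.le, fun c => absurd c hε.ne', fun c => absurd c.1 e.ne'⟩
    · exact Filter.Eventually.of_forall fun ε c => absurd c p
  obtain ⟨ε, h1, h2⟩ := (this.and self_mem_nhdsWithin).exists
  exact ⟨ε, h2, h1⟩

theorem cw_sum {n : ℕ} {f : MvPolynomial (Fin n) ℂ} {h : Fin n → ℝ} (D : Dat f h) {g : Gn n}
    (hg : g ∈ D.X1) : 0 ≤ 1 - ∑ i ∈ D.SS, wr g i ∧
      (1 - ∑ i ∈ D.SS, wr g i = 0 ↔ ∃ i ∈ D.SS, wv g i ≠ 0) := by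
  by_cases c : ∃ i ∈ D.SS, wv g i ≠ 0
  · obtain ⟨i, hi, e⟩ := c
    obtain ⟨a, b⟩ := (mem_filter.1 hi).2 g hg e
    have : ∑ i ∈ D.SS, wr g i = 1 := by
      rw [sum_eq_single_of_mem i hi fun j hj o => by simp [wr, b j (mem_filter.1 hj).1 o]]
      simp [wr, a]
    rw [this, sub_self]
    exact ⟨le_rfl, fun _ => ⟨i, hi, e⟩, fun _ => rfl⟩
  · have : ∑ i ∈ D.SS, wr g i = 0 := sum_eq_zero fun i hi => by
      by_contra o
      exact c ⟨i, hi, fun e => o (by simp [wr, e])⟩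
    rw [this, sub_zero]
    exact ⟨zero_le_one, fun e => absurd e one_ne_zero, fun e => absurd e c⟩

theorem p_CW :
    S_CW := by
  classical
  intro n f h D
  set o : Fin n → ℝ := ∑ j ∈ D.F0, D.d D.F0 j - fun i => if i ∈ D.SS then 1 else 0 with ho
  have hΨ : ∀ g, Ps (D.u D.F0) (D.ω D.F0) (pt h g) =
      lx (D.u D.F0 ⬝ᵥ wr g - kp g) (D.ω D.F0 ⬝ᵥ wr g - rh h g) := fun g => by
    rw [Ps_apply, ps_apply, p2_apply, rv_pt]; rfl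
  have hO : ∀ g ∈ gens f, Ps (D.u D.F0) (D.ω D.F0) (pt h g) = 0 →
      o ⬝ᵥ wr g = 1 - ∑ i ∈ D.SS, wr g i := fun g hg e => by
    rw [ho, sub_dotProduct, sum_dotProduct, D.one _ D.hF0 g hg e]
    simp [dotProduct]
  obtain ⟨e3, p3, h3⟩ := cw_step (gens f) (fun g => Ps (D.u D.F0) (D.ω D.F0) (pt h g) = 0)
    (fun g => D.ξ ⬝ᵥ wr g) (fun g => o ⬝ᵥ wr g) fun g hg e =>
      ⟨D.ξ0 g hg e, fun c => hO g hg e ▸ (cw_sum D ((D.memX g).2 ⟨hg, e, c⟩)).1⟩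
  obtain ⟨e2, p2', h2⟩ := cw_step (gens f) (fun g => D.u D.F0 ⬝ᵥ wr g - kp g = 0)
    (fun g => D.ω D.F0 ⬝ᵥ wr g - rh h g) (fun g => D.ξ ⬝ᵥ wr g + e3 * (o ⬝ᵥ wr g))
    fun g hg e => ⟨by
      have := D.pos _ D.hF0 g hg
      rw [hΨ, lx_nonneg] at this
      exact (this.resolve_left e.not_gt).2,
      fun c => (h3 g hg (by rw [hΨ, lx_eq_zero]; exact ⟨e, c⟩)).1⟩
  obtain ⟨e1, p1, h1⟩ := cw_step (gens f) (fun _ => True) (fun g => D.u D.F0 ⬝ᵥ wr g - kp g)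
    (fun g => D.ω D.F0 ⬝ᵥ wr g - rh h g + e2 * (D.ξ ⬝ᵥ wr g + e3 * (o ⬝ᵥ wr g)))
    fun g hg _ => ⟨by
      have := D.pos _ D.hF0 g hg
      rw [hΨ, lx_nonneg] at this
      exact this.elim le_of_lt fun c => c.1.ge, fun c => (h2 g hg c).1⟩
  set w : Fin n → ℝ := D.u D.F0 + e1 • (D.ω D.F0 + e2 • (D.ξ + e3 • o)) with hw
  have hW : ∀ g, w ⬝ᵥ wr g = D.u D.F0 ⬝ᵥ wr g - kp g + e1 * (D.ω D.F0 ⬝ᵥ wr g - rh h g +
      e2 * (D.ξ ⬝ᵥ wr g + e3 * (o ⬝ᵥ wr g))) + kp g + e1 * rh h g := fun g => by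
    simp only [hw, add_dotProduct, smul_dotProduct, smul_eq_mul]; ring
  refine ⟨w, 1, fun i => ?_, fun a ha => ?_⟩
  · have a := (h1 _ (inr_mem_gens f i) trivial).1
    have b := hW (.inr i)
    have c := mul_pos p1 (D.hpos i)
    rw [dot_wr_inr w] at b
    simp only [kp, rh] at a b
    linarith
  · have hg := inl_mem_gens.2 ha
    obtain ⟨a1, a2⟩ := h1 _ hg trivial
    have b := hW (.inl a)
    have c : ∑ i, (a i : ℝ) * w i = w ⬝ᵥ wr (.inl a) := sum_congr rfl fun i _ => mul_comm _ _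
    rw [show kp (.inl a : Gn n) = 1 from rfl, show rh h (.inl a) = 0 from rfl] at a1 a2 b
    refine ⟨by linarith, ?_⟩
    rw [c, b, mul_zero, add_zero, add_eq_right, a2]
    constructor
    · rintro ⟨c1, c2⟩
      obtain ⟨c3, c4⟩ := (h2 _ hg c1).2.1 c2
      have e : Ps (D.u D.F0) (D.ω D.F0) (pt h (.inl a)) = 0 := by
        rw [hΨ, lx_eq_zero]; exact ⟨c1, c3⟩
      obtain ⟨c5, c6⟩ := (h3 _ hg e).2.1 c4
      have hX := (D.memX _).2 ⟨hg, e, c5⟩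
      obtain ⟨i, hi, c7⟩ := (cw_sum D hX).2.1 (hO _ hg e ▸ c6)
      exact ⟨i, hi, mem_filter.2 ⟨ha, hX, c7⟩⟩
    · rintro ⟨i, hi, c1⟩
      obtain ⟨-, hX, c2⟩ := mem_filter.1 c1
      obtain ⟨-, e, c3⟩ := (D.memX _).1 hX
      have c4 := (h3 _ hg e).2.2 ⟨c3, hO _ hg e ▸ (cw_sum D hX).2.2 ⟨i, hi, c2⟩⟩
      rw [hΨ, lx_eq_zero] at e
      exact ⟨e.1, (h2 _ hg e.1).2.2 ⟨e.2, c4⟩⟩

end Pool.Agent.P.MP_9321be_ag.SG
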