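import Pool.Agent.P.MP_9321be_ag.SG.Iface

/-! Step EV. -/

set_option autoImplicit false
set_option linter.unusedSectionVars false

namespace Pool.Agent.P.MP_9321be_ag.SG

open Finset SM

section

variable {n : ℕ} {f : MvPolynomial (Fin n) ℂ} {h : Fin n → ℝ}

lemma ev_P0 (D : Dat f h) : D.P0 ∈ D.Good := by
  refine ⟨D.Ψ_P0, ?_, fun _ _ => rfl, ?_⟩
  · rw [Dat.q0, sub_sub_cancel, D.dot_p1]
    exact sum_eq_zero fun b hb => by rw [((D.memX b).1 hb).2.2, mul_zero]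
  · rw [← D.wt_eq D.hF0 (Dat.R3_C D.P0_R3 D.F0_F2 D.Ψ_P0), D.wt_P0]

lemma ev_Z {D : Dat f h} {i : Fin n} {a : Fin n →₀ ℕ} :
    a ∈ D.Z i ↔ a ∈ f.support ∧ Sum.inl a ∈ D.X1 ∧ a i ≠ 0 := mem_filter

lemma ev_SS {D : Dat f h} {i : Fin n} (hi : i ∈ D.SS) {b : Gn n} (hb : b ∈ D.X1)
    (e : wv b i ≠ 0) : wv b i = 1 := ((mem_filter.1 hi).2 b hb e).1

lemma ev_inl {g : Gn n} {i : Fin n} (e : wv g i = 1) : ∃ a, g = Sum.inl a := by
  cases g with
  | inl a => exact ⟨a, rfl⟩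
  | inr k =>
    simp only [wv, Pi.single_apply] at e
    split_ifs at e
    omega

end

theorem p_EV (hACT : S_ACT) :
    S_EV := by
  classical
  intro n f h D x hx0 hx z hz hB
  let χ : (Fin n → ℤ) → ℂ := fun m => ∏ j, x j ^ m j
  have c0 : ∀ m, χ m ≠ 0 := fun m => prod_ne_zero_iff.2 fun j _ => zpow_ne_zero _ (hx0 j)
  have c1 : ∀ (m : Fin n → ℤ) (a : Fin n →₀ ℕ),
      χ (m + fun j => (a j : ℤ)) = χ m * ∏ j, x j ^ a j := fun m a => by
    simp only [χ, ← prod_mul_distrib]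
    exact prod_congr rfl fun j _ => by rw [Pi.add_apply, zpow_add₀ (hx0 j), zpow_natCast]
  let E : R n →ₗ[ℂ] ℂ := lin fun p => if p ∈ D.Good then χ p.2.1 else 0
  have e0 : ∀ p, p ∉ D.Good → E (e p) = 0 := fun p a => (lin_e _ p).trans (if_neg a)
  have e1 : ∀ p, p ∈ D.Good → E (e p) = χ p.2.1 := fun p a => (lin_e _ p).trans (if_pos a)
  have e2 : ∀ y ∈ sp D.B0, E y = 0 := fun y hy =>
    map_eq E 0 (fun p a => e0 p fun b => a.2 _ (Dat.F2_F1 D.F0_F2) b.1) hy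
  have e3 : ∀ i, E (Dp f h (mi i) (z i)) = 0 := fun i =>
    map_eq (E ∘ₗ Dp f h (mi i)) 0 (fun q hq => by
      change E (Dp f h (mi i) (e q)) = 0
      rcases hq with ⟨hq, hb | hw⟩
      · exact e2 _ (Dat.cl_B0.Dp _ (e_mem hb))
      have ng : q ∉ D.Good := fun b => by
        have : D.wt (rv q - D.q0) ≤ _ := hw
        rw [D.wt_eq D.hF0 (Dat.R3_C hq.1 D.F0_F2 b.1), b.2.2.2] at this
        linarith
      rw [Dp_apply, map_add, nd_e, map_smul, e0 q ng, smul_zero, zero_add]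
      simp only [th_mul_e, map_sum, map_smul, mi_pt]
      have z0 : ∀ g, ¬ (wv g i ≠ 0 ∧ q + pt h g ∈ D.Good) →
          (cf f g * ((wv g i : ℝ) : ℂ)) • E (e (q + pt h g)) = 0 := fun g a => by
        by_cases b : wv g i = 0
        · simp [b]
        · rw [e0 _ fun d => a ⟨b, d⟩, smul_zero]
      by_cases a : ∃ g ∈ gens f, wv g i ≠ 0 ∧ q + pt h g ∈ D.Good
      swap
      · exact sum_eq_zero fun g hg => z0 g fun b => a ⟨g, hg, b⟩
      obtain ⟨g, hg, a1, a2⟩ := a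
      obtain ⟨hi, hk⟩ := hACT n f h D i q hq g hg a1 a2
      rw [← sum_subset (s₁ := (D.Z i).map .inl) (fun g b => by
        obtain ⟨a, d, rfl⟩ := mem_map.1 b
        exact inl_mem_gens.2 (ev_Z.1 d).1) fun g b d => z0 g fun b' => by
          have b1 := (hk g b b'.1).1 b'.2
          obtain ⟨a, rfl⟩ := ev_inl (ev_SS hi b1 b'.1)
          exact d (mem_map_of_mem _ (ev_Z.2 ⟨inl_mem_gens.1 b, b1, b'.1⟩)), sum_map,
        ← mul_zero (-χ q.2.1), ← hx i hi, mul_sum]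
      refine sum_congr rfl fun a' b => ?_
      obtain ⟨b1, b2, b3⟩ := ev_Z.1 b
      change (cf f (.inl a') * ((wv (.inl a') i : ℝ) : ℂ)) • E (e (q + pt h (.inl a'))) = _
      rw [e1 _ ((hk _ (inl_mem_gens.2 b1) b3).2 b2), ev_SS hi b2 b3]
      change _ • χ (q.2.1 + fun i' => (a' i' : ℤ)) = _
      rw [c1]
      simp [cf]
      ring) (hz i)
  have := e2 _ hB
  rw [map_sub, map_sum, sum_eq_zero fun i _ => e3 i, sub_zero, e1 _ (ev_P0 D)] at this
  exact c0 _ this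

end Pool.Agent.P.MP_9321be_ag.SG
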