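import Pool.Agent.P.MP_9321be_ag.SG.Iface

/-! Step EXG. -/

set_option autoImplicit false
set_option linter.unusedSectionVars false

namespace Pool.Agent.P.MP_9321be_ag.SG

open Finset SM

theorem exg_un {n : ℕ} {X X' B : Set (L n)} {y : R n} (h : ∀ x ∈ sp X, y * x ∈ sp X')
    (h' : ∀ x ∈ sp B, y * x ∈ sp B) : ∀ x ∈ sp (X ∪ B), y * x ∈ sp (X' ∪ B) := fun _ hx =>
  map_mem (LinearMap.mulLeft ℂ y) (fun _ hp => hp.elim
    (fun a => sp_mono Set.subset_union_left (h _ (e_mem a)))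
    fun a => sp_mono Set.subset_union_right (h' _ (e_mem a))) hx

theorem p_EXG (hACY : S_ACY) (hNST : S_NST) :
    S_EXG := by
  intro n f h Φ hf A B I hA hB hAB h0 hR z hz hs
  obtain ⟨M, hM, hN⟩ := hNST n f h Φ hf
  choose! s s0 s1 using hN
  obtain ⟨t, ht⟩ := Countable.exists_injective_nat Φ.VS
  classical
  let τ : Gn n → ℂ := fun j => if h : j ∈ Φ.VS then t ⟨j, h⟩ else 0
  have hτ : Set.InjOn τ Φ.VS := fun j hj j' hj' e => by
    simp only [τ, dif_pos (mem_coe.1 hj), dif_pos (mem_coe.1 hj'), Nat.cast_inj] at e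
    exact congrArg Subtype.val (ht e)
  have gA : ∀ J, ∀ y ∈ sp Φ.Gam, ∀ x ∈ sp (A ∩ DJ I J), y * x ∈ sp (A ∩ DJ I J) :=
    fun J y hy x => mul_mem (fun p hp q hq =>
      add_comm q p ▸ (⟨hA q hq.1 p hp, DJ_add hq.2 hp.2⟩ : q + p ∈ A ∩ DJ I J)) hy
  have gB : ∀ y ∈ sp Φ.Gam, ∀ x ∈ sp B, y * x ∈ sp B :=
    fun y hy x => mul_mem (fun p hp q hq => add_comm q p ▸ hB q hq p hp) hy
  have cA : Cl f h A := fun p hp g hg => hA p hp _ (Φ.pt_Gam hg)
  have cB : Cl f h B := fun p hp g hg => hB p hp _ (Φ.pt_Gam hg)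
  have tB := fun i x => cB.th (mi i) (x := x)
  have m : ∀ (r i : Fin n), ∑ j ∈ Φ.VS, τ j ^ r.1 • s j i ∈ sp Φ.Gam := fun r i =>
    sum_mem fun j hj => Submodule.smul_mem _ _ (s0 j hj i)
  have g1 : ∀ J, ∀ p ∈ Φ.Gam0, ∀ q ∈ A ∩ DJ I J ∪ B, p + q ∈ B := by
    rintro J p hp q (hq | hq)
    · exact add_comm q p ▸ hAB q hq.1 p hp
    · exact add_comm q p ▸ hB q hq p hp.1
  have g2 : ∀ r, Φ.eta τ M r - ∑ i, (∑ j ∈ Φ.VS, τ j ^ r.1 • s j i) * th f h (mi i) ∈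
      sp Φ.Gam0 := fun r => by
    simp only [Fan.eta, sum_mul, smul_mul_assoc]
    rw [sum_comm, ← sum_sub_distrib]
    refine sum_mem fun j hj => ?_
    rw [← smul_sum, ← smul_sub]
    exact Submodule.smul_mem _ _ (s1 j hj)
  obtain ⟨v, a1, a2, a3⟩ := hACY n (fun i => th f h (mi i)) (Φ.eta τ M)
    (fun r i => ∑ j ∈ Φ.VS, τ j ^ r.1 • s j i)
    (fun J => sp (A ∩ DJ I J ∪ B)) (fun _ => sp B)
    (fun J J' h => sp_mono (Set.union_subset_union_left _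
      (Set.inter_subset_inter_right _ (DJ_mono h))))
    (fun _ _ _ => le_rfl) (fun J i => exg_un (fun x => th_DJ cA h0 i) (tB i)) (fun _ => tB)
    (fun J r i => exg_un (gA J _ (m r i)) (gB _ (m r i))) (fun _ r i => gB _ (m r i))
    (fun J r => exg_un (gA J _ (Φ.eta_mem τ M r)) (gB _ (Φ.eta_mem τ M r)))
    (fun _ r => gB _ (Φ.eta_mem τ M r)) (fun J r x => mul_mem (g1 J) (g2 r))
    (fun J => hR τ M J hM hτ) z
    (fun i => sp_mono Set.subset_union_left (hz i)) hs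
  refine ⟨fun i j => v i j - fl B (v i j), fun i j => ?_, fun i j =>
    sp_mono (fun p hp => hp.1.resolve_right hp.2) (sub_fl_mem _ (a2 i j)), fun i => ?_⟩
  · simp only [a1 i j, map_neg]
    ring
  · simp only [mul_sub, sum_sub_distrib, ← sub_add]
    exact add_mem (a3 i) (sum_mem fun j _ => tB _ _
      (sp_mono Set.inter_subset_right (fl_mem _ (a2 i j))))

end Pool.Agent.P.MP_9321be_ag.SG
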