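import Pool.Agent.P.MP_9321be_ag.SG.Iface

/-! Step FACE. -/

set_option autoImplicit false
set_option linter.unusedSectionVars false

namespace Pool.Agent.P.MP_9321be_ag.SG

open Finset SM

theorem p_FACE :
    S_FACE := by
  intro n f h Φ u ω G hG hpos hz
  obtain ⟨S, hS, hmin⟩ := exists_min_image Φ.FF (fun S => Φ.W S (∑ g ∈ G, wr g)) Φ.ne
  have hC : Φ.C S (∑ g ∈ G, wr g) := Φ.C_of_min (fun i => by
    rw [Finset.sum_apply]
    exact sum_nonneg fun g _ => wr_nonneg g i) hmin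
  obtain ⟨S', h1, -, h3⟩ := Φ.cover hS hC
  refine ⟨S', h1, ?_⟩
  have a : 0 ≤ Wd u ω (∑ g ∈ G, wr g) - Φ.W S' (∑ g ∈ G, wr g) := by
    rw [Φ.Wd_sub h1]
    exact sum_nonneg fun j hj => lam_smul_nonneg (h3 j hj) (hpos j (Φ.sub S' h1 hj))
  have b : Wd u ω (∑ g ∈ G, wr g) - Φ.W S' (∑ g ∈ G, wr g) = -∑ g ∈ G, Φ.Ψ S' (pt h g) := by
    rw [map_sum, map_sum, ← sum_sub_distrib, ← sum_neg_distrib]
    refine sum_congr rfl fun g hg => ?_
    have e := hz g hg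
    rw [Ps_eq, rv_pt, sub_eq_zero] at e
    rw [Fan.Ψ_eq, rv_pt, e, neg_sub]
  have c : ∀ g ∈ G, 0 ≤ Φ.Ψ S' (pt h g) := fun g hg => Φ.Ψ_pos h1 (hG hg)
  rw [b, neg_nonneg] at a
  exact (sum_eq_zero_iff_of_nonneg c).1 (le_antisymm a (sum_nonneg c))

end Pool.Agent.P.MP_9321be_ag.SG
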