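import Pool.Agent.P.MP_9321be_ag.SG.Iface

/-! Step FINL. -/

set_option autoImplicit false
set_option linter.unusedSectionVars false

namespace Pool.Agent.P.MP_9321be_ag.SG

open Finset SM

theorem finl_bd {n : ℕ} {f : MvPolynomial (Fin n) ℂ} {h : Fin n → ℝ} (Φ : Fan f h)
    {S : Finset (Gn n)} (hS : S ∈ Φ.FF) {x : Fin n → ℝ} (a : Φ.C S x) {s : ℝ}
    (b : Φ.phi S x ≤ s) (i : Fin n) : x i ≤ ∑ j ∈ gens f, |s| / Φ.a j * wv j i := by
  obtain ⟨T, h1, h2, h3⟩ := Φ.cover hS a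
  have c : ∑ j ∈ T, (Φ.d T j ⬝ᵥ x) * Φ.a j ≤ |s| := by
    refine le_trans (le_of_eq ?_) (((Φ.le_phi h1 h2).trans b).trans (le_abs_self s))
    rw [(Φ.db T h1).dot (Φ.v T) x, ← sum_neg_distrib]
    exact sum_congr rfl fun j hj => by rw [Φ.tightv T h1 j hj]; ring
  rw [(Φ.db T h1).expand x i]
  refine le_trans (sum_le_sum fun j hj => ?_) (sum_le_sum_of_subset_of_nonneg (Φ.sub T h1)
    fun j _ _ => mul_nonneg (div_nonneg (abs_nonneg s) (Φ.apos j).le) (Nat.cast_nonneg _))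
  refine mul_le_mul_of_nonneg_right ((le_div_iff₀ (Φ.apos j)).2 (le_trans ?_ c)) (Nat.cast_nonneg _)
  exact single_le_sum (f := fun j => (Φ.d T j ⬝ᵥ x) * Φ.a j)
    (fun k hk => mul_nonneg (h3 k hk) (Φ.apos k).le) hj

theorem p_FINL :
    S_FINL := by
  intro n f h Φ y q S hS s
  refine Set.Finite.of_injOn (f := fun p : L n => p.2.1)
    (t := Set.pi Set.univ fun i => Set.Icc ⌈q i⌉ ⌊q i + ∑ j ∈ gens f, |s| / Φ.a j * wv j i⌋)
    (fun p hp i _ => ?_) (fun p hp p' hp' e => ?_)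
    (Set.Finite.pi fun i => Set.finite_Icc _ _)
  · have a := Fan.H.C Φ hp.1.2
    have b := Φ.C_nonneg hS a i
    have c := finl_bd Φ hS a hp.2 i
    simp only [Pi.sub_apply, rv] at b c
    exact ⟨Int.ceil_le.2 (by linarith), Int.le_floor.2 (by linarith)⟩
  · have a := hp.1.1
    have b := hp'.1.1
    have c : rv p = rv p' := by
      ext i
      exact congrArg (fun m : Fin n → ℤ => (m i : ℝ)) e
    rw [Φ.Ψ_lx, lx_eq_zero, ps_apply, p2_apply] at a b
    rw [c] at a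
    exact Prod.ext (by linarith [a.1, b.1]) (Prod.ext e (by linarith [a.2, b.2]))

end Pool.Agent.P.MP_9321be_ag.SG
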