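import Pool.Agent.P.MP_9321be_ag.SG.Iface

/-! Step G0. -/

set_option autoImplicit false
set_option linter.unusedSectionVars false

namespace Pool.Agent.P.MP_9321be_ag.SG

open Finset SM

variable {n : ℕ} {f : MvPolynomial (Fin n) ℂ} {h : Fin n → ℝ}

theorem g0_lx (Φ : Fan f h) (S : Finset (Gn n)) (a : Fin n →₀ ℕ) :
    Φ.Ψ S ((0, fun i => a i, 0) : L n) = lx (∑ i, Φ.u S i * a i) (∑ i, Φ.ω S i * a i) := by
  simp [Fan.Ψ_lx, ps_apply, p2_apply, rv, dotProduct]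

theorem g0_pos (Φ : Fan f h) {S : Finset (Gn n)} (hS : S ∈ Φ.FF) {a : Fin n →₀ ℕ} (ha : a ≠ 0) :
    0 < Φ.Ψ S ((0, fun i => a i, 0) : L n) := by
  have hu : ∀ i ∈ univ, 0 ≤ Φ.u S i * a i := fun i _ =>
    mul_nonneg ((Φ.u_nonneg hS i).elim le_of_lt fun e => e.1.ge) (Nat.cast_nonneg _)
  rw [g0_lx, lx_pos]
  refine (sum_nonneg hu).eq_or_lt.symm.imp_right fun e => ⟨e.symm, ?_⟩
  have h1 := (sum_eq_zero_iff_of_nonneg hu).1 e.symm
  have h2 : ∀ i, a i ≠ 0 → 0 < Φ.ω S i * a i := fun i hi =>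
    mul_pos ((Φ.hpos i).trans_le ((Φ.u_nonneg hS i).resolve_left fun e' =>
      (mul_pos e' (Nat.cast_pos.2 (Nat.pos_of_ne_zero hi))).ne' (h1 i (mem_univ i))).2)
      (Nat.cast_pos.2 (Nat.pos_of_ne_zero hi))
  obtain ⟨i, hi⟩ := Finsupp.ne_iff.1 ha
  refine sum_pos' (fun j _ => ?_) ⟨i, mem_univ i, h2 i hi⟩
  by_cases e' : a j = 0
  · simp [e']
  · exact (h2 j e').le

theorem g0_Gam0 (Φ : Fan f h) {a : Fin n →₀ ℕ} (ha : a ≠ 0) :
    ((0, fun i => a i, 0) : L n) ∈ Φ.Gam0 :=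
  ⟨⟨fun _ hS => (g0_pos Φ hS ha).le, fun _ => Nat.cast_nonneg _⟩, fun _ hS => (g0_pos Φ hS ha).ne'⟩

theorem p_G0 :
    S_G0 := by
  intro n f g h D
  induction g using MvPolynomial.induction_on' with
  | add g g' k k' =>
    refine ⟨by simpa only [map_add, add_mul] using add_mem k.1 k'.1, ?_⟩
    convert add_mem k.2 k'.2 using 1
    simp only [map_add, add_mul, add_smul]
    abel
  | monomial a c =>
    have h0 : D.P0 ∈ D.R0 := D.P0_R3.1.1
    rw [em_monomial, smul_mul_assoc, mul_comm, ← e_add]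
    by_cases ha : a = 0
    · subst ha
      have : ((0, fun i => (0 : Fin n →₀ ℕ) i, 0) : L n) = 0 := rfl
      rw [this, add_zero]
      exact ⟨Submodule.smul_mem _ _ (e_mem ⟨h0, D.P0_DJ _⟩), by simp⟩
    · have h1 := g0_Gam0 D.toFan ha
      refine ⟨Submodule.smul_mem _ _ (e_mem ⟨Dat.R0_add h0 h1.1, DJ_add (D.P0_DJ _) h1.1.2⟩), ?_⟩
      obtain ⟨i, hi⟩ := Finsupp.ne_iff.1 ha
      rw [MvPolynomial.eval_monomial, Finsupp.prod, prod_eq_zero (Finsupp.mem_support_iff.2 hi)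
        (zero_pow hi), mul_zero, zero_smul, sub_zero]
      exact Submodule.smul_mem _ _ (e_mem (Dat.R0_add0 h0 h1))

end Pool.Agent.P.MP_9321be_ag.SG
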