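import Pool.Agent.P.MP_9321be_ag.SG.Iface

/-! Step GENA. -/

set_option autoImplicit false
set_option linter.unusedSectionVars false

namespace Pool.Agent.P.MP_9321be_ag.SG

open Finset SM

lemma gena_fin (S c : ℝ) (h : S ≠ 0 ∨ c ≠ 0) : {m : ℕ | (m + 1 : ℝ) * S + c = 0}.Finite := by
  refine Set.Subsingleton.finite fun m hm m' hm' => ?_
  have h1 : (m + 1 : ℝ) * S + c = 0 := hm
  have h2 : (m' + 1 : ℝ) * S + c = 0 := hm'
  have h3 : S ≠ 0 := fun h0 => h.elim (fun h => h h0) fun h => h (by simpa [h0] using h1)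
  have h4 : (m : ℝ) * S = m' * S := by linarith
  exact_mod_cast mul_right_cancel₀ h3 h4

theorem p_GENA :
    S_GENA := by
  classical
  intro ι κ X T F
  induction T using Finset.induction_on with
  | empty => exact fun _ => ⟨fun _ => 1, fun _ => one_pos, by simp⟩
  | insert t T ht ih =>
    intro h
    obtain ⟨a, ha, hT⟩ := ih fun u hu => h u (mem_insert_of_mem hu)
    obtain ⟨g0, hg0, h0⟩ := h t (mem_insert_self _ _)
    obtain ⟨m, hm⟩ := ((insert t T).finite_toSet.biUnion fun u hu =>
      gena_fin (∑ g ∈ X, F u g * a g) (F u g0) (by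
        rcases mem_insert.1 (mem_coe.1 hu) with rfl | h1
        · exact Or.inr h0
        · exact Or.inl (hT u h1))).exists_notMem
    refine ⟨fun g => (m + 1) * a g + if g = g0 then 1 else 0,
      fun g => Nat.add_pos_left (Nat.mul_pos m.succ_pos (ha g)) _, fun u hu h1 =>
        hm (Set.mem_biUnion (mem_coe.2 hu) ?_)⟩
    show (m + 1 : ℝ) * _ + _ = 0
    rw [← h1, mul_sum]
    push_cast
    simp only [mul_add, sum_add_distrib, mul_ite, mul_one, mul_zero, sum_ite_eq', hg0, if_true]
    exact congrArg (· + F u g0) (sum_congr rfl fun g _ => by ring)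

end Pool.Agent.P.MP_9321be_ag.SG
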