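import Pool.Agent.P.MP_9321be_ag.SG.Iface

/-! Step GH. -/

set_option autoImplicit false
set_option linter.unusedSectionVars false

namespace Pool.Agent.P.MP_9321be_ag.SG

open Finset SM

lemma gh_t {n : ℕ} {h u ω : Fin n → ℝ} {g : Gn n} (e : Ps u ω (pt h g) = 0) :
    u ⬝ᵥ wr g = kp g ∧ ω ⬝ᵥ wr g = rh h g := by
  rw [Ps_apply, lx_eq_zero, ps_apply, p2_apply, rv_pt, sub_eq_zero, sub_eq_zero] at e
  exact e

lemma gh_dot {n : ℕ} {T : Finset (Fin n →₀ ℕ)} {m : (Fin n →₀ ℕ) → ℝ} {κ : Fin n → ℝ}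
    (y : Fin n → ℝ) (e : ∀ i, ∑ a ∈ T, m a * a i + κ i = 0) :
    ∑ a ∈ T, m a * (y ⬝ᵥ wr (.inl a)) + ∑ i, κ i * y i = 0 := by
  have : ∑ i, (∑ a ∈ T, m a * a i + κ i) * y i = 0 := by simp [e]
  rw [← this]
  simp only [dotProduct, wr, wv, add_mul, sum_add_distrib, mul_sum, sum_mul]
  rw [sum_comm]
  congr 1
  exact sum_congr rfl fun _ _ => sum_congr rfl fun _ _ => by ring

lemma gh_key {n : ℕ} {f : MvPolynomial (Fin n) ℂ} {h u ω : Fin n → ℝ} (G : NC.GenH f.support h)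
    (c : Gn n → ℝ) (hc : ∀ g ∈ gens f, c g ≠ 0 → Ps u ω (pt h g) = 0)
    (e : ∀ i, ∑ g ∈ gens f, c g * wv g i = 0) :
    (∀ i, c (.inr i) = 0) ∧ ∑ g ∈ gens f, c g = 0 := by
  obtain ⟨T, hT⟩ : ∃ T, T = {a ∈ f.support | c (.inl a) ≠ 0} := ⟨_, rfl⟩
  have t1 : ∀ a ∈ T, u ⬝ᵥ wr (.inl a) = 1 ∧ ω ⬝ᵥ wr (.inl a) = 0 := fun a ha =>
    have := mem_filter.1 (hT ▸ ha)
    gh_t (hc _ (inl_mem_gens.2 this.1) this.2)
  have t2 : ∀ i, c (.inr i) ≠ 0 → u i = 0 ∧ ω i = h i := fun i hi => by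
    have := gh_t (hc _ (inr_mem_gens f i) hi)
    simpa [dot_wr_inr, kp, rh] using this
  have e1 : ∀ i, ∑ a ∈ T, c (.inl a) * a i + 2 * c (.inr i) = 0 := fun i => by
    rw [← e i, gens, sum_disjSum, hT, sum_filter_of_ne fun a _ k => left_ne_zero_of_mul k]
    simp [wv, Pi.single_apply, mul_comm]
  have e2 : ∑ a ∈ T, c (.inl a) = 0 := by
    have := gh_dot u e1
    rwa [sum_congr rfl fun a ha => by rw [(t1 a ha).1, mul_one],
      sum_eq_zero (s := univ) fun i _ => by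
        by_cases k : c (.inr i) = 0
        · simp [k]
        · simp [(t2 i k).1], add_zero] at this
  have e3 := G T (hT ▸ filter_subset _ _) {i | c (.inr i) ≠ 0} (fun m κ r => by
    have := gh_dot ω r.2.1
    rw [sum_eq_zero fun a ha => by rw [(t1 a ha).2, mul_zero], zero_add] at this
    refine (sum_congr rfl fun i _ => ?_).trans this
    by_cases k : c (.inr i) = 0
    · simp [r.1 i (by simpa using k)]
    · rw [(t2 i k).2]) (fun a => c (.inl a)) (fun i => 2 * c (.inr i))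
    ⟨fun j k => by simpa using k, e1, e2⟩
  have e4 : ∀ i, c (.inr i) = 0 := fun i => by simpa using congrFun e3 i
  refine ⟨e4, ?_⟩
  rw [gens, sum_disjSum, ← e2, hT, sum_filter_of_ne fun a _ k => k]
  simp [e4]

theorem p_GH :
    S_GH := by
  intro n f h u ω S d G hd hS ht
  have key : ∀ g ∈ gens f, Ps u ω (pt h g) = 0 →
      (∀ i, (if .inr i = g then 1 else 0) - d (.inr i) ⬝ᵥ wr g = 0) ∧
        ∑ j ∈ gens f, ((if j = g then 1 else 0) - d j ⬝ᵥ wr g) = 0 := fun g hg e =>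
    gh_key (u := u) (ω := ω) G (fun j => (if j = g then 1 else 0) - d j ⬝ᵥ wr g)
      (fun j _ k => by
        by_contra k'
        have h1 : j ≠ g := fun q => k' (q ▸ e)
        simp [h1, hd.off j fun q => k' (ht j q)] at k) fun i => by
      simp only [sub_mul, sum_sub_distrib]
      rw [← sum_subset hS (f := fun j => d j ⬝ᵥ wr g * wv j i) fun j _ k => by simp [hd.off j k],
        ← hd.expand]
      simp [hg, wr]
  refine ⟨fun i e => ⟨?_, fun g hg e' k => ?_⟩, fun g hg e => ?_⟩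
  · by_contra k
    simpa [hd.off _ k] using (key _ (inr_mem_gens f i) e).1 i
  · simpa [k.symm] using (key g hg e').1 i
  · have := (key g hg e).2
    rw [sum_sub_distrib, ← sum_subset hS (f := fun j => d j ⬝ᵥ wr g) fun j _ k => by
      simp [hd.off j k], sub_eq_zero] at this
    simpa [hg] using this.symm

end Pool.Agent.P.MP_9321be_ag.SG
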