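import Pool.Agent.P.MP_9321be_ag.SG.Iface

/-! Step GR1. -/

set_option autoImplicit false
set_option linter.unusedSectionVars false

namespace Pool.Agent.P.MP_9321be_ag.SG

open Finset SM

variable {n : ℕ} {f : MvPolynomial (Fin n) ℂ} {h : Fin n → ℝ} {ν : L n → ℝ}

/-- A window of weights. -/
def gr1_H (ν : L n → ℝ) (a : ℝ) : Set (L n) := {p | a - 1 < ν p ∧ ν p ≤ a}

theorem gr1_fl {A B : Set (L n)}
    (hν : ∀ p ∈ A, ∀ g ∈ gens f, p + pt h g ∉ B → ν (p + pt h g) = ν p + 1)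
    (a : ℝ) (ψ : L n →+ ℝ) {x : R n} (hx : x ∈ sp A) :
    fl (gr1_H ν (a + 1)) (th f h ψ * x) - th f h ψ * fl (gr1_H ν a) x ∈ sp B := by
  have := map_mem (S := sp B) (fl (gr1_H ν (a + 1)) ∘ₗ LinearMap.mulLeft ℂ (th f h ψ) -
    LinearMap.mulLeft ℂ (th f h ψ) ∘ₗ fl (gr1_H ν a)) (fun p hp => by
      have e1 : ∀ g ∈ gens f, p + pt h g ∉ B →
          (p + pt h g ∈ gr1_H ν (a + 1) ↔ p ∈ gr1_H ν a) := fun g hg hB => by
        simp only [gr1_H, Set.mem_ofPred_eq, hν p hp g hg hB]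
        constructor <;> rintro ⟨h, h'⟩ <;> constructor <;> linarith
      have e2 : ∀ q ∈ B, fl (gr1_H ν (a + 1)) (e q) ∈ sp B := fun q hq =>
        sp_mono Set.inter_subset_left (fl_mem _ (e_mem hq))
      simp only [LinearMap.sub_apply, LinearMap.comp_apply, LinearMap.mulLeft_apply]
      by_cases h' : p ∈ gr1_H ν a
      · rw [fl_e_mem h', th_mul_e, map_sum, ← sum_sub_distrib]
        refine sum_mem fun g hg => ?_
        rw [map_smul, ← smul_sub]
        refine Submodule.smul_mem _ _ ?_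
        by_cases hB : p + pt h g ∈ B
        · exact sub_mem (e2 _ hB) (e_mem hB)
        · rw [fl_e_mem ((e1 g hg hB).2 h'), sub_self]; exact zero_mem _
      · rw [fl_e_not h', th_mul_e, map_sum, mul_zero, sub_zero]
        refine sum_mem fun g hg => ?_
        rw [map_smul]
        refine Submodule.smul_mem _ _ ?_
        by_cases hB : p + pt h g ∈ B
        · exact e2 _ hB
        · rw [fl_e_not (mt (e1 g hg hB).1 h')]; exact zero_mem _) hx
  simpa only [LinearMap.sub_apply, LinearMap.comp_apply, LinearMap.mulLeft_apply] using this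

theorem gr1_step {A : Finset (Fin n) → Set (L n)} {B : Set (L n)} (hE : EX f h A B)
    (hA : ∀ i j, ∀ x ∈ sp (A {i, j}), Dp f h (mi j) x ∈ sp (A {i}))
    (hν : ∀ J, ∀ p ∈ A J, ∀ g ∈ gens f, p + pt h g ∉ B → ν (p + pt h g) = ν p + 1)
    {w t : ℝ} (hw : w ≤ t)
    (z : Fin n → R n) (h1 : ∀ i, z i ∈ sp (A {i})) (h2 : ∀ i, z i ∈ sp (B ∪ {p | ν p ≤ t}))
    (h3 : ∑ i, Dp f h (mi i) (z i) ∈ sp (B ∪ {p | ν p ≤ w})) :
    ∃ z' : Fin n → R n, (∀ i, z' i ∈ sp (A {i})) ∧ (∀ i, z' i ∈ sp (B ∪ {p | ν p ≤ t - 1})) ∧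
      ∑ i, Dp f h (mi i) (z' i) = ∑ i, Dp f h (mi i) (z i) := by
  have k : ∀ a ≤ t, ∀ x ∈ sp (B ∪ {p | ν p ≤ a}), fl (gr1_H ν (t + 1)) x ∈ sp B :=
    fun a ha x hx => sp_mono (fun p hp => hp.1.resolve_right fun e => by
      have h4 : ν p ≤ a := e
      have := hp.2.1
      linarith) (fl_mem _ hx)
  have a1 : ∑ i, th f h (mi i) * fl (gr1_H ν t) (z i) ∈ sp B := by
    convert sub_mem (sub_mem (k w hw _ h3) (sum_mem (t := univ) fun (i : Fin n) _ =>
      k t le_rfl _ (dg_mem (fun p => (mi i p : ℂ)) (h2 i)))) (sum_mem (t := univ)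
        fun (i : Fin n) _ => gr1_fl (hν {i}) t (mi i) (h1 i)) using 1
    simp only [map_sum, Dp_apply, map_add, sum_add_distrib, nd, add_sub_cancel_left,
      sum_sub_distrib, sub_sub_cancel]
  obtain ⟨v, v1, v2, v3⟩ := hE _ (fun i => sp_mono Set.inter_subset_left (fl_mem _ (h1 i))) a1
  refine ⟨fun i => z i - ∑ j, Dp f h (mi j) (fl (gr1_H ν (t - 1)) (v i j)), fun i => sub_mem (h1 i)
    (sum_mem fun j _ => hA i j _ (sp_mono Set.inter_subset_left (fl_mem _ (v2 i j)))),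
    fun i => ?_, ?_⟩
  · have b1 : z i - fl (gr1_H ν t) (z i) ∈ sp (B ∪ {p | ν p ≤ t - 1}) :=
      sp_mono (fun p hp => hp.1.imp_right fun e => not_lt.1 fun e' => hp.2 ⟨e', e⟩)
        (sub_fl_mem _ (h2 i))
    have b2 := sp_mono (Set.inter_subset_left.trans (Set.subset_union_left (t := {p | ν p ≤ t - 1})))
      (fl_mem (gr1_H ν t) (v3 i))
    have b3 : ∑ j, nd (mi j) (fl (gr1_H ν (t - 1)) (v i j)) ∈ sp (B ∪ {p | ν p ≤ t - 1}) :=
      sum_mem fun j _ => dg_mem _ (sp_mono (fun p hp => .inr hp.2.2) (fl_mem _ (mem_sp_univ _)))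
    have b4 := sp_mono (Set.subset_union_left (t := {p | ν p ≤ t - 1})) (sum_mem (t := univ)
      fun (j : Fin n) _ => gr1_fl (hν {i, j}) (t - 1) (mi j) (v2 i j))
    rw [sub_add_cancel] at b4
    rw [map_sub, fl_of_mem (sp_mono Set.inter_subset_right (fl_mem _ (h1 i))), map_sum] at b2
    convert add_mem (sub_mem (add_mem b1 b2) b3) b4 using 1
    simp only [Dp_apply, sum_add_distrib, sum_sub_distrib]
    abel
  · have e : ∑ i, ∑ j, Dp f h (mi i) (Dp f h (mi j) (fl (gr1_H ν (t - 1)) (v i j))) =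
        -∑ i, ∑ j, Dp f h (mi i) (Dp f h (mi j) (fl (gr1_H ν (t - 1)) (v i j))) := by
      conv_rhs => rw [sum_comm]
      simp only [← sum_neg_distrib]
      exact sum_congr rfl fun i _ => sum_congr rfl fun j _ => by
        rw [v1 i j, Dp_comm, map_neg, map_neg, map_neg]
    rw [eq_neg_iff_add_eq_zero, ← two_smul ℂ, smul_eq_zero, or_iff_right two_ne_zero] at e
    simp only [map_sub, map_sum, sum_sub_distrib, e, sub_zero]

theorem p_GR1 :
    S_GR1 := by
  intro n f h A B ν hE _ hA hν w z h1 h3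
  obtain ⟨M, hM⟩ := ((univ.biUnion fun i => (z i).coeff.support).image ν).bddAbove
  obtain ⟨N, hN⟩ := exists_nat_ge (M - (w - 1))
  have h2 : ∀ i, z i ∈ sp (B ∪ {p | ν p ≤ w - 1 + N}) := fun i => mem_sp.2 fun p hp => .inr (by
    have : ν p ≤ M := hM (mem_coe.2 (mem_image_of_mem _ (mem_biUnion.2 ⟨i, mem_univ i, hp⟩)))
    exact this.trans (by linarith))
  clear hN hM
  induction N generalizing z with
  | zero => exact ⟨z, fun i => mem_sp_inter.2 ⟨h1 i, by simpa using h2 i⟩, rfl⟩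
  | succ N ih =>
    obtain ⟨z', a, b, c⟩ := gr1_step hE hA hν (by push_cast; linarith [N.cast_nonneg (α := ℝ)])
      z h1 h2 h3
    rw [← c] at h3 ⊢
    exact ih z' a h3 (by simpa only [Nat.cast_succ, ← add_assoc, add_sub_cancel_right] using b)

end Pool.Agent.P.MP_9321be_ag.SG
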