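import Pool.Agent.P.MP_9321be_ag.SG.Iface

/-! Step GRR. -/

set_option autoImplicit false
set_option linter.unusedSectionVars false

namespace Pool.Agent.P.MP_9321be_ag.SG

open Finset SM

section

variable {n : ℕ} {η : Fin n → R n} {W B : Set (L n)} {φ : L n → ℝ} {c : ℝ}
  (hB : ∀ r, ∀ x ∈ sp B, η r * x ∈ sp B)
  (hm : ∀ r s, ∀ x ∈ sp {p | p ∈ W ∧ φ p ≤ s}, η r * x ∈ sp ({p | p ∈ W ∧ φ p ≤ s + c} ∪ B))
  (hH : HH η W B φ c)

include hm in
theorem grr_lt (r : Fin n) {s : ℝ} {x : R n} (hx : x ∈ sp {p | p ∈ W ∧ φ p < s}) :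
    η r * x ∈ sp ({p | p ∈ W ∧ φ p < s + c} ∪ B) :=
  map_mem (LinearMap.mulLeft ℂ (η r)) (fun p hp =>
    sp_mono (Set.union_subset_union_left _ fun q hq => by
      exact ⟨hq.1, by linarith [hq.2, hp.2]⟩)
      (hm r (φ p) _ (e_mem ⟨hp.1, le_rfl⟩))) hx

include hB hm hH

theorem grr_dec (r : Fin n) {s : ℝ} {x : R n} {y : Fin n → R n}
    (hx : x ∈ sp {p | p ∈ W ∧ φ p ≤ s}) (hy : ∀ i, y i ∈ sp {p | p ∈ W ∧ φ p ≤ s})
    (h : η r * x - ∑ i with i.1 < r.1, η i * y i ∈ sp ({p | p ∈ W ∧ φ p < s + c} ∪ B)) :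
    ∃ (w : R n) (v a : Fin n → R n), w ∈ sp {p | p ∈ W ∧ φ p < s} ∧ (∀ i, v i ∈ sp W) ∧
      (∀ i, a i ∈ sp {p | p ∈ W ∧ φ p ≤ s}) ∧ x - w - ∑ i with i.1 < r.1, η i * v i ∈ sp B ∧
      η r * x - η r * w - ∑ i with i.1 < r.1, η i * a i ∈ sp B := by
  obtain ⟨v, h1, h2⟩ := hH r s x y hx hy h
  rw [sp_union] at h2
  obtain ⟨w, hw, b, hb, e⟩ := Submodule.mem_sup.1 h2
  have h3 := fun i => hm r _ _ (h1 i)
  simp only [sub_add_cancel, sp_union, Submodule.mem_sup] at h3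
  choose a ha d hd e' using h3
  have e1 : x - w - ∑ i with i.1 < r.1, η i * v i = b := by linear_combination -e
  refine ⟨w, v, a, hw, fun i => sp_mono (fun _ hp => hp.1) (h1 i), ha, e1 ▸ hb, ?_⟩
  have e2 : ∑ i with i.1 < r.1, η i * a i + ∑ i with i.1 < r.1, η i * d i =
      η r * ∑ i with i.1 < r.1, η i * v i := by
    rw [← sum_add_distrib, mul_sum]
    exact sum_congr rfl fun i _ => by linear_combination η i * e' i
  convert add_mem (hB r b hb) (sum_mem fun i (_ : i ∈ univ.filter fun i : Fin n => i.1 < r.1) =>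
    hB i _ (hd i)) using 1
  linear_combination η r * e1 - e2

theorem grr_low (s : ℝ) (k : ℕ) : ∀ y : Fin n → R n, (∀ i, y i ∈ sp {p | p ∈ W ∧ φ p ≤ s}) →
    ∑ i with i.1 < k, η i * y i ∈ sp ({p | p ∈ W ∧ φ p < s + c} ∪ B) →
    ∃ y' : Fin n → R n, (∀ i, y' i ∈ sp {p | p ∈ W ∧ φ p < s}) ∧
      ∑ i with i.1 < k, η i * y i - ∑ i with i.1 < k, η i * y' i ∈ sp B := by
  induction k with
  | zero => exact fun y _ _ => ⟨0, fun _ => zero_mem _, by simp⟩
  | succ k ih =>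
    intro y hy h
    by_cases hk : k < n
    swap
    · have e : (univ.filter fun i : Fin n => i.1 < k + 1) = univ.filter fun i : Fin n => i.1 < k :=
        filter_congr fun i _ => by have := i.2; omega
      rw [e] at h ⊢
      exact ih y hy h
    obtain ⟨r, rfl⟩ : ∃ r : Fin n, k = r.1 := ⟨⟨k, hk⟩, rfl⟩
    have e : ∀ z : Fin n → R n, ∑ i with i.1 < r.1 + 1, η i * z i =
        η r * z r + ∑ i with i.1 < r.1, η i * z i := fun z => by
      rw [← sum_insert (f := fun i => η i * z i) (by simp)]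
      refine sum_congr (Finset.ext fun i => ?_) fun _ _ => rfl
      simp only [mem_filter, mem_univ, true_and, mem_insert, Fin.ext_iff]
      omega
    rw [e] at h
    obtain ⟨w, -, a, hw, -, ha, -, h2⟩ := grr_dec hB hm hH r (hy r) (fun i => neg_mem (hy i))
      (by simpa using h)
    have e3 : ∑ i with i.1 < r.1, η i * (y + a) i =
        ∑ i with i.1 < r.1, η i * y i + ∑ i with i.1 < r.1, η i * a i := by
      simp [mul_add, sum_add_distrib]
    obtain ⟨z, hz, h3⟩ := ih (y + a) (fun i => add_mem (hy i) (ha i)) (by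
      convert sub_mem (sub_mem h (grr_lt hm r hw)) (sp_mono Set.subset_union_right h2) using 1
      rw [e3]
      ring)
    refine ⟨Function.update z r w, fun i => ?_, ?_⟩
    · by_cases c : i = r
      · subst c; simpa using hw
      · simpa [c] using hz i
    · have e4 : ∑ i with i.1 < r.1, η i * Function.update z r w i =
          ∑ i with i.1 < r.1, η i * z i := sum_congr rfl fun i hi => by
        rw [Function.update_of_ne (by rintro rfl; simp at hi)]
      convert add_mem h2 h3 using 1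
      rw [e, e, e3, e4, Function.update_self]
      ring

theorem grr_ind (hf : ∀ s, {p | p ∈ W ∧ φ p ≤ s}.Finite) (r : Fin n) (m : ℕ) :
    ∀ (s : ℝ) (x : R n) (y : Fin n → R n), {p | p ∈ W ∧ φ p < s}.ncard = m →
      x ∈ sp {p | p ∈ W ∧ φ p < s} → (∀ i, y i ∈ sp {p | p ∈ W ∧ φ p < s}) →
      η r * x - ∑ i with i.1 < r.1, η i * y i ∈ sp B → x ∈ sp B ⊔ Isp η (sp (W ∪ B)) r := by
  induction m using Nat.strong_induction_on with
  | _ m ih =>
  intro s x y hc hx hy h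
  have fs : {p | p ∈ W ∧ φ p < s}.Finite := (hf s).subset fun _ hp => ⟨hp.1, hp.2.le⟩
  rcases Set.eq_empty_or_nonempty {p | p ∈ W ∧ φ p < s} with h0 | h0
  · exact Submodule.mem_sup_left (sp_mono (h0 ▸ Set.empty_subset B) hx)
  obtain ⟨q, hq, hmax⟩ := Set.exists_max_image _ φ fs h0
  have sub : sp {p | p ∈ W ∧ φ p < s} ≤ sp {p | p ∈ W ∧ φ p ≤ φ q} :=
    sp_mono fun p hp => ⟨hp.1, hmax p hp⟩
  obtain ⟨w, v, a, hw, hv, ha, h1, h2⟩ := grr_dec hB hm hH r (sub hx) (fun i => sub (hy i))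
    (sp_mono Set.subset_union_right h)
  have e3 : ∑ i with i.1 < r.1, η i * (y - a) i =
      ∑ i with i.1 < r.1, η i * y i - ∑ i with i.1 < r.1, η i * a i := by
    simp [mul_sub, sum_sub_distrib]
  have h3 : η r * w - ∑ i with i.1 < r.1, η i * (y - a) i ∈ sp B := by
    convert sub_mem h h2 using 1
    rw [e3]
    ring
  obtain ⟨z, hz, h4⟩ := grr_low hB hm hH (φ q) r.1 (y - a) (fun i => sub_mem (sub (hy i)) (ha i))
    (by simpa using sub_mem (grr_lt hm r hw) (sp_mono Set.subset_union_right h3))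
  have h5 := ih _ (hc ▸ Set.ncard_lt_ncard ⟨fun p hp => ⟨hp.1, hp.2.trans hq.2⟩,
    fun hs => (hs hq).2.false⟩ fs) (φ q) w z rfl hw hz (by simpa using add_mem h3 h4)
  have h6 : x - w ∈ sp B ⊔ Isp η (sp (W ∪ B)) r :=
    mem_Isp.2 ⟨v, fun i => sp_mono Set.subset_union_left (hv i), h1⟩
  simpa using add_mem h6 h5

end

theorem grr_ev {n : ℕ} {W : Set (L n)} (φ : L n → ℝ) {x : R n} (hx : x ∈ sp W) :
    ∀ᶠ s in Filter.atTop, x ∈ sp {p | p ∈ W ∧ φ p < s} := by
  simp only [mem_sp] at hx ⊢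
  exact (Filter.eventually_all_finset _).2 fun p hp =>
    (Filter.eventually_gt_atTop (φ p)).mono fun _ ht => ⟨hx p hp, ht⟩

theorem p_GRR :
    S_GRR := by
  intro n η W B φ c hf hB hm hH r x hx h
  obtain ⟨y, hy, h⟩ := mem_Isp.1 h
  simp only [sp_union, Submodule.mem_sup] at hx hy
  obtain ⟨x, hx, b, hb, rfl⟩ := hx
  choose z hz d hd e using hy
  obtain ⟨s, h1, h2⟩ := ((grr_ev φ hx).and (Filter.eventually_all.2 fun i => grr_ev φ (hz i))).exists
  refine add_mem (grr_ind hB hm hH hf r _ s x z rfl h1 h2 ?_) (Submodule.mem_sup_left hb)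
  convert add_mem (sub_mem h (hB r b hb)) (sum_mem
    fun i (_ : i ∈ univ.filter fun i : Fin n => i.1 < r.1) => hB i _ (hd i)) using 1
  simp only [← e, mul_add, sum_add_distrib]
  ring

end Pool.Agent.P.MP_9321be_ag.SG
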