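import Pool.Agent.P.MP_9321be_ag.SG.Iface

/-! Step HAT. -/

set_option autoImplicit false
set_option linter.unusedSectionVars false

namespace Pool.Agent.P.MP_9321be_ag.SG

open Finset SM

section
variable {n : ℕ} {f : MvPolynomial (Fin n) ℂ} {h : Fin n → ℝ} (Φ : Fan f h)
  {S S' : Finset (Gn n)} {j : Gn n} {x y q : Fin n → ℝ} {p : L n}

theorem hat_inj {s s' : ℝ} {p p' : L n} (e : hat s p = hat s' p') : s = s' ∧ rv p = rv p' :=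
  ⟨congrArg (fun z : L n => z.2.2) e, (congrArg rv e :)⟩

theorem hat_add (s c : ℝ) (p b : L n) : hat s p + hat c b = hat (s + c) (p + b) := rfl

theorem hat_rv (M : ℕ) (j : Gn n) (p : L n) (q : Fin n → ℝ) :
    rv (p + Φ.bb M j) - q = rv p - q + ((M * Φ.N j : ℕ) : ℝ) • wr j := by
  rw [rv_add, Fan.bb, rv_nsmul, rv_pt]; abel

theorem hat_VT (hj : j ∈ Φ.VT S) : j ∈ gens f ∧ Φ.Ψ S (pt h j) = 0 :=
  ⟨Φ.VS_sub (mem_filter.1 hj).1, (mem_filter.1 hj).2⟩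

theorem hat_VTc (e : Φ.W S' = Φ.W S) : Φ.VT S' = Φ.VT S := by
  simp only [Fan.VT, Φ.Ψ_congr e]

theorem hat_phiK (hHKB : S_HKB) (hy : Φ.Gen y) (hS' : S' ∈ Φ.FF) (e : Φ.W S' = Φ.W S)
    (hS : S ∈ Φ.FF) (k : Φ.K y S' x) : Φ.phi S x = -(Φ.v S' ⬝ᵥ x) := by
  obtain ⟨U, a, b, c⟩ := Φ.exists_phi hS x
  have d := ((hHKB n f h Φ y x hy S' hS' k).2.2.2 U a (b.trans e.symm)).1
  have := Φ.le_phi (x := x) hS' e
  linarith

theorem hat_v (M : ℕ) (hS' : S' ∈ Φ.FF) (e : Φ.W S' = Φ.W S) (hj : j ∈ Φ.VT S)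
    (x : Fin n → ℝ) :
    -(Φ.v S' ⬝ᵥ (x + ((M * Φ.N j : ℕ) : ℝ) • wr j)) ≤ -(Φ.v S' ⬝ᵥ x) + M * Φ.c := by
  obtain ⟨a, b⟩ := hat_VT Φ hj
  have c := mul_nonneg (Nat.cast_nonneg (α := ℝ) (M * Φ.N j))
    (Φ.v_nonneg hS' a (Φ.Ψ_congr e ▸ b))
  rw [dotProduct_add, dotProduct_smul, smul_eq_mul, ← Φ.Na j a]
  push_cast at c ⊢
  linarith

theorem hat_phi (M : ℕ) (hS : S ∈ Φ.FF) (hj : j ∈ Φ.VT S) (p : L n) (q : Fin n → ℝ) :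
    Φ.phi S (rv (p + Φ.bb M j) - q) ≤ Φ.phi S (rv p - q) + M * Φ.c := by
  rw [hat_rv]
  obtain ⟨U, a, b, c⟩ := Φ.exists_phi hS (rv p - q + ((M * Φ.N j : ℕ) : ℝ) • wr j)
  have := Φ.le_phi (x := rv p - q) a b
  linarith [hat_v Φ M a b hj (rv p - q)]

theorem hat_Wp (M : ℕ) (hj : j ∈ Φ.VT S) (hp : p ∈ Φ.Wp y q S) : p + Φ.bb M j ∈ Φ.Wp y q S := by
  obtain ⟨a, b⟩ := hat_VT Φ hj
  refine ⟨by rw [map_add, hp.1, Fan.bb, map_nsmul, b, nsmul_zero, add_zero], ?_⟩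
  rw [hat_rv]
  exact Φ.H_add hp.2 (Φ.C_smul (Nat.cast_nonneg _) (Φ.C_wr a b))

theorem hat_KW (hHKB : S_HKB) (hy : Φ.Gen y) (hS' : S' ∈ Φ.FF) (e : Φ.W S' = Φ.W S)
    (a : Φ.Ψ S' p = 0) (k : Φ.K y S' (rv p - q)) : p ∈ Φ.Wp y q S :=
  ⟨Φ.Ψ_congr e ▸ a, Φ.H_congr (y := y) e ▸ (hHKB n f h Φ y _ hy S' hS' k).1⟩

end

theorem p_HAT (hCHAIN : S_CHAIN) (hSIMP : S_SIMP) (hHKA : S_HKA) (hHKB : S_HKB) :
    S_HAT := by
  classical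
  intro n f h Φ y q t M hM ht hy S hS
  have key := hCHAIN n (Finset (Gn n)) ℝ (Φ.FF.filter fun S' => Φ.W S' = Φ.W S)
    (fun S' => Φ.v S' ⬝ᵥ y) (Φ.Kp y q) (Up1 (Φ.Wp y q S) fun p => Φ.phi S (rv p - q))
    (Φ.VT S) (Φ.bh M) (Φ.etah t M S)
    (fun r => sum_mem fun j hj => Submodule.smul_mem _ _ (e_mem ⟨j, hj, rfl⟩)) ?_ ?_ ?_ ?_ ?_
  · convert key using 2
    ext p'
    constructor
    · rintro ⟨p, hp, s, a, rfl⟩
      rcases a.lt_or_eq with a | a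
      · exact .inr ⟨p, hp, s, a, rfl⟩
      · obtain ⟨U, b, c, d⟩ := hHKA n f h Φ y _ hy S hS hp.2
        refine .inl ⟨U, mem_filter.2 ⟨b, c⟩, p, Φ.Ψ_congr c ▸ hp.1, d, ?_⟩
        rw [← a, ← hat_phiK Φ hHKB hy b c hS d]
    · rintro (⟨U, hU, p, a, k, rfl⟩ | ⟨p, hp, s, a, rfl⟩)
      · obtain ⟨b, c⟩ := mem_filter.1 hU
        exact ⟨p, hat_KW Φ hHKB hy b c a k, _, (hat_phiK Φ hHKB hy b c hS k).le, rfl⟩
      · exact ⟨p, hp, s, a.le, rfl⟩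
  · rintro _ ⟨p, hp, s, a, rfl⟩ j hj
    refine ⟨p + Φ.bb M j, hat_Wp Φ M hj hp, s + M * Φ.c, ?_, hat_add _ _ _ _⟩
    have := hat_phi Φ M hS hj p q
    dsimp only at a ⊢
    linarith
  · intro U hU
    obtain ⟨b, c⟩ := mem_filter.1 hU
    refine Set.disjoint_left.2 ?_
    rintro _ ⟨p, a, k, rfl⟩ ⟨p', -, s, d, e⟩
    obtain ⟨e1, e2⟩ := hat_inj e
    dsimp only at d
    rw [← e1, ← e2, hat_phiK Φ hHKB hy b c hS k] at d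
    exact lt_irrefl _ d
  · intro U hU U' hU'
    obtain ⟨b, c⟩ := mem_filter.1 hU
    obtain ⟨b', c'⟩ := mem_filter.1 hU'
    by_cases o : U = U'
    · exact .inl (by rw [o])
    refine .inr (Set.disjoint_left.2 ?_)
    rintro _ ⟨p, a, k, rfl⟩ ⟨p', -, k', e⟩
    obtain ⟨e1, e2⟩ := hat_inj e
    rw [← e2] at e1 k'
    have d := ((hHKB n f h Φ y _ hy U b k).2.2.2 U' b' (c'.trans c.symm)).2 (by linarith)
    have d' := ((hHKB n f h Φ y _ hy U' b' k').2.2.2 U b (c.trans c'.symm)).2 (by linarith)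
    exact lt_asymm (d.resolve_left fun z => o z.symm) (d'.resolve_left o)
  · rintro U hU _ ⟨p, a, k, rfl⟩ j hj
    obtain ⟨b, c⟩ := mem_filter.1 hU
    have hp := hat_Wp Φ M hj (hat_KW Φ hHKB hy b c a k)
    have e0 := hat_phiK Φ hHKB hy b c hS k
    rw [Fan.bh, hat_add]
    rcases (hat_phi Φ M hS hj p q).lt_or_eq with d | d
    · exact .inr (.inl ⟨_, hp, _, e0 ▸ d, rfl⟩)
    obtain ⟨U', b', c', k'⟩ := hHKA n f h Φ y _ hy S hS hp.2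
    have e1 := hat_phiK Φ hHKB hy b' c' hS k'
    have m : hat (-(Φ.v U ⬝ᵥ (rv p - q)) + M * Φ.c) (p + Φ.bb M j) ∈ Φ.Kp y q U' :=
      ⟨_, Φ.Ψ_congr c' ▸ hp.1, k', by rw [← e1, d, e0]⟩
    have z := (hHKB n f h Φ y _ hy U b k).2.2.2 U' b' (c'.trans c.symm)
    have w := hat_v Φ M b' c' hj (rv p - q)
    rw [← hat_rv] at w
    rcases z.2 (by linarith [z.1]) with rfl | o
    · exact .inl m
    · exact .inr (.inr ⟨U', mem_filter.2 ⟨b', c'⟩, o, m⟩)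
  · intro U hU B' a1 a2 a3
    obtain ⟨b, c⟩ := mem_filter.1 hU
    have e := hat_VTc Φ c
    have := hSIMP n f h Φ y q t M B' hM ht U b a1 (e ▸ a2) (e ▸ a3)
    rwa [show Φ.etah t M U = Φ.etah t M S from funext fun r => by simp only [Fan.etah, e]] at this

end Pool.Agent.P.MP_9321be_ag.SG
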