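import Pool.Agent.P.MP_9321be_ag.SG.Iface

/-! Step HKA. -/

set_option autoImplicit false
set_option linter.unusedSectionVars false

namespace Pool.Agent.P.MP_9321be_ag.SG

open Finset SM

theorem p_HKA :
    S_HKA := by
  classical
  intro n f h Φ y x _ S hS a
  obtain ⟨S', h1, h2⟩ := exists_min_image (Φ.FF.filter fun S' => Φ.W S' = Φ.W S)
    (fun S' => toLex (Φ.v S' ⬝ᵥ x, -(Φ.v S' ⬝ᵥ y))) ⟨S, by simpa using hS⟩
  obtain ⟨h1, h3⟩ := mem_filter.1 h1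
  refine ⟨S', h1, h3, fun j hj => ?_⟩
  by_cases w : Φ.Wall S' j
  · exact a S' h1 h3 j hj w
  obtain ⟨S'', b1, b2, t, b3, b4⟩ := Φ.inner_pivot h1 hj w
  have := h2 S'' (mem_filter.2 ⟨b1, b2.trans h3⟩)
  rw [Prod.Lex.toLex_le_toLex, b4, b4] at this
  rcases this with e | ⟨e, e'⟩
  · have := (mul_pos_iff_of_pos_right b3).1 (by linarith : 0 < Φ.d S' j ⬝ᵥ x * t)
    exact ⟨this.le, fun _ => this⟩
  · have : Φ.d S' j ⬝ᵥ x = 0 := (mul_eq_zero.1 (by linarith)).resolve_right b3.ne'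
    exact ⟨this.ge, fun o => absurd (mul_pos o b3) (by linarith)⟩

end Pool.Agent.P.MP_9321be_ag.SG
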