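import Pool.Agent.P.MP_9321be_ag.SG.Iface

/-! Step HKB. -/

set_option autoImplicit false
set_option linter.unusedSectionVars false

namespace Pool.Agent.P.MP_9321be_ag.SG

open Finset SM

theorem hkb_sum {ι : Type} {S : Finset ι} {a b c : ι → ℝ} (hc : ∀ j ∈ S, 0 ≤ c j)
    (h : ∀ j ∈ S, 0 ≤ a j ∧ (0 < b j → 0 < a j)) :
    0 ≤ ∑ j ∈ S, a j * c j ∧ (0 < ∑ j ∈ S, b j * c j → 0 < ∑ j ∈ S, a j * c j) := by
  have h0 : ∀ j ∈ S, 0 ≤ a j * c j := fun j hj => mul_nonneg (h j hj).1 (hc j hj)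
  refine ⟨sum_nonneg h0, fun o => ?_⟩
  obtain ⟨j, hj, e⟩ := exists_lt_of_sum_lt (f := fun _ => (0 : ℝ)) (by simpa using o)
  have c0 : 0 < c j := (hc j hj).lt_of_ne' fun c0 => by simp [c0] at e
  exact sum_pos' h0 ⟨j, hj, mul_pos ((h j hj).2 ((mul_pos_iff_of_pos_right c0).1 e)) c0⟩

theorem p_HKB :
    S_HKB := by
  intro n f h Φ y x hy S hS a
  have D := Φ.db S hS
  have neg : ∀ j ∈ S, Φ.d S j ⬝ᵥ x = 0 → Φ.d S j ⬝ᵥ y < 0 := fun j hj e =>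
    (not_lt.1 fun o => ((a j hj).2 o).ne' e).lt_of_ne (hy S hS j hj)
  refine ⟨fun S' h1 h2 j' hj' w => ?_, fun i => ?_, fun S' h1 e => ?_, fun S' h1 h2 => ?_⟩
  · rw [D.dot _ x, D.dot _ y]
    exact hkb_sum (fun j hj => w j (Φ.sub S hS hj) (Φ.Ψ_congr h2 ▸ Φ.Ψ_tight hS hj)) a
  · rw [D.expand x, D.expand y]
    exact (hkb_sum (fun j _ => Nat.cast_nonneg _) a).2
  · have b : ∀ j ∈ S, Φ.Ψ S' (pt h j) ≠ 0 → Φ.d S j ⬝ᵥ y < 0 := fun j hj o =>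
      neg j hj (((Φ.C_of_cone hS h1 fun j hj => (a j hj).1).2 e).2 j hj o)
    refine ⟨b, ?_⟩
    by_cases c : ∀ j ∈ S, Φ.Ψ S' (pt h j) = 0
    · exact .inl (LinearMap.ext fun z => sub_eq_zero.1 (by
        rw [Φ.W_sub hS]
        exact sum_eq_zero fun j hj => by rw [c j hj, smul_zero]))
    push Not at c
    obtain ⟨j, hj, c⟩ := c
    have s : ∀ j ∈ S, Φ.Ψ S' (pt h j) ≠ 0 → (Φ.d S j ⬝ᵥ y) • Φ.Ψ S' (pt h j) < 0 := fun j hj o =>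
      lam_smul_neg (b j hj o) ((Φ.Ψ_pos h1 (Φ.sub S hS hj)).lt_of_ne' o)
    refine .inr (sub_neg.1 ?_)
    rw [Φ.W_sub hS]
    refine sum_neg' (fun j hj => ?_) ⟨j, hj, s j hj c⟩
    by_cases o : Φ.Ψ S' (pt h j) = 0
    · rw [o, smul_zero]
    · exact (s j hj o).le
  · have c0 : ∀ j ∈ S, 0 ≤ Φ.v S' ⬝ᵥ wr j + Φ.a j := fun j hj =>
      Φ.v_nonneg h1 (Φ.sub S hS hj) (Φ.Ψ_congr h2 ▸ Φ.Ψ_tight hS hj)
    refine ⟨sub_nonneg.1 (Φ.v_sub hS _ x ▸ (hkb_sum c0 a).1), fun e => ?_⟩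
    have z := (sum_eq_zero_iff_of_nonneg fun j hj => mul_nonneg (a j hj).1 (c0 j hj)).1
      (by rw [← Φ.v_sub hS, e, sub_self])
    have s : ∀ j ∈ S, Φ.v S' ⬝ᵥ wr j + Φ.a j ≠ 0 →
        Φ.d S j ⬝ᵥ y * (Φ.v S' ⬝ᵥ wr j + Φ.a j) < 0 := fun j hj o =>
      mul_neg_of_neg_of_pos (neg j hj ((mul_eq_zero.1 (z j hj)).resolve_right o))
        ((c0 j hj).lt_of_ne' o)
    by_cases c : ∀ j ∈ S, Φ.v S' ⬝ᵥ wr j + Φ.a j = 0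
    · refine .inl (Φ.eq_of_sub hS h1 fun j hj => by_contra fun o => ?_).symm
      linarith [c j hj, Φ.posv S' h1 j (Φ.sub S hS hj) o (Φ.Ψ_congr h2 ▸ Φ.Ψ_tight hS hj :
        Φ.Ψ S' (pt h j) = 0)]
    push Not at c
    obtain ⟨j, hj, c⟩ := c
    refine .inr (sub_neg.1 ?_)
    rw [Φ.v_sub hS]
    refine sum_neg' (fun j hj => ?_) ⟨j, hj, s j hj c⟩
    by_cases o : Φ.v S' ⬝ᵥ wr j + Φ.a j = 0
    · rw [o, mul_zero]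
    · exact (s j hj o).le

end Pool.Agent.P.MP_9321be_ag.SG
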