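import Pool.Agent.P.MP_9321be_ag.SG.Iface
import Pool.Agent.P.MP_9321be_ag.SG.TZDefs
import Pool.Agent.P.MP_9321be_ag.SM.TLINK

/-! Step LINK. -/

set_option autoImplicit false
set_option linter.unusedSectionVars false

namespace Pool.Agent.P.MP_9321be_ag.SG

open Finset SM

/-- The exponent of a generator as a finitely supported function. -/
noncomputable def link_tf {n : ℕ} : Gn n → (Fin n →₀ ℕ)
  | .inl a => a
  | .inr j => Finsupp.single j 2

lemma link_wv {n : ℕ} (g : Gn n) (i : Fin n) : wv g i = link_tf g i := by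
  rcases g with a | j
  · rfl
  · simp [wv, link_tf, Finsupp.single_eq_pi_single]

lemma link_img {n : ℕ} (s : Finset (Fin n →₀ ℕ)) (J : Finset (Fin n)) :
    link_tf '' (s.disjSum J : Set (Gn n)) = NC.vs s J := by
  ext b
  simp only [NC.vs, coe_union, coe_image, Set.mem_image, mem_coe, Set.mem_union, Sum.exists,
    inl_mem_disjSum, inr_mem_disjSum, link_tf, exists_eq_right]

lemma link_p1 {n : ℕ} (h u ω : Fin n → ℝ) (a : Fin n →₀ ℕ) :
    Ps u ω (pt h (.inl a)) = lx (ND.dr a u - 1) (ND.dr a ω) := by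
  rw [Ps_apply, ps_apply, p2_apply, rv_pt]
  simp [pt, kp, rh, wr, wv, dotProduct, ND.dr, mul_comm]

lemma link_p2 {n : ℕ} (h u ω : Fin n → ℝ) (i : Fin n) :
    Ps u ω (pt h (.inr i)) = lx (2 * u i) (2 * ω i - 2 * h i) := by
  rw [Ps_apply, ps_apply, p2_apply, rv_pt, dot_wr_inr, dot_wr_inr]
  simp [pt, kp, rh]

/-- Independence and span over the reals. -/
lemma link_real {n : ℕ} {sg : Finset (Gn n)} {σ : Finset (Fin n →₀ ℕ)}
    (e : link_tf '' (sg : Set (Gn n)) = σ) (hi : Set.InjOn link_tf (sg : Set (Gn n)))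
    (hC : ND.Contrib σ) :
    (∀ m : Gn n → ℝ, (∀ i, ∑ b ∈ sg, m b * wv b i = 0) → ∀ b ∈ sg, m b = 0) ∧
      ∃ l : Gn n → ℝ, ∀ i, ∑ b ∈ sg, l b * wv b i = 1 := by
  obtain ⟨h1, h2⟩ := hC
  rw [← e] at h1 h2
  constructor
  · intro m hm b hb
    refine (Module.forall_dual_apply_eq_zero_iff ℚ (m b)).1 fun φ => ?_
    refine linearIndepOn_finset_iff.1 (h1.comp_of_image hi) (fun b => φ (m b)) ?_ b hb
    ext i
    have := congrArg φ (hm i)
    rw [map_sum, map_zero] at this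
    rw [Finset.sum_apply, Pi.zero_apply, ← this]
    refine sum_congr rfl fun c _ => ?_
    rw [mul_comm, ← nsmul_eq_mul, map_nsmul, link_wv, nsmul_eq_mul, mul_comm]
    rfl
  · rw [← Set.image_comp, Submodule.mem_span_image_finset_iff_exists_fun'] at h2
    obtain ⟨c, hc⟩ := h2
    refine ⟨fun b => c b, fun i => ?_⟩
    have := congrFun hc i
    simp only [Finset.sum_apply, Pi.smul_apply, Function.comp, ND.vec, smul_eq_mul,
      ← link_wv] at this
    change ∑ b ∈ sg, (c b : ℝ) * wv b i = 1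
    exact_mod_cast this

theorem p_LINK (hFACE : S_FACE) (hCAR : S_CAR) (hLPD : S_LPD) (hLEMC : S_LEMC) :
    S_LINK := by
  classical
  intro n f h Φ u ω s J α A hC hU hα
  have hsub : s.disjSum J ⊆ gens f := disjSum_mono
    (fun a ha => (mem_filter.1 (A.sub ha)).1) (subset_univ _)
  have hpos : ∀ g ∈ gens f, 0 ≤ Ps u ω (pt h g) := by
    rintro (a | i) hg
    · rw [link_p1, lx_nonneg]
      have ha := inl_mem_gens.1 hg
      rcases (A.u1 a ha).lt_or_eq with e | e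
      · exact Or.inl (sub_pos.2 e)
      · exact Or.inr ⟨sub_eq_zero.2 e.symm, A.w0 a (mem_filter.2 ⟨ha, e.symm⟩)⟩
    · rw [link_p2, lx_nonneg]
      rcases (A.u0 i).lt_or_eq with e | e
      · exact Or.inl (by linarith)
      · exact Or.inr ⟨by linarith, by linarith [A.h1 i e.symm]⟩
  have htight : ∀ g ∈ s.disjSum J, Ps u ω (pt h g) = 0 := by
    rintro (a | i) hg
    · have ha := inl_mem_disjSum.1 hg
      rw [link_p1, lx_eq_zero]
      exact ⟨sub_eq_zero.2 (mem_filter.1 (A.sub ha)).2, A.w1 a ha⟩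
    · have hi := A.h2 i (inr_mem_disjSum.1 hg)
      rw [link_p2, lx_eq_zero]
      exact ⟨by linarith [hi.1], by linarith [hi.2]⟩
  have hx : ∀ a ∈ s, ∀ j ∈ J, a ≠ Finsupp.single j 2 := fun a ha j hj e => by
    have := (mem_filter.1 (A.sub ha)).2
    rw [e, ND.dr, sum_eq_zero fun i _ => by
      by_cases o : i = j
      · rw [o, (A.h2 j hj).1, mul_zero]
      · rw [Finsupp.single_eq_of_ne o, Nat.cast_zero, zero_mul]] at this
    exact zero_ne_one this
  have hinj : Set.InjOn link_tf (s.disjSum J : Set (Gn n)) := by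
    rintro (a | i) ha (b | j) hb e
    · exact congrArg _ e
    · exact absurd e (hx a (inl_mem_disjSum.1 ha) j (inr_mem_disjSum.1 hb))
    · exact absurd e.symm (hx b (inl_mem_disjSum.1 hb) i (inr_mem_disjSum.1 ha))
    · exact congrArg _ (Finsupp.single_left_injective two_ne_zero e)
  have himg := link_img s J
  obtain ⟨sg, hsg⟩ : ∃ sg, sg = s.disjSum J := ⟨_, rfl⟩
  rw [← hsg] at hsub htight hinj himg
  obtain ⟨hind, l, hl⟩ := link_real himg hinj hC
  obtain ⟨F0, hF0, hF⟩ := hFACE n f h Φ u ω sg hsub hpos htight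
  obtain ⟨ξ, ν, t, c1, c2, c3, c4⟩ := hCAR n ((gens f).filter fun g => Φ.Ψ F0 (pt h g) = 0) sg
    fun g hg => mem_filter.2 ⟨hsub hg, hF g hg⟩
  obtain ⟨X1, hX1⟩ : ∃ X1, X1 = ((gens f).filter fun g => Φ.Ψ F0 (pt h g) = 0).filter
    fun b => ∑ i', ξ i' * wv b i' = 0 := ⟨_, rfl⟩
  rw [← hX1] at c4
  have mX : ∀ g, g ∈ X1 ↔ g ∈ gens f ∧ Φ.Ψ F0 (pt h g) = 0 ∧ ξ ⬝ᵥ wr g = 0 := fun g => by
    rw [hX1, mem_filter, mem_filter, and_assoc]
    rfl
  have sX : sg ⊆ X1 := fun g hg => (mX g).2 ⟨hsub hg, hF g hg, c2 g hg⟩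
  obtain ⟨μ, y, d1, d2, d3, d4⟩ := hLPD n X1 fun i => by
    by_contra hc
    push Not at hc
    have := hl i
    rw [sum_eq_zero fun b hb => by rw [hc b (sX hb), Nat.cast_zero, mul_zero]] at this
    exact zero_ne_one this
  have mem : ∀ g ∈ sg, link_tf g ∈ NC.vs s J := fun g hg => by
    rw [← mem_coe, ← himg]
    exact ⟨g, hg, rfl⟩
  have noU : ∀ a ∈ sg, ∀ i, wv a i = 1 → (∀ b ∈ sg, b ≠ a → wv b i = 0) →
      ∃ i', i' ≠ i ∧ wv a i' ≠ 0 ∧ ∀ b ∈ sg, b ≠ a → wv b i' = 0 := fun a ha i a1 a2 => by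
    have := hU (link_tf a)
    simp only [ND.UApex, not_and, not_exists, not_forall] at this
    rw [link_wv] at a1
    obtain ⟨i', b1, b2⟩ := this (mem a ha) i a1 ⟨a1.trans_ne one_ne_zero, fun b hb o => by
      rw [← mem_coe, ← himg] at hb
      obtain ⟨g, hg, rfl⟩ := hb
      rw [← link_wv]
      exact a2 g hg fun e => o (congrArg _ e)⟩
    refine ⟨i', b2, by rw [link_wv]; exact b1.1, fun b hb o => ?_⟩
    rw [link_wv]
    exact b1.2 _ (mem b hb) fun e => o (hinj hb ha e)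
  refine ⟨⟨Φ, F0, X1, ξ, μ, y, hF0, mX, fun g hg e => c1 g (mem_filter.2 ⟨hg, e⟩),
    fun b hb => (d1 b hb).1, fun i => (d2 i).1, fun b hb => (d1 b hb).2, fun i => (d2 i).2.1,
    fun i => (d2 i).2.2, d3, d4, ⟨fun b => if b ∈ sg then l b else 0, fun i => ?_⟩,
    fun T hT => ?_⟩, ?_⟩
  · rw [← hl i, ← sum_subset sX fun b _ hb => by simp only [if_neg hb, zero_mul]]
    exact sum_congr rfl fun b hb => by simp only [if_pos hb]
  · refine hLEMC n X1 sg (univ.filter fun i => 0 < y i) T μ ν l t sX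
      (fun i hi => mem_filter.2 ⟨mem_univ i, (hT i hi).1⟩) hind hl noU (fun b hb => ?_) c4
      (fun i hi => (d2 i).2.2.1 (mem_filter.1 hi).2)
      (fun i hi => (d2 i).2.1.lt_of_ne fun e => hi (mem_filter.2 ⟨mem_univ i, (d2 i).2.2.2 e.symm⟩))
      (fun i hi b hb o => ⟨((hT i hi).2 b hb o).1, fun i' hi' =>
        ((hT i hi).2 b hb o).2 i' (mem_filter.1 hi').2⟩) T Subset.rfl
    rw [hX1] at hb
    exact c3 b (mem_filter.1 hb).1 (mem_filter.1 hb).2
  · have := link_span hC (Φ.u F0 - u) fun b hb => by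
      rw [← mem_coe, ← himg] at hb
      obtain ⟨g, hg, rfl⟩ := hb
      have e1 := (lx_eq_zero.1 (hF g hg)).1
      have e2 := (lx_eq_zero.1 (htight g hg)).1
      rw [ps_apply, rv_pt] at e1 e2
      simp only [← link_wv]
      change (Φ.u F0 - u) ⬝ᵥ wr g = 0
      rw [sub_dotProduct]
      linarith
    change ∑ i, Φ.u F0 i = α
    rw [← hα, ← sub_eq_zero, ← sum_sub_distrib]
    exact this

end Pool.Agent.P.MP_9321be_ag.SG
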