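import Pool.Agent.P.MP_9321be_ag.SG.Iface

/-! Step MAINB. -/

set_option autoImplicit false
set_option linter.unusedSectionVars false

namespace Pool.Agent.P.MP_9321be_ag.SG

open Finset SM

theorem p_MAINB (hWN : S_WN) (hWEYL : S_WEYL) (hS2 : S_S2) (hG0 : S_G0) (hR1 : S_R1) (hX1 : S_X1) (hR2 : S_R2) (hX2 : S_X2) (hCHI : S_CHI) (hEV : S_EV) :
    S_MAINB := by
  intro n f h D hn b hb
  by_contra hne
  obtain ⟨g, g0, hg⟩ := hWN n f b hb
  have h1 := (hS2 n f h D).2 _ _ (by simpa using hne) (hG0 n f g h D).1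
    (hWEYL n f g h b D.α _ D.B0 hg D.cl_B0 (hS2 n f h D).1)
  have h2 : e D.P0 ∈ EE f h (fun i => D.R0 ∩ DJ D.I {i}) D.B0 := by
    have := sub_mem h1 (EE_of_mem (hG0 n f g h D).2)
    rw [sub_sub_cancel] at this
    exact (Submodule.smul_mem_iff _ g0).1 this
  obtain ⟨z, z1, z2⟩ := hX2 n f h D hn (hR2 n f h D (hX1 n f h D hn (hR1 n f h D h2)))
  obtain ⟨x, x1, x2⟩ := hCHI n f h D hn
  exact hEV n f h D x x1 x2 z z1 z2

end Pool.Agent.P.MP_9321be_ag.SG
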