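import Pool.Agent.P.MP_9321be_ag.SG.Iface

/-! Step NIL. -/

set_option autoImplicit false
set_option linter.unusedSectionVars false

namespace Pool.Agent.P.MP_9321be_ag.SG

open Finset SM

variable {n : ℕ} {f : MvPolynomial (Fin n) ℂ} {h : Fin n → ℝ} {D : Dat f h}

/-- The points that are off the cells of `T`. -/
def nil_W (D : Dat f h) (T : Finset (Finset (Gn n))) : Set (L n) :=
  {p | p ∈ D.R0 ∩ DJ D.I ∅ ∧ ∀ S ∈ T, D.Ψ S p ≠ 0}

theorem nil_step {T : Finset (Finset (Gn n))} {S : Finset (Gn n)} (hT : insert S T ⊆ D.F1)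
    {φ : L n →+ ℝ} (hφ : ∀ p, D.Ψ S p = 0 → φ p = 0) {z : R n} (hz : z ∈ sp (nil_W D T)) :
    Dp f h φ z ∈ sp (nil_W D (insert S T)) :=
  map_mem _ (fun p hp => by
    rw [Dp_apply, nd_e, th_mul_e]
    refine add_mem ?_ (sum_mem fun g hg => ?_)
    · by_cases e : D.Ψ S p = 0
      · simp [hφ p e]
      · exact Submodule.smul_mem _ _ (e_mem ⟨hp.1, (forall_mem_insert _ _ _).2 ⟨e, hp.2⟩⟩)
    · by_cases e : D.Ψ S (pt h g) = 0
      · simp [hφ _ e]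
      · exact Submodule.smul_mem _ _ (e_mem ⟨(Dat.cl_R0.inter (cl_DJ _ _)) p hp.1 g hg,
          (forall_mem_insert _ _ _).2 ⟨fun c => e (Dat.Ψ_add_zero hp.1.1 (D.pt_Gam hg)
            (hT (mem_insert_self S T)) c).2, fun S' hS' c => hp.2 S' hS' (Dat.Ψ_add_zero hp.1.1
            (D.pt_Gam hg) (hT (mem_insert_of_mem hS')) c).1⟩⟩)) hz

theorem nil_dt (w : Fin n → ℝ) {z : R n} (hz : z ∈ sp (D.R0 ∩ DJ D.I ∅)) :
    Dp f h (dt w) z ∈ EE f h (fun i => D.R0 ∩ DJ D.I {i}) D.B0 :=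
  Dp_dt_mem w fun _ => sp_mono (Set.inter_subset_inter_right _ (DJ_mono (empty_subset _))) hz

theorem nil_main (ψ : L n →+ ℝ) (H : ∀ S ∈ D.F1, ∃ φ : L n →+ ℝ, (∀ p, D.Ψ S p = 0 → φ p = 0) ∧
    ∀ z ∈ sp (D.R0 ∩ DJ D.I ∅), Dp f h ψ z - Dp f h φ z ∈
      EE f h (fun i => D.R0 ∩ DJ D.I {i}) D.B0) {x : R n} (hx : x ∈ sp (D.R0 ∩ DJ D.I ∅)) :
    (Dp f h ψ ^ D.F1.card) x ∈ EE f h (fun i => D.R0 ∩ DJ D.I {i}) D.B0 := by
  have key : ∀ T ⊆ D.F1, ∃ z ∈ sp (nil_W D T),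
      (Dp f h ψ ^ T.card) x - z ∈ EE f h (fun i => D.R0 ∩ DJ D.I {i}) D.B0 := fun T hT => by
    induction T using Finset.induction_on with
    | empty => exact ⟨x, sp_mono (fun p hp => by exact ⟨hp, by simp⟩) hx, by simp⟩
    | insert S T hS ih =>
      obtain ⟨z, a, b⟩ := ih ((subset_insert S T).trans hT)
      obtain ⟨φ, c, d⟩ := H S (hT (mem_insert_self S T))
      refine ⟨_, nil_step hT c a, ?_⟩
      have e := add_mem (EE_Dp (fun i => Dat.cl_R0.inter (cl_DJ _ _)) Dat.cl_B0 ψ b)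
        (d z (sp_mono (fun p hp => hp.1) a))
      rw [map_sub, sub_add_sub_cancel] at e
      rwa [card_insert_of_notMem hS, pow_succ', Module.End.mul_apply]
  obtain ⟨z, a, b⟩ := key _ subset_rfl
  simpa using add_mem b (EE_of_mem (sp_mono (fun p hp => by exact ⟨hp.1.1, hp.2⟩) a))

theorem p_NIL :
    S_NIL := by
  refine fun n f h D w => ⟨D.F1.card, fun x hx => ⟨nil_main _ (fun S _ => ⟨ps (D.u S),
    fun p e => (lx_eq_zero.1 e).1, fun z hz => ?_⟩) hx, nil_main _ (fun S _ => ⟨p2 (D.ω S),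
    fun p e => (lx_eq_zero.1 e).2, fun z hz => ?_⟩) hx, nil_main _ (fun S _ => ⟨kk - dt (D.u S),
    fun p e => sub_eq_zero.2 (sub_eq_zero.1 (lx_eq_zero.1 e).1).symm, fun z hz => ?_⟩) hx⟩⟩
  · simpa only [ps, Dp_sub, LinearMap.sub_apply, sub_sub_sub_cancel_right] using
      sub_mem (nil_dt w hz) (nil_dt (D.u S) hz)
  · simpa only [p2, Dp_sub, LinearMap.sub_apply, sub_sub_sub_cancel_right] using
      sub_mem (nil_dt w hz) (nil_dt (D.ω S) hz)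
  · simpa only [Dp_sub, LinearMap.sub_apply, sub_sub_cancel] using nil_dt (D.u S) hz

end Pool.Agent.P.MP_9321be_ag.SG
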