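import Pool.Agent.P.MP_9321be_ag.SG.Iface

/-! Step NST. -/

set_option autoImplicit false
set_option linter.unusedSectionVars false

namespace Pool.Agent.P.MP_9321be_ag.SG

open Finset SM

variable {n : ℕ} {f : MvPolynomial (Fin n) ℂ} {h : Fin n → ℝ}

/-- The ideal of the `th`, modulo the points on no cell. -/
def nst_I (Φ : Fan f h) : Submodule ℂ (R n) where
  carrier := {x | ∃ s : Fin n → R n, (∀ i, s i ∈ sp Φ.Gam) ∧
    x - ∑ i, s i * th f h (mi i) ∈ sp Φ.Gam0}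
  zero_mem' := ⟨0, fun _ => zero_mem _, by simp⟩
  add_mem' := by
    rintro x y ⟨z, h1, h2⟩ ⟨w, h3, h4⟩
    refine ⟨z + w, fun i => add_mem (h1 i) (h3 i), ?_⟩
    convert add_mem h2 h4 using 1
    simp only [Pi.add_apply, add_mul, sum_add_distrib]
    abel
  smul_mem' := by
    rintro c x ⟨z, h1, h2⟩
    refine ⟨c • z, fun i => Submodule.smul_mem _ _ (h1 i), ?_⟩
    convert Submodule.smul_mem _ c h2 using 1
    simp only [Pi.smul_apply, smul_mul_assoc, smul_sub, smul_sum]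

variable {Φ : Fan f h}

theorem nst_mul0 {x y : R n} (hx : x ∈ sp Φ.Gam) (hy : y ∈ sp Φ.Gam) : x * y ∈ sp Φ.Gam :=
  mul_mem (fun _ hp _ hq => Φ.Gam_add hp hq) hx hy

theorem nst_pow {x : R n} (hx : x ∈ sp Φ.Gam) (k : ℕ) : x ^ k ∈ sp Φ.Gam := by
  induction k with
  | zero => simpa using e_mem Φ.zero_Gam
  | succ k ih => rw [pow_succ]; exact nst_mul0 ih hx

theorem nst_mulI {x y : R n} (hx : x ∈ sp Φ.Gam) (hy : y ∈ nst_I Φ) : x * y ∈ nst_I Φ := by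
  obtain ⟨s, h1, h2⟩ := hy
  refine ⟨fun i => x * s i, fun i => nst_mul0 hx (h1 i), ?_⟩
  convert mul_mem (C := Φ.Gam0) (fun p hp q hq => add_comm q p ▸ Φ.Gam0_add hq hp) hx h2 using 1
  simp only [mul_sub, mul_sum, mul_assoc]

theorem nst_ge {x : R n} (hx : x ∈ sp Φ.Gam) {N M : ℕ} (a : x ^ N ∈ nst_I Φ) (hM : N ≤ M) :
    x ^ M ∈ nst_I Φ := by
  rw [← Nat.sub_add_cancel hM, pow_add]; exact nst_mulI (nst_pow hx _) a

/-- Its radical. -/
def nst_R (Φ : Fan f h) : Submodule ℂ (R n) where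
  carrier := {x | x ∈ sp Φ.Gam ∧ ∃ N, x ^ N ∈ nst_I Φ}
  zero_mem' := ⟨zero_mem _, 1, by simp⟩
  add_mem' := by
    rintro x y ⟨h1, N, h2⟩ ⟨h3, M, h4⟩
    refine ⟨add_mem h1 h3, N + M, ?_⟩
    rw [add_pow]
    refine sum_mem fun m _ => ?_
    rw [mul_comm, ← nsmul_eq_mul]
    refine nsmul_mem ?_ _
    by_cases a : N ≤ m
    · rw [mul_comm]; exact nst_mulI (nst_pow h3 _) (nst_ge h1 h2 a)
    · exact nst_mulI (nst_pow h1 _) (nst_ge h3 h4 (by omega))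
  smul_mem' := by
    rintro c x ⟨h1, N, h2⟩
    exact ⟨Submodule.smul_mem _ _ h1, N, by rw [smul_pow]; exact Submodule.smul_mem _ _ h2⟩

theorem nst_ps {p : L n} {S : Finset (Gn n)} (hp : p ∈ Φ.Gam) (hS : S ∈ Φ.FF) :
    0 ≤ ps (Φ.u S) p := (lx_nonneg.1 (hp.1 S hS)).elim le_of_lt fun a => a.1.ge

theorem nst_ev (a : ℝ) {b : ℝ} (hb : 0 < b) : ∀ᶠ K : ℕ in Filter.atTop, 0 < a + K * b :=
  (tendsto_natCast_atTop_atTop.eventually_gt_atTop (-a / b)).mono fun K hK => by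
    rw [div_lt_iff₀ hb] at hK
    linarith

/-- Far in the direction `γ` the points of the span of its face lie inside the face. -/
theorem nst_far {γ q : L n} (hγ : γ ∈ Φ.Gam) (hq : q ∈ Φ.Sp γ) :
    ∀ᶠ K : ℕ in Filter.atTop, K • γ + q ∈ Φ.Gam ∧ γ ∈ Φ.Sp (K • γ + q) := by
  have h1 : ∀ S ∈ Φ.FF, ∀ᶠ K : ℕ in Filter.atTop, 0 ≤ Φ.Ψ S (K • γ + q) ∧
      (ps (Φ.u S) (K • γ + q) = 0 → ps (Φ.u S) γ = 0) ∧
      (Φ.Ψ S (K • γ + q) = 0 → Φ.Ψ S γ = 0) := fun S hS => by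
    rcases lx_nonneg.1 (hγ.1 S hS) with a | ⟨a, b⟩
    · refine (nst_ev (ps (Φ.u S) q) a).mono fun K hK => ?_
      have c : 0 < ps (Φ.u S) (K • γ + q) := by
        rw [map_add, map_nsmul, nsmul_eq_mul]; linarith
      exact ⟨lx_nonneg.2 (.inl c), fun d => absurd d c.ne',
        fun d => absurd (lx_eq_zero.1 d).1 c.ne'⟩
    · have c : ∀ K : ℕ, ps (Φ.u S) (K • γ + q) = 0 := fun K => by
        rw [map_add, map_nsmul, a, hq.1 S hS a]; simp
      rcases b.eq_or_lt with b | b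
      · have d : Φ.Ψ S γ = 0 := lx_eq_zero.2 ⟨a, b.symm⟩
        refine .of_forall fun K => ⟨?_, fun _ => a, fun _ => d⟩
        rw [map_add, map_nsmul, d, hq.2.1 S hS d]; simp
      · refine (nst_ev (p2 (Φ.ω S) q) b).mono fun K hK => ?_
        have d : 0 < p2 (Φ.ω S) (K • γ + q) := by
          rw [map_add, map_nsmul, nsmul_eq_mul]; linarith
        exact ⟨lx_nonneg.2 (.inr ⟨c K, d.le⟩), fun _ => a,
          fun o => absurd (lx_eq_zero.1 o).2 d.ne'⟩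
  have h2 : ∀ i, ∀ᶠ K : ℕ in Filter.atTop, 0 ≤ (K • γ + q).2.1 i ∧
      ((K • γ + q).2.1 i = 0 → γ.2.1 i = 0) := fun i => by
    rcases (hγ.2 i).eq_or_lt with a | a
    · exact .of_forall fun K => ⟨by simp [← a, hq.2.2 i a.symm], fun _ => a.symm⟩
    · refine (nst_ev (mi i q) (b := mi i γ) (by simpa [mi_apply] using a)).mono fun K hK => ?_
      have c : 0 < mi i (K • γ + q) := by
        rw [map_add, map_nsmul, nsmul_eq_mul]; linarith
      rw [mi_apply, Int.cast_pos] at c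
      exact ⟨c.le, fun d => absurd d c.ne'⟩
  filter_upwards [(Filter.eventually_all_finset _).2 h1, Filter.eventually_all.2 h2] with K a b
  exact ⟨⟨fun S hS => (a S hS).1, fun i => (b i).1⟩, fun S hS => (a S hS).2.1,
    fun S hS => (a S hS).2.2, fun i => (b i).2⟩

open Classical in
/-- The tight constraints. -/
noncomputable def nst_T (Φ : Fan f h) (γ : L n) :
    Finset ((Finset (Gn n) ⊕ Finset (Gn n)) ⊕ Fin n) :=
  ((Φ.FF.filter fun S => ps (Φ.u S) γ = 0).disjSum (Φ.FF.filter fun S => Φ.Ψ S γ = 0)).disjSum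
    (univ.filter fun i => γ.2.1 i = 0)

theorem nst_sub {γ q : L n} : nst_T Φ γ ⊆ nst_T Φ q ↔ q ∈ Φ.Sp γ := by
  simp only [nst_T, subset_iff, Sum.forall, inl_mem_disjSum, inr_mem_disjSum, mem_filter, mem_univ,
    true_and, and_imp, and_assoc]
  exact ⟨fun a => ⟨fun S hS b => (a.1 S hS b).2, fun S hS b => (a.2.1 S hS b).2, a.2.2⟩,
    fun a => ⟨fun S hS b => ⟨hS, a.1 S hS b⟩, fun S hS b => ⟨hS, a.2.1 S hS b⟩, a.2.2⟩⟩

theorem nst_add {p q : L n} (hp : p ∈ Φ.Gam) (hq : q ∈ Φ.Gam) : p ∈ Φ.Sp (p + q) :=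
  ⟨fun S hS a => by
    rw [map_add] at a
    linarith [nst_ps hp hS, nst_ps hq hS],
  fun S hS a => by
    rw [map_add] at a
    exact ((add_eq_zero_iff_of_nonneg (hp.1 S hS) (hq.1 S hS)).1 a).1,
  fun i a => ((add_eq_zero_iff_of_nonneg (hp.2 i) (hq.2 i)).1 a).1⟩

theorem nst_main (hTOR : S_TOR) (hf : ND.Nondeg f) (k : ℕ) : ∀ γ ∈ Φ.Gam, γ.2.1 ≠ 0 →
    (nst_T Φ γ).card < k → e γ ∈ nst_R Φ := by
  induction k with
  | zero => exact fun _ _ _ a => absurd a (Nat.not_lt_zero _)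
  | succ k ih =>
    intro γ hγ hm hk
    by_cases h0 : ∃ S ∈ Φ.FF, Φ.Ψ S γ = 0
    swap
    · exact ⟨e_mem hγ, 1, 0, fun _ => zero_mem _, by
        simpa using e_mem (A := Φ.Gam0) ⟨hγ, fun S hS a => h0 ⟨S, hS, a⟩⟩⟩
    obtain ⟨s, h1, h2⟩ := hTOR n f h Φ hf γ hγ h0 hm
    obtain ⟨K, hK⟩ : ∃ K : ℕ, ∀ i, ∀ q ∈ (s i).coeff.support,
        K • γ + q ∈ Φ.Gam ∧ γ ∈ Φ.Sp (K • γ + q) :=
      (Filter.eventually_all.2 fun i => (Filter.eventually_all_finset _).2 fun q hq =>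
        nst_far hγ (mem_sp.1 (h1 i) q hq)).exists
    have c1 : ∀ i, e (K • γ) * s i ∈ sp {p | p ∈ Φ.Gam ∧ γ ∈ Φ.Sp p} := fun i =>
      mul_mem (A := {K • γ}) (fun p hp q hq => by
        rw [Set.mem_singleton_iff.1 hp]; exact hK i q hq) (e_mem rfl) (mem_sp_self _)
    have c2 : ∀ i, e (K • γ) * s i ∈ sp Φ.Gam := fun i => sp_mono (fun _ hp => hp.1) (c1 i)
    have c3 : ∀ i, th f h (mi i) ∈ sp (pt h '' (gens f : Set (Gn n))) := fun i =>
      sum_mem fun g hg => Submodule.smul_mem _ _ (e_mem ⟨g, hg, rfl⟩)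
    have c4 : ∀ i, e (K • γ) * s i * (th f h (mi i) - fl (Φ.Sp γ) (th f h (mi i))) ∈ nst_R Φ := by
      intro i
      refine map_mem (A := {r | e r ∈ nst_R Φ}) LinearMap.id (fun _ a => a)
        (mul_mem ?_ (c1 i) (sub_fl_mem _ (c3 i)))
      rintro p ⟨p1, p2⟩ _ ⟨⟨g, hg, rfl⟩, g1⟩
      have a2 := Φ.pt_Gam hg
      have a3 : nst_T Φ (p + pt h g) ⊆ nst_T Φ γ :=
        (nst_sub.2 (nst_add p1 a2)).trans (nst_sub.2 p2)
      refine ih _ (Φ.Gam_add p1 a2) (fun a => hm (funext fun j =>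
        (nst_sub.1 a3).2.2 j (congrFun a j))) ?_
      have : nst_T Φ (p + pt h g) ⊂ nst_T Φ γ := ⟨a3, fun b => g1 (nst_sub.1
        (b.trans (nst_sub.2 (add_comm (pt h g) p ▸ nst_add a2 p1))))⟩
      have := card_lt_card this
      omega
    have c5 : ∑ i, e (K • γ) * s i * th f h (mi i) ∈ nst_R Φ :=
      ⟨sum_mem fun i _ => nst_mul0 (c2 i)
        (sp_mono (by rintro _ ⟨g, hg, rfl⟩; exact Φ.pt_Gam hg) (c3 i)), 1, _, c2, by simp⟩
    have c6 : e (K • γ) ∈ nst_R Φ := by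
      convert sub_mem c5 (sum_mem fun i (_ : i ∈ univ) => c4 i) using 1
      simp only [mul_sub, sum_sub_distrib, sub_sub_cancel, mul_assoc, ← mul_sum, h2, mul_one]
    obtain ⟨-, N, hN⟩ := c6
    exact ⟨e_mem hγ, K * N, by rwa [pow_mul, ← e_nsmul]⟩

theorem p_NST (hTOR : S_TOR) :
    S_NST := by
  intro n f h Φ hf
  have a : ∀ j ∈ Φ.VS, e (pt h j) ∈ nst_R Φ := fun j hj => by
    obtain ⟨i, hi⟩ := Φ.nz j (Φ.VS_sub hj)
    exact nst_main hTOR hf _ _ (Φ.pt_Gam (Φ.VS_sub hj))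
      (fun b => hi (by simpa [pt] using congrFun b i)) (Nat.lt_succ_self _)
  obtain ⟨M, h1, h2⟩ := ((Filter.eventually_gt_atTop 0).and ((Filter.eventually_all_finset _).2
    fun j hj => ((a j hj).2.elim fun N hN => (Filter.eventually_ge_atTop N).mono
      fun M hM => nst_ge (a j hj).1 hN hM :
        ∀ᶠ M in Filter.atTop, e (pt h j) ^ M ∈ nst_I Φ))).exists
  refine ⟨M, h1, fun j hj => ?_⟩
  rw [Fan.bb, e_nsmul]
  exact nst_ge (a j hj).1 (h2 j hj) (Nat.le_mul_of_pos_right _ (Φ.Npos j))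

end Pool.Agent.P.MP_9321be_ag.SG
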