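import Pool.Agent.P.MP_9321be_ag.SG.Iface

/-! Step PIECE. -/

set_option autoImplicit false
set_option linter.unusedSectionVars false

namespace Pool.Agent.P.MP_9321be_ag.SG

open Finset SM

variable {n : ℕ} {f : MvPolynomial (Fin n) ℂ} {h : Fin n → ℝ} (Φ : Fan f h)

theorem piece_rv (M : ℕ) (j : Gn n) (p : L n) (q : Fin n → ℝ) :
    rv (p + Φ.bb M j) - q = (rv p - q) + ((M * Φ.N j : ℕ) : ℝ) • wr j := by
  rw [rv_add, Fan.bb, rv_nsmul, rv_pt, add_sub_right_comm]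

theorem piece_in {y q : Fin n → ℝ} {S : Finset (Gn n)} (M : ℕ) {j : Gn n} (hj : j ∈ Φ.VT S)
    {p : L n} (hp : p ∈ Φ.Wp y q S) : p + Φ.bb M j ∈ Φ.Wp y q S := by
  obtain ⟨a, b⟩ := mem_filter.1 hj
  refine ⟨by rw [map_add, hp.1, Fan.bb, map_nsmul, b, nsmul_zero, add_zero], ?_⟩
  rw [piece_rv]
  exact Φ.H_add hp.2 (Φ.C_smul (Nat.cast_nonneg _) (Φ.C_wr (Φ.VS_sub a) b))

theorem piece_out {y q : Fin n → ℝ} {S : Finset (Gn n)} (hS : S ∈ Φ.FF) {M : ℕ} (hM : 0 < M)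
    {j : Gn n} (hj : j ∈ Φ.VS) (hj' : j ∉ Φ.VT S) {p : L n} (hp : p ∈ Φ.Wp y q S) :
    p + Φ.bb M j ∉ Φ.Wp y q S := fun c => by
  have a := c.1
  rw [map_add, hp.1, zero_add, Fan.bb, map_nsmul] at a
  have b : 0 < Φ.Ψ S (pt h j) :=
    (Φ.Ψ_pos hS (Φ.VS_sub hj)).lt_of_ne' fun e => hj' (mem_filter.2 ⟨hj, e⟩)
  exact (nsmul_pos b (Nat.mul_pos hM (Φ.Npos j)).ne').ne' a

theorem piece_phi {q : Fin n → ℝ} {S : Finset (Gn n)} (hS : S ∈ Φ.FF) (M : ℕ) {j : Gn n}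
    (hj : j ∈ Φ.VT S) (p : L n) :
    Φ.phi S (rv (p + Φ.bb M j) - q) ≤ Φ.phi S (rv p - q) + M * Φ.c := by
  obtain ⟨a, b⟩ := mem_filter.1 hj
  obtain ⟨S', c1, c2, c3⟩ := Φ.exists_phi hS (rv (p + Φ.bb M j) - q)
  have d1 := Φ.le_phi (x := rv p - q) c1 c2
  have d2 := Φ.v_nonneg c1 (Φ.VS_sub a) (Φ.Ψ_congr c2 ▸ b)
  have d3 := mul_nonneg (Nat.cast_nonneg (α := ℝ) (M * Φ.N j)) d2
  rw [c3, piece_rv, dotProduct_add, dotProduct_smul, smul_eq_mul, ← Φ.Na j (Φ.VS_sub a)]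
  push_cast at d3 ⊢
  nlinarith

theorem piece_eta (t : Gn n → ℂ) (M : ℕ) (r : Fin n) (p : L n) :
    Φ.eta t M r * e p = ∑ j ∈ Φ.VS, t j ^ r.1 • e (p + Φ.bb M j) := by
  simp only [Fan.eta, sum_mul, smul_mul_assoc, e_add]
  simp only [mul_comm]

theorem p_PIECE (hGRR : S_GRR) (hREES : S_REES) (hHAT : S_HAT) (hFINL : S_FINL) :
    S_PIECE := by
  classical
  intro n f h Φ y q t M B hM ht hy S hS hd hB hW
  have out : ∀ p ∈ Φ.Wp y q S, ∀ j ∈ Φ.VS, j ∉ Φ.VT S → p + Φ.bb M j ∈ B := fun p hp j hj hj' =>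
    (hW p hp j hj).resolve_left (piece_out Φ hS hM hj hj' hp)
  refine hGRR n _ _ B (fun p => Φ.phi S (rv p - q)) (M * Φ.c) (hFINL n f h Φ y q S hS)
    (fun r x hx => ?_) (fun r s x hx => ?_) ?_
  · refine map_mem (LinearMap.mulLeft ℂ (Φ.eta t M r)) (fun p hp => ?_) hx
    rw [LinearMap.mulLeft_apply, piece_eta]
    exact sum_mem fun j hj => Submodule.smul_mem _ _ (e_mem (hB p hp j hj))
  · refine map_mem (LinearMap.mulLeft ℂ (Φ.eta t M r)) (fun p hp => ?_) hx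
    rw [LinearMap.mulLeft_apply, piece_eta]
    refine sum_mem fun j hj => Submodule.smul_mem _ _ (e_mem ?_)
    by_cases c : j ∈ Φ.VT S
    · exact Or.inl ⟨piece_in Φ M c hp.1, (piece_phi Φ hS M c p).trans (by linarith [hp.2])⟩
    · exact Or.inr (out p hp.1 j hj c)
  · refine hREES n (Φ.VT S) (Φ.bb M) (fun r j => t j ^ r.1) _ _ B _ _ (fun p hp p' hp' a b => ?_)
      hd (fun p hp j hj => piece_in Φ M hj hp) (fun r p hp => ?_) (hHAT n f h Φ y q t M hM ht hy S hS)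
    · have c := (lx_eq_zero.1 (Φ.Ψ_lx S p ▸ hp.1)).2
      have d := (lx_eq_zero.1 (Φ.Ψ_lx S p' ▸ hp'.1)).2
      have e : rv p = rv p' := by ext i; simp [rv, b]
      rw [p2_apply] at c d
      rw [e] at c
      exact Prod.ext a (Prod.ext b (by linarith))
    · have c : Φ.VT S ⊆ Φ.VS := filter_subset _ _
      rw [piece_eta, ← sum_sdiff c, add_sub_cancel_right]
      exact sum_mem fun j hj => Submodule.smul_mem _ _
        (e_mem (out p hp j (mem_sdiff.1 hj).1 (mem_sdiff.1 hj).2))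

end Pool.Agent.P.MP_9321be_ag.SG
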