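import Pool.Agent.P.MP_9321be_ag.SG.Iface

/-! Step PIV. -/

set_option autoImplicit false
set_option linter.unusedSectionVars false

namespace Pool.Agent.P.MP_9321be_ag.SG

open Finset SM

theorem piv_bas {n : ℕ} {X S : Finset (Gn n)} {D : Gn n → Fin n → ℝ} (hS : S ⊆ X) (hd : DB S D)
    {j g : Gn n} (hj : j ∈ S) (hg : g ∈ X) (hgS : g ∉ S) (ha : D j ⬝ᵥ wr g ≠ 0) :
    Bas X (insert g (S.erase j)) := by
  have h1 : g ∉ S.erase j := fun e => hgS (mem_of_mem_erase e)
  refine ⟨insert_subset hg ((erase_subset _ _).trans hS), ?_, fun μ hμ => ?_⟩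
  · rw [card_insert_of_notMem h1, card_erase_add_one hj, hd.card]
  have h2 : ∀ k ∈ S, μ g * (D k ⬝ᵥ wr g) + ∑ b ∈ S.erase j, μ b * (if k = b then 1 else 0) = 0 := by
    intro k hk
    have : ∑ b ∈ insert g (S.erase j), μ b * (D k ⬝ᵥ wr b) =
        ∑ i, D k i * ∑ b ∈ insert g (S.erase j), μ b * wv b i := by
      simp only [dotProduct, mul_sum, wr]
      rw [sum_comm]
      exact sum_congr rfl fun i _ => sum_congr rfl fun b _ => by ring
    rw [sum_insert h1, sum_congr rfl fun b hb => by rw [hd.dual k hk b (mem_of_mem_erase hb)]] at this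
    simpa [hμ] using this
  have h3 : μ g = 0 := by simpa [ha] using h2 j hj
  intro b hb
  rcases mem_insert.1 hb with rfl | hb
  · exact h3
  · simpa [h3, hb] using h2 b (mem_of_mem_erase hb)

theorem p_PIV (hPVW : S_PVW) :
    S_PIV := by
  intro n X H d hX hD hg S hS hp j hj
  have hd := hD S hS
  by_cases hT : (X.filter fun g => d S j ⬝ᵥ wr g < 0).Nonempty
  · obtain ⟨g, hg1, hm⟩ := exists_min_image _ (fun g => ex (d S) S H g / -(d S j ⬝ᵥ wr g)) hT
    obtain ⟨gX, ga⟩ := mem_filter.1 hg1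
    have gS : g ∉ S := fun e => by
      rw [hd.dual j hj g e] at ga
      split_ifs at ga <;> linarith
    have hB := piv_bas hS.1 hd hj gX gS ga.ne
    have ht : 0 < ex (d S) S H g / -(d S j ⬝ᵥ wr g) := div_pos (hp g gX gS) (neg_pos.2 ga)
    refine .inl ⟨g, gX, ga, hB, fun g' g'X g'S => lt_of_le_of_ne ?_ (hg _ hB g' g'X g'S).symm⟩
    have e : ex (d (insert g (S.erase j))) (insert g (S.erase j)) H g' = ex (d S) S H g' +
        (d S j ⬝ᵥ wr g') * (ex (d S) S H g / -(d S j ⬝ᵥ wr g)) := by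
      rw [ex, hPVW n S _ _ j g H _ hd (hD _ hB) hj ga.ne, ex.eq_def (d S) S H g']
      ring
    rw [e]
    by_cases h1 : g' ∈ S
    · have h2 : ex (d S) S H g' = 0 := by
        rw [ex, sum_congr rfl fun k hk => by rw [hd.dual k hk g' h1]]
        simp [h1]
      rw [h2, zero_add, hd.dual j hj g' h1]
      positivity
    · have h2 := hp g' g'X h1
      rcases lt_or_ge (d S j ⬝ᵥ wr g') 0 with h3 | h3
      · have h4 := (le_div_iff₀ (neg_pos.2 h3)).1 (hm g' (mem_filter.2 ⟨g'X, h3⟩))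
        linarith
      · positivity
  · have h0 : ∀ i, 0 ≤ d S j i := fun i => by
      have := not_lt.1 fun e => hT ⟨.inr i, mem_filter.2 ⟨hX i, e⟩⟩
      rw [dot_wr_inr] at this
      linarith
    have h1 := hd.dual j hj j hj
    rw [if_pos rfl] at h1
    obtain ⟨i, -, hi⟩ := exists_ne_zero_of_sum_ne_zero (h1.trans_ne one_ne_zero)
    obtain ⟨h2, h3⟩ := mul_ne_zero_iff.1 hi
    refine .inr ⟨i, (wr j i)⁻¹, inv_pos.2 ((wr_nonneg j i).lt_of_ne' h3), fun x => ?_⟩
    rw [hd.expand x i, sum_eq_single_of_mem j hj fun k hk e => ?_]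
    · change _ = _ * (_ * wr j i)
      field_simp
    · have h4 := hd.dual j hj k hk
      rw [if_neg e.symm] at h4
      have h5 := (sum_eq_zero_iff_of_nonneg fun i _ => mul_nonneg (h0 i) (wr_nonneg k i)).1 h4 i
        (mem_univ i)
      exact mul_eq_zero_of_right _ ((mul_eq_zero.1 h5).resolve_left h2)

end Pool.Agent.P.MP_9321be_ag.SG
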