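import Pool.Agent.P.MP_9321be_ag.SG.Iface

/-! Step PVW. -/

set_option autoImplicit false
set_option linter.unusedSectionVars false

namespace Pool.Agent.P.MP_9321be_ag.SG

open Finset SM

theorem p_PVW :
    S_PVW := by
  intro n S d d' j g H x hd hd' hj hg
  have hy : ∀ z : Fin n → ℝ,
      (∑ k ∈ S, H k • d k + (ex d S H g / -(d j ⬝ᵥ wr g)) • d j) ⬝ᵥ z =
        ∑ k ∈ S, (d k ⬝ᵥ z) * H k + (d j ⬝ᵥ z) * (ex d S H g / -(d j ⬝ᵥ wr g)) := fun z => by
    rw [add_dotProduct, sum_dotProduct, smul_dotProduct, smul_eq_mul, mul_comm]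
    congr 1
    exact sum_congr rfl fun k _ => by rw [smul_dotProduct, smul_eq_mul, mul_comm]
  rw [← hy x, hd'.dot]
  refine sum_congr rfl fun k hk => ?_
  congr 1
  rw [hy]
  rcases mem_insert.1 hk with rfl | hk
  · unfold ex
    field_simp
    ring
  · obtain ⟨h1, h2⟩ := mem_erase.1 hk
    rw [hd.dual j hj k h2, if_neg (Ne.symm h1), zero_mul, add_zero,
      sum_congr rfl fun m hm => by rw [hd.dual m hm k h2]]
    simp [h2]

end Pool.Agent.P.MP_9321be_ag.SG
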