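import Pool.Agent.P.MP_9321be_ag.SG.Iface

/-! Step R1. -/

set_option autoImplicit false
set_option linter.unusedSectionVars false

namespace Pool.Agent.P.MP_9321be_ag.SG

open Finset SM

theorem p_R1 (hRAISE : S_RAISE) :
    S_R1 := by
  classical
  intro n f h D hP
  obtain ⟨T, hT⟩ : ∃ T : Finset (Finset (Gn n) × Gn n),
      ∀ t, t ∈ T ↔ t.1 ∈ D.BB ∧ t.2 ∈ t.1 ∧ D.Wall t.1 t.2 :=
    ⟨(D.BB ×ˢ gens f).filter fun t => t.2 ∈ t.1 ∧ D.Wall t.1 t.2, fun t => by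
      rw [mem_filter, mem_product]
      exact ⟨fun a => ⟨a.1.1, a.2⟩, fun a => ⟨⟨a.1, D.sub _ (Dat.mem_BB.1 a.1).1 a.2.1⟩, a.2⟩⟩⟩
  have key : ∀ i p, p ∈ D.R1 ∩ DJ D.I {i} ↔ p ∈ D.R0 ∩ DJ D.I {i} ∧
      ∀ t ∈ T, D.Ψ t.1 p = 0 → dt (D.d t.1 t.2) p ∈ Set.Ici (0 : ℝ) := fun i p =>
    ⟨fun a => ⟨⟨a.1.1, a.2⟩, fun t ht b =>
      a.1.2 t.1 ((hT t).1 ht).1 b t.2 ((hT t).1 ht).2.1 ((hT t).1 ht).2.2⟩,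
      fun a => ⟨⟨a.1.1, fun S hS b j hj w => a.2 (S, j) ((hT _).2 ⟨hS, hj, w⟩) b⟩, a.1.2⟩⟩
  refine EE_mono (fun i p a => (key i p).2 a) subset_rfl (hRAISE n f h _ T
    (fun t => dt (D.d t.1 t.2)) (fun t p => D.Ψ t.1 p = 0) (fun _ => Set.Ici 0)
    (fun i => D.R0 ∩ DJ D.I {i}) D.B0 (D.R1 ∩ DJ D.I ∅)
    (fun _ _ => ⟨isUpperSet_Ici _, Set.nonempty_Ici⟩) (fun i => Dat.cl_R0.inter (cl_DJ _ _))
    Dat.cl_B0 (Dat.cl_R1.inter (cl_DJ _ _)) (fun t ht i p hp g hg a => ?_)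
    (fun t _ i p _ _ a b => a b.ge) (fun t _ => ⟨1, fun x hx => ?_⟩) _
    (e_mem ⟨Dat.B1_R1 D.P0_R3.1, D.P0_DJ _⟩) hP)
  · obtain ⟨b, c⟩ := Dat.Ψ_add_zero hp.1 (D.pt_Gam hg) (Dat.BB_F1 ((hT t).1 ht).1) a
    exact ⟨b, by rw [dt_pt]; exact ((hT t).1 ht).2.2 g hg c⟩
  · rw [pow_one]
    exact Dp_dt_mem _ fun i => sp_mono
      (fun p hp => (key i p).1 ⟨hp.1, DJ_mono (empty_subset _) hp.2⟩) hx

end Pool.Agent.P.MP_9321be_ag.SG
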