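import Pool.Agent.P.MP_9321be_ag.SG.Iface

/-! Step R2. -/

set_option autoImplicit false
set_option linter.unusedSectionVars false

namespace Pool.Agent.P.MP_9321be_ag.SG

open Finset SM

theorem r2_U (a x : ℝ) : x ∈ (if 0 < a then Set.Ioi a else Set.Ici a) ↔
    0 ≤ x - a ∧ (0 < a → 0 < x - a) := by
  by_cases c : 0 < a
  · rw [if_pos c, Set.mem_Ioi]
    exact ⟨fun e => ⟨by linarith, fun _ => by linarith⟩, fun e => by linarith [e.2 c]⟩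
  · rw [if_neg c, Set.mem_Ici]
    exact ⟨fun e => ⟨by linarith, fun o => absurd o c⟩, fun e => by linarith [e.1]⟩

theorem p_R2 (hRAISE : S_RAISE) :
    S_R2 := by
  classical
  intro n f h D hy
  set T : Finset (Finset (Gn n) × Gn n) :=
    (D.F2 ×ˢ gens f).filter fun t => t.2 ∈ t.1 ∧ D.Wall t.1 t.2 with hT
  have mT : ∀ t, t ∈ T ↔ t.1 ∈ D.F2 ∧ t.2 ∈ t.1 ∧ D.Wall t.1 t.2 := fun t => by
    rw [hT, mem_filter, mem_product]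
    exact ⟨fun e => ⟨e.1.1, e.2⟩, fun e =>
      ⟨⟨e.1, D.sub _ (Dat.mem_F2.1 e.1).1 e.2.1⟩, e.2⟩⟩
  have key : ∀ i : Fin n, {p | p ∈ D.B1 ∩ DJ D.I {i} ∧ ∀ t ∈ T, D.Ψ t.1 p = 0 →
      dt (D.d t.1 t.2) p ∈ (if 0 < D.d t.1 t.2 ⬝ᵥ D.q0 then Set.Ioi (D.d t.1 t.2 ⬝ᵥ D.q0)
        else Set.Ici (D.d t.1 t.2 ⬝ᵥ D.q0))} = D.R3 ∩ DJ D.I {i} := fun i => by
    ext p
    simp only [Set.mem_ofPred_eq, r2_U, dt_apply, ← dotProduct_sub, mT]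
    exact ⟨fun e => ⟨⟨e.1.1, fun S a b j c w => e.2 (S, j) ⟨a, c, w⟩ b⟩, e.1.2⟩,
      fun e => ⟨⟨e.1.1, e.2⟩, fun t a b => e.1.2 t.1 a.1 b t.2 a.2.1 a.2.2⟩⟩
  have := hRAISE n f h _ T (fun t => dt (D.d t.1 t.2)) (fun t p => D.Ψ t.1 p = 0)
    (fun t => if 0 < D.d t.1 t.2 ⬝ᵥ D.q0 then Set.Ioi (D.d t.1 t.2 ⬝ᵥ D.q0)
      else Set.Ici (D.d t.1 t.2 ⬝ᵥ D.q0)) (fun i => D.B1 ∩ DJ D.I {i}) D.B0 (D.R3 ∩ DJ D.I ∅)
    (fun t _ => by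
      split_ifs
      · exact ⟨isUpperSet_Ioi _, Set.nonempty_Ioi⟩
      · exact ⟨isUpperSet_Ici _, Set.nonempty_Ici⟩)
    (fun i => Dat.cl_B1.inter (cl_DJ _ _)) Dat.cl_B0 (Dat.cl_R3.inter (cl_DJ _ _))
    (fun t ht i p hp g hg e => by
      obtain ⟨a, -, w⟩ := (mT t).1 ht
      obtain ⟨b, c⟩ := Dat.Ψ_add_zero hp.1.1 (D.pt_Gam hg) (Dat.F2_F1 a) e
      exact ⟨b, by rw [dt_pt]; exact w g hg c⟩)
    (fun t ht i p hp e o z => o (by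
      obtain ⟨a, b, w⟩ := (mT t).1 ht
      obtain ⟨a, a'⟩ := Dat.mem_F2.1 a
      have : ¬ 0 < D.d t.1 t.2 ⬝ᵥ D.q0 := fun c => by
        obtain ⟨S, h1, s, h2, h3⟩ | ⟨k, c', h1, h2⟩ := D.wall_pivot a b w
        · refine hp.1.2 S (Dat.mem_BB.2 ⟨h1, ?_⟩) ?_
          · rw [Dat.dq, h3, add_sub_right_comm, ← Dat.dq, a', zero_add]
            exact lam_smul_pos c h2
          · rw [Fan.Ψ_eq, h3, add_sub_right_comm, ← Fan.Ψ_eq, e, ← dt_apply, z, zero_smul,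
              add_zero]
        · rw [h2] at c
          exact c.not_ge (mul_nonpos_of_nonneg_of_nonpos h1.le (D.q0_nonpos k))
      rw [r2_U, z]
      exact ⟨by linarith [not_lt.1 this], fun c => absurd c this⟩))
    (fun t _ => ⟨1, fun x hx => by
      rw [pow_one]
      exact Dp_dt_mem _ fun i => key i ▸ sp_mono
        (Set.inter_subset_inter_right _ (DJ_mono (empty_subset _))) hx⟩)
    _ (e_mem ⟨D.P0_R3, D.P0_DJ _⟩) hy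
  simpa only [key] using this

end Pool.Agent.P.MP_9321be_ag.SG
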