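import Pool.Agent.P.MP_9321be_ag.SG.Iface

/-! Step RAISE. -/

set_option autoImplicit false
set_option linter.unusedSectionVars false

namespace Pool.Agent.P.MP_9321be_ag.SG

open Finset SM

theorem p_RAISE (hPUSH : S_PUSH) :
    S_RAISE := by
  intro n f h ι T ψ On U A B M hU hA hB hM h1 h2 h3
  classical
  have cl : ∀ Q ⊆ T, ∀ i, Cl f h {p | p ∈ A i ∧ ∀ t ∈ Q, On t p → ψ t p ∈ U t} :=
    fun Q hQ i p hp g hg => ⟨hA i p hp.1 g hg, fun t ht c => by
      obtain ⟨a1, a2⟩ := h1 t (hQ ht) i p hp.1 g hg c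
      rw [map_add]
      exact (hU t (hQ ht)).1 (le_add_of_nonneg_right a2) (hp.2 t ht a1)⟩
  have key : ∀ Q ⊆ T, ∀ y ∈ sp M,
      y ∈ EE f h (fun i => {p | p ∈ A i ∧ ∀ t ∈ T \ Q, On t p → ψ t p ∈ U t}) B →
      y ∈ EE f h (fun i => {p | p ∈ A i ∧ ∀ t ∈ T, On t p → ψ t p ∈ U t}) B := fun Q hQ => by
    induction Q using Finset.induction_on with
    | empty => exact fun y _ hy => by simpa only [sdiff_empty] using hy
    | insert t Q _ ih =>
      intro y hy h0
      have ht := hQ (mem_insert_self t Q)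
      obtain ⟨β, b1, b2⟩ := hPUSH n f h (ψ t) (On t) (U t) _ B (hU t ht).1 (hU t ht).2
        (cl _ sdiff_subset) hB (fun i p hp => h1 t ht i p hp.1) (fun i p hp => h2 t ht i p hp.1)
        y h0
      have b3 := ih ((subset_insert t Q).trans hQ) _
        (aeval_mem (fun x hx => hM.Dp (ψ t) hx) β hy) (EE_mono (fun i p hp => by
          refine ⟨hp.1.1, fun s hs => ?_⟩
          rcases eq_or_ne s t with rfl | e
          · exact hp.2
          · exact hp.1.2 s (by simpa [e] using hs)) le_rfl b2)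
      obtain ⟨K, hK⟩ := h3 t ht
      obtain ⟨a, b, e⟩ : IsCoprime β (Polynomial.X ^ K) := IsCoprime.pow_right
        ((Polynomial.irreducible_X.coprime_iff_not_dvd.2 (by
          rwa [Polynomial.X_dvd_iff, Polynomial.coeff_zero_eq_eval_zero])).symm)
      have e' := congrArg (fun q => Polynomial.aeval (Dp f h (ψ t)) q y) e
      simp only [map_add, map_mul, map_one, Polynomial.aeval_X_pow, LinearMap.add_apply,
        Module.End.mul_apply, Module.End.one_apply] at e'
      rw [← e']
      exact add_mem (aeval_mem (fun x hx => EE_Dp (cl T Subset.rfl) hB _ hx) a b3)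
        (aeval_mem (fun x hx => EE_Dp (cl T Subset.rfl) hB _ hx) b (hK y hy))
  exact fun y hy h0 => key T Subset.rfl y hy
    (EE_mono (fun i p hp => by exact ⟨hp, by simp⟩) le_rfl h0)

end Pool.Agent.P.MP_9321be_ag.SG
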