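import Pool.Agent.P.MP_9321be_ag.SG.Iface

/-! Step REES. -/

set_option autoImplicit false
set_option linter.unusedSectionVars false

namespace Pool.Agent.P.MP_9321be_ag.SG

open Finset SM

variable {n : ℕ}

/-- Lifting to the level `s`. -/
noncomputable def rees_up (s : ℝ) : R n →ₗ[ℂ] R n := lin fun p => e (hat s p)

open Classical in
/-- Projection to the level `s` and descent to `W`. -/
noncomputable def rees_dn (W : Set (L n)) (s : ℝ) : R n →ₗ[ℂ] R n := lin fun q =>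
  if q.2.2 = s then (if h : ∃ p ∈ W, p.1 = q.1 ∧ p.2.1 = q.2.1 then e h.choose else 0) else 0

theorem rees_dn_e {W : Set (L n)} (hW : ∀ p ∈ W, ∀ q ∈ W, p.1 = q.1 → p.2.1 = q.2.1 → p = q)
    (s t : ℝ) {p : L n} (hp : p ∈ W) :
    rees_dn W s (e (hat t p)) = if t = s then e p else 0 := by
  have h : ∃ q ∈ W, q.1 = (hat t p).1 ∧ q.2.1 = (hat t p).2.1 := ⟨p, hp, rfl, rfl⟩
  have h' := h.choose_spec
  rw [rees_dn, lin_e, dif_pos h, hW _ h'.1 p hp h'.2.1 h'.2.2]
  rfl

theorem rees_mul (V : Finset (Gn n)) (b : Gn n → L n) (co : Gn n → ℂ) (p : L n) :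
    (∑ j ∈ V, co j • e (b j)) * e p = ∑ j ∈ V, co j • e (p + b j) := by
  simp only [sum_mul, smul_mul_assoc, e_add]
  simp only [mul_comm]

theorem rees_hat (s c : ℝ) (p q : L n) : hat s p + hat c q = hat (s + c) (p + q) := rfl

theorem rees_ab (a b c d : R n) : a - b - (a - c) + (b - d) = c - d := by abel

theorem rees_ab' (a b c : R n) : a - b - (c - b) = a - c := by abel

theorem p_REES :
    S_REES := by
  intro n V b co η W B φ c hW hD hb hη hR r s x y hx hy hz
  set η' : Fin n → R n := fun r => ∑ j ∈ V, co r j • e (b j) with hη'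
  set ηh : Fin n → R n := fun r => ∑ j ∈ V, co r j • e (hat c (b j)) with hηh
  have sub : ∀ {P : L n → Prop} {x : R n}, x ∈ sp {p | p ∈ W ∧ P p} → x ∈ sp W :=
    fun hx => sp_mono (fun _ h => h.1) hx
  have k1 : ∀ i (x : R n), rees_up (s + c) (η' i * x) = ηh i * rees_up s x := fun i x =>
    map_eq (rees_up (s + c) ∘ₗ LinearMap.mulLeft ℂ (η' i)) (LinearMap.mulLeft ℂ (ηh i) ∘ₗ rees_up s)
      (fun p _ => by
        simp only [LinearMap.comp_apply, LinearMap.mulLeft_apply, rees_up, lin_e, hη', hηh,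
          rees_mul, map_sum, map_smul, rees_hat]) (mem_sp_univ x)
  have k2 : ∀ i, ∀ x ∈ sp W, η i * x - η' i * x ∈ sp B := fun i x hx =>
    map_mem (LinearMap.mulLeft ℂ (η i) - LinearMap.mulLeft ℂ (η' i)) (fun p hp => by
      simpa only [LinearMap.sub_apply, LinearMap.mulLeft_apply, hη', rees_mul] using hη i p hp) hx
  have k3 : ∀ i, ∀ x ∈ sp W, η' i * x ∈ sp W := fun i x hx =>
    map_mem (LinearMap.mulLeft ℂ (η' i)) (fun p hp => by
      rw [LinearMap.mulLeft_apply, hη', rees_mul]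
      exact sum_mem fun j hj => Submodule.smul_mem _ _ (e_mem (hb p hp j hj))) hx
  have k4 : ∀ x ∈ sp {p | p ∈ W ∧ φ p ≤ s}, rees_up s x ∈ sp (Up0 W φ) := fun x hx =>
    map_mem _ (fun p hp => by
      rw [rees_up, lin_e]
      exact e_mem ⟨p, hp.1, s, hp.2, rfl⟩) hx
  have k5 : ∀ i, ∀ v ∈ sp (Up0 W φ), rees_dn W s (ηh i * v) = η' i * rees_dn W (s - c) v :=
    fun i v hv => map_eq (rees_dn W s ∘ₗ LinearMap.mulLeft ℂ (ηh i))
      (LinearMap.mulLeft ℂ (η' i) ∘ₗ rees_dn W (s - c)) (by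
        rintro _ ⟨p, hp, t, -, rfl⟩
        simp only [LinearMap.comp_apply, LinearMap.mulLeft_apply, hηh, rees_mul, map_sum, map_smul,
          rees_hat, rees_dn_e hW _ _ hp]
        rw [sum_congr rfl fun j hj => by rw [rees_dn_e hW _ _ (hb p hp j hj)]]
        by_cases ht : t = s - c
        · simp only [ht, sub_add_cancel, if_true, hη', rees_mul]
        · simp [ht, show t + c ≠ s from fun h => ht (by linarith)]) hv
  have z1 : η' r * x - ∑ i with i.1 < r.1, η' i * y i ∈ sp W :=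
    sub_mem (k3 r x (sub hx)) (sum_mem fun i _ => k3 i _ (sub (hy i)))
  have z2 : η' r * x - ∑ i with i.1 < r.1, η' i * y i ∈ sp ({p | p ∈ W ∧ φ p < s + c} ∪ B) := by
    have := add_mem (sub_mem hz (sp_mono Set.subset_union_right (k2 r x (sub hx))))
      (sum_mem (t := univ.filter fun i : Fin n => i.1 < r.1) fun i _ =>
        sp_mono Set.subset_union_right (k2 i _ (sub (hy i))))
    rwa [sum_sub_distrib, rees_ab] at this
  have z3 : rees_up (s + c) (η' r * x - ∑ i with i.1 < r.1, η' i * y i) ∈ sp (Up1 W φ) :=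
    map_mem _ (fun p hp => by
      rw [rees_up, lin_e]
      exact e_mem ⟨p, hp.1, s + c, (hp.2.resolve_right (Set.disjoint_left.1 hD hp.1)).2, rfl⟩)
      (mem_sp_inter.2 ⟨z1, z2⟩)
  simp only [map_sub, map_sum, k1] at z3
  obtain ⟨v, hv, hw⟩ := mem_Isp.1 (hR r _ (k4 x hx) (mem_Isp.2 ⟨_, fun i => k4 _ (hy i), z3⟩))
  have v1 : ∀ i, rees_dn W (s - c) (v i) ∈ sp {p | p ∈ W ∧ φ p ≤ s - c} := fun i =>
    map_mem _ (by
      rintro _ ⟨p, hp, t, ht, rfl⟩
      rw [rees_dn_e hW _ _ hp]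
      split_ifs with h
      exacts [e_mem ⟨hp, h ▸ ht⟩, zero_mem _]) (hv i)
  have w1 : rees_dn W s (rees_up s x - ∑ i with i.1 < r.1, ηh i * v i) ∈
      sp {p | p ∈ W ∧ φ p < s} := map_mem _ (by
    rintro _ ⟨p, hp, t, ht, rfl⟩
    rw [rees_dn_e hW _ _ hp]
    split_ifs with h
    exacts [e_mem ⟨hp, h ▸ ht⟩, zero_mem _]) hw
  have x1 : rees_dn W s (rees_up s x) = x :=
    map_eq (rees_dn W s ∘ₗ rees_up s) LinearMap.id (fun p hp => by
      rw [LinearMap.comp_apply, rees_up, lin_e, rees_dn_e hW _ _ hp, if_pos rfl]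
      rfl) (sub hx)
  rw [map_sub, map_sum, x1, sum_congr rfl fun i _ => k5 i _ (hv i)] at w1
  refine ⟨_, v1, ?_⟩
  have := sub_mem (sp_mono (Set.subset_union_left (t := B)) w1)
    (sum_mem (t := univ.filter fun i : Fin n => i.1 < r.1) fun i _ =>
      sp_mono Set.subset_union_right (k2 i _ (sub (v1 i))))
  rwa [sum_sub_distrib, rees_ab'] at this

end Pool.Agent.P.MP_9321be_ag.SG
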