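import Pool.Agent.P.MP_9321be_ag.SG.Iface

/-! Step REGF. -/

set_option autoImplicit false
set_option linter.unusedSectionVars false

namespace Pool.Agent.P.MP_9321be_ag.SG

open Finset SM

theorem p_REGF (hCHAIN : S_CHAIN) (hPIECE : S_PIECE) (hHKA : S_HKA) (hHKB : S_HKB) :
    S_REGF := by
  intro n f h Φ y q t M T A B hM ht hy hT hq hA hB h1 h2
  have e1 : ∀ S ∈ T, ∀ S' ∈ T, ∀ p ∈ Φ.Wp y q S,
      Φ.Ψ S' p = Φ.W S' (rv p - q) - Φ.W S (rv p - q) := fun S hS S' hS' p hp => by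
    have a := hp.1
    rw [Fan.Ψ_eq, sub_eq_zero] at a
    rw [Fan.Ψ_eq, map_sub, map_sub, hq S hS S' hS', a]
    abel
  have key : ∀ S ∈ T, ∀ S' ∈ T, ∀ p ∈ Φ.Wp y q S, Φ.Ψ S' p = 0 →
      Φ.W S' = Φ.W S ∨ Φ.W S' y < Φ.W S y := fun S hS S' hS' p hp e => by
    obtain ⟨S1, a, b, c⟩ := hHKA n f h Φ y _ hy S (hT hS) hp.2
    rw [e1 S hS S' hS' p hp, sub_eq_zero, ← b] at e
    rw [← b]
    exact ((hHKB n f h Φ y _ hy S1 a c).2.2.1 S' (hT hS') e).2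
  have e2 : A ∪ B = {p | ∃ S ∈ T, p ∈ Φ.Wp y q S} ∪ B := Set.Subset.antisymm
    (fun p hp => (em' (p ∈ B)).imp_left fun c => h1 p (hp.resolve_right c) c)
    (Set.union_subset_union_left _ fun p ⟨S, a, b⟩ => (h2 S a).1 b)
  rw [e2]
  refine hCHAIN n _ Lam T (fun S => Φ.W S y) (Φ.Wp y q) B Φ.VS (Φ.bb M) _
    (fun r => sum_mem fun j hj => Submodule.smul_mem _ _ (e_mem ⟨j, hj, rfl⟩))
    (fun p hp j hj => hB p hp _ (Φ.bb_Gam M hj)) (fun S hS => (h2 S hS).2)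
    (fun S hS S' hS' => ?_) (fun S hS p hp j hj => ?_)
    fun S hS B' a b c => hPIECE n f h Φ y q t M B' hM ht hy S (hT hS) a b c
  · by_cases e : Φ.W S = Φ.W S'
    · exact .inl (Φ.Wp_congr e)
    · exact .inr (Set.disjoint_left.2 fun p a b => lt_asymm
        ((key S hS S' hS' p a b.1).resolve_left (Ne.symm e))
        ((key S' hS' S hS p b a.1).resolve_left e))
  · by_cases c : p + Φ.bb M j ∈ B
    · exact .inr (.inl c)
    obtain ⟨S', a, b⟩ := h1 _ (hA p ((h2 S hS).1 hp) _ (Φ.bb_Gam M hj)) c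
    have d := b.1
    rw [map_add, add_eq_zero_iff_of_nonneg (by
      rw [e1 S hS S' a p hp]
      exact sub_nonneg.2 (Φ.C_min (hT hS) (hT a) hp.2.C).1) ((Φ.bb_Gam M hj).1 S' (hT a))] at d
    exact (key S hS S' a p hp d.1).imp (fun e => Φ.Wp_congr e ▸ b) fun e => .inr ⟨S', a, e, b⟩

end Pool.Agent.P.MP_9321be_ag.SG
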