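import Pool.Agent.P.MP_9321be_ag.SG.Iface

/-! Step S2. -/

set_option autoImplicit false
set_option linter.unusedSectionVars false

namespace Pool.Agent.P.MP_9321be_ag.SG

open Finset SM

variable {n : ℕ} {f : MvPolynomial (Fin n) ℂ} {h : Fin n → ℝ}

/-- The supports of the primitives at the start. -/
def s2A (D : Dat f h) (i : Fin n) : Set (L n) := {p | ∀ j ∈ D.I, 0 ≤ p.2.1 j} ∩ DJ D.I {i}

theorem s2_fst {a b : ℝ} (e : 0 ≤ lx a b) : 0 ≤ a :=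
  (lx_nonneg.1 e).elim le_of_lt fun c => c.1.ge

theorem s2_snd {a b : ℝ} (e : 0 ≤ lx a b) (o : a = 0) : 0 ≤ b :=
  (lx_nonneg.1 e).elim (fun c => absurd o c.ne') fun c => c.2

theorem s2_cl (D : Dat f h) (i : Fin n) : Cl f h (s2A D i) :=
  Cl.inter (fun _ hp _ hg j hj => add_nonneg (hp j hj) ((D.pt_Gam hg).2 j)) (cl_DJ _ _)

theorem s2_raise (hRAISE : S_RAISE) (hNIL : S_NIL) (D : Dat f h) {y : R n}
    (hy : y ∈ sp (D.R0 ∩ DJ D.I ∅)) (h0 : y ∈ EE f h (s2A D) D.B0) :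
    y ∈ EE f h (fun i => D.R0 ∩ DJ D.I {i}) D.B0 := by
  have cM : Cl f h (D.R0 ∩ DJ D.I ∅) := Dat.cl_R0.inter (cl_DJ _ _)
  have g0 : ∀ S ∈ D.F1, ∀ g ∈ gens f, 0 ≤ lx (ps (D.u S) (pt h g)) (p2 (D.ω S) (pt h g)) :=
    fun S hS g hg => D.Ψ_pos (Dat.F1_FF hS) hg
  have nz : ∀ t : ℝ, t ∉ Set.Ici (0 : ℝ) → t ≠ 0 := fun t a b => a b.ge
  have a := hRAISE n f h _ D.F1 (fun S => ps (D.u S)) (fun _ _ => True) (fun _ => Set.Ici 0)
    (s2A D) D.B0 _ (fun _ _ => ⟨isUpperSet_Ici 0, Set.nonempty_Ici⟩) (s2_cl D) Dat.cl_B0 cM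
    (fun S hS _ _ _ g hg _ => ⟨trivial, s2_fst (g0 S hS g hg)⟩) (fun _ _ _ _ _ _ => nz _)
    (fun S _ => (hNIL n f h D (D.u S)).imp fun K c x hx => EE_mono (fun i p hp => by
      exact ⟨⟨hp.1.2, hp.2⟩, fun S' hS' _ => s2_fst (hp.1.1 S' hS')⟩) subset_rfl (c x hx).1)
    y hy h0
  have b := hRAISE n f h _ D.F1 (fun S => p2 (D.ω S)) (fun S p => ps (D.u S) p = 0)
    (fun _ => Set.Ici 0) _ D.B0 _ (fun _ _ => ⟨isUpperSet_Ici 0, Set.nonempty_Ici⟩)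
    (fun i p hp g hg => by
      refine ⟨s2_cl D i p hp.1 g hg, fun S hS _ => ?_⟩
      rw [map_add]
      exact add_nonneg (hp.2 S hS trivial) (s2_fst (g0 S hS g hg))) Dat.cl_B0 cM
    (fun S hS _ p hp g hg e => by
      rw [map_add, add_eq_zero_iff_of_nonneg (hp.2 S hS trivial) (s2_fst (g0 S hS g hg))] at e
      exact ⟨e.1, s2_snd (g0 S hS g hg) e.2⟩) (fun _ _ _ _ _ _ => nz _)
    (fun S _ => (hNIL n f h D (D.ω S)).imp fun K c x hx => EE_mono (fun i p hp => by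
      exact ⟨⟨⟨hp.1.2, hp.2⟩, fun S' hS' _ => s2_fst (hp.1.1 S' hS')⟩,
        fun S' hS' e => s2_snd (hp.1.1 S' hS') e⟩) subset_rfl (c x hx).2.1)
    y hy a
  refine EE_mono (fun i p hp => ?_) subset_rfl b
  refine ⟨⟨fun S hS => lx_nonneg.2 ?_, hp.1.1.1⟩, hp.1.1.2⟩
  exact (le_iff_lt_or_eq.1 (hp.1.2 S hS trivial)).imp_right fun e => ⟨e.symm, hp.2 S hS e.symm⟩

theorem p_S2 (hRAISE : S_RAISE) (hNIL : S_NIL) :
    S_S2 := by
  refine fun n f h D => ⟨fun p h1 h2 => ?_, fun y γ h0 hy a => ?_⟩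
  · have key : ∀ S ∈ D.F1, 0 < D.Ψ S p := fun S hS => by
      have a := s2_fst (D.P0_R3.1.1.1 S hS)
      have b : D.u S ⬝ᵥ rv D.P0 ≤ D.u S ⬝ᵥ rv p := sum_le_sum fun i _ =>
        mul_le_mul_of_nonneg_left (Int.cast_le.2 (h2 i))
          ((D.u_nonneg (Dat.F1_FF hS) i).elim le_of_lt fun c => c.1.ge)
      refine lx_pos.2 (.inl ?_)
      rw [ps_apply] at a ⊢
      have c : D.P0.1 = D.α := rfl
      linarith
    exact ⟨⟨fun S hS => (key S hS).le, fun i _ => zero_le_one.trans (h2 i)⟩,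
      fun S hS => (key S hS).ne'⟩
  have h1 : ∀ i, TT i ⊆ s2A D i := fun i p hp => by
    refine ⟨fun j _ => ?_, fun j _ e => hp.2 j (by simpa using e)⟩
    by_cases e : j = i
    · exact e ▸ hp.1
    · exact zero_le_one.trans (hp.2 j e)
  have b := s2_raise hRAISE hNIL D (aeval_mem (fun x hx =>
    (Dat.cl_R0.inter (cl_DJ _ _)).Dp kk hx) γ hy) (EE_mono h1 subset_rfl a)
  obtain ⟨N, c⟩ := hNIL n f h D 0
  have e := (c y hy).2.2
  obtain ⟨u, v, w⟩ : IsCoprime γ (Polynomial.X ^ N) :=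
    (Polynomial.irreducible_X.coprime_iff_not_dvd.2 (by
      rwa [Polynomial.X_dvd_iff, Polynomial.coeff_zero_eq_eval_zero])).symm.pow_right
  have st := fun x => EE_Dp (fun i => (Dat.cl_R0 (D := D)).inter (cl_DJ D.I {i}))
    (Dat.cl_B0 (D := D)) kk (x := x)
  convert add_mem (aeval_mem st u b) (aeval_mem st v e) using 1
  simpa using (congrArg (fun q => Polynomial.aeval (Dp f h kk) q y) w).symm

end Pool.Agent.P.MP_9321be_ag.SG
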