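import Pool.Agent.P.MP_9321be_ag.SG.Iface

/-! Step SH1. -/

set_option autoImplicit false
set_option linter.unusedSectionVars false

namespace Pool.Agent.P.MP_9321be_ag.SG

open Finset SM

theorem p_SH1 (hHKA : S_HKA) (hHKB : S_HKB) :
    S_SH1 := by
  intro n f h D J z G
  refine ⟨fun p ⟨hp, hJ⟩ hB => ?_, fun S hS p hp => ?_⟩
  · classical
    have h0 : (D.BB.filter fun S => D.Ψ S p = 0).Nonempty := by
      by_contra c
      exact hB ⟨hp.1, fun S a e => c ⟨S, mem_filter.2 ⟨a, e⟩⟩⟩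
    obtain ⟨S, h1, h2⟩ := exists_max_image _ (fun S => D.W S z) h0
    obtain ⟨h1, h3⟩ := mem_filter.1 h1
    refine ⟨S, h1, h3, fun S' a b j hj w => ?_⟩
    rw [sub_zero]
    have c := Dat.R1_C hp h1 h3 S' a b j hj w
    refine ⟨c, fun o => c.lt_of_ne fun e => ?_⟩
    obtain ⟨T, t1, t, t2, t3⟩ | ⟨i, c', t1, t2⟩ := D.wall_pivot a hj w
    · have q1 : 0 ≤ D.d S' j ⬝ᵥ D.q0 := not_lt.1 fun q => (G.neg S' a j hj q).not_gt o
      have q2 : T ∈ D.BB := Dat.mem_BB.2 ⟨t1, by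
        rw [Dat.dq, t3, add_sub_right_comm, b]
        exact add_pos_of_pos_of_nonneg (Dat.mem_BB.1 h1).2 (lam_smul_nonneg q1 t2.le)⟩
      have q3 : D.Ψ T p = 0 := by
        rw [Fan.Ψ_eq, t3, ← e, zero_smul, add_zero, b]
        exact h3
      have q4 := h2 T (mem_filter.2 ⟨q2, q3⟩)
      rw [t3, b, add_le_iff_nonpos_right] at q4
      exact (lam_smul_pos o t2).not_ge q4
    · rw [t2] at o e
      obtain ⟨q1, q2⟩ := (G.cpos i).1 (pos_of_mul_pos_right o t1.le)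
      have q3 : (1 : ℝ) ≤ rv p i := by
        rw [rv]
        exact_mod_cast hJ i q1 q2
      exact (mul_pos t1 (one_pos.trans_le q3)).ne e
  · obtain ⟨h1, h2⟩ := hp
    rw [sub_zero] at h2
    have hF := (Dat.mem_BB.1 hS).1
    have c := h2.C
    rw [Fan.Ψ_eq, sub_eq_zero] at h1
    refine ⟨⟨⟨fun S' a => ?_, fun i _ => by simpa [rv] using D.C_nonneg hF c i⟩,
      fun S' a e j hj w => ?_⟩, fun i q1 q2 => ?_⟩
    · rw [Fan.Ψ_eq, ← h1, sub_nonneg]
      exact (D.C_min hF (Dat.F1_FF a) c).1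
    · rw [Fan.Ψ_eq, ← h1, sub_eq_zero] at e
      exact (D.C_min hF (Dat.mem_BB.1 a).1 c).2 e S' (Dat.mem_BB.1 a).1 rfl j hj w
    · obtain ⟨S', a, -, b⟩ := hHKA n f h D.toFan z _ G.gen S hF h2
      have := (hHKB n f h D.toFan z _ G.gen S' a b).2.1 i ((G.cpos i).2 ⟨q1, q2⟩)
      have : 0 < p.2.1 i := by simpa [rv] using this
      exact this

end Pool.Agent.P.MP_9321be_ag.SG
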