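import Pool.Agent.P.MP_9321be_ag.SG.Iface

/-! Step SH3. -/

set_option autoImplicit false
set_option linter.unusedSectionVars false

namespace Pool.Agent.P.MP_9321be_ag.SG

open Finset SM

theorem sh3_sub {n : ℕ} {f : MvPolynomial (Fin n) ℂ} {h : Fin n → ℝ} {D : Dat f h}
    {J : Finset (Fin n)} {z : Fin n → ℝ} (G : D.GY J z) {p : L n} (hp : p ∈ D.R3 ∩ DJ D.I J)
    (h0 : p ∉ D.B0) : ∃ S ∈ D.F2, p ∈ D.Wp z D.q0 S := by
  classical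
  obtain ⟨S, h1, h2⟩ := exists_max_image (D.F2.filter fun S => D.Ψ S p = 0) (fun S => D.W S z) (by
    by_contra c
    refine h0 ⟨hp.1.1.1, fun S a e => (Dat.F1_cases a).elim (fun b => hp.1.1.2 S b e) fun b =>
      c ⟨S, mem_filter.2 ⟨b, e⟩⟩⟩)
  obtain ⟨h1, h3⟩ := mem_filter.1 h1
  refine ⟨S, h1, h3, fun S' a b j hj w => ?_⟩
  have a1 : D.dq S' = 0 := Dat.dq_congr b ▸ (Dat.mem_F2.1 h1).2
  have a2 : D.Ψ S' p = 0 := D.Ψ_congr b ▸ h3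
  obtain ⟨a3, a4⟩ := hp.1.2 S' (Dat.mem_F2.2 ⟨a, a1⟩) a2 j hj w
  refine ⟨a3, fun o => a3.lt_of_ne' fun c => ?_⟩
  have a5 : D.d S' j ⬝ᵥ D.q0 = 0 := le_antisymm (not_lt.1 fun e => (a4 e).ne' c)
    (not_lt.1 fun e => (G.neg S' a j hj e).not_gt o)
  rw [dotProduct_sub, a5, sub_zero] at c
  obtain ⟨T, b1, t, b2, b3⟩ | ⟨i, c', b1, b2⟩ := D.wall_pivot a hj w
  · have := h2 T (mem_filter.2 ⟨Dat.mem_F2.2 ⟨b1, by
      rw [← a1, Dat.dq, Dat.dq, b3, a5, zero_smul, add_zero]⟩, by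
      rw [← a2, Fan.Ψ_eq, Fan.Ψ_eq, b3, c, zero_smul, add_zero]⟩)
    simp only [b3, b, add_le_iff_nonpos_right] at this
    exact this.not_gt (lam_smul_pos o b2)
  · rw [b2] at c o
    obtain ⟨d1, d2⟩ := (G.cpos i).1 ((mul_pos_iff_of_pos_left b1).1 o)
    have d3 := hp.2 i d1 d2
    have d4 : p.2.1 i = 0 := by simpa [rv, b1.ne'] using c
    omega

theorem p_SH3 (hHKA : S_HKA) (hHKB : S_HKB) :
    S_SH3 := by
  intro n f h D J z G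
  refine ⟨fun p => sh3_sub G, fun S hS p hp => ?_⟩
  obtain ⟨hS, h0⟩ := Dat.mem_F2.1 hS
  obtain ⟨h1, h2⟩ := hp
  obtain ⟨S1, k1, k2, k3⟩ := hHKA n f h D.toFan z _ G.gen S hS h2
  obtain ⟨-, k4, k5, -⟩ := hHKB n f h D.toFan z _ G.gen S1 k1 k3
  have h3 : ∀ i ∈ D.I, (rv p - D.q0) i = p.2.1 i := fun i hi => by
    rw [Pi.sub_apply, Dat.q0_eq_zero.2 hi, sub_zero, rv]
  have h4 := Fan.H.C _ h2
  have h5 : ∀ S', D.Ψ S' p = D.W S' (rv p - D.q0) - D.W S (rv p - D.q0) + D.dq S' := fun S' => by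
    rw [Fan.Ψ_eq, sub_eq_zero] at h1
    rw [Dat.dq, sub_eq_zero] at h0
    rw [Fan.Ψ_eq, ← h1, Dat.dq, ← h0, map_sub, map_sub]
    abel
  have h6 : ∀ S' ∈ D.FF, 0 ≤ D.W S' (rv p - D.q0) - D.W S (rv p - D.q0) := fun S' a =>
    sub_nonneg.2 (D.C_min hS a h4).1
  refine ⟨⟨⟨⟨fun S' a => ?_, fun i hi => ?_⟩, fun S' a => ?_⟩, fun S' a e j hj w => ?_⟩,
    fun i hi o => ?_⟩
  · rw [h5]
    exact add_nonneg (h6 S' (Dat.F1_FF a)) (Dat.mem_F1.1 a).2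
  · have := D.C_nonneg hS h4 i
    rw [h3 i hi] at this
    exact_mod_cast this
  · rw [h5]
    exact (add_pos_of_nonneg_of_pos (h6 S' (Dat.mem_BB.1 a).1) (Dat.mem_BB.1 a).2).ne'
  · obtain ⟨a, a0⟩ := Dat.mem_F2.1 a
    rw [h5, a0, add_zero, sub_eq_zero] at e
    have a1 := (D.C_min hS a h4).2 e S' a rfl j hj w
    refine ⟨a1, fun o => a1.lt_of_ne' fun c => ?_⟩
    obtain ⟨T, b1, t, b2, b3⟩ | ⟨i, c', b1, b2⟩ := D.wall_pivot a hj w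
    · have b4 := (k5 T b1 (by rw [b3, c, zero_smul, add_zero, e, k2])).1
      have b5 : D.W T D.q0 - D.W S1 D.q0 ≤ 0 := by
        rw [D.W_sub k1]
        refine sum_nonpos fun g hg => ?_
        by_cases b6 : D.Ψ T (pt h g) = 0
        · rw [b6, smul_zero]
        · exact lam_smul_nonpos (not_lt.1 fun b7 => (G.pos S1 k1 g hg b7).not_gt (b4 g hg b6))
            (D.Ψ_pos b1 (D.sub S1 k1 hg))
      rw [Dat.dq, sub_eq_zero] at h0 a0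
      rw [b3, k2, h0, a0, add_sub_cancel_left] at b5
      exact b5.not_gt (lam_smul_pos o b2)
    · rw [b2] at o
      exact o.not_ge (mul_nonpos_of_nonneg_of_nonpos b1.le (D.q0_nonpos i))
  · have := k4 i ((G.cpos i).2 ⟨hi, o⟩)
    rw [h3 i hi] at this
    exact_mod_cast this

end Pool.Agent.P.MP_9321be_ag.SG
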