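import Pool.Agent.P.MP_9321be_ag.SG.Iface

/-! Step SIMP. -/

set_option autoImplicit false
set_option linter.unusedSectionVars false

namespace Pool.Agent.P.MP_9321be_ag.SG

open Finset SM

theorem simp_nu {P : ℝ → Prop} (a : ℝ) (lo : ∀ x, P x → a ≤ x) {M : ℝ} (hM : 0 < M) :
    ∃ ν : ℝ → ℕ, ∀ x, P x → ν (x + M) = ν x + 1 ∧ (ν x ≠ 0 → P (x - M)) := by
  classical
  have ex : ∀ x, ∃ t : ℕ, ¬ P (x - (t + 1) * M) := fun x => by
    obtain ⟨t, ht⟩ := exists_nat_gt ((x - a) / M)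
    rw [div_lt_iff₀ hM] at ht
    exact ⟨t, fun h => by linarith [lo _ h]⟩
  have e : ∀ (x : ℝ) (t : ℕ), x + M - ((t + 1 : ℕ) + 1) * M = x - (t + 1) * M := fun x t => by
    push_cast
    ring
  refine ⟨fun x => Nat.find (ex x), fun x hx => ⟨?_, fun h => ?_⟩⟩
  · beta_reduce
    rw [Nat.find_comp_succ (ex (x + M)) ((ex x).imp fun t h => by rwa [e]) (by simpa using hx)]
    exact congrArg (· + 1) (Nat.find_congr' (by intro t; rw [e]))
  · simpa using Nat.find_min (ex x) (Nat.pos_of_ne_zero h)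

theorem p_SIMP (hWP : S_WP) :
    S_SIMP := by
  classical
  intro n f h Φ y q t M B hM ht S hS hd h2 h1
  have D := Φ.db S hS
  have hV : S ⊆ Φ.VT S := fun j hj => mem_filter.2 ⟨Φ.mem_VS.2 ⟨S, hS, hj⟩, Φ.Ψ_tight hS hj⟩
  have m0 : ∀ j, (0 : ℝ) < M * Φ.N j := fun j => by exact_mod_cast Nat.mul_pos hM (Φ.Npos j)
  choose ν hν using fun j => simp_nu (P := fun x => 0 ≤ x ∧ (0 < Φ.d S j ⬝ᵥ y → 0 < x)) 0
    (fun _ h => h.1) (m0 j)
  have r1 : ∀ (p : L n) j (s : ℤ), rv (p + s • Φ.bh M j) - q =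
      rv p - q + (s * (M * Φ.N j) : ℝ) • wr j := fun p j s => by
    ext i
    simp [rv, Fan.bh, Fan.bb, hat, pt, wr]
    ring
  have r2 : ∀ (p : L n), ∀ j ∈ S, ∀ k ∈ S, ∀ s : ℤ, Φ.d S k ⬝ᵥ (rv (p + s • Φ.bh M j) - q) =
      Φ.d S k ⬝ᵥ (rv p - q) + s * (M * Φ.N j) * if k = j then 1 else 0 := fun p j hj k hk s => by
    rw [r1, dotProduct_add, dotProduct_smul, D.dual k hk j hj, smul_eq_mul]
  have key : ∀ p ∈ Φ.Kp y q S, ∀ j ∈ S, ∀ s : ℤ,
      (0 ≤ Φ.d S j ⬝ᵥ (rv p - q) + s * (M * Φ.N j) ∧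
        (0 < Φ.d S j ⬝ᵥ y → 0 < Φ.d S j ⬝ᵥ (rv p - q) + s * (M * Φ.N j))) →
      p + s • Φ.bh M j ∈ Φ.Kp y q S := by
    rintro _ ⟨p, a, b, rfl⟩ j hj s hs
    refine ⟨p + s • Φ.bb M j, ?_, fun k hk => ?_, Prod.ext rfl (Prod.ext rfl ?_)⟩
    · rw [map_add, map_zsmul, Fan.bb, map_nsmul, a, Φ.Ψ_tight hS hj]
      simp
    · rw [show rv (p + s • Φ.bb M j) = rv (p + s • Φ.bh M j) from rfl, r2 p j hj k hk]
      split_ifs with e
      · rw [e, mul_one]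
        exact hs
      · simpa using b k hk
    · show -(Φ.v S ⬝ᵥ (rv p - q)) + s • (M * Φ.c : ℝ) = -(Φ.v S ⬝ᵥ (rv (p + s • Φ.bh M j) - q))
      rw [r1, dotProduct_add, dotProduct_smul, Φ.tightv S hS j hj, ← Φ.Na j (Φ.sub S hS hj)]
      simp only [zsmul_eq_mul, smul_eq_mul]
      ring
  refine hWP n _ _ B S (Φ.bh M) (fun j p => ν j (Φ.d S j ⬝ᵥ (rv p - q))) t D.card
    (ht.mono fun j hj => (mem_filter.1 (hV hj)).1) hd (fun p hp j hj => ?_) (fun r p hp => ?_)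
    fun r x hx => mul_mem (A := Φ.bh M '' Φ.VT S) ?_
      (sum_mem fun j hj => Submodule.smul_mem _ _ (e_mem ⟨j, hj, rfl⟩)) hx
  · have k0 : Φ.K y S (rv p - q) := by
      obtain ⟨p, -, b, rfl⟩ := hp
      exact b
    obtain ⟨⟨a, b⟩, h3, h4⟩ := And.intro (k0 j hj) (hν j _ (k0 j hj))
    have r3 := fun k hk => r2 p j hj k hk 1
    simp only [one_smul, Int.cast_one, one_mul] at r3
    refine ⟨by
      simpa using key p hp j hj 1 (by
        rw [Int.cast_one, one_mul]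
        exact ⟨add_nonneg a (m0 j).le, fun e => add_pos (b e) (m0 j)⟩), ?_, fun k hk e => ?_,
      fun h => ?_⟩
    · beta_reduce
      rwa [r3 j hj, if_pos rfl, mul_one]
    · beta_reduce
      rw [r3 k hk, if_neg e, mul_zero, add_zero]
    · simpa [sub_eq_add_neg] using key p hp j hj (-1) (by simpa [sub_eq_add_neg] using h4 h)
  · rw [Fan.etah, sum_mul, ← sum_sdiff hV]
    simp only [smul_mul_assoc, ← e_add, add_comm _ p, add_sub_cancel_right]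
    refine sum_mem fun j hj => Submodule.smul_mem _ _
      (e_mem ((h1 p hp j (mem_sdiff.1 hj).1).resolve_left ?_))
    obtain ⟨p, -, -, rfl⟩ := hp
    rintro ⟨p', -, -, e⟩
    obtain ⟨j1, j2⟩ := mem_filter.1 (mem_sdiff.1 hj).1
    have e1 : rv p' = rv (p + (1 : ℤ) • Φ.bh M j) := by
      rw [one_smul]
      exact (congrArg rv e).symm
    have e2 : -(Φ.v S ⬝ᵥ (rv p - q)) + M * Φ.c = -(Φ.v S ⬝ᵥ (rv p' - q)) := congrArg (·.2.2) e
    rw [e1, r1, dotProduct_add, dotProduct_smul, ← Φ.Na j (Φ.VS_sub j1), smul_eq_mul] at e2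
    have e3 := mul_lt_mul_of_pos_left (Φ.posv S hS j (Φ.VS_sub j1) (mem_sdiff.1 hj).2 j2) (m0 j)
    push_cast at e2
    linarith
  · rintro _ ⟨j, hj, rfl⟩ p hp
    exact add_comm p _ ▸ h2 p hp j hj

end Pool.Agent.P.MP_9321be_ag.SG
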