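import Pool.Agent.P.MP_9321be_ag.SG.Iface
import Pool.Agent.P.MP_9321be_ag.SM.TTOR

/-! Step TOR. -/

set_option autoImplicit false
set_option linter.unusedSectionVars false

namespace Pool.Agent.P.MP_9321be_ag.SG

open Finset SM

section

variable {n : ℕ} {f : MvPolynomial (Fin n) ℂ} {h : Fin n → ℝ}

open Classical in
theorem tor_th (A : Set (L n)) (ψ : L n →+ ℝ) : fl A (th f h ψ) =
    ∑ g ∈ gens f, if pt h g ∈ A then (cf f g * ψ (pt h g)) • e (pt h g) else 0 := by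
  rw [th, map_sum]
  refine sum_congr rfl fun g _ => ?_
  split_ifs with c
  · rw [map_smul, fl_e_mem c]
  · rw [map_smul, fl_e_not c, smul_zero]

theorem tor_phi (u ω : Fin n → ℝ) (a : Fin n →₀ ℕ) (c : ℂ) :
    MvPolynomial.aeval (fun i => e ((u i, Pi.single i 1, ω i) : L n)) (MvPolynomial.monomial a c) =
      c • e ((u ⬝ᵥ fun i => a i, fun i => a i, ω ⬝ᵥ fun i => a i) : L n) := by
  have : ∀ s : Finset (Fin n), ∏ i ∈ s, e ((u i, Pi.single i 1, ω i) : L n) ^ a i =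
      e (∑ i ∈ s, a i • ((u i, Pi.single i 1, ω i) : L n)) := fun s => by
    induction s using Finset.induction_on with
    | empty => simp
    | insert i s hi ih => rw [prod_insert hi, sum_insert hi, e_add, ih, e_nsmul]
  rw [MvPolynomial.aeval_monomial, Finsupp.prod_fintype _ _ (by simp), this, Algebra.smul_def]
  congr 2
  ext i <;> simp [Prod.fst_sum, Prod.snd_sum, Pi.single_apply, dotProduct, mul_comm]

theorem tor_vert (Φ : Fan f h) {γ : L n} (hγ : γ ∈ Φ.Gam) {S : Finset (Gn n)} (hS : S ∈ Φ.FF)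
    (e0 : Φ.Ψ S γ = 0) (hne : γ.2.1 ≠ 0) : ∃ j ∈ gens f, pt h j ∈ Φ.Sp γ := by
  obtain ⟨T, hT, eT, hc⟩ := Φ.cover hS (Φ.Gam_C hγ e0)
  have e1 : Φ.Ψ T γ = 0 := Φ.Ψ_congr eT ▸ e0
  obtain ⟨j, hj, cj⟩ : ∃ j ∈ T, Φ.d T j ⬝ᵥ rv γ ≠ 0 := by
    by_contra! c
    refine hne (funext fun i => ?_)
    have := (Φ.db T hT).expand (rv γ) i
    rw [sum_eq_zero fun j hj => by rw [c j hj, zero_mul]] at this
    simpa [rv] using this
  refine ⟨j, Φ.sub T hT hj, fun S' hS' e2 => ?_, fun S' hS' e2 => ?_, fun i e2 => ?_⟩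
  · have nn : ∀ k ∈ T, 0 ≤ (Φ.d T k ⬝ᵥ rv γ) * ps (Φ.u S') (pt h k) := fun k hk =>
      mul_nonneg (hc k hk) ((lx_nonneg.1 (Φ.pos S' hS' k (Φ.sub T hT hk))).elim le_of_lt
        fun o => o.1.ge)
    refine (mul_eq_zero.1 ((sum_eq_zero_iff_of_nonneg nn).1 ?_ j hj)).resolve_left cj
    have a := (lx_eq_zero.1 e1).1
    rw [ps_apply, (Φ.db T hT).dot] at a e2
    rw [← sub_eq_zero.2 ((sub_eq_zero.1 e2).trans (sub_eq_zero.1 a).symm), ← sum_sub_distrib]
    refine sum_congr rfl fun k hk => ?_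
    have b := (lx_eq_zero.1 (Φ.tight T hT k hk)).1
    rw [ps_apply, rv_pt] at b ⊢
    rw [sub_eq_zero.1 b, mul_sub]
  · by_contra c
    refine cj (((Φ.C_of_cone hT hS' hc).2 ?_).2 j hj c)
    rw [Fan.Ψ_eq, sub_eq_zero] at e1 e2
    rw [e1, e2]
  · have := (Φ.db T hT).expand (rv γ) i
    rw [show rv γ i = 0 by simp [rv, e2], eq_comm, sum_eq_zero_iff_of_nonneg fun k hk =>
      mul_nonneg (hc k hk) (Nat.cast_nonneg _)] at this
    simpa [pt] using (mul_eq_zero.1 (this j hj)).resolve_left cj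

end

theorem p_TOR (hTW : S_TW) :
    S_TOR := by
  classical
  intro n f h Φ hf γ hγ ⟨S, hS, e0⟩ hne
  suffices h' : ∃ s : Fin n → R n, ∑ i, s i * fl (Φ.Sp γ) (th f h (mi i)) = 1 by
    obtain ⟨s, hs⟩ := h'
    have m : ∀ x, fl (Φ.Sp γ) x ∈ sp (Φ.Sp γ) := fun x =>
      sp_mono Set.inter_subset_right (fl_mem _ (mem_sp_univ x))
    refine ⟨fun i => fl (Φ.Sp γ) (s i), fun i => m _, ?_⟩
    rw [← e_zero, ← fl_e_mem (A := Φ.Sp γ) (p := 0) ⟨by simp, by simp, by simp⟩, e_zero, ← hs,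
      map_sum]
    refine sum_congr rfl fun i _ => (tor_fl (fun p q hq => ?_) _ (m _)).symm
    exact and_congr (forall₃_congr fun T hT o => by rw [map_add, hq.1 T hT o, add_zero])
      (and_congr (forall₃_congr fun T hT o => by rw [map_add, hq.2.1 T hT o, add_zero])
        (forall₂_congr fun i o => by simp [hq.2.2 i o]))
  by_cases hr : ∃ i, pt h (.inr i) ∈ Φ.Sp γ
  · obtain ⟨i0, h0⟩ := hr
    obtain ⟨r1, r2⟩ := Φ.ray S hS i0 (h0.2.1 S hS e0)
    have key : fl (Φ.Sp γ) (th f h (dt (Φ.d S (.inr i0)))) = e (pt h (.inr i0)) := by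
      rw [tor_th, sum_eq_single_of_mem _ (inr_mem_gens f i0), if_pos h0, dt_pt,
        (Φ.db S hS).dual _ r1 _ r1]
      · simp [cf]
      · intro g hg ne
        split_ifs with c
        · rw [dt_pt, r2 g hg (c.2.1 S hS e0) ne]
          simp
        · rfl
    refine ⟨fun i => (Φ.d S (.inr i0) i : ℂ) • e (-pt h (.inr i0)), ?_⟩
    rw [th_dt, map_sum] at key
    simp only [smul_mul_assoc, ← mul_smul_comm, ← mul_sum, ← map_smul]
    rw [key, ← e_add, neg_add_cancel, e_zero]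
  · push Not at hr
    obtain ⟨w, β, w0, hw⟩ := hTW n f h Φ γ ⟨S, hS, e0⟩
    obtain ⟨a0 | i0, g0, m0⟩ := tor_vert Φ hγ hS e0 hne
    swap
    · exact absurd m0 (hr i0)
    have g1 := inl_mem_gens.1 g0
    have hw' : ∀ a ∈ f.support, (∀ b ∈ f.support, ∑ i, (a i : ℝ) * w i ≤ ∑ i, (b i : ℝ) * w i) ↔
        pt h (.inl a) ∈ Φ.Sp γ := fun a ha => by
      rw [← (hw a ha).2]
      exact ⟨fun o => ((o a0 g1).trans ((hw a0 g1).2.2 m0).le).antisymm (hw a ha).1,
        fun o b hb => o ▸ (hw b hb).1⟩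
    obtain ⟨N, q, hq⟩ := tor_null (hf w w0)
    let φ : MvPolynomial (Fin n) ℂ →ₐ[ℂ] R n :=
      MvPolynomial.aeval fun i => e ((Φ.u S i, Pi.single i 1, Φ.ω S i) : L n)
    have key : ∀ i, φ (MvPolynomial.X i * MvPolynomial.pderiv i (ND.facePoly f w)) =
        -fl (Φ.Sp γ) (th f h (mi i)) := fun i => by
      rw [tor_th, gens, sum_disjSum, sum_eq_zero (s := univ) fun i' _ => if_neg (hr i'),
        add_zero, ND.facePoly, filter_congr hw', sum_filter, map_sum, mul_sum, map_sum,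
        ← sum_neg_distrib]
      refine sum_congr rfl fun a _ => ?_
      split_ifs with c
      · obtain ⟨c1, c2⟩ := lx_eq_zero.1 (c.2.1 S hS e0)
        have h1 : (Φ.u S ⬝ᵥ fun i => (a i : ℝ)) = 1 := by
          simpa [ps_apply, pt, kp, rv, wv, sub_eq_zero, dotProduct] using c1
        have h2 : (Φ.ω S ⬝ᵥ fun i => (a i : ℝ)) = 0 := by
          simpa [p2_apply, pt, rh, rv, wv, dotProduct] using c2
        rw [MvPolynomial.X_mul_pderiv_monomial, map_nsmul, tor_phi, h1, h2, mi_pt,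
          ← Nat.cast_smul_eq_nsmul ℂ, smul_smul, ← neg_smul]
        simp [cf, wv, pt, kp, rh, mul_comm]
      · simp
    have hu : IsUnit (φ ((∏ i, MvPolynomial.X i) ^ N)) := by
      rw [map_pow, map_prod]
      refine (IsUnit.prod_iff.2 fun i _ => ?_).pow N
      rw [MvPolynomial.aeval_X]
      exact .of_mul_eq_one (e (-_)) (by rw [← e_add, add_neg_cancel, e_zero])
    obtain ⟨v, hv⟩ := hu.exists_left_inv
    refine ⟨fun i => -(v * φ (q i)), ?_⟩
    rw [← hv, ← hq, map_sum, mul_sum]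
    exact sum_congr rfl fun i _ => by rw [map_mul, key]; ring

end Pool.Agent.P.MP_9321be_ag.SG
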