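import Pool.Agent.P.MP_9321be_ag.SG.Iface

/-! Step TW. -/

set_option autoImplicit false
set_option linter.unusedSectionVars false

namespace Pool.Agent.P.MP_9321be_ag.SG

open Finset SM

open Classical in
theorem p_TW :
    S_TW := by
  intro n f h Φ γ ⟨S0, h0, h1⟩
  set N1 := Φ.FF.filter fun S => ps (Φ.u S) γ = 0 with hN1
  set N2 := Φ.FF.filter fun S => Φ.Ψ S γ = 0 with hN2
  set N3 := univ.filter fun i => γ.2.1 i = 0 with hN3
  let A : L n → ℝ := fun p => ∑ S ∈ N1, ps (Φ.u S) p + ∑ i ∈ N3, mi i p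
  let B : L n → ℝ := fun p => ∑ S ∈ N2, p2 (Φ.ω S) p
  have k1 (q : L n) (hq : q ∈ Φ.Sp γ) : A q = 0 ∧ B q = 0 := by
    refine ⟨?_, sum_eq_zero fun S hS => ?_⟩
    · refine add_eq_zero_iff_eq_neg.2 ?_
      rw [sum_eq_zero fun S hS => hq.1 S (mem_filter.1 hS).1 (mem_filter.1 hS).2,
        sum_eq_zero fun i hi => by rw [mi_apply, hq.2.2 i (mem_filter.1 hi).2, Int.cast_zero],
        neg_zero]
    · exact (lx_eq_zero.1 (hq.2.1 S (mem_filter.1 hS).1 (mem_filter.1 hS).2)).2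
  have k2 (g) (hg : g ∈ gens f) : 0 < lx (A (pt h g)) (B (pt h g)) ∨ pt h g ∈ Φ.Sp γ := by
    have a1 : ∀ S ∈ N1, 0 ≤ ps (Φ.u S) (pt h g) := fun S hS =>
      (lx_nonneg.1 (Φ.Ψ_pos (mem_filter.1 hS).1 hg)).elim le_of_lt fun e => e.1.ge
    have a2 : ∀ i ∈ N3, 0 ≤ mi i (pt h g) := fun i _ => by rw [mi_pt]; positivity
    rcases (add_nonneg (sum_nonneg a1) (sum_nonneg a2)).eq_or_lt with e | e
    swap
    · exact .inl (lx_pos.2 (.inl e))
    obtain ⟨e1, e2⟩ := (add_eq_zero_iff_of_nonneg (sum_nonneg a1) (sum_nonneg a2)).1 e.symm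
    rw [sum_eq_zero_iff_of_nonneg a1] at e1
    rw [sum_eq_zero_iff_of_nonneg a2] at e2
    have a3 : ∀ S ∈ N2, ps (Φ.u S) (pt h g) = 0 := fun S hS =>
      e1 S (mem_filter.2 ⟨(mem_filter.1 hS).1, (lx_eq_zero.1 (mem_filter.1 hS).2).1⟩)
    have a4 : ∀ S ∈ N2, 0 ≤ p2 (Φ.ω S) (pt h g) := fun S hS =>
      (lx_nonneg.1 (Φ.Ψ_pos (mem_filter.1 hS).1 hg)).elim (fun e => absurd (a3 S hS) e.ne')
        fun e => e.2
    rcases (sum_nonneg a4).eq_or_lt with e' | e'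
    · refine .inr ⟨fun S a b => e1 S (mem_filter.2 ⟨a, b⟩), fun S a b => lx_eq_zero.2
        ⟨a3 S (mem_filter.2 ⟨a, b⟩), (sum_eq_zero_iff_of_nonneg a4).1 e'.symm S
          (mem_filter.2 ⟨a, b⟩)⟩, fun i hi => ?_⟩
      exact Int.cast_eq_zero.1 (e2 i (mem_filter.2 ⟨mem_univ i, hi⟩))
    · exact .inl (lx_pos.2 (.inr ⟨e.symm, e'⟩))
  obtain ⟨ε, hε, k3⟩ := ((eventually_mem_nhdsWithin (a := (0 : ℝ)) (s := Set.Ioi 0)).and
    ((Filter.eventually_all_finset (gens f)).2 fun g _ => Filter.eventually_imp_distrib_left.2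
      (lx_ev (a := A (pt h g)) (b := B (pt h g))))).exists
  have k4 (g) (hg : g ∈ gens f) : 0 ≤ A (pt h g) + ε * B (pt h g) ∧
      (A (pt h g) + ε * B (pt h g) = 0 ↔ pt h g ∈ Φ.Sp γ) := by
    have a (e : pt h g ∈ Φ.Sp γ) : A (pt h g) + ε * B (pt h g) = 0 := by simp [k1 _ e]
    exact (k2 g hg).elim (fun e => ⟨(k3 g hg e).le, fun e' => absurd e' (k3 g hg e).ne', a⟩)
      fun e => ⟨(a e).ge, fun _ => e, a⟩
  set w : Fin n → ℝ := ∑ S ∈ N1, Φ.u S + ∑ i ∈ N3, Pi.single i 1 + ε • ∑ S ∈ N2, Φ.ω S with hw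
  have e (p : L n) : w ⬝ᵥ rv p = A p + ε * B p + N1.card * p.1 + ε * (N2.card * p.2.2) := by
    simp only [hw, A, B, ps_apply, p2_apply, mi_apply, add_dotProduct, smul_dotProduct,
      sum_dotProduct, smul_eq_mul, single_dotProduct, one_mul, sum_sub_distrib, sum_const,
      nsmul_eq_mul, rv]
    ring
  refine ⟨w, N1.card, fun i => ?_, fun a ha => ?_⟩
  · have a1 := e (pt h (.inr i))
    rw [rv_pt, dot_wr_inr] at a1
    have a2 : (0 : ℝ) < N2.card := Nat.cast_pos.2 (card_pos.2 ⟨S0, mem_filter.2 ⟨h0, h1⟩⟩)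
    have a3 : 0 < ε * (N2.card * (2 * h i)) :=
      mul_pos hε (mul_pos a2 (mul_pos two_pos (Φ.hpos i)))
    have a4 := (k4 _ (inr_mem_gens f i)).1
    simp only [pt, kp, rh, mul_zero] at a1 a4
    linarith
  · have a1 := e (pt h (.inl a))
    obtain ⟨a2, a3⟩ := k4 _ (inl_mem_gens.2 ha)
    have a4 : ∑ i, (a i : ℝ) * w i = w ⬝ᵥ rv (pt h (.inl a)) := by
      simp [rv_pt, wr, wv, dotProduct, mul_comm]
    rw [show (pt h (.inl a)).1 = 1 from rfl, show (pt h (.inl a)).2.2 = 0 from rfl] at a1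
    rw [a4, a1, ← a3]
    exact ⟨by linarith, fun k => by linarith, fun k => by linarith⟩

end Pool.Agent.P.MP_9321be_ag.SG
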