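import Pool.Agent.P.MP_9321be_ag.SG.Iface

/-! Step VERT. -/

set_option autoImplicit false
set_option linter.unusedSectionVars false

namespace Pool.Agent.P.MP_9321be_ag.SG

open Finset SM

theorem vert_step (hFD : S_FD) {n : ℕ} (X : Finset (Gn n)) (H : Gn n → ℝ)
    (hX : ∀ i, Sum.inr i ∈ X) (hnz : ∀ g ∈ X, ∃ i, wv g i ≠ 0) (k : ℕ) : k ≤ n →
    ∃ (w : Fin n → ℝ) (S : Finset (Gn n)), (∀ g ∈ X, H g ≤ w ⬝ᵥ wr g) ∧ S ⊆ X ∧ S.card = k ∧
      (∀ μ : Gn n → ℝ, (∀ i, ∑ b ∈ S, μ b * wv b i = 0) → ∀ b ∈ S, μ b = 0) ∧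
      ∀ g ∈ S, w ⬝ᵥ wr g = H g := by
  classical
  induction k with
  | zero =>
    refine fun _ => ⟨fun _ => ∑ g ∈ X, |H g|, ∅, fun g hg => ?_, by simp, rfl, by simp, by simp⟩
    obtain ⟨i, hi⟩ := hnz g hg
    have h0 : 0 ≤ ∑ g ∈ X, |H g| := sum_nonneg fun _ _ => abs_nonneg _
    have h1 : (1 : ℝ) ≤ wr g i := Nat.one_le_cast.2 (Nat.pos_of_ne_zero hi)
    have h2 : |H g| ≤ ∑ g ∈ X, |H g| :=
      single_le_sum (f := fun g => |H g|) (fun _ _ => abs_nonneg _) hg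
    have h3 : (∑ g ∈ X, |H g|) * wr g i ≤ ∑ i, (∑ g ∈ X, |H g|) * wr g i :=
      single_le_sum (f := fun i => (∑ g ∈ X, |H g|) * wr g i)
        (fun i _ => mul_nonneg h0 (wr_nonneg g i)) (mem_univ i)
    exact (le_abs_self _).trans (h2.trans ((le_mul_of_one_le_right h0 h1).trans h3))
  | succ k ih =>
    intro hk
    obtain ⟨w, S, hw, hS, hc, hi, ht⟩ := ih (by omega)
    obtain ⟨x, i, hx, hxS⟩ : ∃ (x : Fin n → ℝ) (i : Fin n), x i < 0 ∧ ∀ b ∈ S, x ⬝ᵥ wr b = 0 := by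
      obtain ⟨x, h0, h1⟩ := (hFD n S hi).2.1 (by omega)
      have h2 : ∀ b ∈ S, x ⬝ᵥ wr b = 0 := fun b hb => by
        have := h1 b hb
        simpa only [dt_apply, dotProduct, SM.rv_pt, wr] using this
      obtain ⟨i, h3⟩ := Function.ne_iff.1 h0
      rcases lt_or_gt_of_ne h3 with h | h
      · exact ⟨x, i, h, h2⟩
      · exact ⟨-x, i, neg_neg_of_pos h, fun b hb => by rw [neg_dotProduct, h2 b hb, neg_zero]⟩
    obtain ⟨g0, hg0, hmin⟩ := exists_min_image (X.filter fun g => x ⬝ᵥ wr g < 0)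
      (fun g => (w ⬝ᵥ wr g - H g) / (-(x ⬝ᵥ wr g)))
      ⟨.inr i, mem_filter.2 ⟨hX i, by rw [dot_wr_inr]; linarith⟩⟩
    obtain ⟨h0, h1⟩ := mem_filter.1 hg0
    set t := (w ⬝ᵥ wr g0 - H g0) / (-(x ⬝ᵥ wr g0)) with htd
    have ht0 : 0 ≤ t := div_nonneg (sub_nonneg.2 (hw g0 h0)) (by linarith)
    have hn : g0 ∉ S := fun h => h1.ne (hxS g0 h)
    have e : ∀ g, (w + t • x) ⬝ᵥ wr g = w ⬝ᵥ wr g + t * (x ⬝ᵥ wr g) := fun g => by
      rw [add_dotProduct, smul_dotProduct, smul_eq_mul]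
    refine ⟨w + t • x, insert g0 S, fun g hg => ?_, insert_subset h0 hS,
      by rw [card_insert_of_notMem hn, hc], fun μ hμ => ?_, fun g hg => ?_⟩
    · rw [e]
      by_cases hlt : x ⬝ᵥ wr g < 0
      · have h2 := hmin g (mem_filter.2 ⟨hg, hlt⟩)
        rw [le_div_iff₀ (by linarith)] at h2
        linarith
      · linarith [mul_nonneg ht0 (not_lt.1 hlt), hw g hg]
    · have h2 : ∑ b ∈ insert g0 S, μ b * (x ⬝ᵥ wr b) = 0 := by
        simp only [dotProduct, mul_sum]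
        rw [sum_comm]
        refine sum_eq_zero fun j _ => ?_
        rw [← mul_zero (x j), ← hμ j, mul_sum]
        exact sum_congr rfl fun b _ => by rw [wr]; ring
      rw [sum_insert hn, sum_eq_zero fun b hb => by rw [hxS b hb, mul_zero], add_zero] at h2
      have h3 := (mul_eq_zero.1 h2).resolve_right h1.ne
      refine forall_mem_insert _ _ _ |>.2 ⟨h3, hi μ fun j => ?_⟩
      have := hμ j
      rwa [sum_insert hn, h3, zero_mul, zero_add] at this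
    · rw [e]
      rcases mem_insert.1 hg with rfl | hg
      · rw [htd, div_neg, neg_mul, div_mul_cancel₀ _ h1.ne]
        ring
      · rw [hxS g hg, ht g hg, mul_zero, add_zero]

theorem p_VERT (hFD : S_FD) :
    S_VERT := by
  intro n X H d hX hnz hd hne
  obtain ⟨w, S, hw, hS, hc, hi, ht⟩ := vert_step hFD X H hX hnz n le_rfl
  have hB : Bas X S := ⟨hS, hc, hi⟩
  refine ⟨S, hB, fun g hg hn => lt_of_le_of_ne ?_ (hne S hB g hg hn).symm⟩
  have h1 := hw g hg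
  rw [(hd S hB).dot w, sum_congr rfl fun j hj => by rw [ht j hj]] at h1
  exact sub_nonneg.2 h1

end Pool.Agent.P.MP_9321be_ag.SG
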