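import Pool.Agent.P.MP_9321be_ag.SG.Iface

/-! Step WU. -/

set_option autoImplicit false
set_option linter.unusedSectionVars false

namespace Pool.Agent.P.MP_9321be_ag.SG

open Finset SM

variable {n : ℕ}

lemma wu_mono (α r : ℝ) (j : ℕ) (h : MvPolynomial (Fin n) ℂ) :
    UU α r (Polynomial.monomial j h) = em h * e (1, 0, 0) ^ j * e (p0 n α r) := by
  rw [UU, Polynomial.eval₂_monomial]; rfl

lemma wu_add (α r : ℝ) (y z : NN n) : UU α r (y + z) = UU α r y + UU α r z := by
  rw [UU, Polynomial.eval₂_add, add_mul]; rfl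

lemma wu_sub (α r : ℝ) (y z : NN n) : UU α r (y - z) = UU α r y - UU α r z := by
  rw [UU, Polynomial.eval₂_sub, sub_mul]; rfl

lemma wu_mi (i : Fin n) (h : MvPolynomial (Fin n) ℂ) :
    nd (mi i) (em h) = em (MvPolynomial.X i * MvPolynomial.pderiv i h) := by
  induction h using MvPolynomial.induction_on' with
  | monomial a c =>
    rw [MvPolynomial.X_mul_pderiv_monomial, map_nsmul, em_monomial, map_smul, nd_e, smul_comm,
      ← Nat.cast_smul_eq_nsmul ℂ]
    simp [mi_apply]
  | add p q hp hq => simp only [map_add, mul_add, hp, hq]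

lemma wu_kk (h : MvPolynomial (Fin n) ℂ) : nd kk (em h) = 0 := by
  induction h using MvPolynomial.induction_on' with
  | monomial a c => simp [em_monomial, kk_apply]
  | add p q hp hq => simp only [map_add, hp, hq, add_zero]

lemma wu_th (f : MvPolynomial (Fin n) ℂ) (t : Fin n → ℝ) (ψ : L n →+ ℝ) : th f t ψ =
    ∑ i, (ψ (pt t (.inr i)) : ℂ) • e (pt t (.inr i)) - nd ψ (em f * e (1, 0, 0)) := by
  rw [th, gens, sum_disjSum, add_comm, sub_eq_add_neg]
  congr 1
  · simp [cf]
  conv_rhs => rw [f.as_sum]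
  simp only [map_sum, sum_mul, em_monomial, smul_mul_assoc, ← e_add, map_smul, nd_e, smul_smul,
    ← sum_neg_distrib, ← neg_smul, cf, neg_mul]
  refine sum_congr rfl fun a _ => ?_
  simp [pt, kp, wv, rh]

lemma wu_thk (f : MvPolynomial (Fin n) ℂ) (t : Fin n → ℝ) :
    th f t kk = -(em f * e (1, 0, 0)) := by
  simp [wu_th, nd_mul, wu_kk, kk_apply, pt, kp]

lemma wu_x (i : Fin n) : e ((0, -Pi.single i 1, 0) : L n) * em (MvPolynomial.X i) = 1 := by
  simp [SM.em, ← e_add, Prod.mk_zero_zero]

lemma wu_thi (f : MvPolynomial (Fin n) ℂ) (t : Fin n → ℝ) (i : Fin n) :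
    th f t (mi i) * e (0, -Pi.single i 1, 0) = (2 : ℂ) • e (0, Pi.single i 1, 2 * t i) -
      em (MvPolynomial.pderiv i f) * e (1, 0, 0) := by
  have h : pt t (.inr i) + ((0, -Pi.single i 1, 0) : L n) = (0, Pi.single i 1, 2 * t i) := by
    ext j <;> simp [pt, kp, wv, rh, Pi.single_apply]
    split_ifs <;> simp
  rw [wu_th, sum_eq_single i (fun j _ h => by simp [mi_pt, wv, h.symm]) (by simp), sub_mul,
    smul_mul_assoc, ← e_add, h, nd_mul, wu_mi, map_mul, mi_pt]
  simp only [wv, Pi.single_eq_same, nd_e, mi_apply, Pi.zero_apply, Int.cast_zero,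
    Complex.ofReal_zero, zero_smul, mul_zero, add_zero, Nat.cast_ofNat, Complex.ofReal_ofNat]
  linear_combination (-(em (MvPolynomial.pderiv i f) * e (1, 0, 0))) * wu_x i

theorem p_WU :
    S_WU := by
  intro n f t α r y
  refine ⟨fun i => ?_, ?_, ?_⟩
  · induction y using Polynomial.induction_on' with
    | add p q hp hq => simp only [map_add, wu_add, hp, hq, mul_add]; abel
    | monomial j h =>
      have h1 : nd (mi i) (e ((1, 0, 0) : L n) ^ j) = 0 := by
        rw [← e_nsmul]; simp [mi_apply]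
      rw [dN_monomial, wu_sub, Dp_apply, ← mul_assoc, wu_thi]
      simp only [wu_mono, nd_mul, wu_mi, h1, nd_e, map_mul, mi_apply, p0]
      simp only [Pi.neg_apply, Pi.single_eq_same, Int.cast_neg, Int.cast_one, Complex.ofReal_neg,
        Complex.ofReal_one, neg_smul, one_smul]
      linear_combination (-(em (MvPolynomial.pderiv i h) * e (1, 0, 0) ^ j *
        e (α, fun _ => 1, r))) * wu_x i
  · induction y using Polynomial.induction_on' with
    | add p q hp hq => simp only [map_add, wu_add, hp, hq, smul_add]; abel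
    | monomial j h =>
      have h1 : nd kk (e ((1, 0, 0) : L n) ^ j) = (j : ℂ) • e (1, 0, 0) ^ j := by
        rw [← e_nsmul]; simp [kk_apply]
      rw [EN_monomial, wu_sub, Dp_apply, wu_thk, Polynomial.smul_monomial]
      simp only [wu_mono, nd_mul, wu_kk, h1, nd_e, map_mul, kk_apply, p0, Algebra.smul_def,
        AlgHom.commutes]
      ring
  · have h : p0 n α r = (1, 0, 0) + p0 n (α - 1) r := by simp [p0]
    rw [← Polynomial.monomial_zero_left, wu_mono, Dp_apply, wu_thk, h, e_add, nd_e]
    simp [kk_apply, p0, mul_assoc]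

end Pool.Agent.P.MP_9321be_ag.SG
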