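import Pool.Agent.P.MP_9321be_ag.SG.Iface

/-! Step X2. -/

set_option autoImplicit false
set_option linter.unusedSectionVars false

namespace Pool.Agent.P.MP_9321be_ag.SG

open Finset SM

theorem p_X2 (hGR1 : S_GR1) (hEXG : S_EXG) (hREGF : S_REGF) (hGY : S_GY) (hSH3 : S_SH3) :
    S_X2 := by
  rintro n f h D hN ⟨z, hz, hz2⟩
  have h0 : ∀ p ∈ D.R3, ∀ i ∈ D.I, 0 ≤ p.2.1 i := fun p hp i hi => hp.1.1.2 i hi
  have hex : EX f h (fun J => D.R3 ∩ DJ D.I J) D.B0 := by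
    refine hEXG n f h D.toFan hN D.R3 D.B0 D.I (fun p hp γ hγ => Dat.R3_add hp hγ)
      (fun p hp γ hγ => Dat.B0_add hp hγ) (fun p hp γ hγ => Dat.R0_add0 hp.1.1 hγ) h0
      fun t M J hM ht => ?_
    obtain ⟨y, hy⟩ := hGY n f h D J
    obtain ⟨a, b⟩ := hSH3 n f h D J y hy
    refine hREGF n f h D.toFan y D.q0 t M D.F2 (D.R3 ∩ DJ D.I J) D.B0 hM ht hy.gen
      (fun S hS => (Dat.mem_F2.1 hS).1) (fun S hS S' hS' => ?_)
      (fun p hp γ hγ => ⟨Dat.R3_add hp.1 hγ, DJ_add hp.2 hγ.2⟩)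
      (fun p hp γ hγ => Dat.B0_add hp hγ) a fun S hS => ⟨b S hS, ?_⟩
    · exact (sub_eq_zero.1 (Dat.mem_F2.1 hS).2).trans (sub_eq_zero.1 (Dat.mem_F2.1 hS').2).symm
    · exact Set.disjoint_left.2 fun p hp hb => hb.2 S (Dat.F2_F1 hS) hp.1
  obtain ⟨z', h1, h2⟩ := hGR1 n f h (fun J => D.R3 ∩ DJ D.I J) D.B0
    (fun p => D.wt (rv p - D.q0)) hex Dat.cl_B0
    (fun i j x hx => Dp_DJ Dat.cl_R3 h0 j (by rwa [pair_comm] at hx))
    (fun J p hp g hg hb => by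
      have hγ := D.pt_Gam hg
      have hB := Dat.B1_add hp.1.1 hγ
      obtain ⟨S, hS, e0⟩ : ∃ S ∈ D.F1, D.Ψ S (p + pt h g) = 0 := by
        by_contra hc
        exact hb ⟨hB.1, fun S hS e0 => hc ⟨S, hS, e0⟩⟩
      rcases Dat.F1_cases hS with c | c
      · exact absurd e0 (hB.2 S c)
      · obtain ⟨e1, e2⟩ := Dat.Ψ_add_zero hp.1.1.1 hγ hS e0
        show D.wt (rv (p + pt h g) - D.q0) = D.wt (rv p - D.q0) + 1
        rw [rv_add, rv_pt, add_sub_right_comm]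
        exact D.wt_add (Dat.F1_FF hS) (Dat.R3_C hp.1 c e1) hg e2)
    (∑ b ∈ D.X1, D.μ b) z hz (by
      rw [← sub_sub_cancel (e D.P0) (∑ i, Dp f h (mi i) (z i))]
      exact sub_mem (e_mem (Or.inr D.wt_P0.le)) (sp_mono Set.subset_union_left hz2))
  exact ⟨z', h1, by rw [h2]; exact hz2⟩

end Pool.Agent.P.MP_9321be_ag.SG
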