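import Pool.Agent.P.MP_9321be_ag.SG.TZIface

/-! Step CAR. -/

set_option autoImplicit false
set_option linter.unusedSectionVars false

namespace Pool.Agent.P.MP_9321be_ag.SG

open Finset SM

theorem car_abs {V G : Type} [AddCommGroup V] [Module ℚ V] [DecidableEq G] (X sg : Finset G)
    (φ : G → V →ₗ[ℚ] ℚ) (h : sg ⊆ X) :
    ∃ (ξ : V) (ν : G → ℚ) (t : ℚ), (∀ b ∈ X, 0 ≤ φ b ξ) ∧ (∀ b ∈ sg, φ b ξ = 0) ∧
      (∀ b, 0 < ν b) ∧ ∀ x, ∑ b ∈ X with φ b ξ = 0, ν b * φ b x = t * ∑ b ∈ sg, φ b x := by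
  obtain ⟨ξ, ⟨h1, h2⟩, h3⟩ := ND.CB.exists_generic
    (fun x : V => (∀ b ∈ X, 0 ≤ φ b x) ∧ ∑ b ∈ sg, φ b x = 0) (· + ·) (fun b x => b ∈ X → 0 < φ b x)
    (fun x y hx hy => ⟨fun b hb => by rw [map_add]; exact add_nonneg (hx.1 b hb) (hy.1 b hb), by
      simp only [map_add, sum_add_distrib, hx.2, hy.2, add_zero]⟩)
    (fun k x y hx hy hk hb => by
      rw [map_add]
      rcases hk with hk | hk
      exacts [add_pos_of_pos_of_nonneg (hk hb) (hy.1 k hb),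
        add_pos_of_nonneg_of_pos (hx.1 k hb) (hk hb)])
    ⟨0, by simp⟩ X
  have key : ∀ b, ∃ (l : G → ℚ) (s : ℚ), (∀ g, 0 ≤ l g) ∧ (b ∈ X → φ b ξ = 0 →
      ∀ x, φ b x + ∑ g ∈ X with φ g ξ = 0, l g * φ g x = s * ∑ g ∈ sg, φ g x) := by
    intro b
    by_cases hb : b ∈ X ∧ φ b ξ = 0
    swap
    · exact ⟨0, 0, fun _ => le_rfl, fun h4 h5 => (hb ⟨h4, h5⟩).elim⟩
    obtain ⟨l, h4, h5⟩ := ND.CB.farkas (insertNone X)
      (fun o : Option G => o.elim (-∑ g ∈ sg, φ g) φ) (-φ b) fun x hx => by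
        have h6 : ∀ g ∈ X, 0 ≤ φ g x := fun g hg => hx (some g) (by simpa using hg)
        have h7 := hx none (by simp)
        simp only [Option.elim, LinearMap.neg_apply, LinearMap.sum_apply, Left.nonneg_neg_iff] at h7 ⊢
        by_contra h8
        exact (h3 b hb.1 x ⟨h6, le_antisymm h7 (sum_nonneg fun g hg => h6 g (h hg))⟩
          (fun _ => not_le.1 h8) hb.1).ne' hb.2
    simp only [sum_insertNone, Option.elim, LinearMap.neg_apply, LinearMap.sum_apply] at h5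
    have h6 := h5 ξ
    rw [hb.2, h2, neg_zero, mul_zero, zero_add, eq_comm,
      sum_eq_zero_iff_of_nonneg fun g hg => mul_nonneg (h4 _) (h1 g hg)] at h6
    refine ⟨fun g => l (some g), l none, fun g => h4 _, fun _ _ x => ?_⟩
    rw [sum_filter_of_ne fun g hg h7 => (mul_eq_zero.1 (h6 g hg)).resolve_left
      (left_ne_zero_of_mul h7)]
    linear_combination -h5 x
  choose l s h4 h5 using key
  refine ⟨ξ, fun g => 1 + ∑ b ∈ X with φ b ξ = 0, l b g, ∑ b ∈ X with φ b ξ = 0, s b, h1,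
    (sum_eq_zero_iff_of_nonneg fun g hg => h1 g (h hg)).1 h2,
    fun g => add_pos_of_pos_of_nonneg one_pos (sum_nonneg fun b _ => h4 b g), fun x => ?_⟩
  simp only [add_mul, one_mul, sum_add_distrib, sum_mul]
  rw [sum_comm, ← sum_add_distrib]
  exact sum_congr rfl fun b hb => h5 b (mem_filter.1 hb).1 (mem_filter.1 hb).2 x

theorem p_CAR :
    S_CAR := by
  classical
  intro n X sg h
  obtain ⟨ξ, ν, t, h1, h2, h3, h4⟩ := car_abs X sg
    (fun b => ∑ i, (wv b i : ℚ) • (LinearMap.proj i : (Fin n → ℚ) →ₗ[ℚ] ℚ)) h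
  simp only [LinearMap.sum_apply, LinearMap.smul_apply, LinearMap.proj_apply, smul_eq_mul] at h1 h2 h4
  have e : ∀ b, ∑ i, (ξ i : ℝ) * wv b i = ((∑ i, (wv b i : ℚ) * ξ i : ℚ) : ℝ) := fun b => by
    push_cast
    exact sum_congr rfl fun i _ => mul_comm _ _
  refine ⟨fun i => ξ i, fun b => ν b, t, fun b hb => ?_, fun b hb => ?_, fun b _ _ => ?_,
    fun i => ?_⟩
  · rw [e]; exact_mod_cast h1 b hb
  · rw [e, h2 b hb, Rat.cast_zero]
  · exact Rat.cast_pos.2 (h3 b)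
  · have h5 := h4 (Pi.single i 1)
    simp only [Pi.single_apply, mul_ite, mul_one, mul_zero, sum_ite_eq', mem_univ, if_true] at h5
    simp only [e, Rat.cast_eq_zero]
    exact_mod_cast h5

end Pool.Agent.P.MP_9321be_ag.SG
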