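import Pool.Agent.P.MP_9321be_ag.SG.TZIface

/-! Step FACE. -/

set_option autoImplicit false
set_option linter.unusedSectionVars false

namespace Pool.Agent.P.MP_9321be_ag.SG

open Finset SM

lemma facz_ev {x y : ℝ} (h : x < y) (u : ℝ) :
    ∀ᶠ e in nhdsWithin (0 : ℝ) (Set.Ioi 0), x < y + e * u := by
  have : ContinuousAt (fun e : ℝ => y + e * u) 0 := by fun_prop
  exact nhdsWithin_le_nhds (this.eventually_const_lt (by simpa using h))

theorem p_FACZ :
    S_FACZ := by
  intro n A S T Z ω μ w b hT hZ hw hA hμ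
  classical
  let d : Fin n → ℝ := fun j => (if j ∈ T then 0 else 1) - μ j
  let u : Fin n → ℝ := fun j => ω j + if j ∈ S then d j else 0
  have hu : ∀ i ∈ S, ∀ a ∈ Z i,
      ∑ j, (a j : ℝ) * u j = ((∑ j, ω j * a j : ℤ) : ℝ) + d i := fun i hi a ha => by
    simp only [u, mul_add, sum_add_distrib]
    congr 1
    · push_cast; exact sum_congr rfl fun j _ => mul_comm _ _
    · rw [sum_eq_single i]
      · simp [hi, (hZ i hi a ha).2.1]
      · intro j _ hj
        split_ifs with h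
        · simp [(hZ i hi a ha).2.2 j h hj]
        · simp
      · simp
  have e1 : ∀ᶠ e in nhdsWithin (0 : ℝ) (Set.Ioi 0), ∀ i, 0 < w i + e * u i :=
    Filter.eventually_all.2 fun i => facz_ev (hw i) _
  have e2 : ∀ᶠ e in nhdsWithin (0 : ℝ) (Set.Ioi 0), ∀ a ∈ A, b < ∑ i, (a i : ℝ) * w i →
      b < ∑ i, (a i : ℝ) * w i + e * ∑ i, (a i : ℝ) * u i :=
    (Filter.eventually_all_finset A).2 fun a _ => by
      by_cases h : b < ∑ i, (a i : ℝ) * w i
      · exact (facz_ev h _).mono fun e he _ => he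
      · exact Filter.Eventually.of_forall fun e h' => absurd h' h
  obtain ⟨e, ⟨h1, h2⟩, h3⟩ := ((e1.and e2).and self_mem_nhdsWithin).exists
  have h3 : 0 < e := h3
  refine ⟨fun j => w j + e * u j, h1, fun a ha => ?_⟩
  have hs : ∑ i, (a i : ℝ) * (w i + e * u i) =
      ∑ i, (a i : ℝ) * w i + e * ∑ i, (a i : ℝ) * u i := by
    rw [mul_sum, ← sum_add_distrib]
    exact sum_congr rfl fun j _ => by ring
  rw [hs]
  rcases (hA a ha).1.eq_or_lt with h | h
  · obtain ⟨i, hi, hai⟩ := (hA a ha).2.1 h.symm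
    have h4 : (μ i : ℝ) ≤ ((∑ j, ω j * a j : ℤ) : ℝ) := Int.cast_le.2 (hμ i hi a hai)
    rw [← h, hu i hi a hai]
    refine ⟨le_add_of_nonneg_right (mul_nonneg h3.le ?_), ?_, ?_⟩
    · simp only [d]; split_ifs <;> linarith
    · intro h5
      have h6 := (mul_eq_zero.1 (add_eq_left.1 h5)).resolve_left h3.ne'
      simp only [d] at h6
      split_ifs at h6 with h7
      · exact ⟨i, h7, hai, Int.cast_injective (α := ℝ) (by linarith)⟩
      · linarith
    · rintro ⟨i', hi', hai', h5⟩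
      rw [← hu i hi a hai, hu i' (hT hi') a hai', h5]
      simp [d, hi']
  · refine ⟨(h2 a ha h).le, fun h5 => absurd h5 (h2 a ha h).ne', ?_⟩
    rintro ⟨i, hi, hai, -⟩
    exact absurd ((hA a ha).2.2 ⟨i, hT hi, hai⟩) h.ne'

end Pool.Agent.P.MP_9321be_ag.SG
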