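import Pool.Agent.P.MP_9321be_ag.SG.TZIface

/-! Step JAC. -/

set_option autoImplicit false
set_option linter.unusedSectionVars false

namespace Pool.Agent.P.MP_9321be_ag.SG

open Finset SM

lemma jac_ev {n : ℕ} (x : Fin n → ℂ) (k : Fin n) (a : Fin n →₀ ℕ) (c : ℂ) :
    x k * MvPolynomial.eval x (MvPolynomial.pderiv k (MvPolynomial.monomial a c)) =
      c * a k * ∏ j, x j ^ a j := by
  have := congrArg (MvPolynomial.eval x)
    (MvPolynomial.X_mul_pderiv_monomial (i := k) (m := a) (r := c))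
  rw [map_mul, MvPolynomial.eval_X, map_nsmul, MvPolynomial.eval_monomial,
    Finsupp.prod_fintype _ _ (by simp)] at this
  rw [this]
  ring

theorem p_JAC (hFACE : S_FACZ) :
    S_JAC := by
  rintro n f hf S Z ω μ hZ ⟨w, b, hw, hb⟩ hμ hat x hx l hl i0 hi0
  by_contra h0
  obtain ⟨T, hT⟩ : ∃ T : Finset (Fin n), ∀ i, i ∈ T ↔ i ∈ S ∧ l i ≠ 0 :=
    ⟨S.filter fun i => l i ≠ 0, fun i => mem_filter⟩
  have sub : T ⊆ S := fun i hi => ((hT i).1 hi).1
  obtain ⟨w', hw', h'⟩ := hFACE n f.support S T Z ω μ w b sub hZ hw hb hμ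
  obtain ⟨a0, ha0, e0⟩ := hat i0 hi0
  have m0 := (hZ i0 hi0 a0 ha0).1
  have hb0 := (h' a0 m0).2.2 ⟨i0, (hT _).2 ⟨hi0, h0⟩, ha0, e0⟩
  have hF : ND.facePoly f w' = ∑ a ∈ T.biUnion fun i => {a ∈ Z i | ∑ j, ω j * a j = μ i},
      MvPolynomial.monomial a (MvPolynomial.coeff a f) := by
    refine sum_congr (Finset.ext fun a => ?_) fun _ _ => rfl
    simp only [mem_filter, mem_biUnion]
    refine ⟨fun h => (h' a h.1).2.1 ((hb0 ▸ h.2 a0 m0).antisymm (h' a h.1).1),
      fun ⟨i, h1, h2⟩ => ?_⟩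
    have m := (hZ i (sub h1) a h2.1).1
    exact ⟨m, fun c hc => ((h' a m).2.2 ⟨i, h1, h2⟩).trans_le (h' c hc).1⟩
  have hx' : ∀ j, (if j ∈ T then l j else 1) * x j ≠ 0 := fun j => mul_ne_zero (by
    split_ifs with h
    exacts [((hT j).1 h).2, one_ne_zero]) (hx j)
  obtain ⟨k, hk⟩ := hf w' hw' _ hx'
  refine mul_ne_zero (hx' k) hk ?_
  rw [hF, map_sum, map_sum, mul_sum, sum_biUnion, ← hl k,
    ← sum_subset sub fun i h1 h2 => by simp [not_not.1 fun h => h2 ((hT i).2 ⟨h1, h⟩)]]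
  · refine sum_congr rfl fun i hi => ?_
    rw [mul_sum]
    refine sum_congr rfl fun a ha => (jac_ev (fun j => (if j ∈ T then l j else 1) * x j) k a _).trans ?_
    obtain ⟨-, h1, h2⟩ := hZ i (sub hi) a (mem_filter.1 ha).1
    have : ∏ j, (if j ∈ T then l j else 1) ^ a j = l i := by
      rw [prod_eq_single i (fun j _ hj => ?_) (by simp), if_pos hi, h1, pow_one]
      split_ifs with h
      · rw [h2 j (sub h) hj, pow_zero]
      · exact one_pow _
    simp only [mul_pow, prod_mul_distrib, this]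
    ring
  · refine fun i hi j hj hij => disjoint_left.2 fun a h1 h2 => ?_
    have k1 := (hZ i (sub hi) a (mem_filter.1 h1).1).2.1
    have k2 := (hZ j (sub hj) a (mem_filter.1 h2).1).2.2 i (sub hi) hij
    omega

end Pool.Agent.P.MP_9321be_ag.SG
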