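import Pool.Agent.P.MP_9321be_ag.SG.TZIface

/-! Step LEMC. -/

set_option autoImplicit false
set_option linter.unusedSectionVars false

namespace Pool.Agent.P.MP_9321be_ag.SG

open Finset SM

theorem p_LEMC (hLIN : S_LIN) (hPOS : S_POS) :
    S_LEMC := by
  classical
  intro n X sg I S μ ν l t hX hS hind hl hU hν hν' hμ hμ' hT T hTS
  have touch : ∀ i, ∃ a ∈ sg, wv a i ≠ 0 := fun i => by
    by_contra h
    have := hl i
    rw [sum_eq_zero fun b hb => by
      rw [not_not.1 fun k => h ⟨b, hb, k⟩, Nat.cast_zero, mul_zero]] at this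
    exact zero_ne_one this
  choose a a1 a2 using touch
  let P : Fin n → Prop := fun i => ∀ b ∈ sg, b ≠ a i → wv b i = 0
  have ej : ∀ i, ∃ j, i ∈ T.filter P → j ∉ I ∧ wv (a i) j = wv (a i) i ∧
      ∀ b ∈ sg, b ≠ a i → wv b j = 0 := fun i => by
    by_cases hi : i ∈ T.filter P
    swap
    · exact ⟨i, fun h => absurd h hi⟩
    obtain ⟨h1, h2⟩ := mem_filter.1 hi
    obtain ⟨h3, h4⟩ := hT i (hTS h1) _ (hX (a1 i)) (a2 i)
    obtain ⟨j, h5, h6, h7⟩ := hU _ (a1 i) i h3 h2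
    refine ⟨j, fun _ => ⟨fun h => h6 (h4 j h h5), ?_, h7⟩⟩
    have e1 := hl i
    have e2 := hl j
    rw [sum_eq_single_of_mem _ (a1 i) fun b hb hn => by
      rw [h2 b hb hn, Nat.cast_zero, mul_zero], h3, Nat.cast_one, mul_one] at e1
    rw [sum_eq_single_of_mem _ (a1 i) fun b hb hn => by
      rw [h7 b hb hn, Nat.cast_zero, mul_zero], e1, one_mul] at e2
    rw [h3]
    exact_mod_cast e2
  have ea : ∀ i, ∃ b, ¬P i → b ∈ sg ∧ b ≠ a i ∧ wv b i ≠ 0 := fun i => by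
    by_cases hi : P i
    · exact ⟨a i, fun h => absurd hi h⟩
    · simp only [P, not_forall] at hi
      obtain ⟨b, h1, h2, h3⟩ := hi
      exact ⟨b, fun _ => ⟨h1, h2, h3⟩⟩
  choose j hj using ej
  choose c hc using ea
  have ne : ∀ i ∈ T, ∀ k ∈ T, i ≠ k → ∀ b, wv b i ≠ 0 → b ≠ a k := fun i hi k hk h b hb e =>
    hb (e ▸ (hT k (hTS hk) _ (hX (a1 k)) (a2 k)).2 i (hS (hTS hi)) h)
  rw [← card_filter_add_card_filter_not (s := T) P]
  refine hLIN n _ _ _ j (fun i k => (wv (a i) k : ℝ) - wv (c i) k) (fun m hm i hi => ?_)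
    (fun i hi => ?_) (fun i hi k hk => ?_) fun m hm i hi => ?_
  · have key : ∀ m : Fin n → ℝ, (∀ i ∈ T.filter P, ∀ x ∈ X, ∀ y ∈ X, wv x i ≠ 0 → wv y i ≠ 0 →
        ∑ k ∈ T.filter P, m k * ((wv x (j k) : ℝ) - wv y (j k)) = 0) → m i ≤ 0 := fun m hm =>
      hPOS n X sg I _ μ ν t j m hX ((filter_subset _ _).trans (hTS.trans hS))
        (fun i hi => (hj i hi).1) (fun i hi b hb => by
          by_cases e : b = a i
          · rw [e, (hj i hi).2.1]
          · rw [(hj i hi).2.2 b hb e, (mem_filter.1 hi).2 b hb e])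
        (fun i _ => ⟨_, a1 i, a2 i⟩) hν hν' hμ hμ' (fun i hi => hT i (hTS (mem_filter.1 hi).1))
        hm i hi
    have h0 : ∀ i ∈ T.filter P, ∀ x ∈ X, ∀ y ∈ X, wv x i ≠ 0 → wv y i ≠ 0 →
        ∑ k ∈ T.filter P, m k * ((wv x (j k) : ℝ) - wv y (j k)) = 0 := fun i hi x hx y hy h1 h2 =>
      hm _ (Submodule.subset_span ⟨i, (mem_filter.1 hi).1, x, hx, y, hy, h1, h2, rfl⟩)
    have h1 := key (fun k => -m k) fun i hi x hx y hy h1 h2 => by
      simp only [neg_mul, sum_neg_distrib, h0 i hi x hx y hy h1 h2, neg_zero]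
    linarith [key m h0]
  · obtain ⟨h1, h2⟩ := mem_filter.1 hi
    exact Submodule.subset_span ⟨i, h1, _, hX (a1 i), _, hX (hc i h2).1, a2 i, (hc i h2).2.2, rfl⟩
  · obtain ⟨h1, h2⟩ := mem_filter.1 hi
    obtain ⟨h3, h4⟩ := mem_filter.1 hk
    have h5 : i ≠ k := fun e => h2 (e ▸ h4)
    rw [(hj k hk).2.2 _ (a1 i) (ne i h1 k h3 h5 _ (a2 i)),
      (hj k hk).2.2 _ (hc i h2).1 (ne i h1 k h3 h5 _ (hc i h2).2.2), sub_self]
  · have h0 := hind (fun b => ∑ k ∈ T.filter fun k => ¬P k,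
      m k * ((if a k = b then 1 else 0) - if c k = b then 1 else 0)) (fun x => by
        simp only [sum_mul]
        rw [sum_comm]
        refine (sum_congr rfl fun k hk => ?_).trans (hm x)
        simp only [mul_assoc, ← mul_sum, sub_mul, sum_sub_distrib, ite_mul, one_mul, zero_mul,
          sum_ite_eq, if_pos (a1 k), if_pos (hc k (mem_filter.1 hk).2).1]) _ (a1 i)
    obtain ⟨h1, h2⟩ := mem_filter.1 hi
    rw [sum_eq_single_of_mem i hi fun k hk h => by
      obtain ⟨h3, h4⟩ := mem_filter.1 hk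
      rw [if_neg (ne k h3 i h1 h _ (a2 k)), if_neg (ne k h3 i h1 h _ (hc k h4).2.2), sub_self,
        mul_zero], if_pos rfl, if_neg (hc i h2).2.1, sub_zero, mul_one] at h0
    exact h0

end Pool.Agent.P.MP_9321be_ag.SG
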