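import Pool.Agent.P.MP_9321be_ag.SG.TZIface

/-! Step LIFT. -/

set_option autoImplicit false
set_option linter.unusedSectionVars false

namespace Pool.Agent.P.MP_9321be_ag.SG

open Finset SM

theorem lift_pow (m e : ℤ) (h : m ≤ e) :
    (0 : ℂ) ^ (e - m).toNat = if e = m then 1 else 0 := by
  split_ifs with h'
  · simp [h']
  · exact zero_pow (by omega)

theorem lift_prod {n : ℕ} (x z : Fin n → ℂ) (t : ℂ) (ht : t ≠ 0) (ω : Fin n → ℤ)
    (a : Fin n →₀ ℕ) (m : ℤ) (h : m ≤ ∑ j, ω j * a j) :
    ∏ j, (x j * Complex.exp (z j) * t ^ ω j) ^ a j =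
      t ^ m * ((∏ j, x j ^ a j) * Complex.exp (∑ j, (a j : ℂ) * z j) *
        t ^ (∑ j, ω j * a j - m).toNat) := by
  have h1 : ∏ j, (t ^ ω j) ^ a j = t ^ (∑ j, ω j * a j) := by
    have : ∀ s : Finset (Fin n), ∏ j ∈ s, (t ^ ω j) ^ a j = t ^ (∑ j ∈ s, ω j * a j) := by
      intro s
      induction s using Finset.induction_on with
      | empty => simp
      | insert j s hj ih =>
        rw [Finset.prod_insert hj, Finset.sum_insert hj, ih, zpow_add₀ ht, zpow_mul, zpow_natCast]
    exact this _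
  have h2 : t ^ (∑ j, ω j * a j) = t ^ m * t ^ (∑ j, ω j * a j - m).toNat := by
    rw [← zpow_natCast, Int.toNat_of_nonneg (by omega), ← zpow_add₀ ht]
    congr 1; ring
  simp only [mul_pow, Finset.prod_mul_distrib, h1, h2, Complex.exp_sum, Complex.exp_nat_mul]
  ring

theorem p_LIFT (hOPEN : S_OPEN) :
    S_LIFT := by
  intro n S Z c ω μ hμ x hx h0 hJ
  classical
  obtain ⟨z, t, ht, hF⟩ := hOPEN n S
    (fun p i => ∑ a ∈ Z i, c a * ((∏ j, x j ^ a j) * Complex.exp (∑ j, (a j : ℂ) * p.1 j) *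
      p.2 ^ (∑ j, ω j * a j - μ i).toNat))
    (fun i k => ∑ a ∈ Z i with ∑ j, ω j * a j = μ i, c a * a k * ∏ j, x j ^ a j)
    (by rw [contDiff_pi]; intro i; fun_prop)
    (by
      funext i
      have := h0 i i.2
      rw [Finset.sum_filter] at this
      simp only [Pi.zero_apply]
      rw [← this]
      refine Finset.sum_congr rfl fun a ha => ?_
      simp only [Prod.fst_zero, Prod.snd_zero, Pi.zero_apply, mul_zero, Finset.sum_const_zero,
        Complex.exp_zero, mul_one, lift_pow _ _ (hμ i i.2 a ha)]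
      split_ifs <;> simp)
    (by
      intro i k
      rw [Finset.sum_filter]
      refine HasDerivAt.fun_sum fun a ha => ?_
      have e : ∀ s : ℂ, ∑ j, (a j : ℂ) * (Pi.single k s : Fin n → ℂ) j = a k * s := by
        intro s
        rw [Finset.sum_eq_single k (fun j _ hj => by simp [hj]) (by simp)]
        simp
      simp only [e, lift_pow _ _ (hμ i i.2 a ha)]
      have d : HasDerivAt (fun s : ℂ => Complex.exp ((a k : ℂ) * s)) (a k) 0 := by
        simpa using ((hasDerivAt_id (0 : ℂ)).const_mul (a k : ℂ)).cexp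
      have := ((d.const_mul (∏ j, x j ^ a j)).mul_const
        (if ∑ j, ω j * a j = μ i then (1 : ℂ) else 0)).const_mul (c a)
      refine this.congr_deriv ?_
      split_ifs <;> ring)
    (by
      intro l hl i
      have := hJ (fun j => if h : j ∈ S then l ⟨j, h⟩ else 0) (fun k => by
        rw [← hl k, ← Finset.sum_coe_sort S]
        refine Finset.sum_congr rfl fun j _ => ?_
        simp [j.2]) i i.2
      simpa [i.2] using this)
  refine ⟨fun j => x j * Complex.exp (z j) * t ^ ω j, fun j =>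
    mul_ne_zero (mul_ne_zero (hx j) (Complex.exp_ne_zero _)) (zpow_ne_zero _ ht), fun i hi => ?_⟩
  have := congrFun hF ⟨i, hi⟩
  simp only [Pi.zero_apply] at this
  rw [← mul_zero (t ^ μ i), ← this, Finset.mul_sum]
  refine Finset.sum_congr rfl fun a ha => ?_
  rw [lift_prod x z t ht ω a (μ i) (hμ i hi a ha)]
  ring

end Pool.Agent.P.MP_9321be_ag.SG
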