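import Pool.Agent.P.MP_9321be_ag.SG.TZIface

/-! Step LIN. -/

set_option autoImplicit false
set_option linter.unusedSectionVars false

namespace Pool.Agent.P.MP_9321be_ag.SG

open Finset SM

theorem p_LIN :
    S_LIN := by
  classical
  intro n V T1 T2 j d h1 h2 h3 h4
  let φ : V →ₗ[ℝ] (T1 → ℝ) :=
    { toFun := fun v i => (v : Fin n → ℝ) (j i)
      map_add' := fun v w => by funext i; simp
      map_smul' := fun c v => by funext i; simp }
  have hr : LinearMap.range φ = ⊤ := by
    by_contra hne
    obtain ⟨f, hf0, hf⟩ := Submodule.exists_le_ker_of_lt_top _ (lt_top_iff_ne_top.2 hne)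
    let l : Fin n → ℝ := fun i => if h : i ∈ T1 then f (Pi.single (⟨i, h⟩ : T1) 1) else 0
    have hl : ∀ i : T1, l i = f (Pi.single i 1) := fun i => by simp [l, i.2]
    have key : ∀ x : T1 → ℝ, f x = ∑ i : T1, x i * l i := fun x => by
      rw [LinearMap.pi_apply_eq_sum_univ f x]
      refine Finset.sum_congr rfl fun i _ => ?_
      rw [hl i, smul_eq_mul]
      congr 2
      funext k
      simp [Pi.single_apply, eq_comm]
    have h0 := h1 l fun v hv => by
      have := hf (LinearMap.mem_range_self φ ⟨v, hv⟩)
      rw [LinearMap.mem_ker, key] at this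
      rw [← Finset.sum_coe_sort T1, ← this]
      exact Finset.sum_congr rfl fun i _ => mul_comm _ _
    apply hf0
    refine LinearMap.ext fun x => ?_
    rw [key]
    simp [fun i : T1 => h0 i i.2]
  let e : T2 → LinearMap.ker φ := fun i =>
    ⟨⟨d i, h2 i i.2⟩, by
      rw [LinearMap.mem_ker]
      funext k
      exact h3 i i.2 k k.2⟩
  have he : LinearIndependent ℝ e := by
    refine (Fintype.linearIndependent_iff (R := ℝ) (v := e)).2 fun g hg i => ?_
    let m : Fin n → ℝ := fun i => if h : i ∈ T2 then g ⟨i, h⟩ else 0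
    have hm : ∀ i : T2, m i = g i := fun i => by simp [m, i.2]
    rw [← hm i]
    refine h4 m (fun k => ?_) i i.2
    have := congrArg (fun x : LinearMap.ker φ => ((x : V) : Fin n → ℝ) k) hg
    simp only [Submodule.coe_sum, Finset.sum_apply, Submodule.coe_smul, Pi.smul_apply,
      smul_eq_mul, Submodule.coe_zero, Pi.zero_apply] at this
    rw [← Finset.sum_coe_sort T2, ← this]
    exact Finset.sum_congr rfl fun i _ => by rw [hm i]
  have hk := he.fintype_card_le_finrank
  have hs := LinearMap.finrank_range_add_finrank_ker φ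
  rw [hr, finrank_top, Module.finrank_fintype_fun_eq_card] at hs
  simp only [Fintype.card_coe] at hk hs
  omega

end Pool.Agent.P.MP_9321be_ag.SG
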