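import Pool.Agent.P.MP_9321be_ag.SG.TZIface

/-! Step LPD. -/

set_option autoImplicit false
set_option linter.unusedSectionVars false

namespace Pool.Agent.P.MP_9321be_ag.SG

open Finset SM

theorem lpd_ev (Z c : ℚ) (hc : 0 < c) :
    ∀ᶠ k : ℕ in Filter.atTop, 1 / ((k : ℚ) + 1) * Z < c := by
  obtain ⟨K, hK⟩ := exists_nat_gt (Z / c)
  filter_upwards [Filter.eventually_ge_atTop K] with k hk
  have h1 : (K : ℚ) ≤ k := by exact_mod_cast hk
  have h2 : (0 : ℚ) < (k : ℚ) + 1 := by positivity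
  rw [div_lt_iff₀ hc] at hK
  rw [one_div_mul_eq_div, div_lt_iff₀ h2]
  nlinarith

theorem p_LPD (hLPE : S_LPE) :
    S_LPD := by
  intro n X hX
  choose μ y hμ hy using fun k : ℕ => hLPE n X (1 / ((k : ℚ) + 1)) hX
  obtain ⟨c, hc⟩ := Finite.exists_infinite_fiber
    (fun k : ℕ => ((fun i : Fin n => 0 < y k i, fun b : X => ∑ i, y k i * wv b.1 i = 1) :
      (Fin n → Prop) × (X → Prop)))
  have hinf := Set.infinite_coe_iff.mp hc
  obtain ⟨k0, hk0⟩ := hinf.nonempty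
  set Z : ℚ := ∑ b ∈ X, (1 - ∑ i, y k0 i * wv b i) with hZ
  have hev : ∀ᶠ k : ℕ in Filter.atTop, 1 / ((k : ℚ) + 1) * Z < 1 ∧
      ∀ i, 0 < y k0 i → 1 / ((k : ℚ) + 1) * Z < y k0 i := by
    refine (lpd_ev Z 1 one_pos).and (Filter.eventually_all.mpr fun i => ?_)
    by_cases h : 0 < y k0 i
    · exact (lpd_ev Z _ h).mono fun k hk _ => hk
    · exact Filter.Eventually.of_forall fun k h' => absurd h' h
  obtain ⟨k, hk, hk1, hk2⟩ :=
    ((Nat.frequently_atTop_iff_infinite.mpr hinf).and_eventually hev).exists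
  have hkk := (Set.mem_singleton_iff.mp hk).trans (Set.mem_singleton_iff.mp hk0).symm
  have e1 : ∀ i, 0 < y k i ↔ 0 < y k0 i := fun i =>
    Iff.of_eq (congrFun (congrArg Prod.fst hkk) i)
  have e2 : ∀ b ∈ X, (∑ i, y k i * wv b i = 1 ↔ ∑ i, y k0 i * wv b i = 1) := fun b hb =>
    Iff.of_eq (congrFun (congrArg Prod.snd hkk) ⟨b, hb⟩)
  have key : ∑ b ∈ X, μ k b = ∑ i, y k0 i + 1 / ((k : ℚ) + 1) * Z := by
    have a1 : ∑ i, y k0 i = ∑ b ∈ X, μ k b * ∑ i, y k0 i * wv b i := by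
      simp only [Finset.mul_sum]
      rw [Finset.sum_comm]
      refine Finset.sum_congr rfl fun i _ => ?_
      have : ∑ b ∈ X, μ k b * (y k0 i * wv b i) = y k0 i * ∑ b ∈ X, μ k b * wv b i := by
        rw [Finset.mul_sum]; exact Finset.sum_congr rfl fun b _ => by ring
      rw [this]
      rcases (hy k0 i).1.eq_or_lt with h | h
      · rw [← h]; simp
      · rw [(hy k i).2.2.mp ((e1 i).mpr h), mul_one]
    rw [a1, hZ, Finset.mul_sum, ← Finset.sum_add_distrib]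
    refine Finset.sum_congr rfl fun b hb => ?_
    by_cases h : ∑ i, y k0 i * wv b i = 1
    · rw [h]; ring
    · rw [(hμ k b hb).2.2 fun h' => h ((e2 b hb).mp h')]; ring
  refine ⟨fun b => (μ k b : ℝ), fun i => (y k0 i : ℝ), fun b hb => ⟨?_, ?_⟩,
    fun i => ⟨?_, ?_, ?_⟩, ?_, fun i hi => ?_⟩ <;> beta_reduce at *
  · have h2 : (0 : ℚ) < 1 / ((k : ℚ) + 1) := by positivity
    exact_mod_cast h2.trans_le (hμ k b hb).1
  · exact_mod_cast (hμ k0 b hb).2.1
  · exact_mod_cast (hy k0 i).1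
  · exact_mod_cast (hy k i).2.1
  · exact_mod_cast (e1 i).symm.trans (hy k i).2.2
  · have : ∑ b ∈ X, μ k b < ∑ i, y k0 i + 1 := by rw [key]; linarith
    exact_mod_cast this
  · have hi' : 0 < y k0 i := by exact_mod_cast hi
    have : ∑ b ∈ X, μ k b < ∑ i, y k0 i + y k0 i := by rw [key]; linarith [hk2 i hi']
    exact_mod_cast this

end Pool.Agent.P.MP_9321be_ag.SG
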