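import Pool.Agent.P.MP_9321be_ag.SG.TZIface

/-! Step LPE. -/

set_option autoImplicit false
set_option linter.unusedSectionVars false

namespace Pool.Agent.P.MP_9321be_ag.SG

open Finset SM

/-- Strict complementarity for a skew-symmetric matrix. -/
theorem lpe_tucker {n : Type} [Fintype n] [DecidableEq n] (M : n → n → ℚ)
    (hM : ∀ i j, M i j = -M j i) :
    ∃ x : n → ℚ, (∀ i, 0 ≤ x i) ∧ (∀ i, 0 ≤ ∑ j, M i j * x j) ∧
      (∀ i, x i * ∑ j, M i j * x j = 0) ∧ ∀ t, 0 < x t ∨ 0 < ∑ j, M t j * x j := by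
  choose z h1 h2 _ h4 using ND.CB.tucker M hM
  have e : ∀ i, ∑ j, M i j * ∑ t, z t j = ∑ t, ∑ j, M i j * z t j := fun i => by
    simp only [mul_sum]
    exact sum_comm
  have a1 : ∀ i, 0 ≤ ∑ t, z t i := fun i => sum_nonneg fun t _ => h1 t i
  have a2 : ∀ i, 0 ≤ ∑ j, M i j * ∑ t, z t j := fun i => by
    rw [e]
    exact sum_nonneg fun t _ => h2 t i
  refine ⟨fun i => ∑ t, z t i, a1, a2, fun i => ?_, fun t => ?_⟩
  · generalize hx : (fun i => ∑ t, z t i) = x
    have hx' : ∀ i, ∑ t, z t i = x i := congrFun hx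
    simp only [hx'] at a1 a2 ⊢
    have h5 : ∑ i, x i * ∑ j, M i j * x j = 0 := by
      have : ∑ i, x i * ∑ j, M i j * x j = -∑ i, x i * ∑ j, M i j * x j := by
        simp only [mul_sum, ← sum_neg_distrib]
        rw [sum_comm]
        exact sum_congr rfl fun i _ => sum_congr rfl fun j _ => by rw [hM j i]; ring
      linarith
    exact (sum_eq_zero_iff_of_nonneg fun i _ => mul_nonneg (a1 i) (a2 i)).1 h5 i (mem_univ _)
  · refine (h4 t).imp (fun h => h.trans_le ?_) fun h => h.trans_le ?_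
    · exact single_le_sum (f := fun s => z s t) (fun s _ => h1 s t) (mem_univ t)
    · rw [e]
      exact single_le_sum (f := fun s => ∑ j, M t j * z s j) (fun s _ => h2 s t) (mem_univ t)

/-- Linear programming duality with strict complementary slackness. -/
theorem lpe_lp {ι κ : Type} [Fintype ι] [DecidableEq ι] [Fintype κ] [DecidableEq κ]
    (w : κ → ι → ℚ) (hw : ∀ a i, 0 ≤ w a i) (ht : ∀ i, ∃ a, w a i ≠ 0) (f : ι → ℚ) :
    ∃ (y : ι → ℚ) (l : κ → ℚ),
      (∀ a, 0 ≤ l a ∧ ∑ i, y i * w a i ≤ 1 ∧ (∑ i, y i * w a i ≠ 1 → l a = 0)) ∧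
      ∀ i, 0 ≤ y i ∧ f i ≤ ∑ a, l a * w a i ∧ (0 < y i ↔ ∑ a, l a * w a i = f i) := by
  let M : Option (ι ⊕ κ) → Option (ι ⊕ κ) → ℚ := fun r c =>
    match r, c with
    | none, none => 0
    | none, some (.inl i) => f i
    | none, some (.inr _) => -1
    | some (.inl i), none => -f i
    | some (.inl _), some (.inl _) => 0
    | some (.inl i), some (.inr a) => w a i
    | some (.inr _), none => 1
    | some (.inr a), some (.inl i) => -w a i
    | some (.inr _), some (.inr _) => 0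
  obtain ⟨x, h1, h2, h3, h4⟩ := lpe_tucker M (by rintro (_ | _ | _) (_ | _ | _) <;> simp [M])
  have e1 : ∀ i, ∑ j, M (some (.inl i)) j * x j =
      -f i * x none + ∑ a, w a i * x (some (.inr a)) := by
    intro i
    simp [M, Fintype.sum_option]
  have e2 : ∀ a, ∑ j, M (some (.inr a)) j * x j =
      x none - ∑ i, w a i * x (some (.inl i)) := by
    intro i
    simp [M, Fintype.sum_option, sub_eq_add_neg]
  have ht0 : 0 < x none := by
    refine (h4 none).elim id fun h4 => ?_
    have h5 : x none = 0 := (mul_eq_zero.1 (h3 none)).resolve_right h4.ne'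
    have h6 : ∀ i, x (some (.inl i)) = 0 := by
      intro i
      obtain ⟨a, hi⟩ := ht i
      have h7 := h2 (some (.inr a))
      rw [e2, h5] at h7
      have h8 := single_le_sum (f := fun i => w a i * x (some (.inl i)))
        (fun j _ => mul_nonneg (hw _ _) (h1 _)) (mem_univ i)
      have h9 : 0 < w a i := (hw a i).lt_of_ne' hi
      have := h1 (some (.inl i))
      nlinarith
    simp [M, Fintype.sum_option, h6] at h4
    exact (h4.not_ge (sum_nonneg fun _ _ => h1 _)).elim
  have e3 : ∀ a, ∑ i, x (some (.inl i)) / x none * w a i =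
      (∑ i, w a i * x (some (.inl i))) / x none := by
    intro a
    rw [sum_div]
    exact sum_congr rfl fun i _ => by ring
  have e4 : ∀ i, ∑ a, x (some (.inr a)) / x none * w a i =
      (∑ a, w a i * x (some (.inr a))) / x none := by
    intro i
    rw [sum_div]
    exact sum_congr rfl fun a _ => by ring
  refine ⟨fun i => x (some (.inl i)) / x none, fun a => x (some (.inr a)) / x none,
    fun a => ⟨div_nonneg (h1 _) ht0.le, ?_, fun h => ?_⟩,
    fun i => ⟨div_nonneg (h1 _) ht0.le, ?_, fun h => ?_, fun h => ?_⟩⟩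
  · rw [e3 a, div_le_one ht0]
    linarith [e2 a, h2 (some (.inr a))]
  · rw [e3 a, Ne, div_eq_one_iff_eq ht0.ne'] at h
    have := h3 (some (.inr a))
    rw [e2, mul_eq_zero, sub_eq_zero] at this
    simp [this.resolve_right (Ne.symm h)]
  · rw [e4, le_div_iff₀ ht0]
    linarith [e1 i, h2 (some (.inl i))]
  · have := h3 (some (.inl i))
    rw [e1, mul_eq_zero] at this
    rw [e4, div_eq_iff ht0.ne']
    linarith [this.resolve_left fun e => by simp [e] at h]
  · rw [e4, div_eq_iff ht0.ne'] at h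
    refine div_pos ((h4 (some (.inl i))).resolve_right ?_) ht0
    rw [e1, h]
    simp

theorem p_LPE :
    S_LPE := by
  classical
  intro n X ε ht
  obtain ⟨y, l, h1, h2⟩ := lpe_lp (fun (a : X) i => (wv a.1 i : ℚ)) (fun _ _ => Nat.cast_nonneg _)
    (fun i => by
      obtain ⟨b, hb, h⟩ := ht i
      exact ⟨⟨b, hb⟩, by simpa using h⟩) fun i => 1 - ε * ∑ b ∈ X, (wv b i : ℚ)
  have e : ∀ i, ∑ b ∈ X, (ε + if h : b ∈ X then l ⟨b, h⟩ else 0) * (wv b i : ℚ) =
      ε * ∑ b ∈ X, (wv b i : ℚ) + ∑ a : X, l a * wv a.1 i := fun i => by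
    simp only [add_mul, sum_add_distrib, mul_sum]
    rw [← sum_coe_sort X fun b => (if h : b ∈ X then l ⟨b, h⟩ else 0) * (wv b i : ℚ)]
    simp
  refine ⟨fun b => ε + if h : b ∈ X then l ⟨b, h⟩ else 0, y, fun b hb => ?_, fun i => ?_⟩
  · obtain ⟨a1, a2, a3⟩ := h1 ⟨b, hb⟩
    simp only [dif_pos hb]
    exact ⟨by linarith, a2, fun h => by rw [a3 h, add_zero]⟩
  · obtain ⟨a1, a2, a3⟩ := h2 i
    rw [e]
    exact ⟨a1, by linarith, a3.trans ⟨fun h => by linarith, fun h => by linarith⟩⟩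

end Pool.Agent.P.MP_9321be_ag.SG
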