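import Pool.Agent.P.MP_9321be_ag.SG.TZIface

/-! Step NZ. -/

set_option autoImplicit false
set_option linter.unusedSectionVars false

namespace Pool.Agent.P.MP_9321be_ag.SG

open Finset SM

open MvPolynomial in
theorem nz_null {n : ℕ} (A : Set (MvPolynomial (Fin n) ℂ))
    (h : ∀ x : Fin n → ℂ, (∀ G ∈ A, aeval x G = 0) → ∃ j, x j = 0) :
    ∃ N : ℕ, monomial (Finsupp.equivFunOnFinite.symm fun _ => N) 1 ∈ Ideal.span A := by
  have : (∏ j, X j : MvPolynomial (Fin n) ℂ) ∈ (Ideal.span A).radical := by
    rw [← vanishingIdeal_zeroLocus_eq_radical (K := ℂ), mem_vanishingIdeal_iff]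
    intro x hx
    obtain ⟨j, hj⟩ := h x fun G hG => hx G (Ideal.subset_span hG)
    rw [map_prod]
    exact prod_eq_zero (mem_univ j) (by simpa using hj)
  obtain ⟨N, hN⟩ := this
  refine ⟨N, ?_⟩
  rw [monomial_eq, Finsupp.prod_fintype _ _ (by simp)]
  simpa [prod_pow] using hN

open MvPolynomial in
theorem p_NZ :
    S_NZ := by
  classical
  intro n O hO S P c s h1 h2
  by_contra hc
  push Not at hc
  obtain ⟨N, hN⟩ := nz_null ((fun i => ∑ a ∈ P i, monomial a (c a)) '' (S : Set (Fin n)))
    fun x hx => by_contra fun e => by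
      push Not at e
      obtain ⟨i, hi, k⟩ := hc x e
      refine k ?_
      have := hx _ ⟨i, hi, rfl⟩
      simpa [aeval_monomial, Finsupp.prod_fintype] using this
  generalize (Finsupp.equivFunOnFinite.symm fun _ => N : Fin n →₀ ℕ) = b at hN
  let mo : (Fin n →₀ ℕ) → KK n := fun m => ∏ j, xx n j ^ m j
  have m0 : ∀ m, 0 < O.valuation (mo m) := fun m => zero_lt_iff.2
    ((_root_.map_ne_zero _).2 (prod_ne_zero_iff.2 fun j _ => pow_ne_zero _ (xx_ne n j)))
  have ma : ∀ m a, mo (m + a) = mo m * mo a := fun m a => by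
    simp only [mo, Finsupp.add_apply, pow_add, prod_mul_distrib]
  let π : MvPolynomial (Fin n) ℂ →ₗ[ℂ] KK n := (basisMonomials (Fin n) ℂ).constr ℂ
    fun m => if O.valuation (mo m) = O.valuation (mo b) then mo m else 0
  have hπ : ∀ m d, π (monomial m d) =
      if O.valuation (mo m) = O.valuation (mo b) then algebraMap ℂ (KK n) d * mo m else 0 := by
    intro m d
    have e : π (monomial m 1) = _ := (basisMonomials (Fin n) ℂ).constr_basis ℂ _ m
    rw [show monomial m d = d • monomial m (1 : ℂ) by simp [smul_monomial], map_smul, e,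
      Algebra.smul_def, mul_ite, mul_zero]
  let W : Ideal (MvPolynomial (Fin n) ℂ) :=
    { carrier := {F | ∀ q, O.valuation (π (q * F)) < O.valuation (mo b)}
      zero_mem' := fun q => by simpa using m0 b
      add_mem' := fun hF hG q => by
        rw [mul_add, map_add]
        exact Valuation.map_add_lt _ (hF q) (hG q)
      smul_mem' := fun r F hF q => by
        rw [smul_eq_mul, ← mul_assoc]
        exact hF _ }
  have hW : Ideal.span ((fun i => ∑ a ∈ P i, monomial a (c a)) '' (S : Set (Fin n))) ≤ W :=
    Ideal.span_le.2 (by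
    rintro _ ⟨i, hi, rfl⟩ q
    induction q using MvPolynomial.induction_on' with
    | add p q hp hq =>
      rw [add_mul, map_add]
      exact Valuation.map_add_lt _ hp hq
    | monomial m d =>
      have e : ∀ a ∈ P i, π (monomial m d * monomial a (c a)) =
          if O.valuation (mo m) * O.valuation (mo (s i)) = O.valuation (mo b) then
            algebraMap ℂ (KK n) d * mo m * (algebraMap ℂ (KK n) (c a) * mo a) else 0 := by
        intro a ha
        rw [monomial_mul, hπ, ma, map_mul, h1 i hi a ha, map_mul]
        congr 1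
        ring
      rw [mul_sum, map_sum, sum_congr rfl e]
      split_ifs with k
      · rw [← mul_sum, map_mul, map_mul, ← k]
        exact mul_lt_mul_of_le_of_lt_of_nonneg_of_pos
          (mul_le_of_le_one_left' (hO d)) (h2 i hi) zero_le (m0 m)
      · simpa using m0 b)
  have := hW hN 1
  rw [one_mul, hπ, if_pos rfl, map_one, one_mul] at this
  exact this.false

end Pool.Agent.P.MP_9321be_ag.SG
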