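import Pool.Agent.P.MP_9321be_ag.SG.TZIface

/-! Step OPEN. -/

set_option autoImplicit false
set_option linter.unusedSectionVars false

namespace Pool.Agent.P.MP_9321be_ag.SG

open Finset SM

theorem p_OPEN :
    S_OPEN := by
  classical
  intro n ι _ F J hF h0 hJ hl
  have h1 : HasStrictFDerivAt F (fderiv ℂ F 0) 0 := hF.contDiffAt.hasStrictFDerivAt one_ne_zero
  generalize fderiv ℂ F 0 = D at h1
  have h2 : ∀ i k, D (Pi.single k 1, 0) i = J i k := by
    intro i k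
    have a1 : HasDerivAt (fun s : ℂ => s • ((Pi.single k 1, 0) : (Fin n → ℂ) × ℂ))
        (Pi.single k 1, 0) 0 := by
      simpa using (hasDerivAt_id (0 : ℂ)).smul_const ((Pi.single k 1, 0) : (Fin n → ℂ) × ℂ)
    have a2 := hasDerivAt_pi.1 (h1.hasFDerivAt.comp_hasDerivAt_of_eq 0 a1 (by simp)) i
    refine a2.unique ?_
    refine (hJ i k).congr_of_eventuallyEq (.of_forall fun s => ?_)
    simp [← Pi.single_smul]
  let L : (Fin n → ℂ) →ₗ[ℂ] ι → ℂ := (D : _ →ₗ[ℂ] _) ∘ₗ LinearMap.inl ℂ _ ℂ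
  have h3 : LinearMap.range L = ⊤ := by
    by_contra hn
    obtain ⟨f, hf, hk⟩ := Submodule.exists_le_ker_of_lt_top _ (lt_top_iff_ne_top.2 hn)
    have a1 := hl (fun i => f fun j => if i = j then 1 else 0) fun k => by
      have := LinearMap.mem_ker.1 (hk ⟨Pi.single k 1, rfl⟩)
      rw [LinearMap.pi_apply_eq_sum_univ] at this
      exact (sum_congr rfl fun i _ => by rw [← h2, mul_comm]; rfl).trans this
    refine hf (LinearMap.ext fun x => ?_)
    rw [LinearMap.pi_apply_eq_sum_univ]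
    simp [a1]
  have h4 := (h1.prodMk (hasStrictFDerivAt_snd (𝕜 := ℂ) (p := 0))).map_nhds_eq_of_surj (by
    refine LinearMap.range_eq_top.2 fun y => ?_
    obtain ⟨z, hz⟩ := LinearMap.range_eq_top.1 h3 (y.1 - D (0, y.2))
    refine ⟨(z, y.2), Prod.ext ?_ rfl⟩
    rw [← sub_add_cancel y.1 (D (0, y.2)), ← hz]
    show D (z, y.2) = D (z, 0) + D (0, y.2)
    rw [← map_add]
    simp)
  have h5 : Set.range (fun x : (Fin n → ℂ) × ℂ => (F x, x.2)) ∈ nhds ((0 : ι → ℂ), (0 : ℂ)) := by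
    have := Filter.range_mem_map (f := nhds 0) (m := fun x : (Fin n → ℂ) × ℂ => (F x, x.2))
    rwa [h4, h0] at this
  have h6 := (Continuous.prodMk_right (0 : ι → ℂ)).continuousAt.preimage_mem_nhds h5
  obtain ⟨t, ⟨x, hx⟩, ht⟩ :=
    Filter.nonempty_of_mem (Filter.inter_mem (mem_nhdsWithin_of_mem_nhds h6)
      (self_mem_nhdsWithin (s := {0}ᶜ)))
  exact ⟨x.1, x.2, (congrArg Prod.snd hx).trans_ne ht, congrArg Prod.fst hx⟩

end Pool.Agent.P.MP_9321be_ag.SG
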