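import Pool.Agent.P.MP_9321be_ag.SG.TZIface

/-! Step POS. -/

set_option autoImplicit false
set_option linter.unusedSectionVars false

namespace Pool.Agent.P.MP_9321be_ag.SG

open Finset SM

theorem pos_sum {n : ℕ} (X : Finset (Gn n)) (T : Finset (Fin n)) (c : Gn n → ℝ) (l : Fin n → ℝ)
    (j : Fin n → Fin n) : ∑ b ∈ X, c b * ∑ k ∈ T, l k * ((wv b (j k) : ℝ) - wv b k) =
      ∑ k ∈ T, l k * (∑ b ∈ X, c b * wv b (j k) - ∑ b ∈ X, c b * wv b k) := by
  simp only [mul_sum, ← sum_sub_distrib]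
  rw [sum_comm]
  exact sum_congr rfl fun k _ => sum_congr rfl fun b _ => by ring

theorem p_POS :
    S_POS := by
  intro n X sg I T μ ν t j l hs hT hj h1 h2 h3 h4 h5 h6 h7 h8 i0 hi0
  by_contra hc
  push Not at hc
  have F0 : ∀ i ∈ T, ∀ b ∈ X, wv b i ≠ 0 → ∑ k ∈ T, l k * ((wv b (j k) : ℝ) - wv b k) = 0 := by
    intro i hi b hb hbi
    obtain ⟨a, ha, hai⟩ := h2 i hi
    rw [← h8 i hi b hb a (hs ha) hbi hai]
    refine sum_congr rfl fun k hk => ?_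
    have e : wv b k = wv a k := by
      by_cases e : k = i
      · rw [e, (h7 i hi b hb hbi).1, (h7 i hi a (hs ha) hai).1]
      · rw [(h7 i hi b hb hbi).2 k (hT hk) e, (h7 i hi a (hs ha) hai).2 k (hT hk) e]
    rw [e, h1 k hk a ha]
  have P0 : ∀ b ∈ X, 0 ≤ ∑ k ∈ T with 0 < l k, l k * ((wv b (j k) : ℝ) - wv b k) := by
    intro b hb
    by_cases h : ∃ i ∈ T, 0 < l i ∧ wv b i ≠ 0
    · obtain ⟨i, hi, li, hbi⟩ := h
      have e := F0 i hi b hb hbi
      rw [← sum_filter_add_sum_filter_not T fun k => 0 < l k] at e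
      have : ∑ k ∈ T with ¬0 < l k, l k * ((wv b (j k) : ℝ) - wv b k) ≤ 0 :=
        sum_nonpos fun k hk => by
          obtain ⟨k1, k2⟩ := mem_filter.1 hk
          rw [(h7 i hi b hb hbi).2 k (hT k1) fun e => k2 (e ▸ li), Nat.cast_zero, sub_zero]
          exact mul_nonpos_of_nonpos_of_nonneg (not_lt.1 k2) (Nat.cast_nonneg _)
      linarith
    · push Not at h
      refine sum_nonneg fun k hk => ?_
      obtain ⟨k1, k2⟩ := mem_filter.1 hk
      rw [h k k1 k2, Nat.cast_zero, sub_zero]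
      exact mul_nonneg k2.le (Nat.cast_nonneg _)
  have S0 : ∑ b ∈ X, ν b * ∑ k ∈ T with 0 < l k, l k * ((wv b (j k) : ℝ) - wv b k) = 0 := by
    rw [pos_sum]
    refine sum_eq_zero fun k hk => ?_
    rw [h4, h4, sum_congr rfl fun b hb => by rw [h1 k (mem_filter.1 hk).1 b hb], sub_self, mul_zero]
  have P1 : ∀ b ∈ X, ∑ k ∈ T with 0 < l k, l k * ((wv b (j k) : ℝ) - wv b k) = 0 := fun b hb =>
    (mul_eq_zero.1 ((sum_eq_zero_iff_of_nonneg fun b hb => mul_nonneg (h3 b hb).le (P0 b hb)).1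
      S0 b hb)).resolve_left (h3 b hb).ne'
  have S1 : ∑ b ∈ X, μ b * ∑ k ∈ T with 0 < l k, l k * ((wv b (j k) : ℝ) - wv b k) = 0 :=
    sum_eq_zero fun b hb => by rw [P1 b hb, mul_zero]
  rw [pos_sum] at S1
  refine (sum_pos (fun k hk => ?_) ⟨i0, mem_filter.2 ⟨hi0, hc⟩⟩).ne' S1
  obtain ⟨k1, k2⟩ := mem_filter.1 hk
  rw [h5 k (hT k1)]
  exact mul_pos k2 (sub_pos.2 (h6 _ (hj k k1)))

end Pool.Agent.P.MP_9321be_ag.SG
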