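import Pool.Agent.P.MP_9321be_ag.SG.TZIface

/-! Step RADO. -/

set_option autoImplicit false
set_option linter.unusedSectionVars false

namespace Pool.Agent.P.MP_9321be_ag.SG

open Finset SM

theorem p_RADO :
    S_RADO := by
  intro n S Z v
  set sp : (Fin n → Finset (Fin n →₀ ℕ)) → Finset (Fin n) → Submodule ℝ (Fin n → ℝ) :=
    fun Z T => Submodule.span ℝ {x : Fin n → ℝ | ∃ i ∈ T, ∃ a ∈ Z i, x = v i a} with hsp
  change (∀ T ⊆ S, T.card ≤ Module.finrank ℝ (sp Z T)) → _
  have ms : ∀ Z T, ∀ i ∈ T, ∀ a ∈ Z i, v i a ∈ sp Z T := fun Z T i hi a ha =>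
    Submodule.subset_span ⟨i, hi, a, ha, rfl⟩
  have le : ∀ Z T (U : Submodule ℝ (Fin n → ℝ)), (∀ i ∈ T, ∀ a ∈ Z i, v i a ∈ U) →
      Module.finrank ℝ (sp Z T) ≤ Module.finrank ℝ U := fun Z T U h =>
    Submodule.finrank_mono (Submodule.span_le.2 (by rintro _ ⟨i, hi, a, ha, rfl⟩; exact h i hi a ha))
  clear_value sp
  generalize hN : ∑ i ∈ S, (Z i).card = N
  induction N using Nat.strong_induction_on generalizing Z with
  | _ N ih =>
  intro h
  by_cases h1 : ∀ i ∈ S, (Z i).card ≤ 1
  · have h2 : ∀ i, ∃ c, i ∈ S → Z i = {c} := fun i => by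
      by_cases hi : i ∈ S
      · rcases (Z i).eq_empty_or_nonempty with e | e
        · have := (h {i} (by simpa)).trans (le Z {i} ⊥ (by simp [e]))
          simp at this
        · obtain ⟨c, hc⟩ := card_eq_one.1 (le_antisymm (h1 i hi) e.card_pos)
          exact ⟨c, fun _ => hc⟩
      · exact ⟨0, fun k => absurd k hi⟩
    choose c hc using h2
    refine ⟨c, fun i hi => by simp [hc i hi], fun l hl i hi => ?_⟩
    have h3 : LinearIndependent ℝ fun i : S => v i (c i) := by
      rw [linearIndependent_iff_card_le_finrank_span, Fintype.card_coe]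
      refine (h S Subset.rfl).trans (le Z S _ fun i hi a ha => Submodule.subset_span ⟨⟨i, hi⟩, ?_⟩)
      rw [hc i hi, mem_singleton] at ha
      rw [ha]
    refine Fintype.linearIndependent_iff.1 h3 (fun i => l i) (funext fun k => ?_) ⟨i, hi⟩
    rw [Finset.sum_apply, sum_coe_sort S fun i => (l i • v i (c i)) k]
    exact hl k
  push Not at h1
  obtain ⟨k, hk, h1⟩ := h1
  obtain ⟨x, hx, y, hy, hxy⟩ := one_lt_card.1 h1
  have up : ∀ z i, i ≠ k → Function.update Z k ((Z k).erase z) i = Z i := fun z i e =>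
    Function.update_of_ne e _ _
  by_contra hn
  have st : ∀ z ∈ Z k, ∃ T ⊆ S, k ∈ T ∧
      Module.finrank ℝ (sp (Function.update Z k ((Z k).erase z)) T) < T.card := fun z hz => by
    have sb : ∀ i, Function.update Z k ((Z k).erase z) i ⊆ Z i := fun i => by
      by_cases e : i = k
      · rw [e, Function.update_self]; exact erase_subset _ _
      · rw [up z i e]
    by_contra hc
    push Not at hc
    obtain ⟨c, c1, c2⟩ := ih _ (hN ▸ sum_lt_sum (fun i _ => card_le_card (sb i))
      ⟨k, hk, by rw [Function.update_self]; exact card_erase_lt_of_mem hz⟩) _ rfl fun T hT => by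
        by_cases e : k ∈ T
        · exact hc T hT e
        · exact (h T hT).trans (le _ _ _ fun i hi a ha =>
            ms _ _ i hi a (by rwa [up z i fun q => e (q ▸ hi)]))
    exact hn ⟨c, fun i hi => sb i (c1 i hi), c2⟩
  obtain ⟨T, t1, t2, t3⟩ := st x hx
  obtain ⟨U, u1, u2, u3⟩ := st y hy
  have a1 := (h (T ∪ U) (union_subset t1 u1)).trans (le _ _ (sp (Function.update Z k
    ((Z k).erase x)) T ⊔ sp (Function.update Z k ((Z k).erase y)) U) fun i hi a ha => by
      by_cases e : i = k
      · subst e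
        by_cases q : a = x
        · exact Submodule.mem_sup_right (ms _ _ i u2 a (by simp [ha, q ▸ hxy]))
        · exact Submodule.mem_sup_left (ms _ _ i t2 a (by simp [ha, q]))
      · rcases mem_union.1 hi with q | q
        · exact Submodule.mem_sup_left (ms _ _ i q a (by rwa [up x i e]))
        · exact Submodule.mem_sup_right (ms _ _ i q a (by rwa [up y i e])))
  have a2 := (h ((T ∩ U).erase k) ((erase_subset _ _).trans (inter_subset_left.trans t1))).trans
    (le _ _ (sp (Function.update Z k ((Z k).erase x)) T ⊓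
      sp (Function.update Z k ((Z k).erase y)) U) fun i hi a ha => by
      obtain ⟨e, q⟩ := mem_erase.1 hi
      exact ⟨ms _ _ i (mem_inter.1 q).1 a (by rwa [up x i e]),
        ms _ _ i (mem_inter.1 q).2 a (by rwa [up y i e])⟩)
  have a3 := Submodule.finrank_sup_add_finrank_inf_eq (sp (Function.update Z k ((Z k).erase x)) T)
    (sp (Function.update Z k ((Z k).erase y)) U)
  have a4 := card_union_add_card_inter T U
  have a5 := card_erase_add_one (mem_inter.2 ⟨t2, u2⟩)
  omega

end Pool.Agent.P.MP_9321be_ag.SG
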