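import Pool.Agent.P.MP_9321be_ag.SG.TZIface

/-! Step TZ. -/

set_option autoImplicit false
set_option linter.unusedSectionVars false

namespace Pool.Agent.P.MP_9321be_ag.SG

open Finset SM

theorem p_TZ (hRADO : S_RADO) (hVAL : S_VAL) (hOM : S_OM) (hNZ : S_NZ) (hJAC : S_JAC) (hLIFT : S_LIFT) :
    S_TZ := by
  classical
  intro n f hf S Z hZ hw hr
  let m : MonomialOrder.{0, 0} (Fin n) := MonomialOrder.lex
  let g : Fin n → MvPolynomial (Fin n) ℂ := fun i =>
    ∑ a ∈ Z i, MvPolynomial.monomial a (MvPolynomial.coeff a f)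
  have gc : ∀ i a, MvPolynomial.coeff a (g i) = if a ∈ Z i then MvPolynomial.coeff a f else 0 := by
    intro i a
    simp [g, MvPolynomial.coeff_sum, MvPolynomial.coeff_monomial]
  have ne : ∀ i ∈ S, (Z i).Nonempty := fun i hi => by
    by_contra h
    have := hr {i} (by simpa using hi)
    rw [not_nonempty_iff_eq_empty] at h
    simp [h] at this
  have g0 : ∀ i ∈ S, g i ≠ 0 := fun i hi h => by
    obtain ⟨a, ha⟩ := ne i hi
    have := gc i a
    rw [h, if_pos ha] at this
    exact MvPolynomial.mem_support_iff.1 (hZ i hi a ha).1 this.symm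
  have gd : ∀ i ∈ S, m.degree (g i) ∈ Z i := fun i hi => by
    by_contra h
    have := MvPolynomial.mem_support_iff.1 (m.degree_mem_support (g0 i hi))
    rw [gc, if_neg h] at this
    exact this rfl
  obtain ⟨c, hc, hl⟩ := hRADO n S Z (fun i a k => (m.degree (g i) k : ℝ) - a k) fun T hT =>
    (hr T hT).trans (Submodule.finrank_mono (Submodule.span_le.2 (by
      rintro _ ⟨i, hi, a, ha, b, hb, rfl⟩
      have := Submodule.sub_mem _ (Submodule.subset_span (R := ℝ)
        (s := {x : Fin n → ℝ | ∃ i ∈ T, ∃ a ∈ Z i, x = fun k => (m.degree (g i) k : ℝ) - a k})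
          ⟨i, hi, b, hb, rfl⟩) (Submodule.subset_span ⟨i, hi, a, ha, rfl⟩)
      rw [SetLike.mem_coe]
      convert this using 1
      ext k
      simp)))
  obtain ⟨O, hO, hv⟩ := hVAL n m S g c g0 hl
  obtain ⟨ω, hω⟩ := hOM n O.ValueGroup (fun j => O.valuation (xx n j))
    (fun j => by simpa using xx_ne n j) f.support
  have vp : ∀ a : Fin n →₀ ℕ, O.valuation (∏ j, xx n j ^ a j) =
      ∏ j, O.valuation (xx n j) ^ a j := fun a => by simp
  have ex : ∀ i, ∃ s : Fin n →₀ ℕ, i ∈ S → s ∈ Z i ∧ ∀ a ∈ Z i,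
      ∑ j, ω j * s j ≤ ∑ j, ω j * a j := fun i => by
    by_cases hi : i ∈ S
    · obtain ⟨s, h1, h2⟩ := exists_min_image (Z i) (fun a => ∑ j, ω j * a j) (ne i hi)
      exact ⟨s, fun _ => ⟨h1, h2⟩⟩
    · exact ⟨0, fun h => absurd h hi⟩
  choose s hs using ex
  have cmp : ∀ i ∈ S, ∀ a ∈ Z i, ∀ b ∈ Z i, O.valuation (∏ j, xx n j ^ a j) ≤
      O.valuation (∏ j, xx n j ^ b j) ↔ ∑ j, ω j * b j ≤ ∑ j, ω j * a j := fun i hi a ha b hb => by
    rw [vp, vp]
    exact hω a (hZ i hi a ha).1 b (hZ i hi b hb).1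
  obtain ⟨x, x0, hx⟩ := hNZ n O hO S
    (fun i => (Z i).filter fun a => ∑ j, ω j * a j = ∑ j, ω j * s i j)
    (fun a => MvPolynomial.coeff a f) s (fun i hi a ha => by
      rw [mem_filter] at ha
      exact le_antisymm ((cmp i hi a ha.1 _ (hs i hi).1).2 ha.2.ge)
        ((cmp i hi _ (hs i hi).1 a ha.1).2 ha.2.le)) (fun i hi => by
      have e := sum_filter_add_sum_filter_not (Z i) (fun a => ∑ j, ω j * a j = ∑ j, ω j * s i j)
        fun a => algebraMap ℂ (KK n) (MvPolynomial.coeff a f) * ∏ j, xx n j ^ a j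
      have e' : algebraMap (MvPolynomial (Fin n) ℂ) (KK n) (g i) = ∑ a ∈ Z i,
          algebraMap ℂ (KK n) (MvPolynomial.coeff a f) * ∏ j, xx n j ^ a j := by
        simp only [g, map_sum, map_monomial]
      rw [← e'] at e
      rw [eq_sub_of_add_eq e]
      refine Valuation.map_sub_lt _ ((hv i hi).trans_le ((cmp i hi _ (hc i hi) _ (hs i hi).1).2
        ((hs i hi).2 _ (hc i hi)))) (Valuation.map_sum_lt _ ?_ fun a ha => ?_)
      · rw [vp]
        exact prod_ne_zero_iff.2 fun j _ => pow_ne_zero _ (by simpa using xx_ne n j)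
      · rw [mem_filter] at ha
        rw [map_mul]
        refine (mul_le_of_le_one_left' (hO _)).trans_lt (not_le.1 fun h => ha.2 ?_)
        exact le_antisymm ((cmp i hi _ (hs i hi).1 a ha.1).1 h) ((hs i hi).2 a ha.1))
  exact hLIFT n S Z (fun a => MvPolynomial.coeff a f) ω (fun i => ∑ j, ω j * s i j)
    (fun i hi => (hs i hi).2) x x0 hx (hJAC n f hf S Z ω _ hZ hw (fun i hi => (hs i hi).2)
      (fun i hi => ⟨s i, (hs i hi).1, rfl⟩) x x0)

end Pool.Agent.P.MP_9321be_ag.SG
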