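import Pool.Agent.P.MP_9321be_ag.SG.TZIface

/-! Step VAL. -/

set_option autoImplicit false
set_option linter.unusedSectionVars false

namespace Pool.Agent.P.MP_9321be_ag.SG

open Finset SM

theorem val_ex {K σ : Type} [Field K] (φ : MvPolynomial σ ℂ →+* K)
    (hφ : Function.Injective φ) :
    ∃ O : ValuationSubring K, (∀ z : ℂ, O.valuation (φ (MvPolynomial.C z)) ≤ 1) ∧
      ∀ i, O.valuation (φ (MvPolynomial.X i)) < 1 := by
  have hs : Function.Surjective φ.rangeRestrict := φ.rangeRestrict_surjective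
  have hI : Ideal.map φ.rangeRestrict
      (RingHom.ker (MvPolynomial.constantCoeff : MvPolynomial σ ℂ →+* ℂ)) ≠ ⊤ := by
    rw [Ideal.ne_top_iff_one, Ideal.mem_map_iff_of_surjective _ hs]
    rintro ⟨Q, hQ, h1⟩
    have h2 : φ Q = φ 1 := by
      rw [map_one]
      exact congrArg Subtype.val h1
    rw [hφ h2, RingHom.mem_ker, map_one] at hQ
    exact one_ne_zero hQ
  obtain ⟨O, hA, hO⟩ := Ideal.image_subset_nonunits_valuationSubring _ hI
  refine ⟨O, fun z => ?_, fun i => ?_⟩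
  · rw [O.valuation_le_one_iff]
    exact hA ⟨_, rfl⟩
  · rw [← O.mem_nonunits_iff]
    exact hO ⟨φ.rangeRestrict (MvPolynomial.X i),
      Ideal.mem_map_of_mem _ (by simp [RingHom.mem_ker]), rfl⟩

theorem p_VAL (hAI : S_AI) :
    S_VAL := by
  intro n m S g c hg hl
  have h := hAI n m S g c hg hl
  obtain ⟨O, h1, h2⟩ := val_ex (MvPolynomial.aeval (R := ℂ) fun i : S =>
    algebraMap (MvPolynomial (Fin n) ℂ) (KK n) (g i) / ∏ j, xx n j ^ c i j).toRingHom h
  refine ⟨O, fun z => by simpa using h1 z, fun i hi => ?_⟩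
  have h3 := h2 ⟨i, hi⟩
  have h0 : O.valuation (∏ j, xx n j ^ c i j) ≠ 0 :=
    (Valuation.ne_zero_iff _).2 (prod_ne_zero_iff.2 fun j _ => pow_ne_zero _ (xx_ne n j))
  simp only [AlgHom.toRingHom_eq_coe, RingHom.coe_coe, MvPolynomial.aeval_X, map_div₀] at h3
  exact (div_lt_one₀ (zero_lt_iff.2 h0)).1 h3

end Pool.Agent.P.MP_9321be_ag.SG
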