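import Pool.Agent.P.MP_9321be_ag.SG.TZAI
import Pool.Agent.P.MP_9321be_ag.SG.TZCAR
import Pool.Agent.P.MP_9321be_ag.SG.TZFACE
import Pool.Agent.P.MP_9321be_ag.SG.TZJAC
import Pool.Agent.P.MP_9321be_ag.SG.TZLEMC
import Pool.Agent.P.MP_9321be_ag.SG.TZLIFT
import Pool.Agent.P.MP_9321be_ag.SG.TZLIN
import Pool.Agent.P.MP_9321be_ag.SG.TZLPD
import Pool.Agent.P.MP_9321be_ag.SG.TZLPE
import Pool.Agent.P.MP_9321be_ag.SG.TZNZ
import Pool.Agent.P.MP_9321be_ag.SG.TZOM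
import Pool.Agent.P.MP_9321be_ag.SG.TZOPEN
import Pool.Agent.P.MP_9321be_ag.SG.TZPOS
import Pool.Agent.P.MP_9321be_ag.SG.TZRADO
import Pool.Agent.P.MP_9321be_ag.SG.TZTZ
import Pool.Agent.P.MP_9321be_ag.SG.TZVAL

/-!
Common torus zeros and linear programming data.
-/

set_option autoImplicit false

namespace Pool.Agent.P.MP_9321be_ag.SG

theorem s_TZ : S_TZ := p_TZ p_RADO (p_VAL p_AI) p_OM p_NZ (p_JAC p_FACZ) (p_LIFT p_OPEN)
theorem s_LPD : S_LPD := p_LPD p_LPE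
theorem s_CAR : S_CAR := p_CAR
theorem s_LEMC : S_LEMC := p_LEMC p_LIN p_POS

end Pool.Agent.P.MP_9321be_ag.SG
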