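import Pool.Agent.P.MP_9321be_ag.SM.TACY
import Pool.Agent.P.MP_9321be_ag.SM.TWP
import Pool.Agent.P.MP_9321be_ag.SM.TRX
import Pool.Agent.P.MP_9321be_ag.SM.TFD
import Pool.Agent.P.MP_9321be_ag.SM.TWN
import Pool.Agent.P.MP_9321be_ag.SM.TONE
import Pool.Agent.P.MP_9321be_ag.SG.TPUSH
import Pool.Agent.P.MP_9321be_ag.SG.TRAISE
import Pool.Agent.P.MP_9321be_ag.SG.TGR1
import Pool.Agent.P.MP_9321be_ag.SG.TWU
import Pool.Agent.P.MP_9321be_ag.SG.TWEYL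
import Pool.Agent.P.MP_9321be_ag.SG.TCHAIN
import Pool.Agent.P.MP_9321be_ag.SG.TGRR
import Pool.Agent.P.MP_9321be_ag.SG.TREES
import Pool.Agent.P.MP_9321be_ag.SG.THKA
import Pool.Agent.P.MP_9321be_ag.SG.THKB
import Pool.Agent.P.MP_9321be_ag.SG.TSIMP
import Pool.Agent.P.MP_9321be_ag.SG.THAT
import Pool.Agent.P.MP_9321be_ag.SG.TFINL
import Pool.Agent.P.MP_9321be_ag.SG.TPIECE
import Pool.Agent.P.MP_9321be_ag.SG.TREGF
import Pool.Agent.P.MP_9321be_ag.SG.TGY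
import Pool.Agent.P.MP_9321be_ag.SG.TSH1
import Pool.Agent.P.MP_9321be_ag.SG.TSH3
import Pool.Agent.P.MP_9321be_ag.SG.TTW
import Pool.Agent.P.MP_9321be_ag.SG.TTOR
import Pool.Agent.P.MP_9321be_ag.SG.TNST
import Pool.Agent.P.MP_9321be_ag.SG.TEXG
import Pool.Agent.P.MP_9321be_ag.SG.TNIL
import Pool.Agent.P.MP_9321be_ag.SG.TS2
import Pool.Agent.P.MP_9321be_ag.SG.TG0
import Pool.Agent.P.MP_9321be_ag.SG.TR1
import Pool.Agent.P.MP_9321be_ag.SG.TX1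
import Pool.Agent.P.MP_9321be_ag.SG.TR2
import Pool.Agent.P.MP_9321be_ag.SG.TX2
import Pool.Agent.P.MP_9321be_ag.SG.TCW
import Pool.Agent.P.MP_9321be_ag.SG.TACT
import Pool.Agent.P.MP_9321be_ag.SG.TEV
import Pool.Agent.P.MP_9321be_ag.SG.TGENA
import Pool.Agent.P.MP_9321be_ag.SG.TVERT
import Pool.Agent.P.MP_9321be_ag.SG.TPVW
import Pool.Agent.P.MP_9321be_ag.SG.TPIV
import Pool.Agent.P.MP_9321be_ag.SG.TGH
import Pool.Agent.P.MP_9321be_ag.SG.TFAN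
import Pool.Agent.P.MP_9321be_ag.SG.TFACE
import Pool.Agent.P.MP_9321be_ag.SG.TLINK
import Pool.Agent.P.MP_9321be_ag.SG.TCHI
import Pool.Agent.P.MP_9321be_ag.SG.TMAINB
import Pool.Agent.P.MP_9321be_ag.SG.TZAll
import Pool.Agent.P.MP_9321be_ag.SG.Fin

/-!
The strong monodromy conjecture for non-degenerate polynomials.
-/

set_option autoImplicit false

namespace Pool.Agent.P.MP_9321be_ag.SG

theorem s_ACY : SM.S_ACY := SM.p_ACY
theorem s_WP : SM.S_WP := SM.p_WP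
theorem s_RX : SM.S_RX := SM.p_RX
theorem s_FD : SM.S_FD := SM.p_FD
theorem s_WN : SM.S_WN := SM.p_WN
theorem s_ONE : SM.S_ONE := SM.p_ONE s_WN
theorem s_PUSH : S_PUSH := p_PUSH
theorem s_RAISE : S_RAISE := p_RAISE s_PUSH
theorem s_GR1 : S_GR1 := p_GR1
theorem s_WU : S_WU := p_WU
theorem s_WEYL : S_WEYL := p_WEYL s_WU
theorem s_CHAIN : S_CHAIN := p_CHAIN s_RX
theorem s_GRR : S_GRR := p_GRR
theorem s_REES : S_REES := p_REES
theorem s_HKA : S_HKA := p_HKA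
theorem s_HKB : S_HKB := p_HKB
theorem s_SIMP : S_SIMP := p_SIMP s_WP
theorem s_HAT : S_HAT := p_HAT s_CHAIN s_SIMP s_HKA s_HKB
theorem s_FINL : S_FINL := p_FINL
theorem s_PIECE : S_PIECE := p_PIECE s_GRR s_REES s_HAT s_FINL
theorem s_REGF : S_REGF := p_REGF s_CHAIN s_PIECE s_HKA s_HKB
theorem s_GY : S_GY := p_GY
theorem s_SH1 : S_SH1 := p_SH1 s_HKA s_HKB
theorem s_SH3 : S_SH3 := p_SH3 s_HKA s_HKB
theorem s_TW : S_TW := p_TW
theorem s_TOR : S_TOR := p_TOR s_TW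
theorem s_NST : S_NST := p_NST s_TOR
theorem s_EXG : S_EXG := p_EXG s_ACY s_NST
theorem s_NIL : S_NIL := p_NIL
theorem s_S2 : S_S2 := p_S2 s_RAISE s_NIL
theorem s_G0 : S_G0 := p_G0
theorem s_R1 : S_R1 := p_R1 s_RAISE
theorem s_X1 : S_X1 := p_X1 s_GR1 s_EXG s_REGF s_GY s_SH1
theorem s_R2 : S_R2 := p_R2 s_RAISE
theorem s_X2 : S_X2 := p_X2 s_GR1 s_EXG s_REGF s_GY s_SH3
theorem s_CW : S_CW := p_CW
theorem s_ACT : S_ACT := p_ACT
theorem s_EV : S_EV := p_EV s_ACT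
theorem s_GENA : S_GENA := p_GENA
theorem s_VERT : S_VERT := p_VERT s_FD
theorem s_PVW : S_PVW := p_PVW
theorem s_PIV : S_PIV := p_PIV s_PVW
theorem s_GH : S_GH := p_GH
theorem s_FAN : S_FAN := p_FAN s_FD s_GENA s_VERT s_PVW s_PIV s_GH
theorem s_FACE : S_FACE := p_FACE
theorem s_LINK : S_LINK := p_LINK s_FACE s_CAR s_LPD s_LEMC
theorem s_CHI : S_CHI := p_CHI s_TZ s_CW
theorem s_MAINB : S_MAINB := p_MAINB s_WN s_WEYL s_S2 s_G0 s_R1 s_X1 s_R2 s_X2 s_CHI s_EV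

theorem conjecture (n : ℕ) (f : MvPolynomial (Fin n) ℂ) (h0 : MvPolynomial.coeff 0 f = 0)
    (hn : ND.Nondeg f) : SM.StrongMonodromyConjecture f :=
  fin s_ONE s_FAN s_LINK s_MAINB n f h0 hn

end Pool.Agent.P.MP_9321be_ag.SG
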