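import Pool.Agent.P.MP_9321be_ag.SM.Iface

/-!
The operators `D` with weighted rays, lexicographic values.
-/

set_option autoImplicit false
set_option linter.unusedSectionVars false

namespace Pool.Agent.P.MP_9321be_ag.SG

open Finset SM

variable {n : ℕ}

/-- The third coordinate of a generator. -/
def rh (h : Fin n → ℝ) : Gn n → ℝ
  | .inl _ => 0
  | .inr i => 2 * h i

/-- The point of a generator. -/
def pt (h : Fin n → ℝ) (g : Gn n) : L n := (kp g, fun i => wv g i, rh h g)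

/-- The real exponent vector of a generator. -/
def wr (g : Gn n) : Fin n → ℝ := fun i => wv g i

/-- The functional `p ↦ r`. -/
def rr : L n →+ ℝ where
  toFun p := p.2.2
  map_zero' := by simp
  map_add' p q := by simp

/-- The functional `p ↦ ω · m - r`. -/
def p2 (ω : Fin n → ℝ) : L n →+ ℝ := dt ω - rr

theorem rr_apply (p : L n) : rr p = p.2.2 := rfl
theorem p2_apply (ω : Fin n → ℝ) (p : L n) : p2 ω p = ω ⬝ᵥ rv p - p.2.2 := rfl
theorem rv_pt (h : Fin n → ℝ) (g : Gn n) : rv (pt h g) = wr g := by ext i; simp [rv, pt, wr]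
theorem mi_pt (h : Fin n → ℝ) (i : Fin n) (g : Gn n) : mi i (pt h g) = wv g i := by
  simp [mi_apply, pt]
theorem dt_pt (h x : Fin n → ℝ) (g : Gn n) : dt x (pt h g) = x ⬝ᵥ wr g := by rw [dt_apply, rv_pt]
theorem rv_add (p q : L n) : rv (p + q) = rv p + rv q := by ext i; simp [rv]
theorem rv_nsmul (k : ℕ) (p : L n) : rv (k • p) = (k : ℝ) • rv p := by ext i; simp [rv]
theorem wr_nonneg (g : Gn n) (i : Fin n) : 0 ≤ wr g i := Nat.cast_nonneg _
theorem dot_wr_inr (x : Fin n → ℝ) (i : Fin n) : x ⬝ᵥ wr (.inr i) = 2 * x i := by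
  simp [wr, wv, dotProduct, Pi.single_apply, mul_comm]

variable (f : MvPolynomial (Fin n) ℂ) (h : Fin n → ℝ)

/-- The multiplication part of `D ψ`. -/
noncomputable def th (ψ : L n →+ ℝ) : R n := ∑ g ∈ gens f, (cf f g * ψ (pt h g)) • e (pt h g)

/-- The twisted logarithmic derivative along `ψ`. -/
noncomputable def Dp (ψ : L n →+ ℝ) : Module.End ℂ (R n) := nd ψ + LinearMap.mulLeft ℂ (th f h ψ)

theorem Dp_apply (ψ : L n →+ ℝ) (x : R n) : Dp f h ψ x = nd ψ x + th f h ψ * x := rfl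

theorem th_mul_e (ψ : L n →+ ℝ) (p : L n) :
    th f h ψ * e p = ∑ g ∈ gens f, (cf f g * ψ (pt h g)) • e (p + pt h g) := by
  simp only [th, sum_mul, smul_mul_assoc, e_add]
  simp only [mul_comm]

theorem Dp_comm (ψ φ : L n →+ ℝ) (x : R n) : Dp f h ψ (Dp f h φ x) = Dp f h φ (Dp f h ψ x) := by
  have h1 : nd ψ (th f h φ) = nd φ (th f h ψ) := by
    simp only [th, map_sum, map_smul, nd_e, smul_smul]
    exact sum_congr rfl fun g _ => by congr 1; ring
  have h2 : nd ψ (nd φ x) = nd φ (nd ψ x) :=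
    map_eq (nd ψ ∘ₗ nd φ) (nd φ ∘ₗ nd ψ) (fun p _ => by simp [smul_smul, mul_comm])
      (mem_sp_univ x)
  simp only [Dp_apply, map_add, nd_mul, h1, h2]
  ring

theorem Dp_commute (ψ φ : L n →+ ℝ) : Commute (Dp f h ψ) (Dp f h φ) :=
  LinearMap.ext (Dp_comm f h ψ φ)

theorem Dp_sub (ψ φ : L n →+ ℝ) : Dp f h (ψ - φ) = Dp f h ψ - Dp f h φ :=
  lin_ext fun p => by
    simp only [LinearMap.sub_apply, Dp_apply, nd_e, th_mul_e, AddMonoidHom.sub_apply,
      Complex.ofReal_sub, mul_sub, sub_smul, sum_sub_distrib]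
    abel

theorem th_dt (x : Fin n → ℝ) : th f h (dt x) = ∑ i, (x i : ℂ) • th f h (mi i) := by
  simp only [th, dt_eq, smul_sum, smul_smul]
  rw [sum_comm]
  refine sum_congr rfl fun g _ => ?_
  rw [← sum_smul]
  congr 1
  simp [mul_sum, mul_left_comm]

theorem Dp_dt (x : Fin n → ℝ) (y : R n) : Dp f h (dt x) y = ∑ i, Dp f h (mi i) ((x i : ℂ) • y) := by
  have : nd (dt x) y = ∑ i, (x i : ℂ) • nd (mi i) y := by
    have := map_eq (nd (dt x)) (∑ i, (x i : ℂ) • nd (mi i)) (fun p _ => by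
      simp only [nd_e, LinearMap.sum_apply, LinearMap.smul_apply, smul_smul, ← sum_smul, dt_eq]
      simp) (mem_sp_univ y)
    simpa using this
  simp only [Dp_apply, this, th_dt, map_smul, sum_mul, smul_add, sum_add_distrib, smul_mul_assoc]

/-- Sets closed under adding generators. -/
def Cl (A : Set (L n)) : Prop := ∀ p ∈ A, ∀ g ∈ gens f, p + pt h g ∈ A

variable {f h}

theorem Cl.th {A : Set (L n)} (hA : Cl f h A) (ψ : L n →+ ℝ) {x : R n} (hx : x ∈ sp A) :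
    th f h ψ * x ∈ sp A :=
  map_mem (LinearMap.mulLeft ℂ (SG.th f h ψ)) (fun p hp => by
    rw [LinearMap.mulLeft_apply, th_mul_e]
    exact sum_mem fun g hg => Submodule.smul_mem _ _ (e_mem (hA p hp g hg))) hx

theorem Cl.Dp {A : Set (L n)} (hA : Cl f h A) (ψ : L n →+ ℝ) {x : R n} (hx : x ∈ sp A) :
    Dp f h ψ x ∈ sp A := add_mem (dg_mem _ hx) (hA.th ψ hx)

theorem Cl.inter {A B : Set (L n)} (h1 : Cl f h A) (h2 : Cl f h B) : Cl f h (A ∩ B) :=
  fun p hp g hg => ⟨h1 p hp.1 g hg, h2 p hp.2 g hg⟩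

theorem Cl.union {A B : Set (L n)} (h1 : Cl f h A) (h2 : Cl f h B) : Cl f h (A ∪ B) :=
  fun p hp g hg => hp.imp (h1 p · g hg) (h2 p · g hg)

variable (f h)

/-- Exact elements with primitives supported on the `A i`, modulo elements supported on `B`. -/
def EE (A : Fin n → Set (L n)) (B : Set (L n)) : Submodule ℂ (R n) where
  carrier := {x | ∃ z : Fin n → R n, (∀ i, z i ∈ sp (A i)) ∧ x - ∑ i, Dp f h (mi i) (z i) ∈ sp B}
  zero_mem' := ⟨0, fun _ => zero_mem _, by simp⟩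
  add_mem' := by
    rintro x y ⟨z, h1, h2⟩ ⟨w, h3, h4⟩
    refine ⟨z + w, fun i => add_mem (h1 i) (h3 i), ?_⟩
    convert add_mem h2 h4 using 1
    simp only [Pi.add_apply, map_add, sum_add_distrib]
    abel
  smul_mem' := by
    rintro c x ⟨z, h1, h2⟩
    refine ⟨c • z, fun i => Submodule.smul_mem _ _ (h1 i), ?_⟩
    convert Submodule.smul_mem _ c h2 using 1
    simp only [Pi.smul_apply, map_smul, smul_sub, smul_sum]

variable {f h}

theorem mem_EE {A : Fin n → Set (L n)} {B : Set (L n)} {x : R n} : x ∈ EE f h A B ↔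
    ∃ z : Fin n → R n, (∀ i, z i ∈ sp (A i)) ∧ x - ∑ i, Dp f h (mi i) (z i) ∈ sp B := Iff.rfl

theorem EE_of_mem {A : Fin n → Set (L n)} {B : Set (L n)} {x : R n} (hx : x ∈ sp B) :
    x ∈ EE f h A B := ⟨0, fun _ => zero_mem _, by simpa using hx⟩

theorem EE_mono {A A' : Fin n → Set (L n)} {B B' : Set (L n)} (ha : ∀ i, A i ⊆ A' i)
    (hb : B ⊆ B') : EE f h A B ≤ EE f h A' B' :=
  fun _ ⟨z, h1, h2⟩ => ⟨z, fun i => sp_mono (ha i) (h1 i), sp_mono hb h2⟩

theorem EE_Dp {A : Fin n → Set (L n)} {B : Set (L n)} (hA : ∀ i, Cl f h (A i)) (hB : Cl f h B)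
    (ψ : L n →+ ℝ) {x : R n} (hx : x ∈ EE f h A B) : Dp f h ψ x ∈ EE f h A B := by
  obtain ⟨z, h1, h2⟩ := hx
  refine ⟨fun i => Dp f h ψ (z i), fun i => (hA i).Dp ψ (h1 i), ?_⟩
  convert hB.Dp ψ h2 using 1
  simp only [map_sub, map_sum, Dp_comm f h ψ]

theorem Dp_dt_mem {A : Fin n → Set (L n)} {B : Set (L n)} (x : Fin n → ℝ) {y : R n}
    (hy : ∀ i, y ∈ sp (A i)) : Dp f h (dt x) y ∈ EE f h A B :=
  ⟨fun i => (x i : ℂ) • y, fun i => Submodule.smul_mem _ _ (hy i), by rw [Dp_dt]; simp⟩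

variable (f h)

/-- Exactness in degree one of the Koszul complex of the `th f h (mi i)`. -/
def EX (A : Finset (Fin n) → Set (L n)) (B : Set (L n)) : Prop :=
  ∀ z : Fin n → R n, (∀ i, z i ∈ sp (A {i})) → ∑ i, th f h (mi i) * z i ∈ sp B →
    ∃ v : Fin n → Fin n → R n, (∀ i j, v i j = -v j i) ∧ (∀ i j, v i j ∈ sp (A {i, j})) ∧
      ∀ i, z i - ∑ j, th f h (mi j) * v i j ∈ sp B

/-- The point of the volume form. -/
def p0 (n : ℕ) (α r : ℝ) : L n := (α, fun _ => 1, r)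

theorem mem_Isp {η : Fin n → R n} {A B : Submodule ℂ (R n)} {r : ℕ} {x : R n} :
    x ∈ B ⊔ Isp η A r ↔ ∃ y : Fin n → R n, (∀ i, y i ∈ A) ∧
      x - ∑ i with i.1 < r, η i * y i ∈ B := by
  constructor
  · intro hx
    obtain ⟨b, hb, w, hw, rfl⟩ := Submodule.mem_sup.1 hx
    suffices ∃ y : Fin n → R n, (∀ i, y i ∈ A) ∧ w = ∑ i with i.1 < r, η i * y i by
      obtain ⟨y, h1, rfl⟩ := this
      exact ⟨y, h1, by simpa using hb⟩
    clear hx
    rw [Isp] at hw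
    refine Submodule.iSup_induction _ (motive := fun w => ∃ y : Fin n → R n, (∀ i, y i ∈ A) ∧
      w = ∑ i with i.1 < r, η i * y i) hw (fun i w hw => ?_) ⟨0, fun _ => zero_mem _, by simp⟩ ?_
    · by_cases hi : i.1 < r
      · rw [iSup_pos hi] at hw
        obtain ⟨a, ha, rfl⟩ := hw
        refine ⟨Pi.single i a, fun j => ?_, ?_⟩
        · by_cases e : j = i
          · subst e; simpa using ha
          · simp [e]
        · rw [sum_eq_single_of_mem i (by simpa using hi) fun j _ e => by simp [e]]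
          simp
      · rw [iSup_neg hi] at hw
        exact ⟨0, fun _ => zero_mem _, by simpa using hw⟩
    · rintro _ _ ⟨y, h1, rfl⟩ ⟨z, h2, rfl⟩
      exact ⟨y + z, fun i => add_mem (h1 i) (h2 i), by simp [mul_add, sum_add_distrib]⟩
  · rintro ⟨y, h1, h2⟩
    rw [← sub_add_cancel x (∑ i with i.1 < r, η i * y i)]
    refine Submodule.add_mem_sup h2 (sum_mem fun i hi => ?_)
    exact Submodule.mem_iSup_of_mem i (Submodule.mem_iSup_of_mem (by simpa using hi)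
      ⟨y i, h1 i, rfl⟩)

/-- Pairs of reals in the lexicographic order. -/
abbrev Lam : Type := ℝ ×ₗ ℝ

/-- A pair. -/
def lx (a b : ℝ) : Lam := toLex (a, b)

theorem lx_lt {a b c d : ℝ} : lx a b < lx c d ↔ a < c ∨ a = c ∧ b < d := Prod.Lex.toLex_lt_toLex
theorem lx_le {a b c d : ℝ} : lx a b ≤ lx c d ↔ a < c ∨ a = c ∧ b ≤ d := Prod.Lex.toLex_le_toLex
theorem lx_inj {a b c d : ℝ} : lx a b = lx c d ↔ a = c ∧ b = d := by simp [lx]
theorem lx_zero : lx 0 0 = 0 := rfl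
theorem lx_pos {a b : ℝ} : 0 < lx a b ↔ 0 < a ∨ a = 0 ∧ 0 < b := by
  rw [← lx_zero, lx_lt, eq_comm]
theorem lx_nonneg {a b : ℝ} : 0 ≤ lx a b ↔ 0 < a ∨ a = 0 ∧ 0 ≤ b := by
  rw [← lx_zero, lx_le, eq_comm]
theorem lx_eq_zero {a b : ℝ} : lx a b = 0 ↔ a = 0 ∧ b = 0 := by rw [← lx_zero, lx_inj]
theorem lx_add (a b c d : ℝ) : lx a b + lx c d = lx (a + c) (b + d) := rfl
theorem lx_sub (a b c d : ℝ) : lx a b - lx c d = lx (a - c) (b - d) := rfl
theorem lx_smul (t a b : ℝ) : t • lx a b = lx (t * a) (t * b) := rfl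
theorem lx_surj (x : Lam) : ∃ a b, x = lx a b := ⟨(ofLex x).1, (ofLex x).2, rfl⟩

theorem lam_smul_pos {t : ℝ} {x : Lam} (ht : 0 < t) (hx : 0 < x) : 0 < t • x := by
  obtain ⟨a, b, rfl⟩ := lx_surj x
  rw [lx_smul, lx_pos]
  exact (lx_pos.1 hx).imp (mul_pos ht) fun e => ⟨by simp [e.1], mul_pos ht e.2⟩

theorem lam_smul_nonneg {t : ℝ} {x : Lam} (ht : 0 ≤ t) (hx : 0 ≤ x) : 0 ≤ t • x := by
  rcases ht.eq_or_lt with rfl | ht
  · simp
  rcases hx.eq_or_lt with rfl | hx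
  · simp
  exact (lam_smul_pos ht hx).le

theorem lam_smul_neg {t : ℝ} {x : Lam} (ht : t < 0) (hx : 0 < x) : t • x < 0 := by
  have := lam_smul_pos (neg_pos.2 ht) hx
  rwa [neg_smul, neg_pos] at this

theorem lam_smul_nonpos {t : ℝ} {x : Lam} (ht : t ≤ 0) (hx : 0 ≤ x) : t • x ≤ 0 := by
  have := lam_smul_nonneg (neg_nonneg.2 ht) hx
  rwa [neg_smul, neg_nonneg] at this

theorem lam_nonneg_iff {t : ℝ} {x : Lam} (hx : 0 < x) : 0 ≤ t • x ↔ 0 ≤ t :=
  ⟨fun e => not_lt.1 fun e' => (lam_smul_neg e' hx).not_ge e, fun e => lam_smul_nonneg e hx.le⟩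

theorem lam_pos_iff {t : ℝ} {x : Lam} (hx : 0 < x) : 0 < t • x ↔ 0 < t :=
  ⟨fun e => not_le.1 fun e' => (lam_smul_nonpos e' hx.le).not_gt e, fun e => lam_smul_pos e hx⟩

/-- Lexicographic positivity is seen by small real parameters. -/
theorem lx_ev {a b : ℝ} (hx : 0 < lx a b) : ∀ᶠ ε in nhdsWithin (0 : ℝ) (Set.Ioi 0), 0 < a + ε * b := by
  rcases lx_pos.1 hx with e | ⟨rfl, e⟩
  · have : ContinuousAt (fun ε : ℝ => a + ε * b) 0 := by fun_prop
    exact nhdsWithin_le_nhds (this.eventually (lt_mem_nhds (by simpa using e)))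
  · filter_upwards [self_mem_nhdsWithin] with ε hε
    simpa using mul_pos hε e

/-- The pair of functionals `(u · x, ω · x)`. -/
def Wd (u ω : Fin n → ℝ) : (Fin n → ℝ) →ₗ[ℝ] Lam where
  toFun x := lx (u ⬝ᵥ x) (ω ⬝ᵥ x)
  map_add' x y := by simp [lx_add]
  map_smul' t x := by simp [lx_smul]

/-- The height `(k, r)` of a point. -/
def Ht : L n →+ Lam where
  toFun p := lx p.1 p.2.2
  map_zero' := rfl
  map_add' _ _ := rfl

/-- The pair of functionals `(u · m - k, ω · m - r)`. -/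
def Ps (u ω : Fin n → ℝ) : L n →+ Lam where
  toFun p := lx (ps u p) (p2 ω p)
  map_zero' := by simp [lx_zero]
  map_add' p q := by simp [lx_add]

theorem Wd_apply (u ω x : Fin n → ℝ) : Wd u ω x = lx (u ⬝ᵥ x) (ω ⬝ᵥ x) := rfl
theorem Ht_apply (p : L n) : Ht p = lx p.1 p.2.2 := rfl
theorem Ps_apply (u ω : Fin n → ℝ) (p : L n) : Ps u ω p = lx (ps u p) (p2 ω p) := rfl
theorem Ps_eq (u ω : Fin n → ℝ) (p : L n) : Ps u ω p = Wd u ω (rv p) - Ht p := rfl

theorem Wd_inj {u ω u' ω' : Fin n → ℝ} (e : Wd u ω = Wd u' ω') : u = u' ∧ ω = ω' := by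
  have := fun i => lx_inj.1 (LinearMap.congr_fun e (Pi.single i 1))
  simp only [dotProduct_single, mul_one] at this
  exact ⟨funext fun i => (this i).1, funext fun i => (this i).2⟩

end Pool.Agent.P.MP_9321be_ag.SG
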