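import Pool.Agent.P.MP_9321be_ag.SG.BaseG

/-!
The data of a contributing face and the regions.
-/

set_option autoImplicit false
set_option linter.unusedSectionVars false

namespace Pool.Agent.P.MP_9321be_ag.SG

open Finset SM

variable {n : ℕ}

/-- A face `X1` of the cell of `F0` spanning the all-ones vector, with a solution of the linear
program. -/
structure Dat (f : MvPolynomial (Fin n) ℂ) (h : Fin n → ℝ) extends Fan f h where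
  F0 : Finset (Gn n)
  X1 : Finset (Gn n)
  ξ : Fin n → ℝ
  μ : Gn n → ℝ
  y : Fin n → ℝ
  hF0 : F0 ∈ FF
  memX : ∀ g, g ∈ X1 ↔ g ∈ gens f ∧ Ps (u F0) (ω F0) (pt h g) = 0 ∧ ξ ⬝ᵥ wr g = 0
  ξ0 : ∀ g ∈ gens f, Ps (u F0) (ω F0) (pt h g) = 0 → 0 ≤ ξ ⬝ᵥ wr g
  μ0 : ∀ b ∈ X1, 0 < μ b
  y0 : ∀ i, 0 ≤ y i
  y1 : ∀ b ∈ X1, y ⬝ᵥ wr b ≤ 1
  ge1 : ∀ i, 1 ≤ ∑ b ∈ X1, μ b * wv b i
  yI : ∀ i, 0 < y i ↔ ∑ b ∈ X1, μ b * wv b i = 1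
  gap1 : ∑ b ∈ X1, μ b < ∑ i, y i + 1
  gap2 : ∀ i, 0 < y i → ∑ b ∈ X1, μ b < ∑ i', y i' + y i
  span1 : ∃ l : Gn n → ℝ, ∀ i, ∑ b ∈ X1, l b * wv b i = 1
  rank : ∀ T : Finset (Fin n), (∀ i ∈ T, 0 < y i ∧ ∀ b ∈ X1, wv b i ≠ 0 →
      wv b i = 1 ∧ ∀ i', 0 < y i' → i' ≠ i → wv b i' = 0) →
    T.card ≤ Module.finrank ℝ (Submodule.span ℝ {z : Fin n → ℝ | ∃ i ∈ T, ∃ a ∈ X1, ∃ b ∈ X1,
      wv a i ≠ 0 ∧ wv b i ≠ 0 ∧ z = fun j => (wv a j : ℝ) - wv b j})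

variable {f : MvPolynomial (Fin n) ℂ} {h : Fin n → ℝ}

namespace Dat

variable (D : Dat f h)

/-- The candidate root. -/
def α : ℝ := ∑ i, D.u D.F0 i

/-- The point of the volume form. -/
def P0 : L n := p0 n D.α (∑ i, D.ω D.F0 i)

/-- The point of the linear program. -/
def p1 : Fin n → ℝ := ∑ b ∈ D.X1, D.μ b • wr b

/-- The translation vector. -/
def q0 : Fin n → ℝ := rv D.P0 - D.p1

/-- The tight coordinates. -/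
noncomputable def I : Finset (Fin n) := univ.filter fun i => 0 < D.y i

/-- The height of the translation vector. -/
def dq (S : Finset (Gn n)) : Lam := D.W S D.q0 - D.W D.F0 D.q0

/-- The costar. -/
noncomputable def BB : Finset (Finset (Gn n)) := D.FF.filter fun S => 0 < D.dq S

/-- The cluster. -/
noncomputable def F2 : Finset (Finset (Gn n)) := D.FF.filter fun S => D.dq S = 0

/-- Both. -/
noncomputable def F1 : Finset (Finset (Gn n)) := D.FF.filter fun S => 0 ≤ D.dq S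

/-- The localised cone. -/
def R0 : Set (L n) := {p | (∀ S ∈ D.F1, 0 ≤ D.Ψ S p) ∧ ∀ i ∈ D.I, 0 ≤ p.2.1 i}

/-- The neglected points. -/
def B0 : Set (L n) := {p | p ∈ D.R0 ∧ ∀ S ∈ D.F1, D.Ψ S p ≠ 0}

/-- The points off the costar. -/
def B1 : Set (L n) := {p | p ∈ D.R0 ∧ ∀ S ∈ D.BB, D.Ψ S p ≠ 0}

/-- The points in the cells of the costar. -/
def R1 : Set (L n) := {p | p ∈ D.R0 ∧ ∀ S ∈ D.BB, D.Ψ S p = 0 → ∀ j ∈ S, D.Wall S j →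
  0 ≤ D.d S j ⬝ᵥ rv p}

/-- The points in the translated half-open cluster. -/
def R3 : Set (L n) := {p | p ∈ D.B1 ∧ ∀ S ∈ D.F2, D.Ψ S p = 0 → ∀ j ∈ S, D.Wall S j →
  0 ≤ D.d S j ⬝ᵥ (rv p - D.q0) ∧ (0 < D.d S j ⬝ᵥ D.q0 → 0 < D.d S j ⬝ᵥ (rv p - D.q0))}

/-- The coordinates of Cayley type. -/
noncomputable def SS : Finset (Fin n) := D.I.filter fun i => ∀ b ∈ D.X1, wv b i ≠ 0 →
  wv b i = 1 ∧ ∀ i' ∈ D.I, i' ≠ i → wv b i' = 0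

/-- The exponents of the face touching `i`. -/
noncomputable def Z (i : Fin n) : Finset (Fin n →₀ ℕ) :=
  f.support.filter fun a => Sum.inl a ∈ D.X1 ∧ a i ≠ 0

/-- A generic direction adapted to `J`. -/
structure GY (J : Finset (Fin n)) (z : Fin n → ℝ) : Prop where
  gen : D.Gen z
  pos : ∀ S ∈ D.FF, ∀ j ∈ S, 0 < D.d S j ⬝ᵥ D.q0 → 0 < D.d S j ⬝ᵥ z
  neg : ∀ S ∈ D.FF, ∀ j ∈ S, D.d S j ⬝ᵥ D.q0 < 0 → D.d S j ⬝ᵥ z < 0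
  cpos : ∀ i, 0 < z i ↔ i ∈ D.I ∧ i ∉ J

variable {D} {S : Finset (Gn n)} {g : Gn n} {p q : L n} {i : Fin n}

theorem mem_I : i ∈ D.I ↔ 0 < D.y i := by simp [I]
theorem mem_BB : S ∈ D.BB ↔ S ∈ D.FF ∧ 0 < D.dq S := mem_filter
theorem mem_F2 : S ∈ D.F2 ↔ S ∈ D.FF ∧ D.dq S = 0 := mem_filter
theorem mem_F1 : S ∈ D.F1 ↔ S ∈ D.FF ∧ 0 ≤ D.dq S := mem_filter
theorem BB_F1 (a : S ∈ D.BB) : S ∈ D.F1 := mem_F1.2 ⟨(mem_BB.1 a).1, (mem_BB.1 a).2.le⟩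
theorem F2_F1 (a : S ∈ D.F2) : S ∈ D.F1 := mem_F1.2 ⟨(mem_F2.1 a).1, (mem_F2.1 a).2.ge⟩
theorem F1_FF (a : S ∈ D.F1) : S ∈ D.FF := (mem_F1.1 a).1
theorem F1_cases (a : S ∈ D.F1) : S ∈ D.BB ∨ S ∈ D.F2 :=
  (mem_F1.1 a).2.lt_or_eq.imp (fun e => mem_BB.2 ⟨F1_FF a, e⟩) fun e => mem_F2.2 ⟨F1_FF a, e.symm⟩
theorem F0_F2 (D : Dat f h) : D.F0 ∈ D.F2 := mem_F2.2 ⟨D.hF0, sub_self _⟩
theorem dq_congr {S' : Finset (Gn n)} (e : D.W S' = D.W S) : D.dq S' = D.dq S := by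
  rw [dq, dq, e]

theorem X1_gens (a : g ∈ D.X1) : g ∈ gens f := ((D.memX g).1 a).1
theorem X1_tight (a : g ∈ D.X1) : D.Ψ D.F0 (pt h g) = 0 := ((D.memX g).1 a).2.1
theorem rv_P0 (D : Dat f h) (i : Fin n) : rv D.P0 i = 1 := by simp [rv, P0, p0]
theorem p1_apply (D : Dat f h) (i : Fin n) : D.p1 i = ∑ b ∈ D.X1, D.μ b * wv b i := by
  simp [p1, Finset.sum_apply, wr]
theorem dot_p1 (D : Dat f h) (x : Fin n → ℝ) : x ⬝ᵥ D.p1 = ∑ b ∈ D.X1, D.μ b * (x ⬝ᵥ wr b) := by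
  simp [p1, dotProduct_sum]
theorem q0_nonpos (D : Dat f h) (i : Fin n) : D.q0 i ≤ 0 := by
  have := D.ge1 i
  rw [q0, Pi.sub_apply, rv_P0, p1_apply]
  linarith
theorem q0_eq_zero : D.q0 i = 0 ↔ i ∈ D.I := by
  rw [mem_I, D.yI, q0, Pi.sub_apply, rv_P0, p1_apply, sub_eq_zero, eq_comm]

/-- A functional that vanishes on the face vanishes on the translation vector. -/
theorem dot_q0 {x : Fin n → ℝ} (a : ∀ b ∈ D.X1, x ⬝ᵥ wr b = 0) : x ⬝ᵥ D.q0 = 0 := by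
  obtain ⟨l, hl⟩ := D.span1
  have : rv D.P0 = ∑ b ∈ D.X1, l b • wr b := by
    ext i; rw [rv_P0, ← hl i]; simp [Finset.sum_apply, wr]
  rw [q0, dotProduct_sub, dot_p1, this, dotProduct_sum, sub_eq_zero]
  exact sum_congr rfl fun b hb => by simp [a b hb]

theorem Ψ_P0 (D : Dat f h) : D.Ψ D.F0 D.P0 = 0 := by
  rw [Fan.Ψ_lx, lx_eq_zero, ps_apply, p2_apply]
  simp [dotProduct, rv, P0, p0, α]

theorem Ψ_P0_eq (D : Dat f h) (S : Finset (Gn n)) :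
    D.Ψ S D.P0 = D.dq S + ∑ b ∈ D.X1, D.μ b • D.Ψ S (pt h b) := by
  have a : ∀ T, D.W T (rv D.P0) = D.W T D.q0 + ∑ b ∈ D.X1, D.μ b • D.W T (wr b) := fun T => by
    simp only [← map_smul, ← map_sum, ← map_add, q0, p1, sub_add_cancel]
  have b := D.Ψ_P0
  rw [Fan.Ψ_eq, sub_eq_zero] at b
  have c : ∀ g ∈ D.X1, D.μ g • D.Ψ S (pt h g) =
      D.μ g • D.W S (wr g) - D.μ g • D.W D.F0 (wr g) := fun g hg => by
    rw [Fan.Ψ_eq, rv_pt, ← D.W_wr (X1_tight hg), smul_sub]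
  rw [Fan.Ψ_eq, ← b, a, a, dq, sum_congr rfl c, sum_sub_distrib]
  abel

theorem R0_add (hp : p ∈ D.R0) (hq : q ∈ D.Gam) : p + q ∈ D.R0 :=
  ⟨fun S a => by rw [map_add]; exact add_nonneg (hp.1 S a) (hq.1 S (F1_FF a)),
    fun i hi => add_nonneg (hp.2 i hi) (hq.2 i)⟩

theorem Ψ_add_zero (hp : p ∈ D.R0) (hq : q ∈ D.Gam) (a : S ∈ D.F1) (e : D.Ψ S (p + q) = 0) :
    D.Ψ S p = 0 ∧ D.Ψ S q = 0 := by
  rwa [map_add, add_eq_zero_iff_of_nonneg (hp.1 S a) (hq.1 S (F1_FF a))] at e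

theorem B0_add (hp : p ∈ D.B0) (hq : q ∈ D.Gam) : p + q ∈ D.B0 :=
  ⟨R0_add hp.1 hq, fun S a e => hp.2 S a (Ψ_add_zero hp.1 hq a e).1⟩

theorem B1_add (hp : p ∈ D.B1) (hq : q ∈ D.Gam) : p + q ∈ D.B1 :=
  ⟨R0_add hp.1 hq, fun S a e => hp.2 S a (Ψ_add_zero hp.1 hq (BB_F1 a) e).1⟩

theorem R1_add (hp : p ∈ D.R1) (hq : q ∈ D.Gam) : p + q ∈ D.R1 :=
  ⟨R0_add hp.1 hq, fun S a e j hj w => by
    obtain ⟨b, c⟩ := Ψ_add_zero hp.1 hq (BB_F1 a) e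
    rw [rv_add, dotProduct_add]
    exact add_nonneg (hp.2 S a b j hj w) (D.Gam_C hq c S (mem_BB.1 a).1 rfl j hj w)⟩

theorem R3_add (hp : p ∈ D.R3) (hq : q ∈ D.Gam) : p + q ∈ D.R3 :=
  ⟨B1_add hp.1 hq, fun S a e j hj w => by
    obtain ⟨b, c⟩ := Ψ_add_zero hp.1.1 hq (F2_F1 a) e
    have d := D.Gam_C hq c S (mem_F2.1 a).1 rfl j hj w
    rw [rv_add, add_sub_right_comm, dotProduct_add]
    exact ⟨add_nonneg (hp.2 S a b j hj w).1 d,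
      fun o => add_pos_of_pos_of_nonneg ((hp.2 S a b j hj w).2 o) d⟩⟩

theorem R0_add0 (hp : p ∈ D.R0) (hq : q ∈ D.Gam0) : p + q ∈ D.B0 :=
  ⟨R0_add hp hq.1, fun S a e => hq.2 S (F1_FF a) (Ψ_add_zero hp hq.1 a e).2⟩

theorem B0_B1 : D.B0 ⊆ D.B1 := fun _ a => ⟨a.1, fun S b => a.2 S (BB_F1 b)⟩
theorem B1_R1 : D.B1 ⊆ D.R1 := fun _ a => ⟨a.1, fun S b e => absurd e (a.2 S b)⟩
theorem B0_R3 : D.B0 ⊆ D.R3 := fun _ a => ⟨B0_B1 a, fun S b e => absurd e (a.2 S (F2_F1 b))⟩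

theorem cl_R0 : Cl f h D.R0 := fun _ a _ b => R0_add a (D.pt_Gam b)
theorem cl_B0 : Cl f h D.B0 := fun _ a _ b => B0_add a (D.pt_Gam b)
theorem cl_B1 : Cl f h D.B1 := fun _ a _ b => B1_add a (D.pt_Gam b)
theorem cl_R1 : Cl f h D.R1 := fun _ a _ b => R1_add a (D.pt_Gam b)
theorem cl_R3 : Cl f h D.R3 := fun _ a _ b => R3_add a (D.pt_Gam b)

theorem R1_C (hp : p ∈ D.R1) (a : S ∈ D.BB) (e : D.Ψ S p = 0) : D.C S (rv p) :=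
  fun S' b c j hj w => hp.2 S' (mem_BB.2 ⟨b, dq_congr c ▸ (mem_BB.1 a).2⟩) (D.Ψ_congr c ▸ e) j hj w

theorem R3_C (hp : p ∈ D.R3) (a : S ∈ D.F2) (e : D.Ψ S p = 0) : D.C S (rv p - D.q0) :=
  fun S' b c j hj w =>
    (hp.2 S' (mem_F2.2 ⟨b, dq_congr c ▸ (mem_F2.1 a).2⟩) (D.Ψ_congr c ▸ e) j hj w).1

theorem P0_DJ (D : Dat f h) (J : Finset (Fin n)) : D.P0 ∈ DJ D.I J := fun _ _ _ => le_rfl

theorem P0_R3 (D : Dat f h) : D.P0 ∈ D.R3 := by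
  have a : ∀ S ∈ D.FF, ∀ b ∈ D.X1, 0 ≤ D.μ b • D.Ψ S (pt h b) := fun S hS b hb =>
    lam_smul_nonneg (D.μ0 b hb).le (D.Ψ_pos hS (X1_gens hb))
  refine ⟨⟨⟨fun S hS => ?_, fun i _ => zero_le_one⟩, fun S hS => ?_⟩, fun S hS e j hj w => ?_⟩
  · rw [Ψ_P0_eq]
    exact add_nonneg (mem_F1.1 hS).2 (sum_nonneg (a S (F1_FF hS)))
  · rw [Ψ_P0_eq]
    exact (add_pos_of_pos_of_nonneg (mem_BB.1 hS).2 (sum_nonneg (a S (mem_BB.1 hS).1))).ne'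
  · rw [Ψ_P0_eq, (mem_F2.1 hS).2, zero_add, sum_eq_zero_iff_of_nonneg (a S (mem_F2.1 hS).1)] at e
    have b : ∀ g ∈ D.X1, 0 ≤ D.μ g * (D.d S j ⬝ᵥ wr g) := fun g hg => mul_nonneg (D.μ0 g hg).le
      (w g (X1_gens hg) ((smul_eq_zero.1 (e g hg)).resolve_left (D.μ0 g hg).ne'))
    rw [q0, sub_sub_cancel, dot_p1]
    refine ⟨sum_nonneg b, fun o => (sum_nonneg b).lt_of_ne' fun c => o.ne' (dot_q0 fun g hg => ?_)⟩
    exact (mul_eq_zero.1 ((sum_eq_zero_iff_of_nonneg b).1 c g hg)).resolve_left (D.μ0 g hg).ne'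

theorem wt_P0 (D : Dat f h) : D.wt (rv D.P0 - D.q0) = ∑ b ∈ D.X1, D.μ b := by
  rw [q0, sub_sub_cancel, p1, D.wt_eq D.hF0 (D.C_sum fun b hb => D.C_smul (D.μ0 b hb).le
    (D.C_wr (X1_gens hb) (X1_tight hb)))]
  simp only [dotProduct_sum, dotProduct_smul, smul_eq_mul]
  rw [sum_comm]
  exact sum_congr rfl fun b hb => by
    rw [← mul_sum, D.one _ D.hF0 b (X1_gens hb) (X1_tight hb), mul_one]

end Dat

end Pool.Agent.P.MP_9321be_ag.SG
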