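import Pool.Agent.P.MP_9321be_ag.SG.Base

/-!
A regular triangulation of the cone over a Newton polyhedron, the data of a contributing face,
regions.
-/

set_option autoImplicit false
set_option linter.unusedSectionVars false

namespace Pool.Agent.P.MP_9321be_ag.SG

open Finset SM

variable {n : ℕ}

/-- `d` is the dual basis of the basis `S`. -/
structure DB (S : Finset (Gn n)) (d : Gn n → Fin n → ℝ) : Prop where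
  card : S.card = n
  off : ∀ j ∉ S, d j = 0
  dual : ∀ j ∈ S, ∀ j' ∈ S, d j ⬝ᵥ wr j' = if j = j' then 1 else 0
  expand : ∀ (x : Fin n → ℝ) (i : Fin n), x i = ∑ j ∈ S, (d j ⬝ᵥ x) * wv j i

/-- The simplices of a lexicographically regular triangulation. -/
structure Fan (f : MvPolynomial (Fin n) ℂ) (h : Fin n → ℝ) where
  FF : Finset (Finset (Gn n))
  u : Finset (Gn n) → Fin n → ℝ
  ω : Finset (Gn n) → Fin n → ℝ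
  v : Finset (Gn n) → Fin n → ℝ
  d : Finset (Gn n) → Gn n → Fin n → ℝ
  N : Gn n → ℕ
  a : Gn n → ℝ
  c : ℝ
  hpos : ∀ i, 0 < h i
  nz : ∀ g ∈ gens f, ∃ i, wv g i ≠ 0
  Npos : ∀ g, 0 < N g
  apos : ∀ g, 0 < a g
  Na : ∀ g ∈ gens f, N g * a g = c
  ne : FF.Nonempty
  sub : ∀ S ∈ FF, S ⊆ gens f
  db : ∀ S ∈ FF, DB S (d S)
  pos : ∀ S ∈ FF, ∀ g ∈ gens f, 0 ≤ Ps (u S) (ω S) (pt h g)
  tight : ∀ S ∈ FF, ∀ j ∈ S, Ps (u S) (ω S) (pt h j) = 0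
  tightv : ∀ S ∈ FF, ∀ j ∈ S, v S ⬝ᵥ wr j = -a j
  posv : ∀ S ∈ FF, ∀ g ∈ gens f, g ∉ S → Ps (u S) (ω S) (pt h g) = 0 → -a g < v S ⬝ᵥ wr g
  pivot : ∀ S ∈ FF, ∀ j ∈ S, (∃ S' ∈ FF, ∃ (t : Lam) (t' : ℝ),
    (∀ x, Wd (u S') (ω S') x = Wd (u S) (ω S) x + (d S j ⬝ᵥ x) • t) ∧
    (∀ x, v S' ⬝ᵥ x = v S ⬝ᵥ x + (d S j ⬝ᵥ x) * t') ∧ (0 < t ∨ t = 0 ∧ 0 < t')) ∨
    ∃ (i : Fin n) (c' : ℝ), 0 < c' ∧ ∀ x, d S j ⬝ᵥ x = c' * x i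
  ray : ∀ S ∈ FF, ∀ i, Ps (u S) (ω S) (pt h (.inr i)) = 0 → .inr i ∈ S ∧ ∀ g ∈ gens f,
    Ps (u S) (ω S) (pt h g) = 0 → g ≠ .inr i → d S (.inr i) ⬝ᵥ wr g = 0
  one : ∀ S ∈ FF, ∀ g ∈ gens f, Ps (u S) (ω S) (pt h g) = 0 → ∑ j ∈ S, d S j ⬝ᵥ wr g = 1

theorem DB.dot {S : Finset (Gn n)} {d : Gn n → Fin n → ℝ} (hd : DB S d) (y x : Fin n → ℝ) :
    y ⬝ᵥ x = ∑ j ∈ S, (d j ⬝ᵥ x) * (y ⬝ᵥ wr j) := by
  have : y ⬝ᵥ x = ∑ i, y i * ∑ j ∈ S, (d j ⬝ᵥ x) * wv j i :=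
    sum_congr rfl fun i _ => by rw [← hd.expand x i]
  rw [this]
  simp only [mul_sum]
  rw [sum_comm]
  refine sum_congr rfl fun j _ => ?_
  rw [show y ⬝ᵥ wr j = ∑ i, y i * wv j i from rfl, mul_sum]
  exact sum_congr rfl fun i _ => by ring

theorem DB.vec {S : Finset (Gn n)} {d : Gn n → Fin n → ℝ} (hd : DB S d) (x : Fin n → ℝ) :
    x = ∑ j ∈ S, (d j ⬝ᵥ x) • wr j := by
  ext i
  rw [hd.expand x i, Finset.sum_apply]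
  rfl

variable {f : MvPolynomial (Fin n) ℂ} {h : Fin n → ℝ}

namespace Fan

variable (Φ : Fan f h)

/-- The linear heights of a simplex. -/
def W (S : Finset (Gn n)) : (Fin n → ℝ) →ₗ[ℝ] Lam := Wd (Φ.u S) (Φ.ω S)

/-- The functional of a simplex. -/
def Ψ (S : Finset (Gn n)) : L n →+ Lam := Ps (Φ.u S) (Φ.ω S)

/-- The facet of `S` opposite to `j` lies in the boundary of the cell of `S`. -/
def Wall (S : Finset (Gn n)) (j : Gn n) : Prop :=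
  ∀ g ∈ gens f, Φ.Ψ S (pt h g) = 0 → 0 ≤ Φ.d S j ⬝ᵥ wr g

/-- The cell of `S`. -/
def C (S : Finset (Gn n)) (x : Fin n → ℝ) : Prop :=
  ∀ S' ∈ Φ.FF, Φ.W S' = Φ.W S → ∀ j ∈ S', Φ.Wall S' j → 0 ≤ Φ.d S' j ⬝ᵥ x

/-- The half-open cell of `S`. -/
def H (y : Fin n → ℝ) (S : Finset (Gn n)) (x : Fin n → ℝ) : Prop :=
  ∀ S' ∈ Φ.FF, Φ.W S' = Φ.W S → ∀ j ∈ S', Φ.Wall S' j →
    0 ≤ Φ.d S' j ⬝ᵥ x ∧ (0 < Φ.d S' j ⬝ᵥ y → 0 < Φ.d S' j ⬝ᵥ x)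

/-- The half-open simplicial cone of `S`. -/
def K (y : Fin n → ℝ) (S : Finset (Gn n)) (x : Fin n → ℝ) : Prop :=
  ∀ j ∈ S, 0 ≤ Φ.d S j ⬝ᵥ x ∧ (0 < Φ.d S j ⬝ᵥ y → 0 < Φ.d S j ⬝ᵥ x)

/-- A direction on no wall. -/
def Gen (y : Fin n → ℝ) : Prop := ∀ S ∈ Φ.FF, ∀ j ∈ S, Φ.d S j ⬝ᵥ y ≠ 0

/-- The piece of the cell of `S`, translated by `q`. -/
def Wp (y q : Fin n → ℝ) (S : Finset (Gn n)) : Set (L n) := {p | Φ.Ψ S p = 0 ∧ Φ.H y S (rv p - q)}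

/-- The vertices of the triangulation. -/
noncomputable def VS : Finset (Gn n) := Φ.FF.biUnion id

/-- The monoid acting on all regions. -/
def Gam : Set (L n) := {p | (∀ S ∈ Φ.FF, 0 ≤ Φ.Ψ S p) ∧ ∀ i, 0 ≤ p.2.1 i}

/-- Its points on no cell. -/
def Gam0 : Set (L n) := {p | p ∈ Φ.Gam ∧ ∀ S ∈ Φ.FF, Φ.Ψ S p ≠ 0}

/-- The shifts of the regular sequence. -/
def bb (M : ℕ) (j : Gn n) : L n := (M * Φ.N j) • pt h j

/-- The regular sequence. -/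
noncomputable def eta (t : Gn n → ℂ) (M : ℕ) (r : Fin n) : R n :=
  ∑ j ∈ Φ.VS, t j ^ r.1 • e (Φ.bb M j)

open Classical in
/-- The convex function of the triangulation of the cell of `S`. -/
noncomputable def phi (S : Finset (Gn n)) (x : Fin n → ℝ) : ℝ :=
  sSup ((fun S' => -(Φ.v S' ⬝ᵥ x)) '' {S' | S' ∈ Φ.FF ∧ Φ.W S' = Φ.W S})

open Classical in
/-- The weight of a vector. -/
noncomputable def wt (x : Fin n → ℝ) : ℝ :=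
  if hx : ∃ S ∈ Φ.FF, Φ.C S x then ∑ j ∈ hx.choose, Φ.d hx.choose j ⬝ᵥ x else 0

/-- The subgroup on which the constraints vanish that are tight at `γ`. -/
def Sp (γ : L n) : Set (L n) :=
  {q | (∀ S ∈ Φ.FF, ps (Φ.u S) γ = 0 → ps (Φ.u S) q = 0) ∧ (∀ S ∈ Φ.FF, Φ.Ψ S γ = 0 → Φ.Ψ S q = 0) ∧
    ∀ i, γ.2.1 i = 0 → q.2.1 i = 0}

variable {S S' : Finset (Gn n)} {j g : Gn n} {x y : Fin n → ℝ} {p q : L n}

theorem Ψ_eq (S : Finset (Gn n)) (p : L n) : Φ.Ψ S p = Φ.W S (rv p) - Ht p := rfl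

theorem Ψ_lx (S : Finset (Gn n)) (p : L n) : Φ.Ψ S p = lx (ps (Φ.u S) p) (p2 (Φ.ω S) p) := rfl

theorem Ψ_congr (e : Φ.W S' = Φ.W S) : Φ.Ψ S' = Φ.Ψ S := by
  ext p; rw [Ψ_eq, Ψ_eq, e]

theorem Ψ_pos (hS : S ∈ Φ.FF) (hg : g ∈ gens f) : 0 ≤ Φ.Ψ S (pt h g) := Φ.pos S hS g hg

theorem Ψ_tight (hS : S ∈ Φ.FF) (hj : j ∈ S) : Φ.Ψ S (pt h j) = 0 := Φ.tight S hS j hj

theorem W_wr (e : Φ.Ψ S (pt h g) = 0) : Φ.W S (wr g) = Ht (pt h g) := by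
  rwa [Ψ_eq, rv_pt, sub_eq_zero] at e

theorem mem_VS : j ∈ Φ.VS ↔ ∃ S ∈ Φ.FF, j ∈ S := by simp [VS]

theorem VS_sub (hj : j ∈ Φ.VS) : j ∈ gens f := by
  obtain ⟨S, hS, hj⟩ := Φ.mem_VS.1 hj
  exact Φ.sub S hS hj

theorem u_nonneg (hS : S ∈ Φ.FF) (i : Fin n) : 0 < Φ.u S i ∨ Φ.u S i = 0 ∧ h i ≤ Φ.ω S i := by
  have := lx_nonneg.1 (Φ.pos S hS _ (inr_mem_gens f i))
  rw [ps_apply, p2_apply, rv_pt, dot_wr_inr, dot_wr_inr] at this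
  simp only [pt, kp, rh] at this
  exact this.imp (fun e => by linarith) fun e => ⟨by linarith [e.1], by linarith [e.2]⟩

/-- The basic identity between two pairs of functionals. -/
theorem Wd_sub (hS : S ∈ Φ.FF) (u ω x : Fin n → ℝ) :
    Wd u ω x - Φ.W S x = ∑ j ∈ S, (Φ.d S j ⬝ᵥ x) • Ps u ω (pt h j) := by
  conv_lhs => rw [(Φ.db S hS).vec x]
  rw [map_sum, map_sum, ← sum_sub_distrib]
  refine sum_congr rfl fun j hj => ?_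
  rw [map_smul, map_smul, ← smul_sub, Φ.W_wr (Φ.Ψ_tight hS hj), Ps_eq, rv_pt]

theorem W_sub (hS : S ∈ Φ.FF) (S' : Finset (Gn n)) (x : Fin n → ℝ) :
    Φ.W S' x - Φ.W S x = ∑ j ∈ S, (Φ.d S j ⬝ᵥ x) • Φ.Ψ S' (pt h j) := Φ.Wd_sub hS _ _ x

theorem v_sub (hS : S ∈ Φ.FF) (w x : Fin n → ℝ) :
    w ⬝ᵥ x - Φ.v S ⬝ᵥ x = ∑ j ∈ S, (Φ.d S j ⬝ᵥ x) * (w ⬝ᵥ wr j + Φ.a j) := by
  rw [(Φ.db S hS).dot w, (Φ.db S hS).dot (Φ.v S), ← sum_sub_distrib]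
  exact sum_congr rfl fun j hj => by rw [Φ.tightv S hS j hj]; ring

theorem v_nonneg (hS : S ∈ Φ.FF) (hg : g ∈ gens f) (e : Φ.Ψ S (pt h g) = 0) :
    0 ≤ Φ.v S ⬝ᵥ wr g + Φ.a g := by
  by_cases c : g ∈ S
  · rw [Φ.tightv S hS g c, neg_add_cancel]
  · linarith [Φ.posv S hS g hg c e]

theorem eq_of_sub (hS : S ∈ Φ.FF) (hS' : S' ∈ Φ.FF) (e : S ⊆ S') : S = S' :=
  eq_of_subset_of_card_le e (by rw [(Φ.db S hS).card, (Φ.db S' hS').card])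

/-- Beyond a wall there is another cell or a coordinate hyperplane. -/
theorem wall_pivot (hS : S ∈ Φ.FF) (hj : j ∈ S) (hw : Φ.Wall S j) :
    (∃ S' ∈ Φ.FF, ∃ t : Lam, 0 < t ∧ ∀ x, Φ.W S' x = Φ.W S x + (Φ.d S j ⬝ᵥ x) • t) ∨
    ∃ (i : Fin n) (c' : ℝ), 0 < c' ∧ ∀ x, Φ.d S j ⬝ᵥ x = c' * x i := by
  obtain ⟨S', h1, t, t', h2, h3, h4 | ⟨rfl, h4⟩⟩ | h1 := Φ.pivot S hS j hj
  · exact .inl ⟨S', h1, t, h4, h2⟩
  · have e : Φ.W S' = Φ.W S := LinearMap.ext fun x => by simpa [W] using h2 x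
    have : S' ⊆ S := fun g hg => by
      by_contra c
      have a1 : Φ.Ψ S (pt h g) = 0 := Φ.Ψ_congr e ▸ Φ.Ψ_tight h1 hg
      have a2 := Φ.posv S hS g (Φ.sub S' h1 hg) c a1
      have a3 := mul_nonneg (hw g (Φ.sub S' h1 hg) a1) h4.le
      linarith [h3 (wr g), Φ.tightv S' h1 g hg]
    have a := h3 (wr j)
    rw [Φ.eq_of_sub h1 hS this, (Φ.db S hS).dual j hj j hj, if_pos rfl] at a
    linarith
  · exact .inr h1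

/-- Beyond an inner facet there is a simplex of the same cell. -/
theorem inner_pivot (hS : S ∈ Φ.FF) (hj : j ∈ S) (hw : ¬ Φ.Wall S j) :
    ∃ S' ∈ Φ.FF, Φ.W S' = Φ.W S ∧ ∃ t : ℝ, 0 < t ∧
      ∀ x, Φ.v S' ⬝ᵥ x = Φ.v S ⬝ᵥ x + (Φ.d S j ⬝ᵥ x) * t := by
  obtain ⟨S', h1, t, t', h2, h3, h4 | ⟨rfl, h4⟩⟩ | ⟨i, c', h1, h2⟩ := Φ.pivot S hS j hj
  · refine absurd (fun g hg e => (lam_nonneg_iff h4).1 ?_) hw
    have a := Φ.Ψ_pos h1 hg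
    have b : Φ.W S' (wr g) = Φ.W S (wr g) + _ := h2 (wr g)
    rwa [Ψ_eq, rv_pt, b, Φ.W_wr e, add_sub_cancel_left] at a
  · exact ⟨S', h1, LinearMap.ext fun x => by simpa [W] using h2 x, t', h4, h3⟩
  · exact absurd (fun g _ _ => by rw [h2]; exact mul_nonneg h1.le (wr_nonneg g i)) hw

theorem C_congr (e : Φ.W S' = Φ.W S) : Φ.C S' = Φ.C S := by ext x; simp only [C, e]

theorem H_congr (e : Φ.W S' = Φ.W S) : Φ.H y S' = Φ.H y S := by ext x; simp only [H, e]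

theorem Wp_congr (e : Φ.W S' = Φ.W S) : Φ.Wp y x S' = Φ.Wp y x S := by
  simp only [Wp, Φ.Ψ_congr e, Φ.H_congr e]

theorem H.C (e : Φ.H y S x) : Φ.C S x := fun S' a b j c d => (e S' a b j c d).1

theorem C_wr (hg : g ∈ gens f) (e : Φ.Ψ S (pt h g) = 0) : Φ.C S (wr g) :=
  fun _ _ b _ _ c => c g hg (Φ.Ψ_congr b ▸ e)

theorem C_add (a : Φ.C S x) (b : Φ.C S y) : Φ.C S (x + y) := fun S' c d j e w => by
  rw [dotProduct_add]; exact add_nonneg (a S' c d j e w) (b S' c d j e w)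

theorem C_smul {t : ℝ} (ht : 0 ≤ t) (a : Φ.C S x) : Φ.C S (t • x) := fun S' c d j e w => by
  rw [dotProduct_smul]; exact mul_nonneg ht (a S' c d j e w)

theorem C_sum {ι : Type} {s : Finset ι} {z : ι → Fin n → ℝ} (a : ∀ i ∈ s, Φ.C S (z i)) :
    Φ.C S (∑ i ∈ s, z i) :=
  sum_induction _ _ (fun _ _ => Φ.C_add) (fun _ _ _ _ _ _ => by simp) a

theorem H_add {z : Fin n → ℝ} (a : Φ.H z S x) (b : Φ.C S y) : Φ.H z S (x + y) :=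
  fun S' c d j e w => by
    rw [dotProduct_add]
    exact ⟨add_nonneg (a S' c d j e w).1 (b S' c d j e w),
      fun o => add_pos_of_pos_of_nonneg ((a S' c d j e w).2 o) (b S' c d j e w)⟩

/-- A vector of the simplicial cone of `S` lies in every cell that is tight at it. -/
theorem C_of_cone (hS : S ∈ Φ.FF) (hS' : S' ∈ Φ.FF) (a : ∀ j ∈ S, 0 ≤ Φ.d S j ⬝ᵥ x) :
    Φ.W S x ≤ Φ.W S' x ∧ (Φ.W S' x = Φ.W S x → Φ.C S' x ∧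
      ∀ j ∈ S, Φ.Ψ S' (pt h j) ≠ 0 → Φ.d S j ⬝ᵥ x = 0) := by
  have b : ∀ j ∈ S, 0 ≤ (Φ.d S j ⬝ᵥ x) • Φ.Ψ S' (pt h j) := fun j hj =>
    lam_smul_nonneg (a j hj) (Φ.Ψ_pos hS' (Φ.sub S hS hj))
  refine ⟨sub_nonneg.1 (Φ.W_sub hS S' x ▸ sum_nonneg b), fun e => ?_⟩
  have c := (sum_eq_zero_iff_of_nonneg b).1 (by rw [← Φ.W_sub hS, e, sub_self])
  have d : ∀ j ∈ S, Φ.Ψ S' (pt h j) ≠ 0 → Φ.d S j ⬝ᵥ x = 0 := fun j hj o =>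
    (smul_eq_zero.1 (c j hj)).resolve_right o
  refine ⟨?_, d⟩
  rw [(Φ.db S hS).vec x]
  refine Φ.C_sum fun j hj => ?_
  by_cases o : Φ.Ψ S' (pt h j) = 0
  · exact Φ.C_smul (a j hj) (Φ.C_wr (Φ.sub S hS hj) o)
  · rw [d j hj o, zero_smul]
    exact fun _ _ _ _ _ _ => by simp

/-- A cell is covered by its simplices. -/
theorem cover (hS : S ∈ Φ.FF) (a : Φ.C S x) :
    ∃ S' ∈ Φ.FF, Φ.W S' = Φ.W S ∧ ∀ j ∈ S', 0 ≤ Φ.d S' j ⬝ᵥ x := by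
  classical
  obtain ⟨S', h1, h2⟩ := exists_min_image (Φ.FF.filter fun S' => Φ.W S' = Φ.W S)
    (fun S' => Φ.v S' ⬝ᵥ x) ⟨S, by simpa using hS⟩
  obtain ⟨h1, h3⟩ := mem_filter.1 h1
  refine ⟨S', h1, h3, fun j hj => ?_⟩
  by_cases w : Φ.Wall S' j
  · exact a S' h1 h3 j hj w
  · obtain ⟨S'', b1, b2, t, b3, b4⟩ := Φ.inner_pivot h1 hj w
    have := h2 S'' (mem_filter.2 ⟨b1, b2.trans h3⟩)
    rw [b4] at this
    exact nonneg_of_mul_nonneg_left (by linarith) b3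

theorem C_nonneg (hS : S ∈ Φ.FF) (a : Φ.C S x) (i : Fin n) : 0 ≤ x i := by
  obtain ⟨S', h1, -, h2⟩ := Φ.cover hS a
  rw [(Φ.db S' h1).expand x i]
  exact sum_nonneg fun j hj => mul_nonneg (h2 j hj) (Nat.cast_nonneg _)

/-- On its cell the height of `S` is minimal. -/
theorem C_min (hS : S ∈ Φ.FF) (hS' : S' ∈ Φ.FF) (a : Φ.C S x) :
    Φ.W S x ≤ Φ.W S' x ∧ (Φ.W S' x = Φ.W S x → Φ.C S' x) := by
  obtain ⟨T, h1, h2, h3⟩ := Φ.cover hS a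
  rw [← h2]
  exact (Φ.C_of_cone h1 hS' h3).imp_right fun e o => (e o).1

/-- A nonnegative vector lies in the cells of minimal height. -/
theorem C_of_min (a : ∀ i, 0 ≤ x i) (b : ∀ S' ∈ Φ.FF, Φ.W S x ≤ Φ.W S' x) :
    Φ.C S x := fun S' c d j e w => by
  obtain ⟨T, h1, t, h2, h3⟩ | ⟨i, c', h1, h2⟩ := Φ.wall_pivot c e w
  · have := b T h1
    rw [h3, d, le_add_iff_nonneg_right] at this
    exact (lam_nonneg_iff h2).1 this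
  · rw [h2]; exact mul_nonneg h1.le (a i)

theorem Gam_C (hp : p ∈ Φ.Gam) (e : Φ.Ψ S p = 0) : Φ.C S (rv p) :=
  Φ.C_of_min (fun i => by simpa [rv] using hp.2 i) fun S' a => by
    have := hp.1 S' a
    rwa [← e, Ψ_eq, Ψ_eq, sub_le_sub_iff_right] at this

theorem pt_Gam (hg : g ∈ gens f) : pt h g ∈ Φ.Gam :=
  ⟨fun _ a => Φ.Ψ_pos a hg, fun i => by simp [pt]⟩

theorem zero_Gam : (0 : L n) ∈ Φ.Gam := ⟨fun _ _ => by simp, fun _ => le_rfl⟩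

theorem Gam_add (hp : p ∈ Φ.Gam) (hq : q ∈ Φ.Gam) : p + q ∈ Φ.Gam :=
  ⟨fun S a => by rw [map_add]; exact add_nonneg (hp.1 S a) (hq.1 S a),
    fun i => add_nonneg (hp.2 i) (hq.2 i)⟩

theorem Gam0_add (hp : p ∈ Φ.Gam0) (hq : q ∈ Φ.Gam) : p + q ∈ Φ.Gam0 :=
  ⟨Φ.Gam_add hp.1 hq, fun S a => by
    rw [map_add]
    exact (add_pos_of_pos_of_nonneg ((hp.1.1 S a).lt_of_ne' (hp.2 S a)) (hq.1 S a)).ne'⟩

theorem nsmul_Gam (hp : p ∈ Φ.Gam) (M : ℕ) : M • p ∈ Φ.Gam := by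
  induction M with
  | zero => simpa using Φ.zero_Gam
  | succ M ih => rw [succ_nsmul]; exact Φ.Gam_add ih hp

theorem bb_Gam (M : ℕ) (hj : j ∈ Φ.VS) : Φ.bb M j ∈ Φ.Gam := Φ.nsmul_Gam (Φ.pt_Gam (Φ.VS_sub hj)) _

theorem eta_mem (t : Gn n → ℂ) (M : ℕ) (r : Fin n) : Φ.eta t M r ∈ sp Φ.Gam :=
  sum_mem fun _ hj => Submodule.smul_mem _ _ (e_mem (Φ.bb_Gam M hj))

theorem le_phi (hS' : S' ∈ Φ.FF) (e : Φ.W S' = Φ.W S) : -(Φ.v S' ⬝ᵥ x) ≤ Φ.phi S x :=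
  le_csSup ((Φ.FF.finite_toSet.subset fun _ a => a.1).image _).bddAbove ⟨S', ⟨hS', e⟩, rfl⟩

theorem exists_phi (hS : S ∈ Φ.FF) (x : Fin n → ℝ) :
    ∃ S' ∈ Φ.FF, Φ.W S' = Φ.W S ∧ Φ.phi S x = -(Φ.v S' ⬝ᵥ x) := by
  obtain ⟨S', a, b⟩ := Set.Nonempty.csSup_mem (s := (fun S' => -(Φ.v S' ⬝ᵥ x)) ''
    {S' | S' ∈ Φ.FF ∧ Φ.W S' = Φ.W S}) ⟨_, S, ⟨hS, rfl⟩, rfl⟩
    ((Φ.FF.finite_toSet.subset fun _ a => a.1).image _)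
  exact ⟨S', a.1, a.2, b.symm⟩

theorem o_eq (hS : S ∈ Φ.FF) (hS' : S' ∈ Φ.FF) (a : Φ.C S x) (b : Φ.C S' x) :
    ∑ j ∈ S', Φ.d S' j ⬝ᵥ x = ∑ j ∈ S, Φ.d S j ⬝ᵥ x := by
  obtain ⟨T, h1, h2, h3⟩ := Φ.cover hS a
  have key : ∀ U ∈ Φ.FF, Φ.W U x = Φ.W T x → ∑ j ∈ U, Φ.d U j ⬝ᵥ x = ∑ j ∈ T, Φ.d T j ⬝ᵥ x :=
    fun U hU e => by
      simp only [(Φ.db T h1).dot (Φ.d U _) x]
      rw [sum_comm]
      refine sum_congr rfl fun j hj => ?_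
      rw [← mul_sum]
      by_cases o : Φ.Ψ U (pt h j) = 0
      · rw [Φ.one U hU j (Φ.sub T h1 hj) o, mul_one]
      · rw [((Φ.C_of_cone h1 hU h3).2 e).2 j hj o, zero_mul]
  rw [key S hS (by rw [h2]), key S' hS' (by
    rw [h2]; exact (Φ.C_min hS' hS b).1.antisymm (Φ.C_min hS hS' a).1)]

theorem wt_eq (hS : S ∈ Φ.FF) (a : Φ.C S x) : Φ.wt x = ∑ j ∈ S, Φ.d S j ⬝ᵥ x := by
  have hx : ∃ S ∈ Φ.FF, Φ.C S x := ⟨S, hS, a⟩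
  rw [wt, dif_pos hx]
  exact Φ.o_eq hS hx.choose_spec.1 a hx.choose_spec.2

theorem wt_nonneg (hS : S ∈ Φ.FF) (a : Φ.C S x) : 0 ≤ Φ.wt x := by
  obtain ⟨T, h1, h2, h3⟩ := Φ.cover hS a
  rw [Φ.wt_eq h1 (Φ.C_congr h2 ▸ a)]
  exact sum_nonneg h3

theorem wt_add (hS : S ∈ Φ.FF) (a : Φ.C S x) (hg : g ∈ gens f) (e : Φ.Ψ S (pt h g) = 0) :
    Φ.wt (x + wr g) = Φ.wt x + 1 := by
  rw [Φ.wt_eq hS (Φ.C_add a (Φ.C_wr hg e)), Φ.wt_eq hS a, ← Φ.one S hS g hg e, ← sum_add_distrib]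
  exact sum_congr rfl fun j _ => dotProduct_add _ _ _

end Fan

/-- The conditions along the coordinate hyperplanes. -/
def DJ (I J : Finset (Fin n)) : Set (L n) := {p | ∀ i ∈ I, i ∉ J → 1 ≤ p.2.1 i}

theorem DJ_mono {I J J' : Finset (Fin n)} (e : J ⊆ J') : DJ I J ⊆ DJ I J' :=
  fun _ hp i hi o => hp i hi fun c => o (e c)

theorem DJ_add {I J : Finset (Fin n)} {p q : L n} (hp : p ∈ DJ I J) (hq : ∀ i, 0 ≤ q.2.1 i) :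
    p + q ∈ DJ I J := fun i hi o => le_add_of_le_of_nonneg (hp i hi o) (hq i)

theorem cl_DJ (I J : Finset (Fin n)) : Cl f h (DJ I J) :=
  fun _ hp g _ => DJ_add hp fun i => by simp [pt]

/-- The Koszul differential respects the conditions along the hyperplanes. -/
theorem th_DJ {A : Set (L n)} {I J : Finset (Fin n)} (hA : Cl f h A)
    (h0 : ∀ p ∈ A, ∀ i ∈ I, 0 ≤ p.2.1 i) (i : Fin n) {x : R n}
    (hx : x ∈ sp (A ∩ DJ I (insert i J))) : th f h (mi i) * x ∈ sp (A ∩ DJ I J) :=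
  map_mem (LinearMap.mulLeft ℂ (th f h (mi i))) (fun p hp => by
    rw [LinearMap.mulLeft_apply, th_mul_e]
    refine sum_mem fun g hg => ?_
    by_cases c : wv g i = 0
    · simp [mi_pt, c]
    refine Submodule.smul_mem _ _ (e_mem ⟨hA p hp.1 g hg, fun i' hi' h' => ?_⟩)
    by_cases e : i' = i
    · subst e
      have := h0 p hp.1 i' hi'
      simp only [pt, Prod.snd_add, Prod.fst_add, Pi.add_apply]
      omega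
    · exact cl_DJ (f := f) I _ p hp.2 g hg i' hi' (by simp [e, h'])) hx

theorem Dp_DJ {A : Set (L n)} {I J : Finset (Fin n)} (hA : Cl f h A)
    (h0 : ∀ p ∈ A, ∀ i ∈ I, 0 ≤ p.2.1 i) (i : Fin n) {x : R n}
    (hx : x ∈ sp (A ∩ DJ I (insert i J))) : Dp f h (mi i) x ∈ sp (A ∩ DJ I J) := by
  refine add_mem (map_mem (nd (mi i)) (fun p hp => ?_) hx) (th_DJ hA h0 i hx)
  rw [nd_e]
  by_cases c : p.2.1 i = 0
  · simp [mi_apply, c]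
  refine Submodule.smul_mem _ _ (e_mem ⟨hp.1, fun i' hi' h' => ?_⟩)
  by_cases e : i' = i
  · subst e
    have := h0 p hp.1 i' hi'
    omega
  · exact hp.2 i' hi' (by simp [e, h'])

end Pool.Agent.P.MP_9321be_ag.SG
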