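import Pool.Agent.P.MP_9321be_ag.SG.BaseD

/-!
The steps of the proof of the strong monodromy conjecture for non-degenerate polynomials.
-/

set_option autoImplicit false
set_option linter.unusedSectionVars false

namespace Pool.Agent.P.MP_9321be_ag.SG

open Finset SM

variable {n : ℕ}

/-- The embedding of `ℂ[x][τ]` in the group algebra. -/
noncomputable def UU (α r : ℝ) (y : NN n) : R n :=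
  y.eval₂ (em : MvPolynomial (Fin n) ℂ →ₐ[ℂ] R n).toRingHom (e (1, 0, 0)) * e (p0 n α r)

/-- The point with third coordinate replaced by `s`. -/
def hat (s : ℝ) (p : L n) : L n := (p.1, p.2.1, s)

/-- The points on or above the graph of `φ`. -/
def Up0 (W : Set (L n)) (φ : L n → ℝ) : Set (L n) := {q | ∃ p ∈ W, ∃ s, φ p ≤ s ∧ q = hat s p}

/-- The points above the graph of `φ`. -/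
def Up1 (W : Set (L n)) (φ : L n → ℝ) : Set (L n) := {q | ∃ p ∈ W, ∃ s, φ p < s ∧ q = hat s p}

/-- Regularity on the associated graded module. -/
def HH (η : Fin n → R n) (W B : Set (L n)) (φ : L n → ℝ) (c : ℝ) : Prop :=
  ∀ (r : Fin n) (s : ℝ) (x : R n) (y : Fin n → R n), x ∈ sp {p | p ∈ W ∧ φ p ≤ s} →
    (∀ i, y i ∈ sp {p | p ∈ W ∧ φ p ≤ s}) →
    η r * x - ∑ i with i.1 < r.1, η i * y i ∈ sp ({p | p ∈ W ∧ φ p < s + c} ∪ B) →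
    ∃ v : Fin n → R n, (∀ i, v i ∈ sp {p | p ∈ W ∧ φ p ≤ s - c}) ∧
      x - ∑ i with i.1 < r.1, η i * v i ∈ sp ({p | p ∈ W ∧ φ p < s} ∪ B)

/-- `S` is a basis contained in `X`. -/
def Bas (X S : Finset (Gn n)) : Prop := S ⊆ X ∧ S.card = n ∧
  ∀ μ : Gn n → ℝ, (∀ i, ∑ b ∈ S, μ b * wv b i = 0) → ∀ b ∈ S, μ b = 0

/-- The excess at `g` of the linear interpolation of the heights `H` on `S`. -/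
def ex (d : Gn n → Fin n → ℝ) (S : Finset (Gn n)) (H : Gn n → ℝ) (g : Gn n) : ℝ :=
  ∑ j ∈ S, (d j ⬝ᵥ wr g) * H j - H g

namespace Fan

variable {f : MvPolynomial (Fin n) ℂ} {h : Fin n → ℝ} (Φ : Fan f h)

/-- The vertices in the cell of `S`. -/
noncomputable def VT (S : Finset (Gn n)) : Finset (Gn n) := Φ.VS.filter fun j => Φ.Ψ S (pt h j) = 0

/-- The homogenised shifts. -/
def bh (M : ℕ) (j : Gn n) : L n := hat (M * Φ.c) (Φ.bb M j)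

/-- The homogenised regular sequence of the cell of `S`. -/
noncomputable def etah (t : Gn n → ℂ) (M : ℕ) (S : Finset (Gn n)) (r : Fin n) : R n :=
  ∑ j ∈ Φ.VT S, t j ^ r.1 • e (Φ.bh M j)

/-- The piece of the simplex `S` on the graph. -/
def Kp (y q : Fin n → ℝ) (S : Finset (Gn n)) : Set (L n) :=
  {p' | ∃ p, Φ.Ψ S p = 0 ∧ Φ.K y S (rv p - q) ∧ p' = hat (-(Φ.v S ⬝ᵥ (rv p - q))) p}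

end Fan

/-- The points seen by the evaluation. -/
def Dat.Good {f : MvPolynomial (Fin n) ℂ} {h : Fin n → ℝ} (D : Dat f h) : Set (L n) :=
  {p | D.Ψ D.F0 p = 0 ∧ D.ξ ⬝ᵥ (rv p - D.q0) = 0 ∧ (∀ i ∈ D.I, p.2.1 i = 1) ∧
    ∑ j ∈ D.F0, D.d D.F0 j ⬝ᵥ (rv p - D.q0) = ∑ b ∈ D.X1, D.μ b}

-- deps:
def S_PUSH : Prop :=
  ∀ (n : ℕ) (f : MvPolynomial (Fin n) ℂ) (h : Fin n → ℝ) (ψ : L n →+ ℝ) (On : L n → Prop)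
    (U : Set ℝ) (A : Fin n → Set (L n)) (B : Set (L n)), IsUpperSet U → U.Nonempty →
    (∀ i, Cl f h (A i)) → Cl f h B →
    (∀ i, ∀ p ∈ A i, ∀ g ∈ gens f, On (p + pt h g) → On p ∧ 0 ≤ ψ (pt h g)) →
    (∀ i, ∀ p ∈ A i, On p → ψ p ∉ U → ψ p ≠ 0) →
    ∀ y ∈ EE f h A B, ∃ β : Polynomial ℂ, β.eval 0 ≠ 0 ∧
      Polynomial.aeval (Dp f h ψ) β y ∈ EE f h (fun i => {p | p ∈ A i ∧ (On p → ψ p ∈ U)}) B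

-- deps: PUSH
def S_RAISE : Prop :=
  ∀ (n : ℕ) (f : MvPolynomial (Fin n) ℂ) (h : Fin n → ℝ) (ι : Type) (T : Finset ι)
    (ψ : ι → L n →+ ℝ) (On : ι → L n → Prop) (U : ι → Set ℝ) (A : Fin n → Set (L n))
    (B M : Set (L n)), (∀ t ∈ T, IsUpperSet (U t) ∧ (U t).Nonempty) →
    (∀ i, Cl f h (A i)) → Cl f h B → Cl f h M →
    (∀ t ∈ T, ∀ i, ∀ p ∈ A i, ∀ g ∈ gens f, On t (p + pt h g) → On t p ∧ 0 ≤ ψ t (pt h g)) →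
    (∀ t ∈ T, ∀ i, ∀ p ∈ A i, On t p → ψ t p ∉ U t → ψ t p ≠ 0) →
    (∀ t ∈ T, ∃ K : ℕ, ∀ x ∈ sp M, (Dp f h (ψ t) ^ K) x ∈
      EE f h (fun i => {p | p ∈ A i ∧ ∀ t ∈ T, On t p → ψ t p ∈ U t}) B) →
    ∀ y ∈ sp M, y ∈ EE f h A B →
      y ∈ EE f h (fun i => {p | p ∈ A i ∧ ∀ t ∈ T, On t p → ψ t p ∈ U t}) B

-- deps:
def S_GR1 : Prop :=
  ∀ (n : ℕ) (f : MvPolynomial (Fin n) ℂ) (h : Fin n → ℝ) (A : Finset (Fin n) → Set (L n))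
    (B : Set (L n)) (ν : L n → ℝ), EX f h A B → Cl f h B →
    (∀ i j, ∀ x ∈ sp (A {i, j}), Dp f h (mi j) x ∈ sp (A {i})) →
    (∀ J, ∀ p ∈ A J, ∀ g ∈ gens f, p + pt h g ∉ B → ν (p + pt h g) = ν p + 1) →
    ∀ (w : ℝ) (z : Fin n → R n), (∀ i, z i ∈ sp (A {i})) →
    ∑ i, Dp f h (mi i) (z i) ∈ sp (B ∪ {p | ν p ≤ w}) →
    ∃ z' : Fin n → R n, (∀ i, z' i ∈ sp (A {i} ∩ (B ∪ {p | ν p ≤ w - 1}))) ∧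
      ∑ i, Dp f h (mi i) (z' i) = ∑ i, Dp f h (mi i) (z i)

-- deps:
def S_WU : Prop :=
  ∀ (n : ℕ) (f : MvPolynomial (Fin n) ℂ) (h : Fin n → ℝ) (α r : ℝ) (y : NN n),
    (∀ i, UU α r (dN f i y) = Dp f h (mi i) (e (0, -Pi.single i 1, 0) * UU α r y) -
      (2 : ℂ) • e (0, Pi.single i 1, 2 * h i) * UU α r y) ∧
    UU α r (EN f y) = Dp f h kk (UU α r y) - (α : ℂ) • UU α r y ∧
    UU α r (Polynomial.C f) =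
      ((α : ℂ) - 1) • e (p0 n (α - 1) r) - Dp f h kk (e (p0 n (α - 1) r))

-- deps: WU
def S_WEYL : Prop :=
  ∀ (n : ℕ) (f g : MvPolynomial (Fin n) ℂ) (h : Fin n → ℝ) (b : Polynomial ℂ) (α r : ℝ)
    (B : Set (L n)), NRel f b g → Cl f h B →
    (∀ p : L n, p.1 = α - 1 → (∀ i, 1 ≤ p.2.1 i) → p ∈ B) →
    Polynomial.aeval (Dp f h kk) (b.comp (Polynomial.X - Polynomial.C (α : ℂ)))
      (em g * e (p0 n α r)) ∈ EE f h TT B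

-- deps: RX
def S_CHAIN : Prop :=
  ∀ (n : ℕ) (ι Λ : Type) [LinearOrder Λ] (T : Finset ι) (σ : ι → Λ) (W : ι → Set (L n))
    (B : Set (L n)) (V : Finset (Gn n)) (b : Gn n → L n) (η : Fin n → R n),
    (∀ r, η r ∈ sp (b '' V)) → (∀ p ∈ B, ∀ j ∈ V, p + b j ∈ B) → (∀ t ∈ T, Disjoint (W t) B) →
    (∀ t ∈ T, ∀ t' ∈ T, W t = W t' ∨ Disjoint (W t) (W t')) →
    (∀ t ∈ T, ∀ p ∈ W t, ∀ j ∈ V, p + b j ∈ W t ∨ p + b j ∈ B ∨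
      ∃ t' ∈ T, σ t' < σ t ∧ p + b j ∈ W t') →
    (∀ t ∈ T, ∀ B' : Set (L n), Disjoint (W t) B' → (∀ p ∈ B', ∀ j ∈ V, p + b j ∈ B') →
      (∀ p ∈ W t, ∀ j ∈ V, p + b j ∈ W t ∪ B') → Reg η (sp (W t ∪ B')) (sp B')) →
    Reg η (sp ({p | ∃ t ∈ T, p ∈ W t} ∪ B)) (sp B)

-- deps:
def S_GRR : Prop :=
  ∀ (n : ℕ) (η : Fin n → R n) (W B : Set (L n)) (φ : L n → ℝ) (c : ℝ),
    (∀ s, {p | p ∈ W ∧ φ p ≤ s}.Finite) → (∀ r, ∀ x ∈ sp B, η r * x ∈ sp B) →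
    (∀ r s, ∀ x ∈ sp {p | p ∈ W ∧ φ p ≤ s}, η r * x ∈ sp ({p | p ∈ W ∧ φ p ≤ s + c} ∪ B)) →
    HH η W B φ c → Reg η (sp (W ∪ B)) (sp B)

-- deps:
def S_REES : Prop :=
  ∀ (n : ℕ) (V : Finset (Gn n)) (b : Gn n → L n) (co : Fin n → Gn n → ℂ) (η : Fin n → R n)
    (W B : Set (L n)) (φ : L n → ℝ) (c : ℝ),
    (∀ p ∈ W, ∀ q ∈ W, p.1 = q.1 → p.2.1 = q.2.1 → p = q) → Disjoint W B →
    (∀ p ∈ W, ∀ j ∈ V, p + b j ∈ W) →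
    (∀ r, ∀ p ∈ W, η r * e p - ∑ j ∈ V, co r j • e (p + b j) ∈ sp B) →
    Reg (fun r => ∑ j ∈ V, co r j • e (hat c (b j))) (sp (Up0 W φ)) (sp (Up1 W φ)) →
    HH η W B φ c

-- deps:
def S_HKA : Prop :=
  ∀ (n : ℕ) (f : MvPolynomial (Fin n) ℂ) (h : Fin n → ℝ) (Φ : Fan f h) (y x : Fin n → ℝ),
    Φ.Gen y → ∀ S ∈ Φ.FF, Φ.H y S x → ∃ S' ∈ Φ.FF, Φ.W S' = Φ.W S ∧ Φ.K y S' x

-- deps: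
def S_HKB : Prop :=
  ∀ (n : ℕ) (f : MvPolynomial (Fin n) ℂ) (h : Fin n → ℝ) (Φ : Fan f h) (y x : Fin n → ℝ),
    Φ.Gen y → ∀ S ∈ Φ.FF, Φ.K y S x → Φ.H y S x ∧ (∀ i, 0 < y i → 0 < x i) ∧
    (∀ S' ∈ Φ.FF, Φ.W S' x = Φ.W S x →
      (∀ j ∈ S, Φ.Ψ S' (pt h j) ≠ 0 → Φ.d S j ⬝ᵥ y < 0) ∧ (Φ.W S' = Φ.W S ∨ Φ.W S' y < Φ.W S y)) ∧
    ∀ S' ∈ Φ.FF, Φ.W S' = Φ.W S → Φ.v S ⬝ᵥ x ≤ Φ.v S' ⬝ᵥ x ∧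
      (Φ.v S' ⬝ᵥ x = Φ.v S ⬝ᵥ x → S' = S ∨ Φ.v S' ⬝ᵥ y < Φ.v S ⬝ᵥ y)

-- deps: WP
def S_SIMP : Prop :=
  ∀ (n : ℕ) (f : MvPolynomial (Fin n) ℂ) (h : Fin n → ℝ) (Φ : Fan f h) (y q : Fin n → ℝ)
    (t : Gn n → ℂ) (M : ℕ) (B : Set (L n)), 0 < M → Set.InjOn t Φ.VS → ∀ S ∈ Φ.FF,
    Disjoint (Φ.Kp y q S) B → (∀ p ∈ B, ∀ j ∈ Φ.VT S, p + Φ.bh M j ∈ B) →
    (∀ p ∈ Φ.Kp y q S, ∀ j ∈ Φ.VT S, p + Φ.bh M j ∈ Φ.Kp y q S ∪ B) →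
    Reg (Φ.etah t M S) (sp (Φ.Kp y q S ∪ B)) (sp B)

-- deps: CHAIN SIMP HKA HKB
def S_HAT : Prop :=
  ∀ (n : ℕ) (f : MvPolynomial (Fin n) ℂ) (h : Fin n → ℝ) (Φ : Fan f h) (y q : Fin n → ℝ)
    (t : Gn n → ℂ) (M : ℕ), 0 < M → Set.InjOn t Φ.VS → Φ.Gen y → ∀ S ∈ Φ.FF,
    Reg (Φ.etah t M S) (sp (Up0 (Φ.Wp y q S) fun p => Φ.phi S (rv p - q)))
      (sp (Up1 (Φ.Wp y q S) fun p => Φ.phi S (rv p - q)))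

-- deps:
def S_FINL : Prop :=
  ∀ (n : ℕ) (f : MvPolynomial (Fin n) ℂ) (h : Fin n → ℝ) (Φ : Fan f h) (y q : Fin n → ℝ),
    ∀ S ∈ Φ.FF, ∀ s : ℝ, {p | p ∈ Φ.Wp y q S ∧ Φ.phi S (rv p - q) ≤ s}.Finite

-- deps: GRR REES HAT FINL
def S_PIECE : Prop :=
  ∀ (n : ℕ) (f : MvPolynomial (Fin n) ℂ) (h : Fin n → ℝ) (Φ : Fan f h) (y q : Fin n → ℝ)
    (t : Gn n → ℂ) (M : ℕ) (B : Set (L n)), 0 < M → Set.InjOn t Φ.VS → Φ.Gen y → ∀ S ∈ Φ.FF,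
    Disjoint (Φ.Wp y q S) B → (∀ p ∈ B, ∀ j ∈ Φ.VS, p + Φ.bb M j ∈ B) →
    (∀ p ∈ Φ.Wp y q S, ∀ j ∈ Φ.VS, p + Φ.bb M j ∈ Φ.Wp y q S ∪ B) →
    Reg (Φ.eta t M) (sp (Φ.Wp y q S ∪ B)) (sp B)

-- deps: CHAIN PIECE HKA HKB
def S_REGF : Prop :=
  ∀ (n : ℕ) (f : MvPolynomial (Fin n) ℂ) (h : Fin n → ℝ) (Φ : Fan f h) (y q : Fin n → ℝ)
    (t : Gn n → ℂ) (M : ℕ) (T : Finset (Finset (Gn n))) (A B : Set (L n)), 0 < M →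
    Set.InjOn t Φ.VS → Φ.Gen y → T ⊆ Φ.FF → (∀ S ∈ T, ∀ S' ∈ T, Φ.W S q = Φ.W S' q) →
    (∀ p ∈ A, ∀ γ ∈ Φ.Gam, p + γ ∈ A) → (∀ p ∈ B, ∀ γ ∈ Φ.Gam, p + γ ∈ B) →
    (∀ p ∈ A, p ∉ B → ∃ S ∈ T, p ∈ Φ.Wp y q S) →
    (∀ S ∈ T, Φ.Wp y q S ⊆ A ∧ Disjoint (Φ.Wp y q S) B) →
    Reg (Φ.eta t M) (sp (A ∪ B)) (sp B)

-- deps:
def S_GY : Prop :=
  ∀ (n : ℕ) (f : MvPolynomial (Fin n) ℂ) (h : Fin n → ℝ) (D : Dat f h) (J : Finset (Fin n)),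
    ∃ z, D.GY J z

-- deps: HKA HKB
def S_SH1 : Prop :=
  ∀ (n : ℕ) (f : MvPolynomial (Fin n) ℂ) (h : Fin n → ℝ) (D : Dat f h) (J : Finset (Fin n))
    (z : Fin n → ℝ), D.GY J z →
    (∀ p ∈ D.R1 ∩ DJ D.I J, p ∉ D.B1 → ∃ S ∈ D.BB, p ∈ D.Wp z 0 S) ∧
    ∀ S ∈ D.BB, D.Wp z 0 S ⊆ D.R1 ∩ DJ D.I J

-- deps: HKA HKB
def S_SH3 : Prop :=
  ∀ (n : ℕ) (f : MvPolynomial (Fin n) ℂ) (h : Fin n → ℝ) (D : Dat f h) (J : Finset (Fin n))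
    (z : Fin n → ℝ), D.GY J z →
    (∀ p ∈ D.R3 ∩ DJ D.I J, p ∉ D.B0 → ∃ S ∈ D.F2, p ∈ D.Wp z D.q0 S) ∧
    ∀ S ∈ D.F2, D.Wp z D.q0 S ⊆ D.R3 ∩ DJ D.I J

-- deps:
def S_TW : Prop :=
  ∀ (n : ℕ) (f : MvPolynomial (Fin n) ℂ) (h : Fin n → ℝ) (Φ : Fan f h) (γ : L n),
    (∃ S ∈ Φ.FF, Φ.Ψ S γ = 0) → ∃ (w : Fin n → ℝ) (β : ℝ), (∀ i, 0 < w i) ∧ ∀ a ∈ f.support,
      β ≤ ∑ i, (a i : ℝ) * w i ∧ (∑ i, (a i : ℝ) * w i = β ↔ pt h (Sum.inl a) ∈ Φ.Sp γ)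

-- deps: TW
-- imports: Pool.Agent.P.MP_9321be_ag.SM.TTOR
def S_TOR : Prop :=
  ∀ (n : ℕ) (f : MvPolynomial (Fin n) ℂ) (h : Fin n → ℝ) (Φ : Fan f h), ND.Nondeg f →
    ∀ γ ∈ Φ.Gam, (∃ S ∈ Φ.FF, Φ.Ψ S γ = 0) → γ.2.1 ≠ 0 →
    ∃ s : Fin n → R n, (∀ i, s i ∈ sp (Φ.Sp γ)) ∧ ∑ i, s i * fl (Φ.Sp γ) (th f h (mi i)) = 1

-- deps: TOR
def S_NST : Prop :=
  ∀ (n : ℕ) (f : MvPolynomial (Fin n) ℂ) (h : Fin n → ℝ) (Φ : Fan f h), ND.Nondeg f →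
    ∃ M : ℕ, 0 < M ∧ ∀ j ∈ Φ.VS, ∃ s : Fin n → R n, (∀ i, s i ∈ sp Φ.Gam) ∧
      e (Φ.bb M j) - ∑ i, s i * th f h (mi i) ∈ sp Φ.Gam0

-- deps: ACY NST
def S_EXG : Prop :=
  ∀ (n : ℕ) (f : MvPolynomial (Fin n) ℂ) (h : Fin n → ℝ) (Φ : Fan f h), ND.Nondeg f →
    ∀ (A B : Set (L n)) (I : Finset (Fin n)), (∀ p ∈ A, ∀ γ ∈ Φ.Gam, p + γ ∈ A) →
    (∀ p ∈ B, ∀ γ ∈ Φ.Gam, p + γ ∈ B) → (∀ p ∈ A, ∀ γ ∈ Φ.Gam0, p + γ ∈ B) →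
    (∀ p ∈ A, ∀ i ∈ I, 0 ≤ p.2.1 i) →
    (∀ (t : Gn n → ℂ) (M : ℕ) (J : Finset (Fin n)), 0 < M → Set.InjOn t Φ.VS →
      Reg (Φ.eta t M) (sp (A ∩ DJ I J ∪ B)) (sp B)) →
    EX f h (fun J => A ∩ DJ I J) B

-- deps:
def S_NIL : Prop :=
  ∀ (n : ℕ) (f : MvPolynomial (Fin n) ℂ) (h : Fin n → ℝ) (D : Dat f h) (w : Fin n → ℝ),
    ∃ K : ℕ, ∀ x ∈ sp (D.R0 ∩ DJ D.I ∅),
      (Dp f h (ps w) ^ K) x ∈ EE f h (fun i => D.R0 ∩ DJ D.I {i}) D.B0 ∧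
      (Dp f h (p2 w) ^ K) x ∈ EE f h (fun i => D.R0 ∩ DJ D.I {i}) D.B0 ∧
      (Dp f h kk ^ K) x ∈ EE f h (fun i => D.R0 ∩ DJ D.I {i}) D.B0

-- deps: RAISE NIL
def S_S2 : Prop :=
  ∀ (n : ℕ) (f : MvPolynomial (Fin n) ℂ) (h : Fin n → ℝ) (D : Dat f h),
    (∀ p : L n, p.1 = D.α - 1 → (∀ i, 1 ≤ p.2.1 i) → p ∈ D.B0) ∧
    ∀ (y : R n) (γ : Polynomial ℂ), γ.eval 0 ≠ 0 → y ∈ sp (D.R0 ∩ DJ D.I ∅) →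
      Polynomial.aeval (Dp f h kk) γ y ∈ EE f h TT D.B0 →
      y ∈ EE f h (fun i => D.R0 ∩ DJ D.I {i}) D.B0

-- deps:
def S_G0 : Prop :=
  ∀ (n : ℕ) (f g : MvPolynomial (Fin n) ℂ) (h : Fin n → ℝ) (D : Dat f h),
    em g * e D.P0 ∈ sp (D.R0 ∩ DJ D.I ∅) ∧
    em g * e D.P0 - MvPolynomial.eval 0 g • e D.P0 ∈ sp D.B0

-- deps: RAISE
def S_R1 : Prop :=
  ∀ (n : ℕ) (f : MvPolynomial (Fin n) ℂ) (h : Fin n → ℝ) (D : Dat f h),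
    e D.P0 ∈ EE f h (fun i => D.R0 ∩ DJ D.I {i}) D.B0 →
    e D.P0 ∈ EE f h (fun i => D.R1 ∩ DJ D.I {i}) D.B0

-- deps: GR1 EXG REGF GY SH1
def S_X1 : Prop :=
  ∀ (n : ℕ) (f : MvPolynomial (Fin n) ℂ) (h : Fin n → ℝ) (D : Dat f h), ND.Nondeg f →
    e D.P0 ∈ EE f h (fun i => D.R1 ∩ DJ D.I {i}) D.B0 →
    e D.P0 ∈ EE f h (fun i => D.B1 ∩ DJ D.I {i}) D.B0

-- deps: RAISE
def S_R2 : Prop :=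
  ∀ (n : ℕ) (f : MvPolynomial (Fin n) ℂ) (h : Fin n → ℝ) (D : Dat f h),
    e D.P0 ∈ EE f h (fun i => D.B1 ∩ DJ D.I {i}) D.B0 →
    e D.P0 ∈ EE f h (fun i => D.R3 ∩ DJ D.I {i}) D.B0

-- deps: GR1 EXG REGF GY SH3
def S_X2 : Prop :=
  ∀ (n : ℕ) (f : MvPolynomial (Fin n) ℂ) (h : Fin n → ℝ) (D : Dat f h), ND.Nondeg f →
    e D.P0 ∈ EE f h (fun i => D.R3 ∩ DJ D.I {i}) D.B0 →
    ∃ z : Fin n → R n, (∀ i, z i ∈ sp (D.R3 ∩ DJ D.I {i} ∩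
      (D.B0 ∪ {p | D.wt (rv p - D.q0) ≤ ∑ b ∈ D.X1, D.μ b - 1}))) ∧
      e D.P0 - ∑ i, Dp f h (mi i) (z i) ∈ sp D.B0

-- deps:
def S_CW : Prop :=
  ∀ (n : ℕ) (f : MvPolynomial (Fin n) ℂ) (h : Fin n → ℝ) (D : Dat f h),
    ∃ (w : Fin n → ℝ) (β : ℝ), (∀ i, 0 < w i) ∧ ∀ a ∈ f.support,
      β ≤ ∑ i, (a i : ℝ) * w i ∧ (∑ i, (a i : ℝ) * w i = β ↔ ∃ i ∈ D.SS, a ∈ D.Z i)

-- deps:
def S_ACT : Prop :=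
  ∀ (n : ℕ) (f : MvPolynomial (Fin n) ℂ) (h : Fin n → ℝ) (D : Dat f h) (i : Fin n),
    ∀ q ∈ D.R3 ∩ DJ D.I {i}, ∀ g ∈ gens f, wv g i ≠ 0 → q + pt h g ∈ D.Good →
    i ∈ D.SS ∧ ∀ g' ∈ gens f, wv g' i ≠ 0 → (q + pt h g' ∈ D.Good ↔ g' ∈ D.X1)

-- deps: ACT
def S_EV : Prop :=
  ∀ (n : ℕ) (f : MvPolynomial (Fin n) ℂ) (h : Fin n → ℝ) (D : Dat f h) (x : Fin n → ℂ),
    (∀ i, x i ≠ 0) → (∀ i ∈ D.SS, ∑ a ∈ D.Z i, MvPolynomial.coeff a f * ∏ j, x j ^ a j = 0) →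
    ∀ z : Fin n → R n, (∀ i, z i ∈ sp (D.R3 ∩ DJ D.I {i} ∩
      (D.B0 ∪ {p | D.wt (rv p - D.q0) ≤ ∑ b ∈ D.X1, D.μ b - 1}))) →
      e D.P0 - ∑ i, Dp f h (mi i) (z i) ∉ sp D.B0

-- deps:
def S_GENA : Prop :=
  ∀ (ι κ : Type) (X : Finset ι) (T : Finset κ) (F : κ → ι → ℝ), (∀ t ∈ T, ∃ g ∈ X, F t g ≠ 0) →
    ∃ a : ι → ℕ, (∀ g, 0 < a g) ∧ ∀ t ∈ T, ∑ g ∈ X, F t g * a g ≠ 0

-- deps: FD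
def S_VERT : Prop :=
  ∀ (n : ℕ) (X : Finset (Gn n)) (H : Gn n → ℝ) (d : Finset (Gn n) → Gn n → Fin n → ℝ),
    (∀ i, Sum.inr i ∈ X) → (∀ g ∈ X, ∃ i, wv g i ≠ 0) → (∀ S, Bas X S → DB S (d S)) →
    (∀ S, Bas X S → ∀ g ∈ X, g ∉ S → ex (d S) S H g ≠ 0) →
    ∃ S, Bas X S ∧ ∀ g ∈ X, g ∉ S → 0 < ex (d S) S H g

-- deps:
def S_PVW : Prop :=
  ∀ (n : ℕ) (S : Finset (Gn n)) (d d' : Gn n → Fin n → ℝ) (j g : Gn n) (H : Gn n → ℝ)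
    (x : Fin n → ℝ), DB S d → DB (insert g (S.erase j)) d' → j ∈ S → d j ⬝ᵥ wr g ≠ 0 →
    ∑ k ∈ insert g (S.erase j), (d' k ⬝ᵥ x) * H k =
      ∑ k ∈ S, (d k ⬝ᵥ x) * H k + (d j ⬝ᵥ x) * (ex d S H g / -(d j ⬝ᵥ wr g))

-- deps: PVW
def S_PIV : Prop :=
  ∀ (n : ℕ) (X : Finset (Gn n)) (H : Gn n → ℝ) (d : Finset (Gn n) → Gn n → Fin n → ℝ),
    (∀ i, Sum.inr i ∈ X) → (∀ S, Bas X S → DB S (d S)) →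
    (∀ S, Bas X S → ∀ g ∈ X, g ∉ S → ex (d S) S H g ≠ 0) →
    ∀ S, Bas X S → (∀ g ∈ X, g ∉ S → 0 < ex (d S) S H g) → ∀ j ∈ S,
    (∃ g ∈ X, d S j ⬝ᵥ wr g < 0 ∧ Bas X (insert g (S.erase j)) ∧ ∀ g' ∈ X,
      g' ∉ insert g (S.erase j) → 0 < ex (d (insert g (S.erase j))) (insert g (S.erase j)) H g') ∨
    ∃ (i : Fin n) (c : ℝ), 0 < c ∧ ∀ x, d S j ⬝ᵥ x = c * x i

-- deps:
def S_GH : Prop :=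
  ∀ (n : ℕ) (f : MvPolynomial (Fin n) ℂ) (h u ω : Fin n → ℝ) (S : Finset (Gn n))
    (d : Gn n → Fin n → ℝ), NC.GenH f.support h → DB S d → S ⊆ gens f →
    (∀ j ∈ S, Ps u ω (pt h j) = 0) →
    (∀ i, Ps u ω (pt h (.inr i)) = 0 → .inr i ∈ S ∧ ∀ g ∈ gens f,
      Ps u ω (pt h g) = 0 → g ≠ .inr i → d (.inr i) ⬝ᵥ wr g = 0) ∧
    ∀ g ∈ gens f, Ps u ω (pt h g) = 0 → ∑ j ∈ S, d j ⬝ᵥ wr g = 1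

-- deps: FD GENA VERT PVW PIV GH
def S_FAN : Prop :=
  ∀ (n : ℕ) (f : MvPolynomial (Fin n) ℂ) (h : Fin n → ℝ), MvPolynomial.coeff 0 f = 0 →
    (∀ i, 0 < h i) → NC.GenH f.support h → Nonempty (Fan f h)

-- deps:
def S_FACE : Prop :=
  ∀ (n : ℕ) (f : MvPolynomial (Fin n) ℂ) (h : Fin n → ℝ) (Φ : Fan f h) (u ω : Fin n → ℝ)
    (G : Finset (Gn n)), G ⊆ gens f → (∀ g ∈ gens f, 0 ≤ Ps u ω (pt h g)) →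
    (∀ g ∈ G, Ps u ω (pt h g) = 0) → ∃ S ∈ Φ.FF, ∀ g ∈ G, Φ.Ψ S (pt h g) = 0

-- deps: FACE CAR LPD LEMC
-- imports: Pool.Agent.P.MP_9321be_ag.SG.TZDefs Pool.Agent.P.MP_9321be_ag.SM.TLINK
def S_LINK : Prop :=
  ∀ (n : ℕ) (f : MvPolynomial (Fin n) ℂ) (h : Fin n → ℝ) (_ : Fan f h) (u ω : Fin n → ℝ)
    (s : Finset (Fin n →₀ ℕ)) (J : Finset (Fin n)) (α : ℚ), NC.Allowed f.support u ω h s J →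
    ND.Contrib (NC.vs s J) → (∀ a, ¬ ND.UApex (NC.vs s J) a) → ∑ i, u i = α →
    ∃ D : Dat f h, D.α = α

-- deps: TZ CW
-- imports: Pool.Agent.P.MP_9321be_ag.SG.TZDefs
def S_CHI : Prop :=
  ∀ (n : ℕ) (f : MvPolynomial (Fin n) ℂ) (h : Fin n → ℝ) (D : Dat f h), ND.Nondeg f →
    ∃ x : Fin n → ℂ, (∀ i, x i ≠ 0) ∧
      ∀ i ∈ D.SS, ∑ a ∈ D.Z i, MvPolynomial.coeff a f * ∏ j, x j ^ a j = 0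

-- deps: WN WEYL S2 G0 R1 X1 R2 X2 CHI EV
def S_MAINB : Prop :=
  ∀ (n : ℕ) (f : MvPolynomial (Fin n) ℂ) (h : Fin n → ℝ) (D : Dat f h), ND.Nondeg f →
    IsBSRoot f (-(D.α : ℂ))

end Pool.Agent.P.MP_9321be_ag.SG
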