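import Pool.Agent.P.MP_9321be_ag.SG.Iface

/-! Step FAN. -/

set_option autoImplicit false
set_option linter.unusedSectionVars false

namespace Pool.Agent.P.MP_9321be_ag.SG

open Finset SM

lemma fan_dot {n : ℕ} (S : Finset (Gn n)) (d : Gn n → Fin n → ℝ) (H : Gn n → ℝ) (x : Fin n → ℝ) :
    (∑ j ∈ S, H j • d j) ⬝ᵥ x = ∑ j ∈ S, (d j ⬝ᵥ x) * H j := by
  simp [sum_dotProduct, mul_comm]

lemma fan_lin {n : ℕ} (S : Finset (Gn n)) (d : Gn n → Fin n → ℝ) (H K : Gn n → ℝ) (t : ℝ)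
    (g : Gn n) : ex d S (fun k => H k + t * K k) g = ex d S H g + t * ex d S K g := by
  simp only [ex, mul_add, sum_add_distrib, mul_sub, mul_sum, mul_left_comm t]
  ring

lemma fan_mem {n : ℕ} {S : Finset (Gn n)} {d : Gn n → Fin n → ℝ} (hd : DB S d) (H : Gn n → ℝ)
    {j : Gn n} (hj : j ∈ S) : ex d S H j = 0 := by
  rw [ex, sum_congr rfl fun k hk => by rw [hd.dual k hk j hj]]
  simp [hj]

lemma fan_sign {ι : Type} (T : Finset ι) (a b : ι → ℝ) : ∃ ε : ℝ, ∀ t ∈ T,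
    (0 < a t + ε * b t → 0 < a t ∨ a t = 0 ∧ 0 < b t) ∧ (a t + ε * b t = 0 → b t = 0) := by
  have : ∀ᶠ ε in nhdsWithin (0 : ℝ) (Set.Ioi 0), ∀ t ∈ T,
      (0 < a t + ε * b t → 0 < a t ∨ a t = 0 ∧ 0 < b t) ∧ (a t + ε * b t = 0 → b t = 0) := by
    refine (Filter.eventually_all_finset T).2 fun t _ => ?_
    rcases lt_trichotomy 0 (lx (a t) (b t)) with o | o | o
    · filter_upwards [lx_ev o] with ε hε
      exact ⟨fun _ => lx_pos.1 o, fun e => absurd e hε.ne'⟩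
    · obtain ⟨e1, e2⟩ := lx_eq_zero.1 o.symm
      exact .of_forall fun ε => ⟨fun e => by simp [e1, e2] at e, fun _ => e2⟩
    · have : 0 < lx (-a t) (-b t) := by
        rw [← lx_zero, lx_lt] at o ⊢
        exact o.imp (fun e => by linarith) fun e => ⟨by linarith [e.1], by linarith [e.2]⟩
      filter_upwards [lx_ev this] with ε hε
      exact ⟨fun e => by linarith, fun e => by linarith⟩
  exact this.exists

theorem p_FAN (hFD : S_FD) (hGENA : S_GENA) (hVERT : S_VERT) (hPVW : S_PVW) (hPIV : S_PIV) (hGH : S_GH) :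
    S_FAN := by
  classical
  intro n f h hf hh hG
  obtain ⟨X, hX⟩ : ∃ X, X = gens f := ⟨_, rfl⟩
  have hr : ∀ i, Sum.inr i ∈ X := fun i => hX ▸ inr_mem_gens f i
  have nz : ∀ g ∈ gens f, ∃ i, wv g i ≠ 0 := by
    rintro (a | i) hg
    · have : a ≠ 0 := fun e => MvPolynomial.mem_support_iff.1 (inl_mem_gens.1 hg) (e ▸ hf)
      exact Finsupp.ne_iff.1 this
    · exact ⟨i, by simp [wv]⟩
  obtain ⟨d, hd⟩ : ∃ d : Finset (Gn n) → Gn n → Fin n → ℝ, ∀ S, Bas X S → DB S (d S) := by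
    have : ∀ S, Bas X S → ∃ d, DB S d := fun S hS => by
      obtain ⟨d, d1, d2, d3⟩ := (hFD n S hS.2.2).2.2 hS.2.1
      exact ⟨d, hS.2.1, d1, d2, d3⟩
    choose! d hd using this
    exact ⟨d, hd⟩
  obtain ⟨a, a1, a2⟩ : ∃ a : Gn n → ℕ, (∀ g, 0 < a g) ∧ ∀ S, Bas X S → ∀ g ∈ X, g ∉ S →
      ex (d S) S (fun k => -(a k : ℝ)) g ≠ 0 := by
    obtain ⟨a, a1, a2⟩ := hGENA _ _ X ((X.powerset ×ˢ X).filter fun t => Bas X t.1 ∧ t.2 ∉ t.1)
      (fun t k => (if k = t.2 then 1 else 0) - if k ∈ t.1 then d t.1 k ⬝ᵥ wr t.2 else 0)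
      fun t ht => ⟨t.2, (mem_product.1 (mem_filter.1 ht).1).2, by simp [(mem_filter.1 ht).2.2]⟩
    refine ⟨a, a1, fun S hS g hg o => ?_⟩
    have := a2 (S, g) (mem_filter.2 ⟨mem_product.2 ⟨mem_powerset.2 hS.1, hg⟩, hS, o⟩)
    simp only [sub_mul, sum_sub_distrib, ite_mul, one_mul, zero_mul, sum_ite_eq', hg, if_true,
      sum_ite_mem, inter_eq_right.2 hS.1] at this
    refine fun e => this ?_
    simp only [ex, mul_neg, sum_neg_distrib] at e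
    linarith
  obtain ⟨e2, h2⟩ := fan_sign (X.powerset ×ˢ X) (fun t => ex (d t.1) t.1 (rh h) t.2)
    fun t => ex (d t.1) t.1 (fun k => -(a k : ℝ)) t.2
  obtain ⟨e1, h1⟩ := fan_sign (X.powerset ×ˢ X) (fun t => ex (d t.1) t.1 kp t.2)
    fun t => ex (d t.1) t.1 (fun k => rh h k + e2 * -(a k : ℝ)) t.2
  obtain ⟨H, hH⟩ : ∃ H : Gn n → ℝ, H = fun k => kp k + e1 * (rh h k + e2 * -(a k : ℝ)) := ⟨_, rfl⟩
  have g0 : ∀ S, Bas X S → ∀ g ∈ X, g ∉ S → ex (d S) S H g ≠ 0 := fun S hS g hg o e => by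
    have m : (S, g) ∈ X.powerset ×ˢ X := mem_product.2 ⟨mem_powerset.2 hS.1, hg⟩
    rw [hH, fan_lin] at e
    have := (h1 _ m).2 e
    rw [fan_lin] at this
    exact a2 S hS g hg o ((h2 _ m).2 this)
  have g1 : ∀ S, Bas X S → ∀ g ∈ X, 0 < ex (d S) S H g → 0 < ex (d S) S kp g ∨
      ex (d S) S kp g = 0 ∧ (0 < ex (d S) S (rh h) g ∨ ex (d S) S (rh h) g = 0 ∧
        0 < ex (d S) S (fun k => -(a k : ℝ)) g) := fun S hS g hg e => by
    have m : (S, g) ∈ X.powerset ×ˢ X := mem_product.2 ⟨mem_powerset.2 hS.1, hg⟩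
    rw [hH, fan_lin] at e
    refine ((h1 _ m).1 e).imp_right fun o => ⟨o.1, (h2 _ m).1 ?_⟩
    have := o.2
    rwa [fan_lin] at this
  obtain ⟨FF, mem⟩ : ∃ FF : Finset (Finset (Gn n)), ∀ S, S ∈ FF ↔
      Bas X S ∧ ∀ g ∈ X, g ∉ S → 0 < ex (d S) S H g :=
    ⟨X.powerset.filter fun S => Bas X S ∧ ∀ g ∈ X, g ∉ S → 0 < ex (d S) S H g, fun S =>
      mem_filter.trans (and_iff_right_of_imp fun o => mem_powerset.2 o.1.1)⟩
  have db : ∀ S ∈ FF, DB S (d S) := fun S hS => hd S ((mem S).1 hS).1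
  have sub : ∀ S ∈ FF, S ⊆ gens f := fun S hS => hX ▸ ((mem S).1 hS).1.1
  have hP : ∀ S g, Ps (∑ j ∈ S, kp j • d S j) (∑ j ∈ S, rh h j • d S j) (pt h g) =
      lx (ex (d S) S kp g) (ex (d S) S (rh h) g) := fun S g => by
    rw [Ps_apply, ps_apply, p2_apply, rv_pt, fan_dot, fan_dot]
    rfl
  have hv : ∀ S g, (∑ j ∈ S, -(a j : ℝ) • d S j) ⬝ᵥ wr g =
      ex (d S) S (fun k => -(a k : ℝ)) g - a g := fun S g => by
    rw [fan_dot S (d S) fun k => -(a k : ℝ), ex]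
    ring
  have tight : ∀ S ∈ FF, ∀ j ∈ S,
      Ps (∑ j ∈ S, kp j • d S j) (∑ j ∈ S, rh h j • d S j) (pt h j) = 0 := fun S hS j hj => by
    rw [hP, fan_mem (db S hS) _ hj, fan_mem (db S hS) _ hj, lx_zero]
  refine ⟨⟨FF, fun S => ∑ j ∈ S, kp j • d S j, fun S => ∑ j ∈ S, rh h j • d S j,
    fun S => ∑ j ∈ S, -(a j : ℝ) • d S j, d, fun g => ∏ k ∈ X.erase g, a k, fun g => a g,
    ∏ k ∈ X, (a k : ℝ), hh, nz, fun g => prod_pos fun k _ => a1 k, fun g => Nat.cast_pos.2 (a1 g),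
    fun g hg => ?_, ?_, sub, db, fun S hS g hg => ?_, tight, fun S hS j hj => ?_,
    fun S hS g hg o e => ?_, fun S hS j hj => ?_,
    fun S hS => (hGH n f h _ _ S (d S) hG (db S hS) (sub S hS) (tight S hS)).1,
    fun S hS => (hGH n f h _ _ S (d S) hG (db S hS) (sub S hS) (tight S hS)).2⟩⟩
  · rw [Nat.cast_prod]
    exact prod_erase_mul X (fun k => (a k : ℝ)) (hX ▸ hg)
  · obtain ⟨S, hS⟩ := hVERT n X H d hr (hX ▸ nz) hd g0
    exact ⟨S, (mem S).2 hS⟩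
  · by_cases o : g ∈ S
    · exact (tight S hS g o).ge
    · rw [hP, lx_nonneg]
      exact (g1 S ((mem S).1 hS).1 g (hX ▸ hg) (((mem S).1 hS).2 g (hX ▸ hg) o)).imp_right
        fun e => ⟨e.1, e.2.elim le_of_lt fun e => e.1.ge⟩
  · rw [hv, fan_mem (db S hS) _ hj, zero_sub]
  · rw [hP, lx_eq_zero] at e
    have := g1 S ((mem S).1 hS).1 g (hX ▸ hg) (((mem S).1 hS).2 g (hX ▸ hg) o)
    rw [hv]
    simp only [e.1, e.2, lt_irrefl, false_or, true_and] at this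
    linarith
  · obtain ⟨b, p⟩ := (mem S).1 hS
    refine (hPIV n X H d hr hd g0 S b p j hj).imp_left fun ⟨g, hg, l, b', p'⟩ => ?_
    have o : g ∉ S := fun o => by
      rw [(db S hS).dual j hj g o] at l
      split_ifs at l <;> linarith
    have w := fun K x => hPVW n S (d S) _ j g K x (db S hS) (hd _ b') hj l.ne
    have l' := neg_pos.2 l
    refine ⟨_, (mem _).2 ⟨b', p'⟩, lx (ex (d S) S kp g / -(d S j ⬝ᵥ wr g))
      (ex (d S) S (rh h) g / -(d S j ⬝ᵥ wr g)),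
      ex (d S) S (fun k => -(a k : ℝ)) g / -(d S j ⬝ᵥ wr g), fun x => ?_, fun x => ?_, ?_⟩
    · simp only [Wd_apply, fan_dot, w, lx_smul, lx_add]
    · rw [fan_dot _ _ fun k => -(a k : ℝ), fan_dot _ _ fun k => -(a k : ℝ), w]
    · rw [lx_pos, lx_eq_zero]
      rcases g1 S b g hg (p g hg o) with e | ⟨e, e' | ⟨e', e''⟩⟩
      · exact .inl (.inl (div_pos e l'))
      · exact .inl (.inr ⟨by rw [e, zero_div], div_pos e' l'⟩)
      · exact .inr ⟨⟨by rw [e, zero_div], by rw [e', zero_div]⟩, div_pos e'' l'⟩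

end Pool.Agent.P.MP_9321be_ag.SG
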