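import Pool.Agent.P.MP_9321be_ag.SG.Iface

/-! Step GY. -/

set_option autoImplicit false
set_option linter.unusedSectionVars false

namespace Pool.Agent.P.MP_9321be_ag.SG

open Finset SM

open Filter in
lemma gy_step {n : ℕ} {S : Finset (Fin n → ℝ)} {w y : Fin n → ℝ}
    (h : ∀ d ∈ S, d ⬝ᵥ w ≠ 0 ∨ d ⬝ᵥ y ≠ 0) :
    ∀ᶠ T : ℝ in atTop, ∀ d ∈ S, d ⬝ᵥ (w + T • y) ≠ 0 := by
  refine (eventually_all_finset S).2 fun d hd => ?_
  simp only [dotProduct_add, dotProduct_smul, smul_eq_mul]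
  by_cases e : d ⬝ᵥ y = 0
  · exact .of_forall fun T => by simpa [e] using h d hd
  · exact (eventually_ne_atTop (-(d ⬝ᵥ w) / d ⬝ᵥ y)).mono fun T a b =>
      a (by rw [eq_div_iff e]; linarith)

lemma gy_ex {n : ℕ} (S : Finset (Fin n → ℝ)) (h : ∀ d ∈ S, d ≠ 0) : ∃ w, ∀ d ∈ S, d ⬝ᵥ w ≠ 0 := by
  classical
  induction S using Finset.induction_on with
  | empty => simp
  | insert d S _ ih =>
    obtain ⟨w, hw⟩ := ih fun x hx => h x (mem_insert_of_mem hx)
    exact (gy_step (S := insert d S) (w := w) (y := d) (forall_mem_insert _ _ _ |>.2 ⟨.inr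
      (mt dotProduct_self_eq_zero.1 (h d (mem_insert_self _ _))),
      fun x hx => .inl (hw x hx)⟩)).exists.elim fun _ a => ⟨_, a⟩

open Filter in
lemma gy_sgn (a b : ℝ) : ∀ᶠ T : ℝ in atTop, (0 < b → 0 < a + T * b) ∧ (b < 0 → a + T * b < 0) :=
  (eventually_gt_atTop (-a / b)).mono fun T h =>
    ⟨fun e => by linarith [(div_lt_iff₀ e).1 h], fun e => by linarith [(div_lt_iff_of_neg e).1 h]⟩

open Filter in
theorem p_GY :
    S_GY := by
  classical
  intro n f h D J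
  obtain ⟨w, hw⟩ := gy_ex (D.FF.biUnion fun F => F.image (D.d F)) fun d hd e => by
    obtain ⟨F, a, b⟩ := mem_biUnion.1 hd
    obtain ⟨j, c, rfl⟩ := mem_image.1 b
    simpa [e] using (D.db F a).dual j c j c
  obtain ⟨T, t1, t2⟩ := ((gy_step (y := fun i => if i ∈ D.I ∧ i ∉ J then 1 else -1)
    fun d hd => .inl (hw d hd)).and (eventually_all.2 fun i => eventually_gt_atTop |w i|)).exists
  obtain ⟨T', t3, t4, t5⟩ := ((gy_step (y := D.q0) fun d hd => .inl (t1 d hd)).and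
    (((eventually_all_finset D.FF).2 fun F _ => (eventually_all_finset F).2 fun j _ =>
      gy_sgn (D.d F j ⬝ᵥ (w + T • fun i => if i ∈ D.I ∧ i ∉ J then 1 else -1))
        (D.d F j ⬝ᵥ D.q0)).and (eventually_ge_atTop 0))).exists
  refine ⟨_, fun F a j b => t3 _ (mem_biUnion.2 ⟨F, a, mem_image_of_mem _ b⟩),
    fun F a j b c => ?_, fun F a j b c => ?_, fun i => ?_⟩
  · rw [dotProduct_add, dotProduct_smul]
    exact (t4 F a j b).1 c
  · rw [dotProduct_add, dotProduct_smul]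
    exact (t4 F a j b).2 c
  simp only [Pi.add_apply, Pi.smul_apply, smul_eq_mul]
  by_cases c : i ∈ D.I ∧ i ∉ J
  · rw [if_pos c, Dat.q0_eq_zero.2 c.1, iff_true_right c]
    linarith [t2 i, neg_abs_le (w i)]
  · rw [if_neg c, iff_false_right c, not_lt]
    linarith [t2 i, le_abs_self (w i), mul_nonpos_of_nonneg_of_nonpos t5 (D.q0_nonpos i)]

end Pool.Agent.P.MP_9321be_ag.SG
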