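import Pool.Agent.P.MP_9321be_ag.SG.Iface

/-! Step X1. -/

set_option autoImplicit false
set_option linter.unusedSectionVars false

namespace Pool.Agent.P.MP_9321be_ag.SG

open Finset SM

theorem x1_ex (hEXG : S_EXG) (hREGF : S_REGF) (hGY : S_GY) (hSH1 : S_SH1) {n : ℕ}
    {f : MvPolynomial (Fin n) ℂ} {h : Fin n → ℝ} (D : Dat f h) (hN : ND.Nondeg f) :
    EX f h (fun J => D.R1 ∩ DJ D.I J) D.B1 := by
  refine hEXG n f h D.toFan hN D.R1 D.B1 D.I (fun _ a _ b => Dat.R1_add a b)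
    (fun _ a _ b => Dat.B1_add a b) (fun _ a _ b => Dat.B0_B1 (Dat.R0_add0 a.1 b))
    (fun _ a => a.1.2) fun t M J hM ht => ?_
  obtain ⟨z, hz⟩ := hGY n f h D J
  obtain ⟨h1, h2⟩ := hSH1 n f h D J z hz
  exact hREGF n f h D.toFan z 0 t M D.BB _ _ hM ht hz.gen (fun _ a => (Dat.mem_BB.1 a).1)
    (fun _ _ _ _ => by rw [map_zero, map_zero])
    (fun _ a _ b => ⟨Dat.R1_add a.1 b, DJ_add a.2 b.2⟩) (fun _ a _ b => Dat.B1_add a b) h1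
    fun S a => ⟨h2 S a, Set.disjoint_left.2 fun _ b c => c.2 S a b.1⟩

theorem x1_off {n : ℕ} {f : MvPolynomial (Fin n) ℂ} {h : Fin n → ℝ} {D : Dat f h} {p : L n}
    (a : p ∈ D.R0) (b : p ∉ D.B1) : ∃ S ∈ D.BB, D.Ψ S p = 0 := by
  by_contra c
  exact b ⟨a, fun S d e => c ⟨S, d, e⟩⟩

theorem p_X1 (hGR1 : S_GR1) (hEXG : S_EXG) (hREGF : S_REGF) (hGY : S_GY) (hSH1 : S_SH1) :
    S_X1 := by
  intro n f h D hN ⟨z, h1, h2⟩
  obtain ⟨z', h3, h4⟩ := hGR1 n f h _ D.B1 (fun p => D.wt (rv p))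
    (x1_ex hEXG hREGF hGY hSH1 D hN) Dat.cl_B1
    (fun i j x hx => Dp_DJ Dat.cl_R1 (fun _ a => a.1.2) j (by rwa [pair_comm] at hx))
    (fun J p a g b c => by
      obtain ⟨S, d, e⟩ := x1_off (Dat.R0_add a.1.1 (D.pt_Gam b)) c
      obtain ⟨e1, e2⟩ := Dat.Ψ_add_zero a.1.1 (D.pt_Gam b) (Dat.BB_F1 d) e
      rw [rv_add, rv_pt]
      exact D.wt_add (Dat.mem_BB.1 d).1 (Dat.R1_C a.1 d e1) b e2) 0 z h1 (by
      rw [← sub_sub_cancel (e D.P0) (∑ i, Dp f h (mi i) (z i))]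
      exact sp_mono Set.subset_union_left
        (sub_mem (e_mem D.P0_R3.1) (sp_mono Dat.B0_B1 h2)))
  refine ⟨z', fun i => sp_mono ?_ (h3 i), h4 ▸ h2⟩
  refine fun p a => ⟨?_, a.1.2⟩
  by_contra c
  obtain ⟨S, d, e⟩ := x1_off a.1.1.1 c
  have b : D.wt (rv p) ≤ 0 - 1 := a.2.resolve_left c
  linarith [D.wt_nonneg (Dat.mem_BB.1 d).1 (Dat.R1_C a.1.1 d e)]

end Pool.Agent.P.MP_9321be_ag.SG
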