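import Pool.Agent.P.MP_9321be_ag.SG.TZIface

/-! Step AI. -/

set_option autoImplicit false
set_option linter.unusedSectionVars false

namespace Pool.Agent.P.MP_9321be_ag.SG

open Finset SM

theorem ai_li {n : ℕ} {ι : Type} (m : MonomialOrder.{0, 0} (Fin n)) (s : Finset ι)
    (P : ι → MvPolynomial (Fin n) ℂ) (a : ι → ℂ) (h0 : ∀ b ∈ s, P b ≠ 0) (ha : ∀ b ∈ s, a b ≠ 0)
    (hi : ∀ b ∈ s, ∀ b' ∈ s, m.degree (P b) = m.degree (P b') → b = b')
    (h : ∑ b ∈ s, a b • P b = 0) : s = ∅ := by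
  by_contra hs
  obtain ⟨b, hb, hm⟩ := s.exists_max_image (fun b => m.toSyn (m.degree (P b)))
    (nonempty_iff_ne_empty.2 hs)
  have h1 := congrArg (MvPolynomial.coeff (m.degree (P b))) h
  rw [MvPolynomial.coeff_sum, sum_eq_single_of_mem b hb fun b' hb' e => by
    rw [MvPolynomial.coeff_smul, m.coeff_eq_zero_of_lt ((hm b' hb').lt_of_ne fun e' =>
      e (hi b' hb' b hb (m.toSyn.injective e'))), smul_zero]] at h1
  rw [MvPolynomial.coeff_smul, MvPolynomial.coeff_zero, smul_eq_zero] at h1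
  exact h1.elim (ha b hb) (m.coeff_degree_ne_zero_iff.2 (h0 b hb))

theorem p_AI :
    S_AI := by
  intro n m S g c hg hl
  rw [algebraicIndependent_iff]
  intro Q hQ
  let N := Q.totalDegree
  have hN : ∀ b ∈ Q.support, ∀ i, b i ≤ N := fun b hb i =>
    (MvPolynomial.monomial_le_degreeOf i hb).trans (MvPolynomial.degreeOf_le_totalDegree Q i)
  let M : S → MvPolynomial (Fin n) ℂ := fun i => MvPolynomial.monomial (c i) 1
  have hM : ∀ i, M i ≠ 0 := fun i => by simp [M]
  have hf : ∀ (b : S →₀ ℕ) (i : S), g i ^ b i * M i ^ (N - b i) ≠ 0 := fun b i =>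
    mul_ne_zero (pow_ne_zero _ (hg i i.2)) (pow_ne_zero _ (hM i))
  let P : (S →₀ ℕ) → MvPolynomial (Fin n) ℂ := fun b => ∏ i : S, g i ^ b i * M i ^ (N - b i)
  have hd : ∀ b k, m.degree (P b) k = ∑ i : S, (b i * m.degree (g i) k + (N - b i) * c i k) := by
    intro b k
    rw [m.degree_prod fun i _ => hf b i, Finsupp.finsetSum_apply]
    refine sum_congr rfl fun i _ => ?_
    rw [m.degree_mul (pow_ne_zero _ (hg i i.2)) (pow_ne_zero _ (hM i)), m.degree_pow,
      m.degree_pow, m.degree_monomial]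
    simp
  rw [← MvPolynomial.support_eq_empty]
  refine ai_li m _ P (fun b => Q.coeff b) (fun b _ => prod_ne_zero_iff.2 fun i _ => hf b i)
    (fun b hb => MvPolynomial.mem_support_iff.1 hb) (fun b hb b' hb' e => ?_) ?_
  · ext i
    have h1 := hl (fun j => if h : j ∈ S then (b ⟨j, h⟩ : ℝ) - b' ⟨j, h⟩ else 0) (fun k => ?_) i i.2
    · rw [dif_pos i.2, sub_eq_zero] at h1
      exact_mod_cast h1
    · have h2 := congrArg (fun d : Fin n →₀ ℕ => (d k : ℝ)) e
      simp only [hd] at h2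
      push_cast at h2
      rw [← sub_eq_zero, ← sum_sub_distrib] at h2
      rw [← h2, ← sum_coe_sort]
      refine sum_congr rfl fun j _ => ?_
      rw [dif_pos j.2, Nat.cast_sub (hN b hb j), Nat.cast_sub (hN b' hb' j)]
      ring
  · apply IsFractionRing.injective (MvPolynomial (Fin n) ℂ) (KK n)
    have h1 := congrArg (· * ∏ i : S, (∏ j, xx n j ^ c i j) ^ N) hQ
    rw [MvPolynomial.aeval_def, MvPolynomial.eval₂_eq', sum_mul, zero_mul] at h1
    rw [map_sum, map_zero, ← h1]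
    refine sum_congr rfl fun b hb => ?_
    rw [Algebra.smul_def, map_mul, ← IsScalarTower.algebraMap_apply, mul_assoc, ← prod_mul_distrib,
      map_prod]
    congr 1
    refine prod_congr rfl fun i _ => ?_
    have h2 : ∏ j, xx n j ^ c i j ≠ 0 := prod_ne_zero_iff.2 fun j _ => pow_ne_zero _ (xx_ne n j)
    rw [map_mul, map_pow, map_pow, map_monomial, map_one, one_mul, div_pow,
      pow_sub₀ _ h2 (hN b hb i)]
    ring

end Pool.Agent.P.MP_9321be_ag.SG
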