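import Pool.Agent.P.MP_9321be_ag.SG.TZDefs

/-!
Common torus zeros and linear programming data: the steps.
-/

set_option autoImplicit false

namespace Pool.Agent.P.MP_9321be_ag.SG

open Finset SM

/-- The field of rational functions. -/
abbrev KK (n : ℕ) : Type := FractionRing (MvPolynomial (Fin n) ℂ)

/-- The coordinates as rational functions. -/
noncomputable def xx (n : ℕ) (j : Fin n) : KK n :=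
  algebraMap (MvPolynomial (Fin n) ℂ) (KK n) (MvPolynomial.X j)

theorem xx_ne (n : ℕ) (j : Fin n) : xx n j ≠ 0 := by
  simp [xx]

theorem map_monomial (n : ℕ) (a : Fin n →₀ ℕ) (c : ℂ) :
    algebraMap (MvPolynomial (Fin n) ℂ) (KK n) (MvPolynomial.monomial a c) =
      algebraMap ℂ (KK n) c * ∏ j, xx n j ^ a j := by
  rw [MvPolynomial.monomial_eq, map_mul, Finsupp.prod_fintype _ _ (by simp), map_prod,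
    IsScalarTower.algebraMap_apply ℂ (MvPolynomial (Fin n) ℂ) (KK n)]
  simp [xx]

-- deps:
def S_LPE : Prop :=
  ∀ (n : ℕ) (X : Finset (Gn n)) (ε : ℚ), (∀ i, ∃ b ∈ X, wv b i ≠ 0) →
    ∃ (μ : Gn n → ℚ) (y : Fin n → ℚ),
      (∀ b ∈ X, ε ≤ μ b ∧ ∑ i, y i * wv b i ≤ 1 ∧ (∑ i, y i * wv b i ≠ 1 → μ b = ε)) ∧
      ∀ i, 0 ≤ y i ∧ 1 ≤ ∑ b ∈ X, μ b * wv b i ∧ (0 < y i ↔ ∑ b ∈ X, μ b * wv b i = 1)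

-- deps:
def S_LIN : Prop :=
  ∀ (n : ℕ) (V : Submodule ℝ (Fin n → ℝ)) (T1 T2 : Finset (Fin n)) (j : Fin n → Fin n)
    (d : Fin n → Fin n → ℝ),
    (∀ l : Fin n → ℝ, (∀ v ∈ V, ∑ i ∈ T1, l i * v (j i) = 0) → ∀ i ∈ T1, l i = 0) →
    (∀ i ∈ T2, d i ∈ V) → (∀ i ∈ T2, ∀ k ∈ T1, d i (j k) = 0) →
    (∀ m : Fin n → ℝ, (∀ k, ∑ i ∈ T2, m i * d i k = 0) → ∀ i ∈ T2, m i = 0) →
    T1.card + T2.card ≤ Module.finrank ℝ V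

-- deps:
def S_POS : Prop :=
  ∀ (n : ℕ) (X sg : Finset (Gn n)) (I T : Finset (Fin n)) (μ ν : Gn n → ℝ) (t : ℝ)
    (j : Fin n → Fin n) (l : Fin n → ℝ), sg ⊆ X → T ⊆ I → (∀ i ∈ T, j i ∉ I) →
    (∀ i ∈ T, ∀ b ∈ sg, wv b (j i) = wv b i) → (∀ i ∈ T, ∃ a ∈ sg, wv a i ≠ 0) →
    (∀ b ∈ X, 0 < ν b) → (∀ i, ∑ b ∈ X, ν b * wv b i = t * ∑ b ∈ sg, (wv b i : ℝ)) →
    (∀ i ∈ I, ∑ b ∈ X, μ b * wv b i = 1) → (∀ i ∉ I, 1 < ∑ b ∈ X, μ b * wv b i) →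
    (∀ i ∈ T, ∀ b ∈ X, wv b i ≠ 0 → wv b i = 1 ∧ ∀ i' ∈ I, i' ≠ i → wv b i' = 0) →
    (∀ i ∈ T, ∀ a ∈ X, ∀ b ∈ X, wv a i ≠ 0 → wv b i ≠ 0 →
      ∑ k ∈ T, l k * ((wv a (j k) : ℝ) - wv b (j k)) = 0) →
    ∀ i ∈ T, l i ≤ 0

-- deps:
def S_RADO : Prop :=
  ∀ (n : ℕ) (S : Finset (Fin n)) (Z : Fin n → Finset (Fin n →₀ ℕ))
    (v : Fin n → (Fin n →₀ ℕ) → Fin n → ℝ),
    (∀ T ⊆ S, T.card ≤ Module.finrank ℝ (Submodule.span ℝ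
      {x : Fin n → ℝ | ∃ i ∈ T, ∃ a ∈ Z i, x = v i a})) →
    ∃ c : Fin n → Fin n →₀ ℕ, (∀ i ∈ S, c i ∈ Z i) ∧
      ∀ l : Fin n → ℝ, (∀ k, ∑ i ∈ S, l i * v i (c i) k = 0) → ∀ i ∈ S, l i = 0

-- deps:
def S_AI : Prop :=
  ∀ (n : ℕ) (m : MonomialOrder.{0, 0} (Fin n)) (S : Finset (Fin n))
    (g : Fin n → MvPolynomial (Fin n) ℂ) (c : Fin n → Fin n →₀ ℕ), (∀ i ∈ S, g i ≠ 0) →
    (∀ l : Fin n → ℝ, (∀ k, ∑ i ∈ S, l i * ((m.degree (g i) k : ℝ) - c i k) = 0) →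
      ∀ i ∈ S, l i = 0) →
    AlgebraicIndependent ℂ fun i : S =>
      algebraMap (MvPolynomial (Fin n) ℂ) (KK n) (g i) / ∏ j, xx n j ^ c i j

-- deps: AI
def S_VAL : Prop :=
  ∀ (n : ℕ) (m : MonomialOrder.{0, 0} (Fin n)) (S : Finset (Fin n))
    (g : Fin n → MvPolynomial (Fin n) ℂ) (c : Fin n → Fin n →₀ ℕ), (∀ i ∈ S, g i ≠ 0) →
    (∀ l : Fin n → ℝ, (∀ k, ∑ i ∈ S, l i * ((m.degree (g i) k : ℝ) - c i k) = 0) →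
      ∀ i ∈ S, l i = 0) →
    ∃ O : ValuationSubring (KK n), (∀ z : ℂ, O.valuation (algebraMap ℂ (KK n) z) ≤ 1) ∧
      ∀ i ∈ S, O.valuation (algebraMap (MvPolynomial (Fin n) ℂ) (KK n) (g i)) <
        O.valuation (∏ j, xx n j ^ c i j)

-- deps:
def S_OM : Prop :=
  ∀ (n : ℕ) (Γ : Type) [LinearOrderedCommGroupWithZero Γ] (γ : Fin n → Γ), (∀ j, γ j ≠ 0) →
    ∀ A : Finset (Fin n →₀ ℕ), ∃ ω : Fin n → ℤ, ∀ a ∈ A, ∀ b ∈ A,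
      ∏ j, γ j ^ a j ≤ ∏ j, γ j ^ b j ↔ ∑ j, ω j * b j ≤ ∑ j, ω j * a j

-- deps:
def S_NZ : Prop :=
  ∀ (n : ℕ) (O : ValuationSubring (KK n)), (∀ z : ℂ, O.valuation (algebraMap ℂ (KK n) z) ≤ 1) →
    ∀ (S : Finset (Fin n)) (P : Fin n → Finset (Fin n →₀ ℕ)) (c : (Fin n →₀ ℕ) → ℂ)
      (s : Fin n → Fin n →₀ ℕ),
    (∀ i ∈ S, ∀ a ∈ P i, O.valuation (∏ j, xx n j ^ a j) = O.valuation (∏ j, xx n j ^ s i j)) →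
    (∀ i ∈ S, O.valuation (∑ a ∈ P i, algebraMap ℂ (KK n) (c a) * ∏ j, xx n j ^ a j) <
      O.valuation (∏ j, xx n j ^ s i j)) →
    ∃ x : Fin n → ℂ, (∀ j, x j ≠ 0) ∧ ∀ i ∈ S, ∑ a ∈ P i, c a * ∏ j, x j ^ a j = 0

-- deps:
def S_FACZ : Prop :=
  ∀ (n : ℕ) (A : Finset (Fin n →₀ ℕ)) (S T : Finset (Fin n)) (Z : Fin n → Finset (Fin n →₀ ℕ))
    (ω μ : Fin n → ℤ) (w : Fin n → ℝ) (b : ℝ), T ⊆ S →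
    (∀ i ∈ S, ∀ a ∈ Z i, a ∈ A ∧ a i = 1 ∧ ∀ i' ∈ S, i' ≠ i → a i' = 0) → (∀ i, 0 < w i) →
    (∀ a ∈ A, b ≤ ∑ i, (a i : ℝ) * w i ∧ (∑ i, (a i : ℝ) * w i = b ↔ ∃ i ∈ S, a ∈ Z i)) →
    (∀ i ∈ S, ∀ a ∈ Z i, μ i ≤ ∑ j, ω j * a j) →
    ∃ w' : Fin n → ℝ, (∀ i, 0 < w' i) ∧ ∀ a ∈ A, b ≤ ∑ i, (a i : ℝ) * w' i ∧
      (∑ i, (a i : ℝ) * w' i = b ↔ ∃ i ∈ T, a ∈ Z i ∧ ∑ j, ω j * a j = μ i)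

-- deps: FACE
def S_JAC : Prop :=
  ∀ (n : ℕ) (f : MvPolynomial (Fin n) ℂ), ND.Nondeg f →
    ∀ (S : Finset (Fin n)) (Z : Fin n → Finset (Fin n →₀ ℕ)) (ω μ : Fin n → ℤ),
    (∀ i ∈ S, ∀ a ∈ Z i, a ∈ f.support ∧ a i = 1 ∧ ∀ i' ∈ S, i' ≠ i → a i' = 0) →
    (∃ (w : Fin n → ℝ) (b : ℝ), (∀ i, 0 < w i) ∧ ∀ a ∈ f.support,
      b ≤ ∑ i, (a i : ℝ) * w i ∧ (∑ i, (a i : ℝ) * w i = b ↔ ∃ i ∈ S, a ∈ Z i)) →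
    (∀ i ∈ S, ∀ a ∈ Z i, μ i ≤ ∑ j, ω j * a j) → (∀ i ∈ S, ∃ a ∈ Z i, ∑ j, ω j * a j = μ i) →
    ∀ x : Fin n → ℂ, (∀ j, x j ≠ 0) →
    ∀ l : Fin n → ℂ, (∀ k, ∑ i ∈ S, l i * ∑ a ∈ Z i with ∑ j, ω j * a j = μ i,
      MvPolynomial.coeff a f * a k * ∏ j, x j ^ a j = 0) → ∀ i ∈ S, l i = 0

-- deps:
def S_OPEN : Prop :=
  ∀ (n : ℕ) (ι : Type) [Fintype ι] (F : (Fin n → ℂ) × ℂ → ι → ℂ) (J : ι → Fin n → ℂ),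
    ContDiff ℂ 1 F → F 0 = 0 →
    (∀ i k, HasDerivAt (fun s : ℂ => F (Pi.single k s, 0) i) (J i k) 0) →
    (∀ l : ι → ℂ, (∀ k, ∑ i, l i * J i k = 0) → ∀ i, l i = 0) →
    ∃ (z : Fin n → ℂ) (t : ℂ), t ≠ 0 ∧ F (z, t) = 0

-- deps: OPEN
def S_LIFT : Prop :=
  ∀ (n : ℕ) (S : Finset (Fin n)) (Z : Fin n → Finset (Fin n →₀ ℕ)) (c : (Fin n →₀ ℕ) → ℂ)
    (ω μ : Fin n → ℤ), (∀ i ∈ S, ∀ a ∈ Z i, μ i ≤ ∑ j, ω j * a j) →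
    ∀ x : Fin n → ℂ, (∀ j, x j ≠ 0) →
    (∀ i ∈ S, ∑ a ∈ Z i with ∑ j, ω j * a j = μ i, c a * ∏ j, x j ^ a j = 0) →
    (∀ l : Fin n → ℂ, (∀ k, ∑ i ∈ S, l i * ∑ a ∈ Z i with ∑ j, ω j * a j = μ i,
      c a * a k * ∏ j, x j ^ a j = 0) → ∀ i ∈ S, l i = 0) →
    ∃ y : Fin n → ℂ, (∀ j, y j ≠ 0) ∧ ∀ i ∈ S, ∑ a ∈ Z i, c a * ∏ j, y j ^ a j = 0

end Pool.Agent.P.MP_9321be_ag.SG
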