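import Pool.Agent.P.MP_9321be_ag.SG.TZIface

/-! Step OM. -/

set_option autoImplicit false
set_option linter.unusedSectionVars false

namespace Pool.Agent.P.MP_9321be_ag.SG

open Finset SM

lemma om_den {κ : Type} [DecidableEq κ] (s : Finset κ) (l : κ → ℚ) :
    ∃ (N : ℕ) (z : κ → ℤ), 0 < N ∧ ∀ k ∈ s, (z k : ℚ) = N * l k := by
  refine ⟨∏ k ∈ s, (l k).den, fun k => (∏ i ∈ s.erase k, (l i).den : ℕ) * (l k).num,
    prod_pos fun k _ => (l k).den_pos, fun k hk => ?_⟩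
  rw [← prod_erase_mul s _ hk, Nat.cast_mul, mul_assoc, Rat.den_mul_eq_num]
  push_cast
  rfl

variable {n : ℕ} {Γ : Type} [LinearOrderedCommGroupWithZero Γ] {γ : Fin n → Γ}

lemma om_sum {κ : Type} {a : Γ} (h : a ≠ 0) (f : κ → ℤ) (s : Finset κ) :
    a ^ ∑ k ∈ s, f k = ∏ k ∈ s, a ^ f k := by
  induction s using Finset.cons_induction with
  | empty => simp
  | cons k s _ ih => rw [sum_cons, prod_cons, zpow_add₀ h, ih]

lemma om_one (h : ∀ j, γ j ≠ 0) (D : Finset (Fin n → ℤ)) (hD : ∀ d ∈ D, ∏ j, γ j ^ d j ≤ 1)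
    (e : Fin n → ℤ) (he : ∏ j, γ j ^ e j < 1) :
    ∃ ω : Fin n → ℚ, (∀ d ∈ D, 0 ≤ ∑ j, ω j * d j) ∧ 0 < ∑ j, ω j * e j := by
  by_contra hn
  push Not at hn
  let φ : (Fin n → ℤ) → (Fin n → ℚ) →ₗ[ℚ] ℚ := fun d => ∑ j, (d j : ℚ) • LinearMap.proj j
  have hφ : ∀ d x, φ d x = ∑ j, x j * d j := fun d x => by simp [φ, mul_comm]
  obtain ⟨l, l0, hl⟩ := ND.CB.farkas D φ (-φ e) fun x hx => by
    simp only [hφ] at hx
    simpa [hφ] using hn x hx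
  obtain ⟨N, z, N0, hz⟩ := om_den D l
  have z0 : ∀ d ∈ D, 0 ≤ z d := fun d hd => by
    have := mul_nonneg (Nat.cast_nonneg (α := ℚ) N) (l0 d)
    rw [← hz d hd] at this
    exact_mod_cast this
  have e1 : ∀ j, e j * N + ∑ d ∈ D, d j * (z d).toNat = 0 := fun j => by
    have := hl (Pi.single j 1)
    simp only [LinearMap.neg_apply, hφ, Pi.single_apply, ite_mul, one_mul, zero_mul, sum_ite_eq',
      mem_univ, if_true] at this
    have k : ((∑ d ∈ D, d j * (z d).toNat : ℤ) : ℚ) = N * ∑ d ∈ D, l d * d j := by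
      rw [mul_sum, Int.cast_sum]
      refine sum_congr rfl fun d hd => ?_
      rw [Int.toNat_of_nonneg (z0 d hd), Int.cast_mul, hz d hd]
      ring
    rw [← this] at k
    apply Int.cast_injective (α := ℚ)
    rw [Int.cast_add, k]
    push_cast
    ring
  have e2 : (∏ j, γ j ^ e j) ^ N * ∏ d ∈ D, (∏ j, γ j ^ d j) ^ (z d).toNat = 1 := by
    simp only [← prod_pow]
    rw [prod_comm, ← prod_mul_distrib]
    refine prod_eq_one fun j _ => ?_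
    simp only [← zpow_natCast, ← zpow_mul]
    rw [← om_sum (h j), ← zpow_add₀ (h j), e1, zpow_zero]
  exact (mul_lt_one_of_lt_of_le (pow_lt_one₀ zero_le he N0.ne')
    (prod_le_one' fun d hd => pow_le_one₀ zero_le (hD d hd))).ne e2

lemma om_all (h : ∀ j, γ j ≠ 0) (D : Finset (Fin n → ℤ)) (hD : ∀ d ∈ D, ∏ j, γ j ^ d j ≤ 1) :
    ∃ ω : Fin n → ℤ, ∀ d ∈ D, 0 ≤ ∑ j, ω j * d j ∧ (∏ j, γ j ^ d j < 1 → 0 < ∑ j, ω j * d j) := by
  have k : ∀ e : Fin n → ℤ, ∃ ω : Fin n → ℚ, (∀ d ∈ D, 0 ≤ ∑ j, ω j * d j) ∧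
      (∏ j, γ j ^ e j < 1 → 0 < ∑ j, ω j * e j) := fun e => by
    by_cases he : ∏ j, γ j ^ e j < 1
    · exact (om_one h D hD e he).imp fun _ k => ⟨k.1, fun _ => k.2⟩
    · exact ⟨0, by simp, fun r => absurd r he⟩
  choose f f1 f2 using k
  obtain ⟨N, z, N0, hz⟩ := om_den univ fun j => ∑ e ∈ D, f e j
  have N1 : (0 : ℚ) < N := by exact_mod_cast N0
  have e : ∀ d : Fin n → ℤ, ((∑ j, z j * d j : ℤ) : ℚ) = N * ∑ e ∈ D, ∑ j, f e j * d j := fun d => by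
    rw [sum_comm, mul_sum, Int.cast_sum]
    refine sum_congr rfl fun j _ => ?_
    rw [Int.cast_mul, hz j (mem_univ j), ← sum_mul, mul_assoc]
  refine ⟨z, fun d hd => ⟨Int.cast_nonneg_iff (R := ℚ) |>.1 ?_, fun r => Int.cast_pos (R := ℚ) |>.1 ?_⟩⟩
  · rw [e]
    exact mul_nonneg N1.le (sum_nonneg fun e _ => f1 e d hd)
  · rw [e]
    exact mul_pos N1 (sum_pos' (fun e _ => f1 e d hd) ⟨d, hd, f2 d r⟩)

theorem p_OM :
    S_OM := by
  intro n Γ _ γ h A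
  have e : ∀ a b : Fin n →₀ ℕ, ∏ j, γ j ^ ((a j : ℤ) - b j) = (∏ j, γ j ^ a j) / ∏ j, γ j ^ b j :=
    fun a b => by simp only [zpow_sub₀ (h _), zpow_natCast, prod_div_distrib]
  have p : ∀ a : Fin n →₀ ℕ, 0 < ∏ j, γ j ^ a j := fun a =>
    zero_lt_iff.2 (prod_ne_zero_iff.2 fun j _ => pow_ne_zero _ (h j))
  obtain ⟨ω, hω⟩ := om_all h ((((A ×ˢ A).image fun z j => (z.1 j : ℤ) - z.2 j)).filter
    fun d => ∏ j, γ j ^ d j ≤ 1) fun d hd => (mem_filter.1 hd).2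
  have k : ∀ a ∈ A, ∀ b ∈ A, ∏ j, γ j ^ a j ≤ ∏ j, γ j ^ b j →
      ∑ j, ω j * b j ≤ ∑ j, ω j * a j ∧
        (∏ j, γ j ^ a j < ∏ j, γ j ^ b j → ∑ j, ω j * b j < ∑ j, ω j * a j) := fun a ha b hb r => by
    have := hω (fun j => (a j : ℤ) - b j) (mem_filter.2 ⟨mem_image.2 ⟨(a, b), mk_mem_product ha hb, rfl⟩,
      by rw [e]; exact (div_le_one₀ (p b)).2 r⟩)
    simpa only [e, div_lt_one₀ (p b), mul_sub, sum_sub_distrib, sub_nonneg, sub_pos] using this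
  exact ⟨ω, fun a ha b hb => ⟨fun r => (k a ha b hb r).1, fun r => not_lt.1 fun q =>
    ((k b hb a ha q.le).2 q).not_ge r⟩⟩

end Pool.Agent.P.MP_9321be_ag.SG
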